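import Pool.Agent.Run7.h707.TC.Crit2
import Pool.Agent.N883.FF.End

/-! The criterion: points and the Tate-Shafarevich group of the twists by cubes -/

set_option autoImplicit false
set_option linter.unusedVariables false
set_option linter.unusedSectionVars false

open scoped Classical

namespace Run7.h707.TC

open NumberField IsDedekindDomain WeierstrassCurve WithZero
open Pool.Agent.Y692.QS (Ei w nr toC)
open Pool.Agent.Y715.T.Rec (cs nn)
open Pool.Agent.Y715.T.RecG (Pq)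
open Pool.Agent.Y703.CT
open Pool.Agent.Y715.T.Gi Pool.Agent.Y715.T.Nr Pool.Agent.Y715.T.Df Pool.Agent.Y715.T.Ell
open Pool.Agent.TH841.NF.D (Sha)
open Pool.Agent.Y696.CTK
open Pool.Agent.Y696.CTE
open Pool.Agent.R419.CE (tw_div)
open Pool.Agent.N883.FF (pB KerB pB_ne a_neB partsB PartsB isUnit_w)

section
variable {K : Type} [Field K] [NumberField K] (j : Ei ≃+* 𝓞 K)
variable {J : Type} [Fintype J] [Nonempty J] {π : J → Ei} {e : J → ZMod 3} {i : ZMod 3}

/-- the criterion with a unit, for a twist by a cube -/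
theorem tri_B3 (hD : Dt π e) (hi : i ≠ 0) {c : Ei} (hc : c ≠ 0) :
    Tri (j (pB π e i * c ^ 3)) ↔ KerB π e i := by
  have hne0 : pB π e i ≠ 0 := pB_ne hD
  have hne : pB π e i * c ^ 3 ≠ 0 := mul_ne_zero hne0 (pow_ne_zero 3 hc)
  have B := partsB
  constructor
  · rintro ⟨h1, h2⟩
    by_contra hk
    obtain ⟨e', i₀, hi', u, a, Ψ, g, hdata⟩ := parts.trf K j _ hne
    have hT := hdata.1
    have hT' := tw_div hc hT
    have ha := a_neB hD hT'
    have hM := parts.mwc K j _ hne e' i₀ hi' u a Ψ g hdata ha h1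
    have hS := parts.shc parts.plc K j _ hne e' i₀ hi' u a Ψ g hdata h2
    have hsel := Pool.Agent.H70CT.t_SHC _ hne i₀ hi' u a hT ha hS hM
    exact B.selc Pool.Agent.Y319.CT.t_FF Pool.Agent.Y379.CT.t_CUB
      B.cub3 Pool.Agent.Y674.CT.t_PT B.ramc J π e i hD hi hk i₀ hi' _ a hT' hsel
  · intro hk
    have key : ∀ (i₀ : QB) (hi : i₀ ^ 2 + i₀ + 1 = 0) (u : QB) (a : GK i₀ → ZMod 3),
        Tw hi (pB π e i * c ^ 3) u a → ShK hi a ∧ MwK hi a := fun i₀ hi' u a hT => by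
      have hT' := tw_div hc hT
      have hs := B.sel B.loc3 B.ram B.unr J π _ _ hD hi hk i₀ hi' _ a hT'
      exact ⟨Pool.Agent.Y155.CT.t_SHK _ hne0 i₀ hi' _ a hT' hs,
        Pool.Agent.Y155.CT.t_MWK _ hne0 i₀ hi' _ a hT' (a_neB hD hT') hs⟩
    exact ⟨(parts.mwt parts.trf K j _ hne fun i₀ hi u a hT => (key i₀ hi u a hT).2).1,
      parts.sht parts.trf K j _ hne fun i₀ hi u a hT => (key i₀ hi u a hT).1⟩

/-- the criterion without unit, for a twist by a cube -/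
theorem tri_A3 (hD : Dt π e) (h9 : ¬ (9 : ℤ) ∣ nr (pD π e) - 1) {c : Ei} (hc : c ≠ 0) :
    Tri (j (pD π e * c ^ 3)) ↔ Ker π e := by
  have hne0 : pD π e ≠ 0 := Pool.Agent.Y153.CTRAM.ne_zero_of hD
  have hne : pD π e * c ^ 3 ≠ 0 := mul_ne_zero hne0 (pow_ne_zero 3 hc)
  constructor
  · rintro ⟨h1, h2⟩
    by_contra hk
    obtain ⟨e', i₀, hi', u, a, Ψ, g, hdata⟩ := parts.trf K j _ hne
    have hT := hdata.1
    have hT' := tw_div hc hT
    have ha := Pool.Agent.R395.CT.a_ne hD hT'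
    have hM := parts.mwc K j _ hne e' i₀ hi' u a Ψ g hdata ha h1
    have hS := parts.shc parts.plc K j _ hne e' i₀ hi' u a Ψ g hdata h2
    have hsel := Pool.Agent.H70CT.t_SHC _ hne i₀ hi' u a hT ha hS hM
    exact Pool.Agent.Y363.CT.SELC.t_SELC Pool.Agent.Y319.CT.t_FF Pool.Agent.Y379.CT.t_CUB
      Pool.Agent.Y100.CT.CUB3.t_cub3 Pool.Agent.Y674.CT.t_PT Pool.Agent.Y379.CT.t_RAMC J π _ hD hk
      h9 i₀ hi' _ a hT' hsel
  · intro hk
    have key : ∀ (i₀ : QB) (hi : i₀ ^ 2 + i₀ + 1 = 0) (u : QB) (a : GK i₀ → ZMod 3),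
        Tw hi (pD π e * c ^ 3) u a → ShK hi a ∧ MwK hi a := fun i₀ hi' u a hT => by
      exact Pool.Agent.R395.CT.descK hD hk h9 (tw_div hc hT)
    exact ⟨(parts.mwt parts.trf K j _ hne fun i₀ hi u a hT => (key i₀ hi u a hT).2).1,
      parts.sht parts.trf K j _ hne fun i₀ hi u a hT => (key i₀ hi u a hT).1⟩

end

end Run7.h707.TC
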