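import Pool.Agent.Run7.h707.TC.Crit4
import Pool.Agent.Q283.T3.Cst
import Pool.Agent.Y703.XL.Fin

/-! The law for the tuples of elements -/

set_option autoImplicit false
set_option linter.unusedVariables false
set_option linter.unusedSectionVars false

open scoped Classical

namespace Run7.h707.TC

open Finset Filter
open NumberField
open Pool.Agent.Y692.QS (Ei w nr)
open Pool.Agent.Y715.T.RecG (Pq)
open Pool.Agent.Y433.XK (pN pN_pos)
open Pool.Agent.Y703.XK (c9 S_LOW SS S_EQ S_BIL)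
open Pool.Agent.R419.KF (SG mem_SG SG_card wt_one)
open Pool.Agent.Y696.CTK (Tri)
open Q283.T3 (gi cf)

theorem c_val : gi * cf 0 = c9 := by
  rw [Q283.T3.c_eq Pool.Agent.Y703.XL.t_LIM 0, Pool.Agent.Y275.XL.cr_zero]

theorem sg_low : ∃ (c : ℝ) (X₀ : ℕ), 0 < c ∧ ∀ X : ℕ, X₀ ≤ X → c * X ≤ ((SG X).card : ℝ) := by
  obtain ⟨c, X₀, hc, h⟩ := Pool.Agent.Y550.XK.NS.t_LOW
  refine ⟨c, X₀, hc, fun X hX => (h X hX).trans ?_⟩
  have h1 := card_le_card (Pool.Agent.N883.FF.Tot.ss_sub X)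
  have h2 : ((Pool.Agent.N883.FF.SU ∅ X).card : ℝ) ≤ ((SG X).card : ℝ) := by
    rw [← sg_su]
    exact_mod_cast card_filter_le _ _
  exact le_trans (by exact_mod_cast h1) h2

/-- the tuples with an empty support are determined by all but one component -/
theorem few_empty {m : ℕ} (k₀ : Fin m) (n : Fin m → ℕ) (hn : ∀ k, (n k : ZMod 3) ≠ 0) (X : ℕ) :
    (((Fintype.piFinset fun _ : Fin m => SG X).filter fun S =>
      ¬ (Uu (Tt S) (eT n (fun _ => ∅) S)).Nonempty).card : ℝ) ≤ (16 * X) ^ (m - 1) := by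
  set F := (Fintype.piFinset fun _ : Fin m => SG X).filter fun S =>
      ¬ (Uu (Tt S) (eT n (fun _ => ∅) S)).Nonempty with hF
  have hz : ∀ S ∈ F, ∀ π, eT n (fun _ => ∅) S π = 0 := by
    intro S hS π
    have h := (mem_filter.1 hS).2
    rw [not_nonempty_iff_eq_empty] at h
    by_contra hne
    by_cases hT : π ∈ Tt S
    · have : π ∈ Uu (Tt S) (eT n (fun _ => ∅) S) := mem_filter.2 ⟨hT, hne⟩
      rw [h] at this
      exact notMem_empty _ this
    · apply hne
      unfold eT ee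
      refine Finset.sum_eq_zero fun k _ => ?_
      rw [if_neg (fun h => hT (mem_Tt.2 ⟨k, h⟩)), mul_zero]
  have hsum : ∀ S : Fin m → Finset Ei, ∀ π, eT n (fun _ => ∅) S π =
      (n k₀ : ZMod 3) * (if π ∈ S k₀ then 1 else 0) +
        ∑ k ∈ univ.erase k₀, (n k : ZMod 3) * (if π ∈ S k then 1 else 0) := by
    intro S π
    unfold eT ee
    rw [← Finset.add_sum_erase univ _ (mem_univ k₀)]
    have h1 : ∀ k, (if π ∈ S k then Pool.Agent.R419.KF.wt ∅ π else 0) =
        (if π ∈ S k then (1 : ZMod 3) else 0) := fun k => by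
      rw [wt_one (notMem_empty _)]
    simp only [h1]
  have hinj : Set.InjOn (fun S : Fin m → Finset Ei => Function.update S k₀ ∅)
      (F : Set (Fin m → Finset Ei)) := by
    intro S hS S' hS' h
    have hk : ∀ k, k ≠ k₀ → S k = S' k := fun k hk => by
      have := congrFun h k
      simpa [Function.update_of_ne hk] using this
    funext k
    by_cases hkk : k = k₀
    · subst hkk
      ext π
      have h1 := hz S hS π
      have h2 := hz S' hS' π
      rw [hsum] at h1 h2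
      have h3 : ∑ l ∈ univ.erase k, (n l : ZMod 3) * (if π ∈ S l then 1 else 0) =
          ∑ l ∈ univ.erase k, (n l : ZMod 3) * (if π ∈ S' l then 1 else 0) :=
        Finset.sum_congr rfl fun l hl => by rw [hk l (ne_of_mem_erase hl)]
      rw [h3] at h1
      have h4 : (n k : ZMod 3) * (if π ∈ S k then 1 else 0) =
          (n k : ZMod 3) * (if π ∈ S' k then 1 else 0) := by
        linear_combination h1 - h2
      have h5 := mul_left_cancel₀ (hn k) h4
      by_cases a : π ∈ S k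
      · rw [if_pos a] at h5
        by_cases b : π ∈ S' k
        · exact ⟨fun _ => b, fun _ => a⟩
        · rw [if_neg b] at h5
          exact absurd h5 one_ne_zero
      · rw [if_neg a] at h5
        by_cases b : π ∈ S' k
        · rw [if_pos b] at h5
          exact absurd h5.symm one_ne_zero
        · exact ⟨fun h => absurd h a, fun h => absurd h b⟩
    · exact hk k hkk
  rw [← card_image_of_injOn hinj]
  have h2 := ev1 k₀ X {∅} (F.image fun S : Fin m → Finset Ei => Function.update S k₀ ∅)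
    (fun S hS => by
      rw [mem_image] at hS
      obtain ⟨S', hS', rfl⟩ := hS
      have h3 := Fintype.mem_piFinset.1 (mem_filter.1 hS').1
      refine ⟨fun l => ?_, ?_⟩
      · by_cases hl : l = k₀
        · rw [hl, Function.update_self, mem_SG]
          refine ⟨fun q hq => absurd hq (notMem_empty _), ?_⟩
          rw [prod_empty]
          have h4 := (mem_SG.1 (h3 k₀)).2
          exact (Pool.Agent.R419.KF.prod_ppos (mem_SG.1 (h3 k₀)).1).trans_le h4
        · rw [Function.update_of_ne hl]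
          exact h3 l
      · rw [Function.update_self]
        exact mem_singleton_self _)
  rw [card_singleton, Nat.cast_one, one_mul] at h2
  exact h2

theorem CT_congr {m : ℕ} {Q Q' : (Fin m → Finset Ei) → (Fin m → Finset Ei) → Prop} {X : ℕ}
    (h : ∀ M, ∀ S ∈ TP M (YM X M), (Q M S ↔ Q' M S)) : CT Q X = CT Q' X := by
  unfold CT
  refine Finset.sum_congr rfl fun M _ => ?_
  exact congrArg card (filter_congr fun S hS => h M S hS)

theorem CT_single {m : ℕ} (Q : (Fin m → Finset Ei) → (Fin m → Finset Ei) → Prop) {X : ℕ}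
    {E : Fin m → Finset Ei} (hE : ∀ k, E k ∈ SG X) (F : Finset (Fin m → Finset Ei))
    (hF : ∀ S ∈ F, S ∈ TP E (YM X E) ∧ Q E S) : F.card ≤ CT Q X := by
  unfold CT
  have h1 : F ⊆ (TP E (YM X E)).filter (Q E) := fun S hS => mem_filter.2 (hF S hS)
  exact (card_le_card h1).trans (Finset.single_le_sum
    (f := fun M => ((TP M (YM X M)).filter (Q M)).card) (fun _ _ => Nat.zero_le _)
    (Fintype.mem_piFinset.2 hE))

section
variable {m Mt : ℕ} (n : Fin Mt → Fin m → ℕ)

/-- the number of the tuples without exceptional `δ` -/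
noncomputable def NT (X : ℕ) : ℕ :=
  {a : Fin m → Ei | (∀ k, nr (a k) ≤ X ∧ FamU (a k)) ∧ ∀ t, NEc (dlt (n t) a)}.ncard

theorem NT_eq (X : ℕ) : NT n X = ∑ i : Fin m → ZMod 3,
    CT (fun M S => ∀ t, NEc (dlt (n t) fun k => elw (i k) (M k) (S k))) X :=
  cnt_eq m X fun a => ∀ t, NEc (dlt (n t) a)

/-- there are many tuples -/
theorem NT_low (k₀ : Fin m) (hn : ∀ t k, (n t k : ZMod 3) ≠ 0) : ∃ (c : ℝ) (X₀ : ℕ), 0 < c ∧
    ∀ X : ℕ, X₀ ≤ X → c * (X : ℝ) ^ m ≤ (NT n X : ℝ) := by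
  obtain ⟨c, X₀, hc, h⟩ := sg_low
  have hm : m - 1 + 1 = m := by have := k₀.2; omega
  obtain ⟨N, hN⟩ := exists_nat_ge (2 * (Mt * 16 ^ (m - 1)) / c ^ m)
  refine ⟨c ^ m / 2, max (max X₀ N) 1, by positivity, fun X hX => ?_⟩
  have hX0 : X₀ ≤ X := ((le_max_left _ _).trans (le_max_left _ _)).trans hX
  have hXN : N ≤ X := ((le_max_right _ _).trans (le_max_left _ _)).trans hX
  have hX1 : 1 ≤ X := (le_max_right _ _).trans hX
  have hlow := h X hX0
  have hXr : (0 : ℝ) < X := by exact_mod_cast hX1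
  -- the term of one unit and of the empty sets
  set i₁ : Fin m → ZMod 3 := fun k => if k = k₀ then 1 else 0 with hi₁
  set P : (Fin m → Finset Ei) → (Fin m → Finset Ei) → Prop := fun M S =>
    ∀ t, NEc (dlt (n t) fun k => elw (i₁ k) (M k) (S k)) with hP
  set E : Fin m → Finset Ei := fun _ => ∅ with hE
  have h1 : ((TP E (YM X E)).filter (P E)).card ≤ NT n X := by
    rw [NT_eq]
    refine le_trans ?_ (Finset.single_le_sum (f := fun i : Fin m → ZMod 3 =>
      CT (fun M S => ∀ t, NEc (dlt (n t) fun k => elw (i k) (M k) (S k))) X)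
      (fun _ _ => Nat.zero_le _) (mem_univ i₁))
    exact CT_single P (fun k => Pool.Agent.R419.KF.sg_empty hX1) _ fun S hS => mem_filter.1 hS
  set PI := Fintype.piFinset fun _ : Fin m => SG X with hPI
  have hYM : ∀ k, YM X E k = X := fun k => by
    show X / pN ∅ = X
    unfold pN
    rw [prod_empty, Nat.div_one]
  have h2 : PI \ (univ.biUnion fun t => PI.filter fun S =>
      ¬ (Uu (Tt S) (eT (n t) (fun _ => ∅) S)).Nonempty) ⊆ (TP E (YM X E)).filter (P E) := by
    intro S hS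
    rw [Finset.mem_sdiff, mem_biUnion] at hS
    obtain ⟨h3, h4⟩ := hS
    have h5 := Fintype.mem_piFinset.1 h3
    have hSq : ∀ k, ∀ q ∈ S k, Pq q := fun k => (mem_SG.1 (h5 k)).1
    rw [mem_filter, mem_TP]
    refine ⟨fun k => ⟨hSq k, ?_, empty_subset _⟩, fun t => ?_⟩
    · rw [hYM]
      exact (mem_SG.1 (h5 k)).2
    · refine (nec_iff (fun k => empty_subset _) hSq).2 ⟨?_, fun h6 => ?_⟩
      · by_contra h7
        exact h4 ⟨t, mem_univ _, mem_filter.2 ⟨h3, h7⟩⟩
      · have h7 := h6.1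
        rw [Finset.sum_eq_single k₀] at h7
        · rw [hi₁] at h7
          simp only [if_true, mul_one] at h7
          exact hn t k₀ h7
        · intro k _ hk
          rw [hi₁]
          simp only [if_neg hk, mul_zero]
        · intro h
          exact absurd (mem_univ _) h
  have h3 : ((univ.biUnion fun t => PI.filter fun S =>
      ¬ (Uu (Tt S) (eT (n t) (fun _ => ∅) S)).Nonempty).card : ℝ) ≤
      Mt * (16 * X) ^ (m - 1) := by
    calc _ ≤ ∑ t : Fin Mt, ((PI.filter fun S =>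
          ¬ (Uu (Tt S) (eT (n t) (fun _ => ∅) S)).Nonempty).card : ℝ) := by
          exact_mod_cast card_biUnion_le
      _ ≤ ∑ _t : Fin Mt, (16 * X : ℝ) ^ (m - 1) :=
          sum_le_sum fun t _ => few_empty k₀ (n t) (hn t) X
      _ = _ := by rw [sum_const, card_univ, Fintype.card_fin, nsmul_eq_mul]
  have h4 : (c * X) ^ m ≤ (PI.card : ℝ) := by
    rw [hPI, Fintype.card_piFinset]
    push_cast
    calc (c * X) ^ m = ∏ _k : Fin m, (c * X) := by rw [prod_const, card_univ, Fintype.card_fin]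
      _ ≤ _ := prod_le_prod (fun _ _ => by positivity) fun _ _ => hlow
  have h5 : (PI.card : ℝ) ≤ ((TP E (YM X E)).filter (P E)).card +
      ((univ.biUnion fun t => PI.filter fun S =>
      ¬ (Uu (Tt S) (eT (n t) (fun _ => ∅) S)).Nonempty).card : ℝ) := by
    have h6 := card_le_card h2
    have h7 := Finset.le_card_sdiff (univ.biUnion fun t => PI.filter fun S =>
      ¬ (Uu (Tt S) (eT (n t) (fun _ => ∅) S)).Nonempty) PI
    have h8 : PI.card ≤ ((TP E (YM X E)).filter (P E)).card +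
      (univ.biUnion fun t => PI.filter fun S =>
      ¬ (Uu (Tt S) (eT (n t) (fun _ => ∅) S)).Nonempty).card := by omega
    exact_mod_cast h8
  have h6 : (((TP E (YM X E)).filter (P E)).card : ℝ) ≤ (NT n X : ℝ) := by exact_mod_cast h1
  have h7 : (Mt : ℝ) * (16 * X) ^ (m - 1) ≤ c ^ m / 2 * (X : ℝ) ^ m := by
    have h8 : 2 * (Mt * 16 ^ (m - 1)) / c ^ m ≤ (X : ℝ) := hN.trans (by exact_mod_cast hXN)
    rw [div_le_iff₀ (by positivity)] at h8
    have h9 : (X : ℝ) ^ m = (X : ℝ) ^ (m - 1) * X := by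
      conv_lhs => rw [← hm]
      rw [pow_succ]
    rw [mul_pow, h9]
    have h10 : (0 : ℝ) ≤ (X : ℝ) ^ (m - 1) := by positivity
    nlinarith
  rw [mul_pow] at h4
  linarith

/-- **The law.** -/
theorem lawT {K : Type} [Field K] [NumberField K] (j : Ei ≃+* 𝓞 K) (k₀ : Fin m)
    (hn : ∀ t k, (n t k : ZMod 3) ≠ 0)
    (hsep : ∀ t t', t ≠ t' → ∃ k, (n t k : ZMod 3) * (n t k₀ : ZMod 3) ≠
      (n t' k : ZMod 3) * (n t' k₀ : ZMod 3)) :
    Tendsto (fun X : ℕ => ({a : Fin m → Ei | (∀ k, nr (a k) ≤ X ∧ FamU (a k)) ∧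
      (∀ t, NEc (dlt (n t) a)) ∧ ∀ t, Tri (j (dlt (n t) a))}.ncard : ℝ) / (NT n X : ℝ)) atTop
      (nhds (c9 ^ Mt)) := by
  obtain ⟨c, X₀, hc, hlow⟩ := NT_low n k₀ hn
  rw [Metric.tendsto_nhds]
  intro ε hε
  have hg : (∏ _t : Fin Mt, gi * cf 0) = c9 ^ Mt := by
    rw [prod_const, card_univ, Fintype.card_fin, c_val]
  -- the errors
  have herr : ∀ i : Fin m → ZMod 3, ∀ᶠ X : ℕ in atTop,
      |(CT (fun M S => (∀ t, NEc (dlt (n t) fun k => elw (i k) (M k) (S k))) ∧
        GT M (fun t k => (n t k : ZMod 3)) (fun t => ∑ k, (n t k : ZMod 3) * i k)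
          (fun _ => 0) S) X : ℝ) -
        c9 ^ Mt * (CT (fun M S => ∀ t, NEc (dlt (n t) fun k => elw (i k) (M k) (S k))) X : ℝ)| ≤
      (c * ε / (2 * 3 ^ m)) * (X : ℝ) ^ m := by
    intro i
    have h := errT Pool.Agent.Y363.XK.t_BIL Pool.Agent.Y710.XK.t_EQ k₀
      (fun t k => (n t k : ZMod 3)) hn hsep (fun t => ∑ k, (n t k : ZMod 3) * i k) (fun _ => 0)
      (fun M S => ∀ t, NEc (dlt (n t) fun k => elw (i k) (M k) (S k)))
      (fun M => kyp_nec n hn i M) (c * ε / (2 * 3 ^ m)) (by positivity)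
    rw [hg] at h
    exact h
  filter_upwards [eventually_all.2 herr, eventually_ge_atTop (max X₀ 1)] with X hX hX0
  have hlo := hlow X ((le_max_left _ _).trans hX0)
  have hX1 : (0 : ℝ) < X := by exact_mod_cast (le_max_right _ _).trans hX0
  have hN : (0 : ℝ) < NT n X := lt_of_lt_of_le (by positivity) hlo
  have e1 : {a : Fin m → Ei | (∀ k, nr (a k) ≤ X ∧ FamU (a k)) ∧
      (∀ t, NEc (dlt (n t) a)) ∧ ∀ t, Tri (j (dlt (n t) a))}.ncard =
      ∑ i : Fin m → ZMod 3,
        CT (fun M S => (∀ t, NEc (dlt (n t) fun k => elw (i k) (M k) (S k))) ∧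
        GT M (fun t k => (n t k : ZMod 3)) (fun t => ∑ k, (n t k : ZMod 3) * i k)
          (fun _ => 0) S) X := by
    rw [cnt_eq m X fun a => (∀ t, NEc (dlt (n t) a)) ∧ ∀ t, Tri (j (dlt (n t) a))]
    refine Finset.sum_congr rfl fun i _ => ?_
    refine CT_congr fun M S hS => ?_
    rw [mem_TP] at hS
    refine and_congr_right fun hne => ?_
    exact (gt_iff j n i (fun k => (hS k).2.2) (fun k => (hS k).1) hne).symm
  rw [Real.dist_eq]
  have e3 : ({a : Fin m → Ei | (∀ k, nr (a k) ≤ X ∧ FamU (a k)) ∧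
      (∀ t, NEc (dlt (n t) a)) ∧ ∀ t, Tri (j (dlt (n t) a))}.ncard : ℝ) / (NT n X : ℝ) -
      c9 ^ Mt = (({a : Fin m → Ei | (∀ k, nr (a k) ≤ X ∧ FamU (a k)) ∧
      (∀ t, NEc (dlt (n t) a)) ∧ ∀ t, Tri (j (dlt (n t) a))}.ncard : ℝ) -
        c9 ^ Mt * (NT n X : ℝ)) / (NT n X : ℝ) := by
    field_simp
  rw [e3, abs_div, abs_of_pos hN, div_lt_iff₀ hN, e1, NT_eq]
  push_cast
  rw [Finset.mul_sum, ← Finset.sum_sub_distrib]
  refine lt_of_le_of_lt ((Finset.abs_sum_le_sum_abs _ _).trans (Finset.sum_le_sum fun i _ => hX i)) ?_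
  rw [Finset.sum_const, Finset.card_univ, Fintype.card_fun, ZMod.card, Fintype.card_fin,
    nsmul_eq_mul]
  push_cast
  have e4 : (3 : ℝ) ^ m * (c * ε / (2 * 3 ^ m) * (X : ℝ) ^ m) = ε / 2 * (c * (X : ℝ) ^ m) := by
    field_simp
  rw [e4]
  have e5 : (NT n X : ℝ) = ∑ i : Fin m → ZMod 3,
    (CT (fun M S => ∀ t, NEc (dlt (n t) fun k => elw (i k) (M k) (S k))) X : ℝ) := by
    rw [NT_eq]
    push_cast
    rfl
  rw [← e5]
  calc ε / 2 * (c * (X : ℝ) ^ m) ≤ ε / 2 * (NT n X : ℝ) := by gcongr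
    _ < ε * (NT n X : ℝ) := by
      apply mul_lt_mul_of_pos_right _ hN
      linarith

end

end Run7.h707.TC
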