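import Pool.Agent.Run7.h707.TC.LfT2
import Pool.Agent.Run7.h707.TC.Law
import Pool.Agent.Y455.CTK.JEX

/-! The final statements over the ring of integers of `ℚ(√-3)` -/

set_option autoImplicit false
set_option linter.unusedSectionVars false
set_option linter.unusedVariables false

open scoped Classical

namespace Run7.h707.TC

open Finset Filter NumberField IsDedekindDomain
open Pool.Agent.N883.FG
open Pool.Agent.N883.FF (isUnit_w cube_one)
open Pool.Agent.Y692.QS (Ei w nr)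
open Pool.Agent.Y703.XK (c9)
open Pool.Agent.Y696.CTK (Tri)
open Pool.Agent.N883.DQ (Dt)

/-! ### The sets of indices -/

theorem z3 : ∀ a b : ZMod 3, (a = 2 ∨ a = 1) → (b = 2 ∨ b = 1) → a * b = 1 → a = b := by decide

theorem nT_cases {c : ℕ} (T : Finset (Fin (2 * c + 3))) (k : Fin (2 * c + 3)) :
    (nT T k : ZMod 3) = 2 ∧ k ∈ T ∨ (nT T k : ZMod 3) = 1 ∧ k ∉ T := by
  unfold nT
  split_ifs with h
  · exact Or.inl ⟨rfl, h⟩
  · exact Or.inr ⟨by norm_num, h⟩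

theorem nT_ne {c : ℕ} (T : Finset (Fin (2 * c + 3))) (k : Fin (2 * c + 3)) :
    (nT T k : ZMod 3) ≠ 0 := by
  rcases nT_cases T k with ⟨h, -⟩ | ⟨h, -⟩ <;> rw [h] <;> decide

theorem nT_sep {c : ℕ} {T T' : Finset (Fin (2 * c + 3))} (hT : T ∈ SS c) (hT' : T' ∈ SS c)
    (hne : T ≠ T') (k₀ : Fin (2 * c + 3)) : ∃ k, (nT T k : ZMod 3) * (nT T k₀ : ZMod 3) ≠
      (nT T' k : ZMod 3) * (nT T' k₀ : ZMod 3) := by
  by_contra hcon
  push Not at hcon
  have h21 : (2 : ZMod 3) ≠ 1 := by decide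
  have h22 : (2 : ZMod 3) * 2 = 1 := by decide
  -- the signs at `k₀`
  by_cases h0 : (k₀ ∈ T ↔ k₀ ∈ T')
  · apply hne
    ext k
    have h := hcon k
    have e : (nT T k₀ : ZMod 3) = (nT T' k₀ : ZMod 3) := by
      rcases nT_cases T k₀ with ⟨a1, a2⟩ | ⟨a1, a2⟩ <;>
        rcases nT_cases T' k₀ with ⟨b1, b2⟩ | ⟨b1, b2⟩
      · rw [a1, b1]
      · exact absurd (h0.1 a2) b2
      · exact absurd (h0.2 b2) a2
      · rw [a1, b1]
    rw [e] at h
    have h2 := mul_right_cancel₀ (nT_ne T' k₀) h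
    rcases nT_cases T k with ⟨a1, a2⟩ | ⟨a1, a2⟩ <;>
      rcases nT_cases T' k with ⟨b1, b2⟩ | ⟨b1, b2⟩
    · exact ⟨fun _ => b2, fun _ => a2⟩
    · rw [a1, b1] at h2
      exact absurd h2 h21
    · rw [a1, b1] at h2
      exact absurd h2.symm h21
    · exact ⟨fun h => absurd h a2, fun h => absurd h b2⟩
  · have hcompl : T' = Tᶜ := by
      ext k
      rw [mem_compl]
      have h := hcon k
      have key : ∀ a b c d : ZMod 3, a * b = c * d → (b = 2 ∧ d = 1 ∨ b = 1 ∧ d = 2) →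
          ¬ (a = 2 ∧ c = 2) ∧ ¬ (a = 1 ∧ c = 1) := by decide
      have hbd : (nT T k₀ : ZMod 3) = 2 ∧ (nT T' k₀ : ZMod 3) = 1 ∨
          (nT T k₀ : ZMod 3) = 1 ∧ (nT T' k₀ : ZMod 3) = 2 := by
        rcases nT_cases T k₀ with ⟨a1, a2⟩ | ⟨a1, a2⟩ <;>
          rcases nT_cases T' k₀ with ⟨b1, b2⟩ | ⟨b1, b2⟩
        · exact absurd ⟨fun _ => b2, fun _ => a2⟩ h0
        · exact Or.inl ⟨a1, b1⟩
        · exact Or.inr ⟨a1, b1⟩
        · exact absurd ⟨fun h => absurd h a2, fun h => absurd h b2⟩ h0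
      obtain ⟨k1, k2⟩ := key _ _ _ _ h hbd
      rcases nT_cases T k with ⟨a1, a2⟩ | ⟨a1, a2⟩ <;>
        rcases nT_cases T' k with ⟨b1, b2⟩ | ⟨b1, b2⟩
      · exact (k1 ⟨a1, b1⟩).elim
      · exact ⟨fun h => absurd h b2, fun h => absurd a2 h⟩
      · exact ⟨fun _ => a2, fun _ => b2⟩
      · exact (k2 ⟨a1, b1⟩).elim
    have h1 := mem_SS.1 hT
    have h2 := mem_SS.1 hT'
    rw [hcompl, card_compl, h1, Fintype.card_fin] at h2
    omega

/-! ### The definitions over `𝓞 K` -/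

section
variable {K : Type} [Field K] [NumberField K]

/-- cube-free and congruent to a third root of unity modulo `3` -/
def FamO (a : 𝓞 K) : Prop :=
  (∀ x : 𝓞 K, x ^ 3 ∣ a → IsUnit x) ∧ ∃ ω : 𝓞 K, ω ^ 3 = 1 ∧ (3 : 𝓞 K) ∣ a - ω

/-- a unit times a cube, or in the exceptional class -/
def ExO (δ : 𝓞 K) : Prop :=
  (∃ u x : 𝓞 K, IsUnit u ∧ δ = u * x ^ 3) ∨
    ((3 : 𝓞 K) ∣ δ - 1 ∧ (9 : ℤ) ∣ Algebra.norm ℤ δ - 1)

variable (j : Ei ≃+* 𝓞 K)

theorem famO_iff (a : Ei) : FamO (j a) ↔ FamU a := by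
  unfold FamO FamU
  refine and_congr ?_ ?_
  · constructor
    · intro h x hx
      have h1 := h (j x) (by rw [← map_pow]; exact map_dvd j hx)
      exact (MulEquiv.isUnit_map j).1 h1
    · intro h x hx
      obtain ⟨y, rfl⟩ := j.surjective x
      rw [← map_pow, map_dvd_iff j] at hx
      exact (h y hx).map j
  · constructor
    · rintro ⟨ω, h1, h2⟩
      obtain ⟨y, rfl⟩ := j.surjective ω
      have h3 : y ^ 3 = 1 := by
        apply j.injective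
        rw [map_pow, h1, map_one]
      obtain ⟨i, rfl⟩ := cube_one h3
      refine ⟨i, ?_⟩
      rw [← map_sub, ← map_ofNat j 3, map_dvd_iff j] at h2
      exact h2
    · rintro ⟨i, h⟩
      refine ⟨j (w ^ i.val), ?_, ?_⟩
      · rw [← map_pow, ← pow_mul, mul_comm, pow_mul, w_cube, one_pow, map_one]
      · rw [← map_sub, ← map_ofNat j 3, map_dvd_iff j]
        exact h

theorem exO_iff (hj : ∀ z : Ei, Algebra.norm ℤ (j z) = nr z) (x : Ei) :
    ¬ ExO (j x) ↔ NEc x := by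
  unfold ExO NEc UC
  rw [not_or]
  refine and_congr (not_congr ?_) (not_congr ?_)
  · constructor
    · rintro ⟨u, y, hu, h⟩
      obtain ⟨u, rfl⟩ := j.surjective u
      obtain ⟨y, rfl⟩ := j.surjective y
      refine ⟨u, y, (MulEquiv.isUnit_map j).1 hu, ?_⟩
      apply j.injective
      rw [map_mul, map_pow]
      exact h
    · rintro ⟨u, y, hu, h⟩
      exact ⟨j u, j y, hu.map j, by rw [h, map_mul, map_pow]⟩
  · have e1 : (3 : 𝓞 K) ∣ j x - 1 ↔ (3 : Ei) ∣ x - 1 := by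
      have : j x - 1 = j (x - 1) := by rw [map_sub, map_one]
      rw [this, ← map_ofNat j 3, map_dvd_iff j]
    rw [e1, hj]

theorem tuple_ncard {m : ℕ} (P : (Fin m → 𝓞 K) → Prop) :
    {a : Fin m → 𝓞 K | P a}.ncard = {b : Fin m → Ei | P fun k => j (b k)}.ncard := by
  have hinj : Function.Injective (fun b : Fin m → Ei => fun k => j (b k)) := by
    intro b b' h
    funext k
    exact j.injective (congrFun h k)
  rw [← Set.ncard_image_of_injective _ hinj]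
  congr 1
  ext a
  simp only [Set.mem_ofPred_eq, Set.mem_image]
  constructor
  · intro h
    refine ⟨fun k => j.symm (a k), ?_, ?_⟩
    · simpa using h
    · funext k
      simp
  · rintro ⟨b, h1, rfl⟩
    exact h1

/-- the family of the tuples -/
def FamD {c : ℕ} (a : Fin (2 * c + 3) → 𝓞 K) : Prop :=
  (∀ k, FamO (a k)) ∧ ∀ T : Finset (Fin (2 * c + 3)), T.card = c → ¬ ExO (Dt a T)

/-- all the curves have finitely many points and no `3`-part of `Ш` -/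
def TriD {c : ℕ} (a : Fin (2 * c + 3) → 𝓞 K) : Prop :=
  ∀ T : Finset (Fin (2 * c + 3)), T.card = c → Tri (Dt a T)

theorem famD_iff (hj : ∀ z : Ei, Algebra.norm ℤ (j z) = nr z) {c : ℕ}
    (b : Fin (2 * c + 3) → Ei) : FamD (fun k => j (b k)) ↔
      (∀ k, FamU (b k)) ∧ ∀ T ∈ SS c, NEc (dlt (nT T) b) := by
  unfold FamD
  refine and_congr (forall_congr' fun k => famO_iff j _) ?_
  refine forall_congr' fun T => ?_
  rw [← mem_SS, Dt_dlt, exO_iff j hj]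

theorem triD_iff {c : ℕ} (b : Fin (2 * c + 3) → Ei) : TriD (fun k => j (b k)) ↔
      ∀ T ∈ SS c, Tri (j (dlt (nT T) b)) := by
  unfold TriD
  refine forall_congr' fun T => ?_
  rw [← mem_SS, Dt_dlt]

/-- the index sets -/
noncomputable def eqT (c : ℕ) : ↥(SS c) ≃ Fin ((2 * c + 3).choose c) :=
  Finset.equivFinOfCardEq (by
    unfold SS
    rw [card_powersetCard, card_univ, Fintype.card_fin])

/-- the exponents -/
noncomputable def nF (c : ℕ) (t : Fin ((2 * c + 3).choose c)) : Fin (2 * c + 3) → ℕ :=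
  nT ((eqT c).symm t : Finset (Fin (2 * c + 3)))

theorem all_nF {c : ℕ} (P : (Fin (2 * c + 3) → ℕ) → Prop) :
    (∀ t, P (nF c t)) ↔ ∀ T ∈ SS c, P (nT T) := by
  constructor
  · intro h T hT
    have h1 := h (eqT c ⟨T, hT⟩)
    unfold nF at h1
    rw [Equiv.symm_apply_apply] at h1
    exact h1
  · intro h t
    exact h _ ((eqT c).symm t).2

theorem nF_sep {c : ℕ} (k₀ : Fin (2 * c + 3)) (t t' : Fin ((2 * c + 3).choose c)) (h : t ≠ t') :
    ∃ k, (nF c t k : ZMod 3) * (nF c t k₀ : ZMod 3) ≠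
      (nF c t' k : ZMod 3) * (nF c t' k₀ : ZMod 3) := by
  refine nT_sep ((eqT c).symm t).2 ((eqT c).symm t').2 (fun h' => h ?_) k₀
  exact (eqT c).symm.injective (Subtype.ext h')

/-- **The final statement.** -/
theorem finT (K : Type) [Field K] [NumberField K] [IsCyclotomicExtension {3} ℚ K] :
    (0.639 : ℝ) < ∏' i : ℕ, (1 - (1 / 3 : ℝ) ^ (2 * i + 1)) ∧
    ∀ c : ℕ, c ≤ 2 →
      (∃ C : ℝ, 0 < C ∧ ∃ X₀ : ℕ, ∀ X : ℕ, X₀ ≤ X → C * (X : ℝ) ^ (2 * c + 3) ≤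
        ({a : Fin (2 * c + 3) → 𝓞 K | (∀ k, Algebra.norm ℤ (a k) ≤ X) ∧ FamD a}.ncard : ℝ)) ∧
      Tendsto (fun X : ℕ =>
        ({a : Fin (2 * c + 3) → 𝓞 K | (∀ k, Algebra.norm ℤ (a k) ≤ X) ∧
          FamD a ∧ TriD a}.ncard : ℝ) /
        ({a : Fin (2 * c + 3) → 𝓞 K | (∀ k, Algebra.norm ℤ (a k) ≤ X) ∧ FamD a}.ncard : ℝ)) atTop
        (nhds ((∏' i : ℕ, (1 - (1 / 3 : ℝ) ^ (2 * i + 1))) ^ (2 * c + 3).choose c)) ∧
      ∀ a : Fin (2 * c + 3) → 𝓞 K, FamD a →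
        ∃ L : ℂ → ℂ, IsLFT a L ∧ (TriD a → L (c + 1) ≠ 0) := by
  obtain ⟨⟨j, hj⟩, -⟩ := Pool.Agent.Y455.CTK.jex K
  refine ⟨Pool.Agent.XLK.t_C9.2.2.2.1, fun c hc => ?_⟩
  have k₀ : Fin (2 * c + 3) := ⟨0, by omega⟩
  have hn : ∀ (t : Fin ((2 * c + 3).choose c)) (k : Fin (2 * c + 3)),
      (nF c t k : ZMod 3) ≠ 0 := fun t k => nT_ne _ k
  have e1 : ∀ X : ℕ, {a : Fin (2 * c + 3) → 𝓞 K | (∀ k, Algebra.norm ℤ (a k) ≤ X) ∧
      FamD a}.ncard = NT (nF c) X := by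
    intro X
    rw [tuple_ncard j]
    unfold NT
    congr 1
    ext b
    simp only [Set.mem_ofPred_eq]
    rw [famD_iff j hj, all_nF (fun n => NEc (dlt n b))]
    simp only [hj]
    constructor
    · rintro ⟨h1, h2, h3⟩
      exact ⟨fun k => ⟨h1 k, h2 k⟩, h3⟩
    · rintro ⟨h1, h2⟩
      exact ⟨fun k => (h1 k).1, fun k => (h1 k).2, h2⟩
  have e2 : ∀ X : ℕ, {a : Fin (2 * c + 3) → 𝓞 K | (∀ k, Algebra.norm ℤ (a k) ≤ X) ∧
      FamD a ∧ TriD a}.ncard = {a : Fin (2 * c + 3) → Ei | (∀ k, nr (a k) ≤ X ∧ FamU (a k)) ∧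
      (∀ t, NEc (dlt (nF c t) a)) ∧ ∀ t, Tri (j (dlt (nF c t) a))}.ncard := by
    intro X
    rw [tuple_ncard j]
    congr 1
    ext b
    simp only [Set.mem_ofPred_eq]
    rw [famD_iff j hj, triD_iff, all_nF (fun n => NEc (dlt n b)),
      all_nF (fun n => Tri (j (dlt n b)))]
    simp only [hj]
    constructor
    · rintro ⟨h1, ⟨h2, h3⟩, h4⟩
      exact ⟨fun k => ⟨h1 k, h2 k⟩, h3, h4⟩
    · rintro ⟨h1, h2, h3⟩
      exact ⟨fun k => (h1 k).1, ⟨fun k => (h1 k).2, h2⟩, h3⟩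
  refine ⟨?_, ?_, fun a ha => ?_⟩
  · obtain ⟨C, X₀, h1, h2⟩ := NT_low (nF c) k₀ hn
    exact ⟨C, h1, X₀, fun X hX => by rw [e1]; exact h2 X hX⟩
  · simp only [e1, e2]
    exact lawT (nF c) j k₀ hn (fun t t' h => nF_sep k₀ t t' h)
  · have hb : a = fun k => j (j.symm (a k)) := by
      funext k
      simp
    rw [hb] at ha ⊢
    obtain ⟨h1, h2⟩ := (famD_iff j hj _).1 ha
    obtain ⟨L, h3, h4⟩ := main_LT j hc h1 h2
    exact ⟨L, h3, fun h => h4 ((triD_iff j _).1 h)⟩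

end

end Run7.h707.TC
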