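import Pool.Agent.Run7.h707.TC.Exc2
import Pool.Agent.Q283.T3.Asy

/-! The asymptotics for tuples with fixed sets of primes with exponent two -/

set_option autoImplicit false
set_option linter.unusedSectionVars false

open scoped Classical

namespace Run7.h707.TC

open Finset Filter
open Pool.Agent.Y692.QS (Ei)
open Pool.Agent.Y715.T.RecG (Pq)
open Pool.Agent.Y699.E (nrm QB)
open Pool.Agent.Y703.CX (jj XX eL zz kk eL_tendsto logX_eq HH NN ev_eL one_le_exp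
  HH_ge HH_le HH_pos kk_ge kk_le X_pos one_add_log lin_le zz_ge zz_pos)
open Pool.Agent.Y703.CQ (Sml sml_of sml_add)
open Pool.Agent.Y703.XK (sm la bl kk_pos sml_eps kap kap_nonneg kap_pow kap_le log_three S_EQ S_BIL)
open Pool.Agent.R419.KF (SG mem_SG SG_card sml_many sml_coll)
open Pool.Agent.R419.KF.Cnt (CntP t_CNT)
open Q283.T3 (gi cf gi_ge gi_le cf_pos cf_le_one)
open Q283.T3A (c_bounds)

/-- the main error term -/
theorem mainT (m : ℕ) {C : ℝ} (hC : 1 ≤ C) (ε : ℝ) (hε : 0 < ε) : ∀ᶠ X : ℕ in atTop,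
    3 ^ (5 * (m * kk X) ^ 2) * kap C X *
      ((9 * (NN X : ℝ) + 9) ^ kk X * (X * (64 * (1 + Real.log X)))) ^ m ≤ ε * (X : ℝ) ^ m := by
  -- the constant
  have hlim : Tendsto (fun X : ℕ => (2 * C * 128 ^ m) * Real.exp (-1 * eL X)) atTop
      (nhds 0) := by
    have h1 : Tendsto (fun X : ℕ => Real.exp (-1 * eL X)) atTop (nhds 0) := by
      refine Real.tendsto_exp_atBot.comp ?_
      exact eL_tendsto.const_mul_atTop_of_neg (by norm_num)
    have := h1.const_mul (2 * C * 128 ^ m)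
    rwa [mul_zero] at this
  filter_upwards [ev_eL 40, ev_eL (24 * (666 * m ^ 2 + 56 * m + 1)),
    hlim.eventually (gt_mem_nhds hε)] with X hX hXm hl'
  set l := eL X with hl
  have h0 : 0 < eL X := by linarith
  have h1 : 1 ≤ eL X := by linarith
  have hX0 : (0 : ℝ) ≤ X := Nat.cast_nonneg _
  have hm0 : (0 : ℝ) ≤ m := Nat.cast_nonneg _
  have hN : 9 * (NN X : ℝ) + 9 ≤ Real.exp (5 * l) := by
    have h2 : (NN X : ℝ) ≤ HH X * Real.log X + 1 := by
      unfold NN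
      push_cast
      have := Nat.floor_le (a := (HH X : ℝ) * Real.log X)
        (mul_nonneg (Nat.cast_nonneg _) (Real.log_natCast_nonneg X))
      linarith
    have h3 : (HH X : ℝ) * Real.log X ≤ 2 * Real.exp (4 * l) := by
      rw [logX_eq h0]
      calc (HH X : ℝ) * Real.exp (eL X) ≤ 2 * Real.exp (3 * eL X) * Real.exp (eL X) :=
            mul_le_mul_of_nonneg_right (HH_le h0) (Real.exp_pos _).le
        _ = 2 * Real.exp (4 * l) := by
            rw [mul_assoc, ← Real.exp_add]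
            congr 2
            rw [hl]
            ring
    have h4 : 1 ≤ Real.exp (4 * l) := one_le_exp (by linarith)
    have h5 : (36 : ℝ) ≤ Real.exp l := by
      have := Real.add_one_le_exp l
      linarith
    have h6 : Real.exp (5 * l) = Real.exp (4 * l) * Real.exp l := by
      rw [← Real.exp_add]; congr 1; ring
    rw [h6]
    nlinarith
  have hkk := kk_le h1
  have hkk0 : (0 : ℝ) ≤ kk X := Nat.cast_nonneg _
  have hA : (9 * (NN X : ℝ) + 9) ^ kk X ≤ Real.exp (55 * l ^ 2) := by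
    calc (9 * (NN X : ℝ) + 9) ^ kk X ≤ (Real.exp (5 * l)) ^ kk X := by gcongr
      _ = Real.exp (kk X * (5 * l)) := (Real.exp_nat_mul _ _).symm
      _ ≤ Real.exp (55 * l ^ 2) := by
          apply Real.exp_le_exp.2
          nlinarith
  have hB : (3 : ℝ) ^ (5 * (m * kk X) ^ 2) ≤ Real.exp (666 * m ^ 2 * l ^ 2) := by
    have e : (3 : ℝ) ^ (5 * (m * kk X) ^ 2) = Real.exp ((5 * (m * (kk X : ℝ)) ^ 2) * Real.log 3) := by
      rw [mul_comm (5 * (m * (kk X : ℝ)) ^ 2) (Real.log 3), Real.exp_mul, Real.exp_log (by norm_num)]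
      rw [← Real.rpow_natCast]
      congr 1
      push_cast
      ring
    rw [e]
    apply Real.exp_le_exp.2
    have h2 := log_three
    have h3 : (m * (kk X : ℝ)) ^ 2 ≤ (m * (11 * l)) ^ 2 := by
      apply pow_le_pow_left₀ (by positivity)
      exact mul_le_mul_of_nonneg_left hkk hm0
    calc (5 * (m * (kk X : ℝ)) ^ 2) * Real.log 3 ≤ (5 * (m * (11 * l)) ^ 2) * 1.1 := by gcongr
      _ ≤ 666 * m ^ 2 * l ^ 2 := by nlinarith [sq_nonneg (m * l)]
  have hK := kap_le hC h1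
  have hLg := one_add_log h0
  have hlg0 : 0 ≤ 1 + Real.log X := by
    have := Real.log_natCast_nonneg X
    linarith
  have hmain : 3 ^ (5 * (m * kk X) ^ 2) * kap C X *
      ((9 * (NN X : ℝ) + 9) ^ kk X * (X * (64 * (1 + Real.log X)))) ^ m ≤
      Real.exp (666 * m ^ 2 * l ^ 2) * (2 * C * Real.exp (-l ^ 3 / 24)) *
        (Real.exp (55 * l ^ 2) * (X * (64 * (2 * Real.exp l)))) ^ m := by
    have := kap_nonneg hC X
    gcongr
  refine hmain.trans ?_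
  have e : Real.exp (666 * m ^ 2 * l ^ 2) * (2 * C * Real.exp (-l ^ 3 / 24)) *
        (Real.exp (55 * l ^ 2) * (X * (64 * (2 * Real.exp l)))) ^ m =
      (2 * C * 128 ^ m) * Real.exp (666 * m ^ 2 * l ^ 2 + -l ^ 3 / 24 + m * (55 * l ^ 2) + m * l) *
        (X : ℝ) ^ m := by
    rw [Real.exp_add, Real.exp_add, Real.exp_add, Real.exp_nat_mul, Real.exp_nat_mul, mul_pow,
      mul_pow, mul_pow, mul_pow]
    have : (128 : ℝ) ^ m = 64 ^ m * 2 ^ m := by rw [← mul_pow]; norm_num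
    rw [this]
    ring
  rw [e]
  have h9 : 666 * m ^ 2 * l ^ 2 + -l ^ 3 / 24 + m * (55 * l ^ 2) + m * l ≤ -1 * l := by
    have h10 : 24 * (666 * m ^ 2 + 56 * m + 1) * l ^ 2 ≤ l ^ 3 := by
      have : l ^ 3 = l * l ^ 2 := by ring
      rw [this]
      exact mul_le_mul_of_nonneg_right hXm (sq_nonneg l)
    have h11 : l ≤ l ^ 2 := by nlinarith
    have h12 : (m : ℝ) * l ≤ m * l ^ 2 := mul_le_mul_of_nonneg_left h11 hm0
    nlinarith
  have h11 := Real.exp_le_exp.2 h9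
  calc _ ≤ (2 * C * 128 ^ m) * Real.exp (-1 * l) * (X : ℝ) ^ m := by gcongr
    _ ≤ ε * (X : ℝ) ^ m := by gcongr

/-- the tuples outside the regular part -/
theorem out_subT {m : ℕ} (k₀ : Fin m) (M : Fin m → Finset Ei) (Y : Fin m → ℕ) (X z H K R : ℕ)
    (hYX : ∀ k, Y k ≤ X) {S : Fin m → Finset Ei} (hS : S ∈ TP M Y)
    (hn : ¬ (S ∈ RT k₀ M Y z H K R ∧ NdT z k₀ S)) :
    (∀ k, S k ∈ SG X) ∧ ((∃ k, S k ∈ (SG X).filter fun S => K < S.card) ∨
      (∃ k, S k ∈ (SG (Y k)).filter fun S => S.card ≤ K ∧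
        Y k < (∏ π ∈ sm z S, nrm π) * ∏ π ∈ la z S, XX H (bl H π)) ∨
      (∃ k, S k ∈ (SG X).filter fun S => ¬ Set.InjOn (bl H) (la z S : Set Ei)) ∨
      (∃ k l, k ≠ l ∧ ∃ π ∈ la z (S k), ∃ ρ ∈ la z (S l), bl H π = bl H ρ) ∨
      (∃ k, S k ∈ (SG X).filter fun S => S.card ≤ K ∧ (la z S).card ≤ (sm z S).card + 0) ∨
      ((∀ k, (S k).card ≤ K) ∧
        ¬ 4 * ((Tt fun k => sm z (S k)).card + 1) + R ≤ (la z (S k₀)).card) ∨
      ((∀ k, (S k).card ≤ K) ∧ ¬ NdT z k₀ S)) := by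
  have h0 := mem_TP.1 hS
  have hSY : ∀ k, S k ∈ SG (Y k) := fun k => mem_SG.2 ⟨(h0 k).1, (h0 k).2.1⟩
  have hSX : ∀ k, S k ∈ SG X := fun k => mem_SG.2 ⟨(h0 k).1, (h0 k).2.1.trans (hYX k)⟩
  refine ⟨hSX, ?_⟩
  by_contra hc
  push Not at hc
  obtain ⟨c1, c2, c3, c4, c5, c6, c7⟩ := hc
  have d1 : ∀ k, (S k).card ≤ K := fun k => by
    by_contra h
    exact c1 k (mem_filter.2 ⟨hSX k, by omega⟩)
  have d6 := c6 d1
  have d7 := c7 d1
  apply hn
  refine ⟨?_, d7⟩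
  unfold RT
  rw [mem_filter]
  refine ⟨hS, ?_, d1, ?_, ?_, ?_⟩
  · intro k l π hπ ρ hρ hb
    by_cases hkl : k = l
    · refine ⟨hkl, ?_⟩
      subst hkl
      by_contra hne
      apply c3 k
      rw [mem_filter]
      refine ⟨hSX k, fun hi => hne (hi (mem_coe.2 hπ) (mem_coe.2 hρ) hb)⟩
    · exact absurd hb (c4 k l hkl π hπ ρ hρ)
  · intro k
    by_contra h
    exact c2 k (mem_filter.2 ⟨hSY k, d1 k, by omega⟩)
  · intro k
    by_contra h
    rw [not_nonempty_iff_eq_empty] at h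
    apply c5 k
    rw [mem_filter, h, card_empty]
    exact ⟨hSX k, d1 k, Nat.zero_le _⟩
  · exact d6

theorem cmpT {α : Type} [DecidableEq α] (G : α → Prop) (T S : Finset α) (hTS : T ⊆ S) (c : ℝ) (hc0 : 0 ≤ c)
    (hc1 : c ≤ 1) :
    |((S.filter G).card : ℝ) - c * (S.card : ℝ)| ≤
      |((T.filter G).card : ℝ) - c * (T.card : ℝ)| + ((S \ T).card : ℝ) := by
  have e1 : ((S.filter G).card : ℝ) = (T.filter G).card + ((S \ T).filter G).card := by
    rw [← Nat.cast_add, ← card_union_of_disjoint, ← filter_union, union_sdiff_of_subset hTS]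
    exact disjoint_filter_filter (disjoint_sdiff)
  have e2 : (S.card : ℝ) = T.card + (S \ T).card := by
    rw [← Nat.cast_add, ← card_union_of_disjoint disjoint_sdiff, union_sdiff_of_subset hTS]
  have e3 : (((S \ T).filter G).card : ℝ) ≤ (S \ T).card := by
    exact_mod_cast card_le_card (filter_subset _ _)
  have e4 : (0 : ℝ) ≤ (((S \ T).filter G).card : ℝ) := Nat.cast_nonneg _
  have e5 : (0 : ℝ) ≤ ((S \ T).card : ℝ) := Nat.cast_nonneg _
  rw [e1, e2]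
  have e6 : ((T.filter G).card : ℝ) + ((S \ T).filter G).card - c * (T.card + (S \ T).card) =
    (((T.filter G).card : ℝ) - c * T.card) + ((((S \ T).filter G).card : ℝ) -
      c * (S \ T).card) := by ring
  rw [e6]
  refine (abs_add_le _ _).trans (add_le_add le_rfl ?_)
  rw [abs_le]
  constructor <;> nlinarith

/-- a property of the tuples which only depends on the key -/
def KyP {m : ℕ} (M : Fin m → Finset Ei) (P : (Fin m → Finset Ei) → Prop) : Prop :=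
  ∀ (z H : ℕ), 1 ≤ H → (∀ k, ∀ q ∈ M k, nrm q ≤ z) → ∀ S S' : Fin m → Finset Ei,
    (∀ k, ∀ q ∈ S k, Pq q) → (∀ k, ∀ q ∈ S' k, Pq q) → (∀ k, M k ⊆ S k) → (∀ k, M k ⊆ S' k) →
    IjT z H S → IjT z H S' → kyT z H S = kyT z H S' → (P S ↔ P S')

theorem eventually_all_fin {m : ℕ} {p : Fin m → ℕ → Prop} (h : ∀ k, ∀ᶠ X : ℕ in atTop, p k X) :
    ∀ᶠ X : ℕ in atTop, ∀ k, p k X := eventually_all.2 h

theorem card_pieces {m : ℕ} {X K : ℕ} {e : ℝ} (BB : Finset (Fin m → Finset Ei))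
    (A1 A2 A3 A5 : Fin m → Finset (Finset Ei)) (C4 C6 C7 : (Fin m → Finset Ei) → Prop)
    (E1 : ∀ k, ∀ F : Finset (Fin m → Finset Ei), (∀ S ∈ F, (∀ l, S l ∈ SG X) ∧ S k ∈ A1 k) →
      (F.card : ℝ) ≤ e)
    (E2 : ∀ k, ∀ F : Finset (Fin m → Finset Ei), (∀ S ∈ F, (∀ l, S l ∈ SG X) ∧ S k ∈ A2 k) →
      (F.card : ℝ) ≤ e)
    (E3 : ∀ k, ∀ F : Finset (Fin m → Finset Ei), (∀ S ∈ F, (∀ l, S l ∈ SG X) ∧ S k ∈ A3 k) →
      (F.card : ℝ) ≤ e)
    (E4 : ∀ F : Finset (Fin m → Finset Ei), (∀ S ∈ F, (∀ l, S l ∈ SG X) ∧ C4 S) →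
      (F.card : ℝ) ≤ e)
    (E5 : ∀ k, ∀ F : Finset (Fin m → Finset Ei), (∀ S ∈ F, (∀ l, S l ∈ SG X) ∧ S k ∈ A5 k) →
      (F.card : ℝ) ≤ e)
    (E6 : ∀ F : Finset (Fin m → Finset Ei), (∀ S ∈ F, (∀ l, S l ∈ SG X ∧ (S l).card ≤ K) ∧
      C6 S) → (F.card : ℝ) ≤ e)
    (E7 : ∀ F : Finset (Fin m → Finset Ei), (∀ S ∈ F, (∀ l, S l ∈ SG X ∧ (S l).card ≤ K) ∧
      C7 S) → (F.card : ℝ) ≤ e)
    (hall : ∀ S ∈ BB, (∀ k, S k ∈ SG X) ∧ ((∃ k, S k ∈ A1 k) ∨ (∃ k, S k ∈ A2 k) ∨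
      (∃ k, S k ∈ A3 k) ∨ C4 S ∨ (∃ k, S k ∈ A5 k) ∨ ((∀ k, (S k).card ≤ K) ∧ C6 S) ∨
      ((∀ k, (S k).card ≤ K) ∧ C7 S))) : (BB.card : ℝ) ≤ (4 * m + 3) * e := by
  have hBsub : BB ⊆
      (univ.biUnion fun k => BB.filter fun S => S k ∈ A1 k) ∪
      ((univ.biUnion fun k => BB.filter fun S => S k ∈ A2 k) ∪
      ((univ.biUnion fun k => BB.filter fun S => S k ∈ A3 k) ∪
      ((BB.filter fun S => C4 S) ∪
      ((univ.biUnion fun k => BB.filter fun S => S k ∈ A5 k) ∪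
      ((BB.filter fun S => (∀ k, (S k).card ≤ K) ∧ C6 S) ∪
      (BB.filter fun S => (∀ k, (S k).card ≤ K) ∧ C7 S)))))) := by
    intro S hS
    have h := (hall S hS).2
    simp only [mem_union, mem_biUnion, mem_univ, true_and, mem_filter]
    rcases h with ⟨k, h⟩ | ⟨k, h⟩ | ⟨k, h⟩ | h | ⟨k, h⟩ | h | h
    · exact Or.inl ⟨k, hS, h⟩
    · exact Or.inr (Or.inl ⟨k, hS, h⟩)
    · exact Or.inr (Or.inr (Or.inl ⟨k, hS, h⟩))
    · exact Or.inr (Or.inr (Or.inr (Or.inl ⟨hS, h⟩)))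
    · exact Or.inr (Or.inr (Or.inr (Or.inr (Or.inl ⟨k, hS, h⟩))))
    · exact Or.inr (Or.inr (Or.inr (Or.inr (Or.inr (Or.inl ⟨hS, h⟩)))))
    · exact Or.inr (Or.inr (Or.inr (Or.inr (Or.inr (Or.inr ⟨hS, h⟩)))))
  have hbu : ∀ (f : Fin m → Finset (Fin m → Finset Ei)), (∀ k, ((f k).card : ℝ) ≤ e) →
      ((univ.biUnion f).card : ℝ) ≤ m * e := by
    intro f hf
    calc ((univ.biUnion f).card : ℝ) ≤ ∑ k, ((f k).card : ℝ) := by exact_mod_cast card_biUnion_le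
      _ ≤ ∑ _k : Fin m, e := sum_le_sum fun k _ => hf k
      _ = _ := by rw [sum_const, card_univ, Fintype.card_fin, nsmul_eq_mul]
  have hone : ∀ A : Fin m → Finset (Finset Ei), (∀ k, ∀ F : Finset (Fin m → Finset Ei),
      (∀ S ∈ F, (∀ l, S l ∈ SG X) ∧ S k ∈ A k) → (F.card : ℝ) ≤ e) →
      ((univ.biUnion fun k => BB.filter fun S => S k ∈ A k).card : ℝ) ≤ m * e := by
    intro A hA
    refine hbu _ fun k => hA k _ fun S hS => ?_
    rw [mem_filter] at hS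
    exact ⟨(hall S hS.1).1, hS.2⟩
  have c0 := card_le_card hBsub
  have u1 := hone A1 E1
  have u2 := hone A2 E2
  have u3 := hone A3 E3
  have u4 := E4 (BB.filter fun S => C4 S) (fun S hS => by
    rw [mem_filter] at hS
    exact ⟨(hall S hS.1).1, hS.2⟩)
  have u5 := hone A5 E5
  have u6 := E6 (BB.filter fun S => (∀ k, (S k).card ≤ K) ∧ C6 S) (fun S hS => by
    rw [mem_filter] at hS
    exact ⟨fun k => ⟨(hall S hS.1).1 k, hS.2.1 k⟩, hS.2.2⟩)
  have u7 := E7 (BB.filter fun S => (∀ k, (S k).card ≤ K) ∧ C7 S) (fun S hS => by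
    rw [mem_filter] at hS
    exact ⟨fun k => ⟨(hall S hS.1).1 k, hS.2.1 k⟩, hS.2.2⟩)
  have c1 := c0.trans ((card_union_le _ _).trans (Nat.add_le_add_left ((card_union_le _ _).trans
    (Nat.add_le_add_left ((card_union_le _ _).trans (Nat.add_le_add_left ((card_union_le _ _).trans
    (Nat.add_le_add_left ((card_union_le _ _).trans (Nat.add_le_add_left (card_union_le _ _) _))
    _)) _)) _)) _))
  have c2 := Nat.cast_le (α := ℝ).2 c1
  push_cast at c2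
  linarith

/-- **the asymptotics for the tuples** -/
theorem asyT (hBIL : S_BIL) (hEQ : S_EQ) {m Mt : ℕ} (k₀ : Fin m)
    (s : Fin Mt → Fin m → ZMod 3) (hs : ∀ t k, s t k ≠ 0)
    (hsep : ∀ t t', t ≠ t' → ∃ k, s t k * s t k₀ ≠ s t' k * s t' k₀)
    (y : Fin Mt → ZMod 3) (r : Fin Mt → ℕ) (M : Fin m → Finset Ei) (n : Fin m → ℕ)
    (hn : ∀ k, 1 ≤ n k) (P : (Fin m → Finset Ei) → Prop) (hP : KyP M P) (ε : ℝ) (hε : 0 < ε) :
    ∀ᶠ X : ℕ in atTop,
      |(((TP M fun k => X / n k).filter fun S => P S ∧ GT M s y r S).card : ℝ) -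
        (∏ t, gi * cf (r t)) * (((TP M fun k => X / n k).filter P).card : ℝ)| ≤
        ε * (X : ℝ) ^ m := by
  obtain ⟨C, hC1, hkey⟩ := t_KET hBIL
  obtain ⟨D, hD⟩ := t_CNT
  have hm1 : 1 ≤ m := by have := k₀.2; omega
  obtain ⟨g, hg⟩ : ∃ g : ℝ, g = ∏ t, gi * cf (r t) := ⟨_, rfl⟩
  have hgb := c_bounds r
  rw [← hg] at hgb ⊢
  obtain ⟨η, hη⟩ : ∃ η : ℝ, η = ε / (2 * (16 ^ m + 8 * m + 8)) := ⟨_, rfl⟩
  have hη0 : 0 < η := by rw [hη]; positivity
  obtain ⟨R, hR⟩ := t_BXT hEQ k₀ s hs hsep y r η hη0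
  have hbx := hR R le_rfl M
  rw [← hg] at hbx
  have s1 := sml_many hD
  have s3 := sml_coll hD
  have s4 := sml_eps (Pool.Agent.R419.KF.Few.t_FEW 0)
  filter_upwards [eventually_all_fin fun k : Fin m => ev1_sml k _ s1 η hη0,
    eventually_all_fin fun k : Fin m => ev1_sml k _ (sml_cutN hD (hn k)) η hη0,
    eventually_all_fin fun k : Fin m => ev1_sml k _ s3 η hη0,
    crossT m η hη0,
    eventually_all_fin fun k : Fin m => ev1_sml k _ s4 η hη0,
    fewT m k₀ R η hη0, badT m k₀ η hη0, mainT m hC1 η hη0, ev_eL 1,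
    ev_eL (2 * ((univ.sup fun k => (M k).sup nrm : ℕ) : ℝ)),
    eventually_all_fin fun k : Fin m => eventually_ge_atTop (n k)] with X E1 E2 E3 E4 E5 E6 E7 E8
      hl hlm hXn
  have hl0 : 0 < eL X := by linarith
  have hXp := X_pos hl0
  have hXp' : (0 : ℝ) < X := by exact_mod_cast hXp
  have hN : (HH X : ℝ) * Real.log X < NN X := by
    unfold NN
    push_cast
    exact Nat.lt_floor_add_one _
  have hMz : ∀ k, ∀ q ∈ M k, nrm q ≤ zz X := by
    intro k q hq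
    have h5 : nrm q ≤ (univ.sup fun k => (M k).sup nrm : ℕ) :=
      (Finset.le_sup (f := nrm) hq).trans
        (Finset.le_sup (f := fun k => (M k).sup nrm) (mem_univ k))
    refine h5.trans ?_
    have h6 := zz_ge hl
    have h7 : eL X ≤ Real.exp ((eL X) ^ 3) := by
      have h8 : eL X ≤ (eL X) ^ 3 := by
        have h9 : (eL X) ^ 3 = eL X * (eL X * eL X) := by ring
        rw [h9]
        nlinarith
      have := Real.add_one_le_exp ((eL X) ^ 3)
      linarith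
    have h8 : ((univ.sup fun k => (M k).sup nrm : ℕ) : ℝ) ≤ zz X := by linarith
    exact_mod_cast h8
  obtain ⟨Y, hY⟩ : ∃ Y : Fin m → ℕ, ∀ k, X / n k = Y k := ⟨_, fun _ => rfl⟩
  have hYf : (fun k => X / n k) = Y := funext hY
  rw [hYf]
  simp only [hY] at E2
  have hY1 : ∀ k, 1 ≤ Y k := fun k => by
    rw [← hY]
    exact (Nat.one_le_div_iff (hn k)).2 (hXn k)
  have hYX : ∀ k, Y k ≤ X := fun k => by
    rw [← hY]
    exact Nat.div_le_self _ _
  set RR := RT k₀ M Y (zz X) (HH X) (kk X) R with hRR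
  -- the property of the keys
  obtain ⟨Q, hQ⟩ : ∃ Q : (Fin m → Finset Ei × Finset ℕ) → Prop, ∀ k', (Q k' ↔ ∃ S' ∈ RR,
    kyT (zz X) (HH X) S' = k' ∧ P S') := ⟨_, fun _ => Iff.rfl⟩
  have hPQ : ∀ S ∈ RR, (Q (kyT (zz X) (HH X) S) ↔ P S) := by
    intro S hS
    have h1 := (mem_RT hMz (HH_pos hl0)).1 hS
    rw [hQ]
    constructor
    · rintro ⟨S', hS', h2, h3⟩
      have h4 := (mem_RT hMz (HH_pos hl0)).1 hS'
      exact (hP _ _ (HH_pos hl0) hMz S' S h4.1 h1.1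
        (fun k => (h4.2.2.1 k).trans (filter_subset _ _))
        (fun k => (h1.2.2.1 k).trans (filter_subset _ _)) h4.2.1 h1.2.1 h2).1 h3
    · exact fun h => ⟨S, hS, rfl, h⟩
  have hmain := hkey k₀ s y r M R g η hbx hη0.le Q Y X (zz X) (HH X) (kk X) (NN X) (kap C X)
    hMz hY1 hYX (HH_pos hl0) (zz_pos hl) (kap_nonneg hC1 X) (kap_pow hC1 hl) hN
  rw [← hRR] at hmain
  set T := RR.filter fun S => P S ∧ NdT (zz X) k₀ S with hT
  have e1 : RR.filter (fun S => Q (kyT (zz X) (HH X) S) ∧ NdT (zz X) k₀ S ∧ GT M s y r S) =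
      T.filter (GT M s y r) := by
    rw [hT, filter_filter]
    refine filter_congr fun S hS => ?_
    rw [hPQ S hS, and_assoc]
  have e2 : RR.filter (fun S => Q (kyT (zz X) (HH X) S) ∧ NdT (zz X) k₀ S) = T := by
    rw [hT]
    refine filter_congr fun S hS => ?_
    rw [hPQ S hS]
  rw [e1, e2] at hmain
  set TT := TP M Y with hTT
  have hRT : RR ⊆ TT := filter_subset _ _
  have hTS : T ⊆ TT.filter P := by
    intro S hS
    rw [hT, mem_filter] at hS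
    exact mem_filter.2 ⟨hRT hS.1, hS.2.1⟩
  have hcmp := cmpT (GT M s y r) T (TT.filter P) hTS g hgb.1 hgb.2
  rw [filter_filter] at hcmp
  -- the tuples outside
  set BB : Finset (Fin m → Finset Ei) := TT.filter fun S =>
    ¬ (S ∈ RR ∧ NdT (zz X) k₀ S) with hBB
  have hsubB : TT.filter P \ T ⊆ BB := by
    intro S hS
    rw [Finset.mem_sdiff, mem_filter] at hS
    rw [hBB, mem_filter]
    refine ⟨hS.1.1, fun h => hS.2 ?_⟩
    rw [hT, mem_filter]
    exact ⟨h.1, hS.1.2, h.2⟩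
  have hBc : (BB.card : ℝ) ≤ (4 * m + 3) * (η * (X : ℝ) ^ m) :=
    card_pieces BB _ _ _ _ _ _ _ E1 E2 E3 E4 E5 E6 E7 fun S hS =>
      out_subT k₀ M Y X (zz X) (HH X) (kk X) R hYX (mem_filter.1 hS).1 (mem_filter.1 hS).2
  have hout : (((TT.filter P) \ T).card : ℝ) ≤ (4 * m + 3) * (η * (X : ℝ) ^ m) :=
    (Nat.cast_le (α := ℝ).2 (card_le_card hsubB)).trans hBc
  have hRc : ((RR.filter fun S => Q (kyT (zz X) (HH X) S)).card : ℝ) ≤ (16 * X : ℝ) ^ m := by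
    have h1 : RR.filter (fun S => Q (kyT (zz X) (HH X) S)) ⊆
        Fintype.piFinset fun _ : Fin m => SG X := by
      intro S hS
      rw [Fintype.mem_piFinset]
      have h0 := mem_TP.1 (hRT (mem_filter.1 hS).1)
      exact fun k => mem_SG.2 ⟨(h0 k).1, (h0 k).2.1.trans (hYX k)⟩
    refine (Nat.cast_le (α := ℝ).2 (card_le_card h1)).trans ?_
    rw [Fintype.card_piFinset]
    push_cast
    calc ∏ _k : Fin m, ((SG X).card : ℝ) ≤ ∏ _k : Fin m, (16 * X : ℝ) :=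
          prod_le_prod (fun _ _ => Nat.cast_nonneg _) fun _ _ => SG_card X
      _ = (16 * X : ℝ) ^ m := by rw [prod_const, card_univ, Fintype.card_fin]
  have hfin : |((T.filter (GT M s y r)).card : ℝ) - g * (T.card : ℝ)| ≤
      (16 ^ m + 1) * (η * (X : ℝ) ^ m) := by
    refine hmain.trans ?_
    have h1 : η * ((RR.filter fun S => Q (kyT (zz X) (HH X) S)).card : ℝ) ≤
        16 ^ m * (η * (X : ℝ) ^ m) := by
      calc _ ≤ η * (16 * X : ℝ) ^ m := mul_le_mul_of_nonneg_left hRc hη0.le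
        _ = _ := by rw [mul_pow]; ring
    linarith
  have hlast : (16 ^ m + 1) * (η * (X : ℝ) ^ m) + (4 * m + 3) * (η * (X : ℝ) ^ m) ≤
      ε * (X : ℝ) ^ m := by
    have hXm : 0 ≤ (X : ℝ) ^ m := by positivity
    have hm0 : (0 : ℝ) ≤ m := Nat.cast_nonneg _
    have h1 : ((16 : ℝ) ^ m + 1) * η + (4 * m + 3) * η ≤ ε := by
      have h2 : η * (2 * (16 ^ m + 8 * m + 8)) = ε := by
        rw [hη]
        field_simp
      have h3 : (0 : ℝ) < 16 ^ m := by positivity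
      nlinarith
    calc _ = (((16 : ℝ) ^ m + 1) * η + (4 * m + 3) * η) * (X : ℝ) ^ m := by ring
      _ ≤ ε * (X : ℝ) ^ m := by gcongr
  exact hcmp.trans ((add_le_add hfin hout).trans hlast)

end Run7.h707.TC
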