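import Pool.Agent.Run7.h707.TC.Clq

/-! The outer part of the random matrix: the set of the exceptional matrices is small -/

set_option autoImplicit false
set_option linter.unusedSectionVars false

open scoped Classical

namespace Run7.h707.TC

open Finset Module
open Q283.T3 hiding est thmR
open Pool.Agent.Y703.XK (prs)

theorem Lp_single {ι : Type} [Fintype ι] [DecidableEq ι] (c : ι → ι → ZMod 3) (δ x : ι → ZMod 3) (i : ι) :
    Lp c δ x (Pi.single i 1) = ∑ j, c i j * (x j - x i) + δ i * x i := by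
  rw [Lp_apply, sum_eq_single i]
  · rw [Pi.single_eq_same, mul_one]
  · intro j _ hj
    rw [Pi.single_eq_of_ne hj, mul_zero]
  · intro h
    exact absurd (mem_univ _) h

section fr
variable {U ι : Type} [Fintype U] [Fintype ι] [LinearOrder ι] (κ : ι → Prop)

/-- the weights -/
def es (e : U → ZMod 3) (s : ι → ZMod 3) : U ⊕ {i // ¬ κ i} → ZMod 3
  | Sum.inl u => e u
  | Sum.inr q => s q

/-- the symbols outside of `κ` -/
def AA (A : U → U → ZMod 3) (B : U → ι → ZMod 3) (R : ι → ι → ZMod 3) :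
    U ⊕ {i // ¬ κ i} → U ⊕ {i // ¬ κ i} → ZMod 3
  | Sum.inl u, Sum.inl v => A u v
  | Sum.inl u, Sum.inr q => B u q
  | Sum.inr q, Sum.inl u => B u q
  | Sum.inr q, Sum.inr q' => R q q'

/-- the symbols between `κ` and the rest -/
def BB (B : U → ι → ZMod 3) (R : ι → ι → ZMod 3) : U ⊕ {i // ¬ κ i} → {i // κ i} → ZMod 3
  | Sum.inl u, j => B u j
  | Sum.inr q, j => R q j

variable {κ}

/-- the restriction to the large vertices -/
noncomputable def rs (x : (U ⊕ {i // ¬ κ i}) ⊕ {i // κ i} → ZMod 3) (i : ι) : ZMod 3 :=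
  if h : κ i then x (Sum.inr ⟨i, h⟩) else x (Sum.inl (Sum.inr ⟨i, h⟩))

theorem rs_q (x : (U ⊕ {i // ¬ κ i}) ⊕ {i // κ i} → ZMod 3) (q : {i // ¬ κ i}) :
    rs x q = x (Sum.inl (Sum.inr q)) := dif_neg q.2

theorem rs_j (x : (U ⊕ {i // ¬ κ i}) ⊕ {i // κ i} → ZMod 3) (j : {i // κ i}) :
    rs x j = x (Sum.inr j) := dif_pos j.2

theorem rl_q (s : ι → ZMod 3) (hs : ∀ j, κ j → s j = 1) (α : prs ι → ZMod 3)
    (x : (U ⊕ {i // ¬ κ i}) ⊕ {i // κ i} → ZMod 3) (q : {i // ¬ κ i}) :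
    rl κ s (rs x) q α = ∑ q' : {i // ¬ κ i}, s q * s q' * Pool.Agent.Y703.XK.ext α q q' *
      (x (Sum.inl (Sum.inr q')) - x (Sum.inl (Sum.inr q))) +
      ∑ j : {i // κ i}, s q * Pool.Agent.Y703.XK.ext α q j *
      (x (Sum.inr j) - x (Sum.inl (Sum.inr q))) := by
  rw [rl_apply, ← Fintype.sum_subtype_add_sum_subtype κ, add_comm]
  congr 1
  · refine sum_congr rfl fun q' _ => ?_
    unfold ou
    rw [if_neg (fun h => q.2 h.1), rs_q, rs_q]
  · refine sum_congr rfl fun j _ => ?_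
    unfold ou
    rw [if_neg (fun h => q.2 h.1), rs_q, rs_j, hs j j.2, mul_one]

theorem rl_j (s : ι → ZMod 3) (hs : ∀ j, κ j → s j = 1) (α : prs ι → ZMod 3)
    (x : (U ⊕ {i // ¬ κ i}) ⊕ {i // κ i} → ZMod 3) (j : {i // κ i}) :
    rl κ s (rs x) j α = ∑ q : {i // ¬ κ i}, s q * Pool.Agent.Y703.XK.ext α q j *
      (x (Sum.inl (Sum.inr q)) - x (Sum.inr j)) := by
  rw [rl_apply, ← Fintype.sum_subtype_add_sum_subtype κ, sum_eq_zero (s := univ (α := {i // κ i})),
    zero_add]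
  · refine sum_congr rfl fun q' _ => ?_
    unfold ou
    rw [if_neg (fun h => q'.2 h.2), rs_q, rs_j, hs j j.2, one_mul, ext_symm α j q']
  · intro j' _
    unfold ou
    rw [if_pos ⟨j.2, j'.2⟩, mul_zero, zero_mul]

variable (e : U → ZMod 3) (s : ι → ZMod 3) (A : U → U → ZMod 3) (B : U → ι → ZMod 3)
  (α : prs ι → ZMod 3) (j₀ : {i // κ i})

/-- the outer form -/
noncomputable def BO (κ : ι → Prop) (e : U → ZMod 3) (s : ι → ZMod 3) (A : U → U → ZMod 3)
    (B : U → ι → ZMod 3) (j₀ : {i // κ i}) (α : prs ι → ZMod 3) :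
    LinearMap.BilinForm (ZMod 3) ((U ⊕ {i // ¬ κ i}) ⊕ {i // κ i} → ZMod 3) :=
  B0 (es κ e s) (AA κ A B (Pool.Agent.Y703.XK.ext α)) (BB κ B (Pool.Agent.Y703.XK.ext α)) j₀

variable {s}

theorem BO_q (hs1 : ∀ j, κ j → s j = 1) (hs0 : ∀ i, s i ≠ 0)
    (x : (U ⊕ {i // ¬ κ i}) ⊕ {i // κ i} → ZMod 3) (q : {i // ¬ κ i}) :
    BO κ e s A B j₀ α x (Pi.single (Sum.inl (Sum.inr q)) 1) =
      ∑ u, s q * e u * B u q * (x (Sum.inl (Sum.inl u)) - x (Sum.inl (Sum.inr q))) +
      rl κ s (rs x) q α := by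
  unfold BO B0
  rw [Lp_single, rl_q s hs1]
  have h1 : dg (Sk {i // κ i} (es κ e s)) (Sum.inr j₀)
      (Sum.inl (Sum.inr q) : (U ⊕ {i // ¬ κ i}) ⊕ {i // κ i}) = 0 := by
    unfold dg
    rw [if_neg]
    rintro (h | h)
    · exact h (mem_Sk_inl.2 (hs0 q))
    · exact absurd h (by simp)
  rw [h1, zero_mul, add_zero, Fintype.sum_sum_type, Fintype.sum_sum_type, add_assoc]
  rfl

theorem dg_inr (E : U ⊕ {i // ¬ κ i} → ZMod 3) (j : {i // κ i}) :
    dg (Sk {i // κ i} E) (Sum.inr j₀)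
      (Sum.inr j : (U ⊕ {i // ¬ κ i}) ⊕ {i // κ i}) = if j = j₀ then 1 else 0 := by
  unfold dg
  by_cases h : j = j₀
  · rw [if_pos (Or.inr (by rw [h])), if_pos h]
  · rw [if_neg, if_neg h]
    rintro (h5 | h5)
    · exact h5 mem_Sk_inr
    · exact h (Sum.inr_injective h5)

theorem BO_j (hs1 : ∀ j, κ j → s j = 1)
    (x : (U ⊕ {i // ¬ κ i}) ⊕ {i // κ i} → ZMod 3) (j : {i // κ i}) :
    BO κ e s A B j₀ α x (Pi.single (Sum.inr j) 1) =
      ∑ u, e u * B u j * (x (Sum.inl (Sum.inl u)) - x (Sum.inr j)) +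
      (if j = j₀ then 1 else 0) * x (Sum.inr j) + rl κ s (rs x) j α := by
  unfold BO B0
  rw [Lp_single, rl_j s hs1, dg_inr, row_inr, Fintype.sum_sum_type, add_right_comm]
  rfl

end fr

section c1
variable {U ι : Type} [Fintype U] [Fintype ι] [LinearOrder ι] {κ : ι → Prop}
  {e : U → ZMod 3} {s : ι → ZMod 3} {A : U → U → ZMod 3} {B : U → ι → ZMod 3}
  {j₀ : {i // κ i}}

/-- the functions of the kernel vanish at the base point -/
theorem ker_base {ι : Type} [Fintype ι] {c : ι → ι → ZMod 3} (hc : ∀ i j, c i j = c j i)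
    {S : Finset ι} (hS : ∀ i j, i ∉ S → c i j = 0) {j₀ : ι} (hj : j₀ ∈ S) {x : ι → ZMod 3}
    (hx : Lp c (dg S j₀) x = 0) : x j₀ = 0 := by
  have h := mem_kerLp.1 (LinearMap.mem_ker.2 hx)
  have hone : ∀ i, ∑ j, c i j * ((if j ∈ S then (1 : (ZMod 3)) else 0) -
      (if i ∈ S then (1 : (ZMod 3)) else 0)) = 0 := by
    intro i
    refine sum_eq_zero fun j _ => ?_
    by_cases hi : i ∈ S
    · by_cases hj' : j ∈ S
      · rw [if_pos hi, if_pos hj', sub_self, mul_zero]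
      · rw [hc, hS j i hj', zero_mul]
    · rw [hS i j hi, zero_mul]
  have h5 : ∀ i, i ∉ S → x i = 0 := by
    intro i hi
    have h6 := h i
    rw [sum_eq_zero fun j _ => by rw [hS i j hi, zero_mul], zero_add] at h6
    unfold dg at h6
    rw [if_pos (Or.inl hi), one_mul] at h6
    exact h6
  have h7 : Lp c (dg S j₀) x (fun i => if i ∈ S then (1 : (ZMod 3)) else 0) = 0 := by
    rw [hx, LinearMap.zero_apply]
  rw [Lp_symm hc, Lp_apply] at h7
  have h8 : ∀ i, (∑ j, c i j * ((if j ∈ S then (1 : (ZMod 3)) else 0) -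
      (if i ∈ S then (1 : (ZMod 3)) else 0)) +
      dg S j₀ i * (if i ∈ S then (1 : (ZMod 3)) else 0)) * x i = if i = j₀ then x i else 0 := by
    intro i
    rw [hone i, zero_add]
    unfold dg
    by_cases h9 : i ∈ S
    · by_cases h10 : i = j₀
      · rw [if_pos (Or.inr h10), if_pos h9, if_pos h10, one_mul, one_mul]
      · rw [if_neg (by tauto), if_neg h10, zero_mul, zero_mul]
    · rw [h5 i h9, mul_zero]
      split_ifs <;> rfl
  rw [sum_congr rfl fun i _ => h8 i, sum_ite_eq' univ j₀ x, if_pos (mem_univ _)] at h7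
  exact h7

theorem AA_symm {A : U → U → ZMod 3} (hA : ∀ u v, A u v = A v u) (B : U → ι → ZMod 3)
    (α : prs ι → ZMod 3) (i j : U ⊕ {i // ¬ κ i}) :
    AA κ A B (Pool.Agent.Y703.XK.ext α) i j = AA κ A B (Pool.Agent.Y703.XK.ext α) j i := by
  rcases i with u | q <;> rcases j with v | q' <;> simp only [AA]
  · exact hA u v
  · exact ext_symm α q q'

/-- the form is not degenerate on the functions constant on the large vertices -/
theorem nd_const (hA : ∀ u v, A u v = A v u) (hs1 : ∀ j, κ j → s j = 1)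
    (hB : ∀ w : U → ZMod 3, w ≠ 0 → ∃ j, κ j ∧ ∑ u, w u * B u j ≠ 0)
    {α : prs ι → ZMod 3} {w : (U ⊕ {i // ¬ κ i}) ⊕ {i // κ i} → ZMod 3}
    (hw : w ∈ W0 (U ⊕ {i // ¬ κ i}) {i // κ i})
    (hq : ∀ q : {i // ¬ κ i}, w (Sum.inl (Sum.inr q)) = w (Sum.inr j₀))
    (h0 : BO κ e s A B j₀ α w = 0) : w = 0 := by
  have h4 : w (Sum.inr j₀) = 0 := by
    have h5 := h0
    unfold BO B0 at h5
    exact ker_base (cc_symm (AA_symm hA B α) fun _ _ => rfl) (fun i j h => cc_zero i j h)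
      mem_Sk_inr h5
  have h2 : ∀ j : {i // κ i},
      ∑ u, e u * (w (Sum.inl (Sum.inl u)) - w (Sum.inr j₀)) * B u j = 0 := by
    intro j
    have h3 : BO κ e s A B j₀ α w (Pi.single (Sum.inr j) 1) = 0 := by
      rw [h0, LinearMap.zero_apply]
    rw [BO_j e A B α j₀ hs1, rl_j s hs1, sum_eq_zero (s := univ (α := {i // ¬ κ i})), add_zero,
      hw j j₀] at h3
    · rw [h4, mul_zero, add_zero] at h3
      rw [h4]
      refine Eq.trans ?_ h3
      exact sum_congr rfl fun u _ => by ring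
    · intro q _
      rw [hq, hw j j₀, sub_self, mul_zero]
  have h3 : (fun u => e u * (w (Sum.inl (Sum.inl u)) - w (Sum.inr j₀))) = 0 := by
    by_contra hne
    obtain ⟨j, hj, hj0⟩ := hB _ hne
    exact hj0 (h2 ⟨j, hj⟩)
  funext i
  rw [Pi.zero_apply]
  rcases i with (u | q) | j
  · by_cases he : e u = 0
    · have h5 : BO κ e s A B j₀ α w (Pi.single (Sum.inl (Sum.inl u)) 1) = 0 := by
        rw [h0, LinearMap.zero_apply]
      unfold BO B0 at h5
      have h6 : (Sum.inl (Sum.inl u) : (U ⊕ {i // ¬ κ i}) ⊕ {i // κ i}) ∉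
          Sk {i // κ i} (es κ e s) := by
        rw [mem_Sk_inl, not_not]
        exact he
      rw [Lp_single, sum_eq_zero fun i _ => by rw [cc_zero _ _ h6, zero_mul], zero_add] at h5
      unfold dg at h5
      rw [if_pos (Or.inl h6), one_mul] at h5
      exact h5
    · have h6 : e u * (w (Sum.inl (Sum.inl u)) - w (Sum.inr j₀)) = 0 := congrFun h3 u
      rw [h4, sub_zero] at h6
      exact (mul_eq_zero.1 h6).resolve_left he
  · rw [hq, h4]
  · rw [hw j j₀, h4]

theorem card_W0 : (univ.filter fun w : (U ⊕ {i // ¬ κ i}) ⊕ {i // κ i} → ZMod 3 =>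
    w ∈ W0 (U ⊕ {i // ¬ κ i}) {i // κ i}).card ≤
    3 ^ (Fintype.card U + Fintype.card {i // ¬ κ i} + 1) := by
  by_cases hne : Nonempty {i // κ i}
  · obtain ⟨j₀⟩ := hne
    rw [card_sub]
    have h1 := finrank_W0 (U := U ⊕ {i // ¬ κ i}) j₀
    rw [Fintype.card_sum] at h1
    exact Nat.pow_le_pow_right (by norm_num) h1
  · refine (card_le_univ _).trans ?_
    rw [Fintype.card_fun, ZMod.card, Fintype.card_sum, Fintype.card_sum,
      Fintype.card_eq_zero_iff.2 (not_nonempty_iff.1 hne), add_zero]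
    exact Nat.pow_le_pow_right (by norm_num) (Nat.le_succ _)

theorem card_QJ : Fintype.card {i // ¬ κ i} + Fintype.card {i // κ i} = Fintype.card ι := by
  have h1 := Fintype.card_subtype_compl κ
  have h2 := Fintype.card_subtype_le κ
  omega

/-- the exceptional matrices of the first kind -/
theorem c1 (hA : ∀ u v, A u v = A v u) (hs1 : ∀ j, κ j → s j = 1) (hs0 : ∀ i, s i ≠ 0)
    (hB : ∀ w : U → ZMod 3, w ≠ 0 → ∃ j, κ j ∧ ∑ u, w u * B u j ≠ 0) :
    (univ.filter fun α : prs ι → ZMod 3 =>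
      ¬ Nd (BO κ e s A B j₀ α) (W0 (U ⊕ {i // ¬ κ i}) {i // κ i})).card *
      3 ^ Fintype.card {i // κ i} ≤
      Fintype.card (prs ι → ZMod 3) * 3 ^ (Fintype.card U + 2) := by
  set 𝒲 := (univ.filter fun w : (U ⊕ {i // ¬ κ i}) ⊕ {i // κ i} → ZMod 3 =>
    w ∈ W0 (U ⊕ {i // ¬ κ i}) {i // κ i}) with h𝒲
  set 𝒲' := 𝒲.filter fun w => ∃ q : {i // ¬ κ i}, w (Sum.inl (Sum.inr q)) ≠ w (Sum.inr j₀)
    with h𝒲'
  set c : ((U ⊕ {i // ¬ κ i}) ⊕ {i // κ i} → ZMod 3) → ι → ZMod 3 := fun w i =>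
    if h : κ i then -(∑ u, e u * B u i * (w (Sum.inl (Sum.inl u)) - w (Sum.inr ⟨i, h⟩)) +
      (if (⟨i, h⟩ : {i // κ i}) = j₀ then 1 else 0) * w (Sum.inr ⟨i, h⟩))
    else -∑ u, s i * e u * B u i * (w (Sum.inl (Sum.inl u)) - w (Sum.inl (Sum.inr ⟨i, h⟩)))
    with hc
  set L : ((U ⊕ {i // ¬ κ i}) ⊕ {i // κ i} → ZMod 3) → (prs ι → ZMod 3) →ₗ[ZMod 3] (ι → ZMod 3) :=
    fun w => LinearMap.pi fun i => rl κ s (rs w) i with hL
  have h1 : (univ.filter fun α : prs ι → ZMod 3 =>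
      ¬ Nd (BO κ e s A B j₀ α) (W0 (U ⊕ {i // ¬ κ i}) {i // κ i})) ⊆
      𝒲'.biUnion fun w => univ.filter fun α => L w α = c w := by
    intro α hα
    rw [mem_filter] at hα
    have h2 := hα.2
    unfold Nd at h2
    push Not at h2
    obtain ⟨w, hw, hw0, hne⟩ := h2
    rw [mem_biUnion]
    refine ⟨w, ?_, ?_⟩
    · rw [h𝒲', mem_filter, h𝒲, mem_filter]
      refine ⟨⟨mem_univ _, hw⟩, ?_⟩
      by_contra hno
      push Not at hno
      exact hne (nd_const hA hs1 hB hw hno hw0)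
    · rw [mem_filter]
      refine ⟨mem_univ _, funext fun i => ?_⟩
      rw [hL, hc]
      show rl κ s (rs w) i α = _
      by_cases hi : κ i
      · have h3 := BO_j e A B α j₀ hs1 w ⟨i, hi⟩
        rw [hw0, LinearMap.zero_apply] at h3
        simp only [dif_pos hi]
        exact (neg_eq_of_add_eq_zero_right h3.symm).symm
      · have h3 := BO_q e A B α j₀ hs1 hs0 w ⟨i, hi⟩
        rw [hw0, LinearMap.zero_apply] at h3
        simp only [dif_neg hi]
        exact (neg_eq_of_add_eq_zero_right h3.symm).symm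
  have h2 : ∀ w ∈ 𝒲', (univ.filter fun α => L w α = c w).card * 3 ^ Fintype.card ι ≤
      Fintype.card (prs ι → ZMod 3) * 3 := by
    intro w hw
    rw [h𝒲', mem_filter, h𝒲, mem_filter] at hw
    obtain ⟨⟨-, hw1⟩, q, hq⟩ := hw
    refine (fm (L w) (c w)).trans (Nat.mul_le_mul_left _ ?_)
    have h3 : (univ.filter fun ζ : ι → ZMod 3 => ∀ ω, ∑ i, ζ i * L w ω i = 0) ⊆
        univ.image fun (a : ZMod 3) (_ : ι) => a := by
      intro ζ hζ
      rw [mem_filter] at hζ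
      rw [mem_image]
      refine ⟨ζ j₀, mem_univ _, funext fun i => ?_⟩
      symm
      refine rel_const (κ := κ) (s := s) (x := rs w) (ζ := ζ) hs0 (j := j₀) ?_ (q := q) ?_
        (fun α => hζ.2 α) i
      · intro j hj
        have e1 := rs_j w ⟨j, hj⟩
        have e2 := rs_j w j₀
        rw [e2, ← hw1 ⟨j, hj⟩ j₀, ← e1]
      · rw [rs_q, rs_j]
        exact hq
    refine (card_le_card h3).trans (card_image_le.trans ?_)
    rw [card_univ, ZMod.card]
  have h3 : (univ.filter fun α : prs ι → ZMod 3 =>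
      ¬ Nd (BO κ e s A B j₀ α) (W0 (U ⊕ {i // ¬ κ i}) {i // κ i})).card * 3 ^ Fintype.card ι ≤
      3 ^ (Fintype.card U + Fintype.card {i // ¬ κ i} + 1) *
        (Fintype.card (prs ι → ZMod 3) * 3) := by
    calc _ ≤ (∑ w ∈ 𝒲', (univ.filter fun α => L w α = c w).card) * 3 ^ Fintype.card ι :=
          Nat.mul_le_mul_right _ ((card_le_card h1).trans card_biUnion_le)
      _ = ∑ w ∈ 𝒲', (univ.filter fun α => L w α = c w).card * 3 ^ Fintype.card ι := sum_mul _ _ _
      _ ≤ ∑ w ∈ 𝒲', Fintype.card (prs ι → ZMod 3) * 3 := sum_le_sum h2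
      _ = 𝒲'.card * (Fintype.card (prs ι → ZMod 3) * 3) := by rw [sum_const, smul_eq_mul]
      _ ≤ _ := Nat.mul_le_mul_right _ ((card_filter_le _ _).trans card_W0)
  rw [← card_QJ (κ := κ)] at h3
  have h4 : (0 : ℕ) < 3 ^ Fintype.card {i // ¬ κ i} := by positivity
  refine Nat.le_of_mul_le_mul_left ?_ h4
  calc _ = _ := by ring
    _ ≤ _ := h3
    _ = _ := by ring

/-- the exceptional matrices of the second kind -/
theorem c2 (hs1 : ∀ j, κ j → s j = 1) (hs0 : ∀ i, s i ≠ 0) (d : ℕ) :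
    (univ.filter fun α : prs ι → ZMod 3 =>
      ¬ finrank (ZMod 3) ↥(W0 (U ⊕ {i // ¬ κ i}) {i // κ i} ⊓
        Nn (BO κ e s A B j₀ α) (W0 (U ⊕ {i // ¬ κ i}) {i // κ i})) ≤ d).card * 3 ^ (d + 1) ≤
      Fintype.card (prs ι → ZMod 3) * (2 * 3 ^ (Fintype.card U + 1)) := by
  set V := (U ⊕ {i // ¬ κ i}) ⊕ {i // κ i} → ZMod 3 with hV
  set 𝒲 := (univ.filter fun w : V => w ∈ W0 (U ⊕ {i // ¬ κ i}) {i // κ i}) with h𝒲
  set P : (prs ι → ZMod 3) → V → Prop := fun α w =>
    w ∈ Nn (BO κ e s A B j₀ α) (W0 (U ⊕ {i // ¬ κ i}) {i // κ i}) with hP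
  -- the mean
  have h1 : (univ.filter fun α : prs ι → ZMod 3 =>
      ¬ finrank (ZMod 3) ↥(W0 (U ⊕ {i // ¬ κ i}) {i // κ i} ⊓
        Nn (BO κ e s A B j₀ α) (W0 (U ⊕ {i // ¬ κ i}) {i // κ i})) ≤ d).card * 3 ^ (d + 1) ≤
      ∑ α : prs ι → ZMod 3, (𝒲.filter fun w => P α w).card := by
    have h2 : ∀ α ∈ (univ.filter fun α : prs ι → ZMod 3 =>
      ¬ finrank (ZMod 3) ↥(W0 (U ⊕ {i // ¬ κ i}) {i // κ i} ⊓
        Nn (BO κ e s A B j₀ α) (W0 (U ⊕ {i // ¬ κ i}) {i // κ i})) ≤ d),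
        3 ^ (d + 1) ≤ (𝒲.filter fun w => P α w).card := by
      intro α hα
      rw [mem_filter, not_le] at hα
      have h3 : (𝒲.filter fun w => P α w) = (univ.filter fun w : V =>
          w ∈ W0 (U ⊕ {i // ¬ κ i}) {i // κ i} ⊓
            Nn (BO κ e s A B j₀ α) (W0 (U ⊕ {i // ¬ κ i}) {i // κ i})) := by
        ext w
        rw [h𝒲, mem_filter, mem_filter, mem_filter, Submodule.mem_inf]
        exact ⟨fun h => ⟨h.1.1, h.1.2, h.2⟩, fun h => ⟨⟨h.1, h.2.1⟩, h.2.2⟩⟩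
      rw [h3, card_sub]
      exact Nat.pow_le_pow_right (by norm_num) hα.2
    refine (le_of_eq ?_).trans ((sum_le_sum h2).trans
      (sum_le_sum_of_subset (filter_subset _ _)))
    rw [sum_const, smul_eq_mul]
  refine h1.trans ?_
  have h2 : ∑ α : prs ι → ZMod 3, (𝒲.filter fun w => P α w).card =
      ∑ w ∈ 𝒲, (univ.filter fun α : prs ι → ZMod 3 => P α w).card :=
    sum_card_bipartiteAbove_eq_sum_card_bipartiteBelow (s := univ) (t := 𝒲) P
  rw [h2]
  set 𝒲₁ := 𝒲.filter fun w => ∃ q : {i // ¬ κ i}, w (Sum.inl (Sum.inr q)) ≠ w (Sum.inr j₀)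
    with h𝒲₁
  set 𝒲₂ := 𝒲.filter fun w => ¬ ∃ q : {i // ¬ κ i}, w (Sum.inl (Sum.inr q)) ≠ w (Sum.inr j₀)
    with h𝒲₂
  have h3 : ∑ w ∈ 𝒲, (univ.filter fun α : prs ι → ZMod 3 => P α w).card =
      ∑ w ∈ 𝒲₁, (univ.filter fun α : prs ι → ZMod 3 => P α w).card +
      ∑ w ∈ 𝒲₂, (univ.filter fun α : prs ι → ZMod 3 => P α w).card :=
    (sum_filter_add_sum_filter_not _ _ _).symm
  -- the second part
  have h4 : ∑ w ∈ 𝒲₂, (univ.filter fun α : prs ι → ZMod 3 => P α w).card ≤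
      3 ^ (Fintype.card U + 1) * Fintype.card (prs ι → ZMod 3) := by
    have h5 : 𝒲₂.card ≤ 3 ^ (Fintype.card U + 1) := by
      have h6 : 𝒲₂.card ≤ (univ : Finset ((U → ZMod 3) × ZMod 3)).card := by
        refine card_le_card_of_injOn (fun w => (fun u => w (Sum.inl (Sum.inl u)), w (Sum.inr j₀)))
          (fun _ _ => mem_coe.2 (mem_univ _)) ?_
        intro w hw w' hw' h
        rw [mem_coe, h𝒲₂, mem_filter, h𝒲, mem_filter] at hw hw'
        obtain ⟨⟨-, hw1⟩, hw2⟩ := hw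
        obtain ⟨⟨-, hw1'⟩, hw2'⟩ := hw'
        push Not at hw2 hw2'
        have h7 : w (Sum.inr j₀) = w' (Sum.inr j₀) := congrArg Prod.snd h
        funext i
        rcases i with (u | q) | j
        · exact congrFun (congrArg Prod.fst h) u
        · rw [hw2, hw2', h7]
        · rw [hw1 j j₀, hw1' j j₀, h7]
      rw [card_univ, Fintype.card_prod, Fintype.card_fun, ZMod.card] at h6
      rw [pow_succ]
      exact h6
    calc _ ≤ ∑ w ∈ 𝒲₂, Fintype.card (prs ι → ZMod 3) := sum_le_sum fun w _ => card_le_univ _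
      _ = 𝒲₂.card * Fintype.card (prs ι → ZMod 3) := by rw [sum_const, smul_eq_mul]
      _ ≤ _ := Nat.mul_le_mul_right _ h5
  -- the first part
  have h5 : ∑ w ∈ 𝒲₁, (univ.filter fun α : prs ι → ZMod 3 => P α w).card ≤
      3 ^ (Fintype.card U + 1) * Fintype.card (prs ι → ZMod 3) := by
    set c : V → {i // ¬ κ i} → ZMod 3 := fun w q =>
      -∑ u, s q * e u * B u q * (w (Sum.inl (Sum.inl u)) - w (Sum.inl (Sum.inr q))) with hc
    set L : V → (prs ι → ZMod 3) →ₗ[ZMod 3] ({i // ¬ κ i} → ZMod 3) :=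
      fun w => LinearMap.pi fun q => rl κ s (rs w) q with hL
    have h6 : ∀ w ∈ 𝒲₁, (univ.filter fun α : prs ι → ZMod 3 => P α w).card *
        3 ^ Fintype.card {i // ¬ κ i} ≤ Fintype.card (prs ι → ZMod 3) := by
      intro w hw
      rw [h𝒲₁, mem_filter, h𝒲, mem_filter] at hw
      obtain ⟨⟨-, hw1⟩, q, hq⟩ := hw
      have h7 : (univ.filter fun α : prs ι → ZMod 3 => P α w) ⊆
          univ.filter fun α => L w α = c w := by
        intro α hα
        rw [mem_filter] at hα ⊢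
        refine ⟨mem_univ _, funext fun q => ?_⟩
        have h8 := (mem_Nn.1 hα.2) (Pi.single (Sum.inl (Sum.inr q)) 1) (by
          intro i l
          rw [Pi.single_eq_of_ne (by simp), Pi.single_eq_of_ne (by simp)])
        rw [BO_q e A B α j₀ hs1 hs0] at h8
        exact (neg_eq_of_add_eq_zero_right h8).symm
      refine (Nat.mul_le_mul_right _ (card_le_card h7)).trans ((fm (L w) (c w)).trans ?_)
      have h8 : (univ.filter fun ζ : {i // ¬ κ i} → ZMod 3 =>
          ∀ ω, ∑ i, ζ i * L w ω i = 0) ⊆ {0} := by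
        intro ζ hζ
        rw [mem_filter] at hζ
        rw [mem_singleton]
        set ζ' : ι → ZMod 3 := fun i => if h : κ i then 0 else ζ ⟨i, h⟩ with hζ'
        have h9 : ∀ α, ∑ i, ζ' i * rl κ s (rs w) i α = 0 := by
          intro α
          rw [← hζ.2 α, ← Fintype.sum_subtype_add_sum_subtype κ,
            sum_eq_zero (s := univ (α := {i // κ i})), zero_add]
          · refine sum_congr rfl fun q _ => ?_
            rw [hζ', hL]
            simp only [dif_neg q.2]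
            rfl
          · intro j _
            rw [hζ']
            simp only [dif_pos j.2, zero_mul]
        have h10 : ∀ i, ζ' i = ζ' j₀ := by
          refine rel_const (κ := κ) (s := s) (x := rs w) (ζ := ζ') hs0 (j := j₀) ?_ (q := q) ?_ h9
          · intro j hj
            have e1 := rs_j w ⟨j, hj⟩
            have e2 := rs_j w j₀
            rw [e2, ← hw1 ⟨j, hj⟩ j₀, ← e1]
          · rw [rs_q, rs_j]
            exact hq
        funext q'
        have h11 := h10 q'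
        rw [hζ'] at h11
        simp only [dif_neg q'.2, dif_pos j₀.2] at h11
        exact h11
      refine (Nat.mul_le_mul_left _ (card_le_card h8)).trans (le_of_eq ?_)
      rw [card_singleton, mul_one]
    have h7 : (∑ w ∈ 𝒲₁, (univ.filter fun α : prs ι → ZMod 3 => P α w).card) *
        3 ^ Fintype.card {i // ¬ κ i} ≤
        3 ^ (Fintype.card U + Fintype.card {i // ¬ κ i} + 1) *
          Fintype.card (prs ι → ZMod 3) := by
      rw [sum_mul]
      refine (sum_le_sum h6).trans ?_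
      rw [sum_const, smul_eq_mul]
      exact Nat.mul_le_mul_right _ ((card_filter_le _ _).trans card_W0)
    have h8 : (0 : ℕ) < 3 ^ Fintype.card {i // ¬ κ i} := by positivity
    refine Nat.le_of_mul_le_mul_right ?_ h8
    calc _ ≤ _ := h7
      _ = _ := by ring
  rw [h3]
  calc _ ≤ _ := add_le_add h5 h4
    _ = _ := by ring

end c1

end Run7.h707.TC
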