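import Pool.Agent.Run7.h707.TC.Bd

/-! The outer part of the random matrix: the exceptional matrices of the third kind -/

set_option autoImplicit false
set_option linter.unusedSectionVars false

open scoped Classical

namespace Run7.h707.TC

open Finset Module
open Q283.T3 hiding est thmR
open Pool.Agent.Y703.XK (prs)

theorem eq_one_of_ne {a : ZMod 3} (h : a ≠ 0) : a * a = 1 := by
  revert h
  revert a
  decide

theorem eq_neg_of_ne {a b : ZMod 3} (ha : a ≠ 0) (hb : b ≠ 0) (h : a ≠ b) : b = -a := by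
  revert ha hb h
  revert a b
  decide

section c3
variable {U ι : Type} [Fintype U] [Fintype ι] [LinearOrder ι] {κ : ι → Prop}
  {e e' : U → ZMod 3} {s s' : ι → ZMod 3} {A : U → U → ZMod 3} {B : U → ι → ZMod 3}
  {j₀ : {i // κ i}}

/-- the number of the possible sets of the types -/
noncomputable def KC : ℕ := Fintype.card (ZMod 3 × ZMod 3 → Finset (Fin 4 → ZMod 3))

/-- the linear system -/
noncomputable def LJ (κ : ι → Prop) (s s' x y : ι → ZMod 3) :
    (prs ι → ZMod 3) →ₗ[ZMod 3] ({i // ¬ κ i} ⊕ ι → ZMod 3) :=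
  LinearMap.pi fun i => match i with
    | Sum.inl q => rl κ s' y q
    | Sum.inr i => rl κ s x i - (if κ i then (1 : ZMod 3) else 0) • rl κ s' y i

/-- the first multipliers -/
def z1 (κ : ι → Prop) (ζ : {i // ¬ κ i} ⊕ ι → ZMod 3) (i : ι) : ZMod 3 := ζ (Sum.inr i)

/-- the second multipliers -/
noncomputable def z2 (κ : ι → Prop) (ζ : {i // ¬ κ i} ⊕ ι → ZMod 3) (i : ι) : ZMod 3 :=
  if h : κ i then -ζ (Sum.inr i) else ζ (Sum.inl ⟨i, h⟩)

theorem sum_LJ (x y : ι → ZMod 3) (ζ : {i // ¬ κ i} ⊕ ι → ZMod 3) (α : prs ι → ZMod 3) :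
    ∑ i, ζ i * LJ κ s s' x y α i =
      ∑ i, z1 κ ζ i * rl κ s x i α + ∑ i, z2 κ ζ i * rl κ s' y i α := by
  rw [Fintype.sum_sum_type]
  have h1 : ∑ q : {i // ¬ κ i}, ζ (Sum.inl q) * LJ κ s s' x y α (Sum.inl q) =
      ∑ q : {i // ¬ κ i}, ζ (Sum.inl q) * rl κ s' y q α := rfl
  have h2 : ∀ i, LJ κ s s' x y α (Sum.inr i) =
      rl κ s x i α - (if κ i then (1 : ZMod 3) else 0) * rl κ s' y i α := fun i => rfl
  rw [h1, ← Fintype.sum_subtype_add_sum_subtype κ (fun i => z2 κ ζ i * rl κ s' y i α)]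
  have h3 : ∑ i : {i // ¬ κ i}, z2 κ ζ i * rl κ s' y i α =
      ∑ q : {i // ¬ κ i}, ζ (Sum.inl q) * rl κ s' y q α :=
    sum_congr rfl fun q _ => by
      unfold z2
      rw [dif_neg q.2]
  have h4 : ∑ i : {i // κ i}, z2 κ ζ i * rl κ s' y i α =
      -∑ i : ι, ζ (Sum.inr i) * ((if κ i then (1 : ZMod 3) else 0) * rl κ s' y i α) := by
    rw [← Fintype.sum_subtype_add_sum_subtype κ, sum_eq_zero (s := univ (α := {i // ¬ κ i})),
      add_zero, ← sum_neg_distrib]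
    · refine sum_congr rfl fun q _ => ?_
      unfold z2
      rw [dif_pos q.2, if_pos q.2]
      ring
    · intro q _
      rw [if_neg q.2, zero_mul, mul_zero]
  have h5 : ∑ i : ι, ζ (Sum.inr i) * LJ κ s s' x y α (Sum.inr i) =
      ∑ i, z1 κ ζ i * rl κ s x i α -
        ∑ i : ι, ζ (Sum.inr i) * ((if κ i then (1 : ZMod 3) else 0) * rl κ s' y i α) := by
    rw [← sum_sub_distrib]
    refine sum_congr rfl fun i _ => ?_
    rw [h2]
    unfold z1
    ring
  rw [h3, h4, h5]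
  ring

/-- the type of a vertex -/
noncomputable def ty (κ : ι → Prop) (x y : ι → ZMod 3) (ζ : {i // ¬ κ i} ⊕ ι → ZMod 3)
    (q : {i // ¬ κ i}) : Fin 4 → ZMod 3 :=
  ![x q, z1 κ ζ q, y q, -z2 κ ζ q]

theorem qf_ty {x y : ι → ZMod 3} {ζ : {i // ¬ κ i} ⊕ ι → ZMod 3} (hs0 : ∀ i, s i ≠ 0)
    (hs0' : ∀ i, s' i ≠ 0) (h : ∀ α, ∑ i, ζ i * LJ κ s s' x y α i = 0) (q q' : {i // ¬ κ i})
    (hc : ((s q, s' q) : ZMod 3 × ZMod 3) = (s q', s' q')) :
    qf (ty κ x y ζ q - ty κ x y ζ q') = 0 := by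
  by_cases hqq : q = q'
  · rw [hqq, sub_self]
    unfold qf
    simp
  have h1 : ∀ α, ∑ i, z1 κ ζ i * rl κ s x i α + ∑ i, z2 κ ζ i * rl κ s' y i α = 0 := fun α => by
    rw [← sum_LJ]
    exact h α
  have h2 := rel_pt h1 (a := (q : ι)) (b := q') (fun e => hqq (Subtype.ext e)) (fun e => q.2 e.1)
  unfold pt at h2
  have e1 : s q = s q' := congrArg Prod.fst hc
  have e2 : s' q = s' q' := congrArg Prod.snd hc
  rw [e1, e2, eq_one_of_ne (hs0 q'), eq_one_of_ne (hs0' q'), one_mul, one_mul] at h2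
  have h3 : qf (ty κ x y ζ q - ty κ x y ζ q') = -((x q' - x q) * (z1 κ ζ q - z1 κ ζ q') +
      (y q' - y q) * (z2 κ ζ q - z2 κ ζ q')) := by
    unfold qf ty
    simp only [Pi.sub_apply, Matrix.cons_val_zero, Matrix.cons_val_one, Matrix.cons_val]
    ring
  rw [h3, h2, neg_zero]

/-- the types of the vertices with weight one -/
theorem ty_j {x y : ι → ZMod 3} {ζ : {i // ¬ κ i} ⊕ ι → ZMod 3} (hs0 : ∀ i, s i ≠ 0)
    (hs0' : ∀ i, s' i ≠ 0) (hs1 : ∀ j, κ j → s j = 1) (hs1' : ∀ j, κ j → s' j = 1)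
    (h : ∀ α, ∑ i, ζ i * LJ κ s s' x y α i = 0) (q : {i // ¬ κ i}) (hq : s q ≠ s' q)
    {k : ZMod 3} (j : {i // κ i}) (hk : y j = x j - k) :
    (x j - x q) * (z1 κ ζ q - z1 κ ζ j) - (x j - (k + y q)) * (z2 κ ζ q + z1 κ ζ j) = 0 := by
  have h1 : ∀ α, ∑ i, z1 κ ζ i * rl κ s x i α + ∑ i, z2 κ ζ i * rl κ s' y i α = 0 := fun α => by
    rw [← sum_LJ]
    exact h α
  have h2 := rel_pt h1 (a := (q : ι)) (b := j) (fun e => q.2 (by rw [e]; exact j.2))
    (fun e => q.2 e.1)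
  have e1 : z2 κ ζ j = -z1 κ ζ j := by
    unfold z2 z1
    rw [dif_pos j.2]
  unfold pt at h2
  rw [hs1 j j.2, hs1' j j.2, eq_neg_of_ne (hs0 q) (hs0' q) hq, hk, e1] at h2
  have h3 : s q * ((x j - x q) * (z1 κ ζ q - z1 κ ζ j) -
      (x j - (k + y q)) * (z2 κ ζ q + z1 κ ζ j)) = 0 := by
    rw [← h2]
    ring
  exact (mul_eq_zero.1 h3).resolve_left (hs0 q)

noncomputable instance fiP (U : Type) [Fintype U] (κ : ι → Prop) :
    Fintype (((U ⊕ {i // ¬ κ i}) ⊕ {i // κ i} → ZMod 3) × ({i // ¬ κ i} ⊕ ι → ZMod 3)) :=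
  inferInstance

noncomputable instance fiT (U : Type) [Fintype U] (κ : ι → Prop) :
    Fintype (((U ⊕ {i // ¬ κ i}) ⊕ {i // κ i} → ZMod 3) ×
      (((U ⊕ {i // ¬ κ i}) ⊕ {i // κ i} → ZMod 3) × ({i // ¬ κ i} ⊕ ι → ZMod 3))) :=
  @instFintypeProd _ _ inferInstance (fiP U κ)

/-- the triples -/
noncomputable def TS (U : Type) [Fintype U] (κ : ι → Prop) (s s' : ι → ZMod 3) :
    Finset (((U ⊕ {i // ¬ κ i}) ⊕ {i // κ i} → ZMod 3) ×
      (((U ⊕ {i // ¬ κ i}) ⊕ {i // κ i} → ZMod 3) × ({i // ¬ κ i} ⊕ ι → ZMod 3))) :=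
  univ.filter fun t => t.1 - t.2.1 ∈ W0 (U ⊕ {i // ¬ κ i}) {i // κ i} ∧
    ∀ α, ∑ i, t.2.2 i * LJ κ s s' (rs t.1) (rs t.2.1) α i = 0

theorem card_TS (hs0 : ∀ i, s i ≠ 0)
    (hs0' : ∀ i, s' i ≠ 0) (hs1 : ∀ j, κ j → s j = 1) (hs1' : ∀ j, κ j → s' j = 1)
    (j₀ : {i // κ i}) (q : {i // ¬ κ i}) (hq : s q ≠ s' q) :
    (TS U κ s s').card ≤ 5 ^ Fintype.card {i // κ i} *
      (9 ^ Fintype.card U * 3 * (KC * 9 ^ Fintype.card {i // ¬ κ i})) := by
  set 𝒜 : Finset (((U → ZMod 3) × (U → ZMod 3) × ZMod 3) × ({i // ¬ κ i} → Fin 4 → ZMod 3)) :=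
    (univ : Finset ((U → ZMod 3) × (U → ZMod 3) × ZMod 3)) ×ˢ
      (univ.filter fun f : {i // ¬ κ i} → Fin 4 → ZMod 3 =>
        ∀ q q' : {i // ¬ κ i}, ((s q, s' q) : ZMod 3 × ZMod 3) = (s q', s' q') →
          qf (f q - f q') = 0) with h𝒜
  have h1 : 𝒜.card ≤ 9 ^ Fintype.card U * 3 * (KC * 9 ^ Fintype.card {i // ¬ κ i}) := by
    rw [h𝒜, card_product]
    refine Nat.mul_le_mul (le_of_eq ?_) (card_cl fun q : {i // ¬ κ i} => (s q, s' q))
    rw [card_univ, Fintype.card_prod, Fintype.card_prod, Fintype.card_fun, ZMod.card, ← mul_assoc,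
      ← mul_pow]
    norm_num
  refine (card_le_mul_card_image_of_maps_to (t := 𝒜)
    (f := fun t => (((fun u => t.1 (Sum.inl (Sum.inl u))), (fun u => t.2.1 (Sum.inl (Sum.inl u))),
      t.1 (Sum.inr j₀) - t.2.1 (Sum.inr j₀)), ty κ (rs t.1) (rs t.2.1) t.2.2)) ?_
    (5 ^ Fintype.card {i // κ i}) ?_).trans (Nat.mul_le_mul_left _ h1)
  · intro t ht
    unfold TS at ht
    rw [mem_filter] at ht
    rw [h𝒜, mem_product]
    refine ⟨mem_univ _, mem_filter.2 ⟨mem_univ _, fun q q' hc => ?_⟩⟩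
    exact qf_ty hs0 hs0' ht.2.2 q q' hc
  · intro a _
    set Fv : Finset (ZMod 3 × ZMod 3) := univ.filter fun p : ZMod 3 × ZMod 3 =>
      (p.1 - a.2 q 0) * (a.2 q 1 - p.2) - (p.1 - (a.1.2.2 + a.2 q 2)) * (-a.2 q 3 + p.2) = 0
      with hFv
    have h2 : Fv.card ≤ 5 := five _ _ _ _
    have h3 : (Fintype.piFinset fun _ : {i // κ i} => Fv).card ≤ 5 ^ Fintype.card {i // κ i} := by
      rw [Fintype.card_piFinset, prod_const, card_univ]
      exact Nat.pow_le_pow_left h2 _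
    refine le_trans (card_le_card_of_injOn
      (fun t j => (t.1 (Sum.inr j), z1 κ t.2.2 j)) ?_ ?_) h3
    · intro t ht
      rw [mem_coe, mem_filter] at ht
      obtain ⟨ht, ha⟩ := ht
      unfold TS at ht
      rw [mem_filter] at ht
      rw [mem_coe, Fintype.mem_piFinset]
      intro j
      rw [hFv, mem_filter]
      refine ⟨mem_univ _, ?_⟩
      rw [← ha]
      show (t.1 (Sum.inr j) - rs t.1 q) * (z1 κ t.2.2 q - z1 κ t.2.2 j) -
        (t.1 (Sum.inr j) - ((t.1 (Sum.inr j₀) - t.2.1 (Sum.inr j₀)) + rs t.2.1 q)) *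
          (- -z2 κ t.2.2 q + z1 κ t.2.2 j) = 0
      rw [neg_neg, ← rs_j t.1 j]
      refine ty_j hs0 hs0' hs1 hs1' ht.2.2 q hq j ?_
      rw [rs_j, rs_j]
      have h4 : (t.1 - t.2.1) (Sum.inr j) = (t.1 - t.2.1) (Sum.inr j₀) := ht.2.1 j j₀
      rw [Pi.sub_apply, Pi.sub_apply] at h4
      rw [← h4]
      ring
    · intro t ht t' ht' h
      rw [mem_coe, mem_filter] at ht ht'
      obtain ⟨ht, ha⟩ := ht
      obtain ⟨ht', ha'⟩ := ht'
      unfold TS at ht ht'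
      rw [mem_filter] at ht ht'
      rw [← ha'] at ha
      have a1 : ∀ u, t.1 (Sum.inl (Sum.inl u)) = t'.1 (Sum.inl (Sum.inl u)) := fun u =>
        congrFun (congrArg (fun z => z.1.1) ha) u
      have a2 : ∀ u, t.2.1 (Sum.inl (Sum.inl u)) = t'.2.1 (Sum.inl (Sum.inl u)) := fun u =>
        congrFun (congrArg (fun z => z.1.2.1) ha) u
      have a3 : t.1 (Sum.inr j₀) - t.2.1 (Sum.inr j₀) =
        t'.1 (Sum.inr j₀) - t'.2.1 (Sum.inr j₀) := congrArg (fun z => z.1.2.2) ha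
      have a4 : ∀ q, ty κ (rs t.1) (rs t.2.1) t.2.2 q = ty κ (rs t'.1) (rs t'.2.1) t'.2.2 q :=
        fun q => congrFun (congrArg (fun z => z.2) ha) q
      have a5 : ∀ q : {i // ¬ κ i}, t.1 (Sum.inl (Sum.inr q)) = t'.1 (Sum.inl (Sum.inr q)) := by
        intro q
        rw [← rs_q t.1 q, ← rs_q t'.1 q]
        exact congrFun (a4 q) 0
      have a6 : ∀ q : {i // ¬ κ i}, z1 κ t.2.2 q = z1 κ t'.2.2 q := fun q => congrFun (a4 q) 1
      have a7 : ∀ q : {i // ¬ κ i}, t.2.1 (Sum.inl (Sum.inr q)) = t'.2.1 (Sum.inl (Sum.inr q)) := by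
        intro q
        rw [← rs_q t.2.1 q, ← rs_q t'.2.1 q]
        exact congrFun (a4 q) 2
      have a8 : ∀ q : {i // ¬ κ i}, z2 κ t.2.2 q = z2 κ t'.2.2 q := fun q =>
        neg_inj.1 (congrFun (a4 q) 3)
      have a9 : ∀ j : {i // κ i}, t.1 (Sum.inr j) = t'.1 (Sum.inr j) := fun j =>
        congrArg Prod.fst (congrFun h j)
      have a10 : ∀ j : {i // κ i}, z1 κ t.2.2 j = z1 κ t'.2.2 j := fun j =>
        congrArg Prod.snd (congrFun h j)
      have b1 : t.1 = t'.1 := by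
        funext i
        rcases i with (u | q) | j
        · exact a1 u
        · exact a5 q
        · exact a9 j
      have b2 : t.2.1 = t'.2.1 := by
        funext i
        rcases i with (u | q) | j
        · exact a2 u
        · exact a7 q
        · have c1 : (t.1 - t.2.1) (Sum.inr j) = (t.1 - t.2.1) (Sum.inr j₀) := ht.2.1 j j₀
          have c2 : (t'.1 - t'.2.1) (Sum.inr j) = (t'.1 - t'.2.1) (Sum.inr j₀) := ht'.2.1 j j₀
          rw [Pi.sub_apply, Pi.sub_apply] at c1 c2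
          have c3 := a9 j
          have c4 : t.2.1 (Sum.inr j) = t.1 (Sum.inr j) -
              (t.1 (Sum.inr j₀) - t.2.1 (Sum.inr j₀)) := by rw [← c1]; ring
          have c5 : t'.2.1 (Sum.inr j) = t'.1 (Sum.inr j) -
              (t'.1 (Sum.inr j₀) - t'.2.1 (Sum.inr j₀)) := by rw [← c2]; ring
          rw [c4, c5, c3, a3]
      have b3 : t.2.2 = t'.2.2 := by
        funext i
        rcases i with q | i
        · have c1 := a8 q
          unfold z2 at c1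
          rw [dif_neg q.2, dif_neg q.2] at c1
          exact c1
        · by_cases hi : κ i
          · exact a10 ⟨i, hi⟩
          · exact a6 ⟨i, hi⟩
      exact Prod.ext b1 (Prod.ext b2 b3)

/-- the exceptional matrices of the third kind -/
theorem c3 (hs0 : ∀ i, s i ≠ 0)
    (hs0' : ∀ i, s' i ≠ 0) (hs1 : ∀ j, κ j → s j = 1) (hs1' : ∀ j, κ j → s' j = 1)
    (q : {i // ¬ κ i}) (hq : s q ≠ s' q) (d : ℕ) :
    (univ.filter fun α : prs ι → ZMod 3 =>
      ¬ finrank (ZMod 3) (JJ (BO κ e s A B j₀ α) (BO κ e' s' A B j₀ α)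
        (W0 (U ⊕ {i // ¬ κ i}) {i // κ i})) ≤ d).card * 3 ^ (d + 1) *
        3 ^ Fintype.card {i // κ i} ≤
      Fintype.card (prs ι → ZMod 3) * (3 * KC * 9 ^ Fintype.card U *
        5 ^ Fintype.card {i // κ i}) := by
  set V := (U ⊕ {i // ¬ κ i}) ⊕ {i // κ i} → ZMod 3 with hV
  set 𝒲 := (univ.filter fun w : V × V => w.1 - w.2 ∈ W0 (U ⊕ {i // ¬ κ i}) {i // κ i}) with h𝒲
  set P : (prs ι → ZMod 3) → V × V → Prop := fun α w =>
    w ∈ JJ (BO κ e s A B j₀ α) (BO κ e' s' A B j₀ α) (W0 (U ⊕ {i // ¬ κ i}) {i // κ i}) with hP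
  have h1 : (univ.filter fun α : prs ι → ZMod 3 =>
      ¬ finrank (ZMod 3) (JJ (BO κ e s A B j₀ α) (BO κ e' s' A B j₀ α)
        (W0 (U ⊕ {i // ¬ κ i}) {i // κ i})) ≤ d).card * 3 ^ (d + 1) ≤
      ∑ α : prs ι → ZMod 3, (𝒲.filter fun w => P α w).card := by
    have h2 : ∀ α ∈ (univ.filter fun α : prs ι → ZMod 3 =>
      ¬ finrank (ZMod 3) (JJ (BO κ e s A B j₀ α) (BO κ e' s' A B j₀ α)
        (W0 (U ⊕ {i // ¬ κ i}) {i // κ i})) ≤ d),
        3 ^ (d + 1) ≤ (𝒲.filter fun w => P α w).card := by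
      intro α hα
      rw [mem_filter, not_le] at hα
      have h3 : (𝒲.filter fun w => P α w) = (univ.filter fun w : V × V =>
          w ∈ JJ (BO κ e s A B j₀ α) (BO κ e' s' A B j₀ α)
            (W0 (U ⊕ {i // ¬ κ i}) {i // κ i})) := by
        ext w
        rw [h𝒲, mem_filter, mem_filter, mem_filter]
        exact ⟨fun h => ⟨h.1.1, h.2⟩, fun h => ⟨⟨h.1, h.2.1⟩, h.2⟩⟩
      rw [h3, card_sub]
      exact Nat.pow_le_pow_right (by norm_num) hα.2
    refine (le_of_eq ?_).trans ((sum_le_sum h2).trans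
      (sum_le_sum_of_subset (filter_subset _ _)))
    rw [sum_const, smul_eq_mul]
  have h2 : ∑ α : prs ι → ZMod 3, (𝒲.filter fun w => P α w).card =
      ∑ w ∈ 𝒲, (univ.filter fun α : prs ι → ZMod 3 => P α w).card :=
    sum_card_bipartiteAbove_eq_sum_card_bipartiteBelow (s := univ) (t := 𝒲) P
  rw [h2] at h1
  -- the systems
  set c : V × V → {i // ¬ κ i} ⊕ ι → ZMod 3 := fun w i => match i with
    | Sum.inl q => -∑ u, s' q * e' u * B u q *
        (w.2 (Sum.inl (Sum.inl u)) - w.2 (Sum.inl (Sum.inr q)))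
    | Sum.inr i => if h : κ i then
        (∑ u, e' u * B u i * (w.2 (Sum.inl (Sum.inl u)) - w.2 (Sum.inr ⟨i, h⟩)) +
          (if (⟨i, h⟩ : {i // κ i}) = j₀ then 1 else 0) * w.2 (Sum.inr ⟨i, h⟩)) -
        (∑ u, e u * B u i * (w.1 (Sum.inl (Sum.inl u)) - w.1 (Sum.inr ⟨i, h⟩)) +
          (if (⟨i, h⟩ : {i // κ i}) = j₀ then 1 else 0) * w.1 (Sum.inr ⟨i, h⟩))
      else -∑ u, s i * e u * B u i *
        (w.1 (Sum.inl (Sum.inl u)) - w.1 (Sum.inl (Sum.inr ⟨i, h⟩))) with hc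
  have h3 : ∀ w ∈ 𝒲, (univ.filter fun α : prs ι → ZMod 3 => P α w).card *
      3 ^ (Fintype.card {i // ¬ κ i} + Fintype.card ι) ≤ Fintype.card (prs ι → ZMod 3) *
        (univ.filter fun ζ : {i // ¬ κ i} ⊕ ι → ZMod 3 =>
          ∀ α, ∑ i, ζ i * LJ κ s s' (rs w.1) (rs w.2) α i = 0).card := by
    intro w hw
    have h4 : (univ.filter fun α : prs ι → ZMod 3 => P α w) ⊆
        univ.filter fun α => LJ κ s s' (rs w.1) (rs w.2) α = c w := by
      intro α hα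
      rw [mem_filter] at hα ⊢
      obtain ⟨hw1, hw2, hw3⟩ := mem_JJ.1 hα.2
      have hsq : ∀ q : {i // ¬ κ i}, (Pi.single (Sum.inl (Sum.inr q)) 1 : V) ∈
          W0 (U ⊕ {i // ¬ κ i}) {i // κ i} := by
        intro q i l
        rw [Pi.single_eq_of_ne (by simp), Pi.single_eq_of_ne (by simp)]
      refine ⟨mem_univ _, funext fun i => ?_⟩
      rcases i with q | i
      · show rl κ s' (rs w.2) q α = -∑ u, s' q * e' u * B u q *
          (w.2 (Sum.inl (Sum.inl u)) - w.2 (Sum.inl (Sum.inr q)))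
        have h5 := hw3 _ (hsq q)
        rw [hw2, BO_q e' A B α j₀ hs1' hs0'] at h5
        exact (neg_eq_of_add_eq_zero_right h5).symm
      · show rl κ s (rs w.1) i α - (if κ i then (1 : ZMod 3) else 0) * rl κ s' (rs w.2) i α = _
        by_cases hi : κ i
        · have h5 := LinearMap.congr_fun hw2 (Pi.single (Sum.inr (⟨i, hi⟩ : {i // κ i})) 1)
          rw [BO_j e A B α j₀ hs1, BO_j e' A B α j₀ hs1'] at h5
          rw [if_pos hi, one_mul, hc]
          simp only [dif_pos hi]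
          have h6 : ∀ a b c d : ZMod 3, a + b = c + d → b - d = c - a := by decide
          exact h6 _ _ _ _ h5
        · have h5 := hw3 _ (hsq ⟨i, hi⟩)
          rw [BO_q e A B α j₀ hs1 hs0] at h5
          rw [if_neg hi, zero_mul, sub_zero, hc]
          simp only [dif_neg hi]
          exact (neg_eq_of_add_eq_zero_right h5).symm
    refine (Nat.mul_le_mul_right _ (card_le_card h4)).trans ?_
    have h5 := fm (LJ κ s s' (rs w.1) (rs w.2)) (c w)
    rw [Fintype.card_sum] at h5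
    exact h5
  have h4 : (∑ w ∈ 𝒲, (univ.filter fun α : prs ι → ZMod 3 => P α w).card) *
      3 ^ (Fintype.card {i // ¬ κ i} + Fintype.card ι) ≤
      Fintype.card (prs ι → ZMod 3) * (TS U κ s s').card := by
    rw [sum_mul]
    refine (sum_le_sum h3).trans ?_
    rw [← mul_sum]
    apply Nat.mul_le_mul_left
    rw [← card_sigma]
    refine card_le_card_of_injOn (fun t => (t.1.1, (t.1.2, t.2))) ?_ ?_
    · intro t ht
      rw [mem_coe, mem_sigma, h𝒲, mem_filter, mem_filter] at ht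
      unfold TS
      rw [mem_coe, mem_filter]
      exact ⟨mem_univ _, ht.1.2, ht.2.2⟩
    · rintro ⟨⟨x, y⟩, ζ⟩ _ ⟨⟨x', y'⟩, ζ'⟩ _ h
      simp only [Prod.mk.injEq] at h
      obtain ⟨rfl, rfl, rfl⟩ := h
      rfl
  have h5 := card_TS (U := U) hs0 hs0' hs1 hs1' j₀ q hq
  have h6 : (0 : ℕ) < 9 ^ Fintype.card {i // ¬ κ i} := by positivity
  refine Nat.le_of_mul_le_mul_right ?_ h6
  calc _ ≤ (∑ w ∈ 𝒲, (univ.filter fun α : prs ι → ZMod 3 => P α w).card) *
        3 ^ Fintype.card {i // κ i} * 9 ^ Fintype.card {i // ¬ κ i} :=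
        Nat.mul_le_mul_right _ (Nat.mul_le_mul_right _ h1)
    _ = (∑ w ∈ 𝒲, (univ.filter fun α : prs ι → ZMod 3 => P α w).card) *
        3 ^ (Fintype.card {i // ¬ κ i} + Fintype.card ι) := by
      rw [← card_QJ (κ := κ), show (9 : ℕ) = 3 * 3 by norm_num, mul_pow, pow_add, pow_add]
      ring
    _ ≤ _ := h4
    _ ≤ _ := Nat.mul_le_mul_left _ h5
    _ = _ := by ring

end c3

end Run7.h707.TC
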