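import Pool.Agent.Run7.h707.TC.LAC
import Pool.Agent.Q283.T3.Box
import Pool.Agent.N883.FF.StmC

/-! The count in a box for tuples of sets of primes -/

set_option autoImplicit false
set_option linter.unusedSectionVars false

open scoped Classical

namespace Run7.h707.TC

open Finset Module
open Pool.Agent.Y692.QS (Ei)
open Pool.Agent.Y715.T.Rec (cs)
open Pool.Agent.Y715.T.RecG (Pq)
open Pool.Agent.Y699.E (ez)
open Pool.Agent.Y703.XK (prs HB S_EQ)
open Pool.Agent.Y688.XK (lb cs_symm HB_sub ez0 ez0_coe)
open Pool.Agent.R419.KF (wt wt_one wt_ne)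
open Pool.Agent.N883.FF (nq NdB)
open Q283.T3 (KS Sk mem_Sk_inl mem_Sk_inr mem_prs ext_symm fcc2 gi cf)

/-- the symbols on a set of primes and the unit `ω` -/
noncomputable def mmO (T : Finset Ei) : Option T → Option T → ZMod 3
  | some a, some b => cs (a : Ei) b
  | none, some b => nq b
  | some a, none => nq a
  | none, none => 0

/-- the weights -/
def wO (T : Finset Ei) (e : Ei → ZMod 3) (y : ZMod 3) : Option T → ZMod 3
  | none => y
  | some a => e a

/-- the weighted symbols -/
noncomputable def co (T : Finset Ei) (e : Ei → ZMod 3) (y : ZMod 3) (a b : Option T) : ZMod 3 :=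
  if a = b then 0 else wO T e y a * wO T e y b * mmO T a b

/-- the support -/
noncomputable def So (T : Finset Ei) (e : Ei → ZMod 3) (y : ZMod 3) : Finset (Option T) :=
  univ.filter fun a => wO T e y a ≠ 0

/-- the exponent of a prime in `∏ a k ^ (σ k)`, where `S k` are the primes of `a k`, and `M k` those
with exponent two -/
noncomputable def ee {m : ℕ} (M : Fin m → Finset Ei) (σ : Fin m → ZMod 3) (S : Fin m → Finset Ei)
    (π : Ei) : ZMod 3 :=
  ∑ k, σ k * (if π ∈ S k then wt (M k) π else 0)

/-- all the primes -/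
noncomputable def Tt {m : ℕ} (S : Fin m → Finset Ei) : Finset Ei := univ.biUnion S

theorem mem_Tt {m : ℕ} {S : Fin m → Finset Ei} {π : Ei} : π ∈ Tt S ↔ ∃ k, π ∈ S k := by
  unfold Tt
  rw [mem_biUnion]
  exact ⟨fun ⟨k, _, h⟩ => ⟨k, h⟩, fun ⟨k, h⟩ => ⟨k, mem_univ _, h⟩⟩

/-- the property of the tuples: all the coranks are given -/
def GT {m Mt : ℕ} (M : Fin m → Finset Ei) (s : Fin Mt → Fin m → ZMod 3) (y : Fin Mt → ZMod 3)
    (r : Fin Mt → ℕ) (S : Fin m → Finset Ei) : Prop :=
  ∀ t, finrank (ZMod 3) (KS (co (Tt S) (ee M (s t) S) (y t)) (So (Tt S) (ee M (s t) S) (y t))) =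
    r t + 1

section one
variable {m : ℕ} {ι : Type} [Fintype ι] {col : ι → Fin m} {M S₀ : Fin m → Finset Ei} {p : ι → Ei}

/-- the filling of the small part -/
noncomputable def fill (col : ι → Fin m) (S₀ : Fin m → Finset Ei) (p : ι → Ei) (k : Fin m) :
    Finset Ei :=
  S₀ k ∪ (univ.filter fun i => col i = k).image p

theorem mem_fill_p (hp : Function.Injective p) (hd : ∀ i k, p i ∉ S₀ k) (i : ι) (k : Fin m) :
    p i ∈ fill col S₀ p k ↔ col i = k := by
  unfold fill
  rw [mem_union, mem_image]
  constructor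
  · rintro (h | ⟨j, hj, hji⟩)
    · exact absurd h (hd i k)
    · rw [mem_filter] at hj
      rw [← hp hji]
      exact hj.2
  · exact fun h => Or.inr ⟨i, mem_filter.2 ⟨mem_univ _, h⟩, rfl⟩

theorem mem_fill_u (hd : ∀ i k, p i ∉ S₀ k) {u : Ei} (hu : u ∈ Tt S₀) (k : Fin m) :
    u ∈ fill col S₀ p k ↔ u ∈ S₀ k := by
  unfold fill
  rw [mem_union, mem_image]
  constructor
  · rintro (h | ⟨j, hj, hji⟩)
    · exact h
    · obtain ⟨l, hl⟩ := mem_Tt.1 hu
      rw [← hji] at hl
      exact absurd hl (hd j l)
  · exact fun h => Or.inl h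

theorem ee_fill_p (hp : Function.Injective p) (hd : ∀ i k, p i ∉ S₀ k) (hM : ∀ k, M k ⊆ S₀ k)
    (σ : Fin m → ZMod 3) (i : ι) : ee M σ (fill col S₀ p) (p i) = σ (col i) := by
  unfold ee
  rw [sum_eq_single (col i)]
  · rw [if_pos ((mem_fill_p hp hd i _).2 rfl), wt_one (fun h => hd i _ (hM _ h)), mul_one]
  · intro k _ hk
    rw [if_neg (fun h => hk ((mem_fill_p hp hd i k).1 h).symm), mul_zero]
  · intro h
    exact absurd (mem_univ _) h

theorem ee_fill_u (hd : ∀ i k, p i ∉ S₀ k) {u : Ei} (hu : u ∈ Tt S₀) (σ : Fin m → ZMod 3) :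
    ee M σ (fill col S₀ p) u = ee M σ S₀ u := by
  unfold ee
  refine sum_congr rfl fun k _ => ?_
  rw [if_congr (mem_fill_u hd hu k) rfl rfl]

/-- the enumeration of the primes -/
noncomputable def phT (col : ι → Fin m) (S₀ : Fin m → Finset Ei) (p : ι → Ei) :
    Option ↥(Tt S₀) ⊕ ι → Option ↥(Tt (fill col S₀ p))
  | Sum.inl none => none
  | Sum.inl (some u) => some ⟨u.1, by
      obtain ⟨k, hk⟩ := mem_Tt.1 u.2
      exact mem_Tt.2 ⟨k, mem_union_left _ hk⟩⟩
  | Sum.inr i => some ⟨p i, mem_Tt.2 ⟨col i, mem_union_right _ (mem_image_of_mem _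
      (mem_filter.2 ⟨mem_univ _, rfl⟩))⟩⟩

theorem phT_bij (hp : Function.Injective p) (hd : ∀ i k, p i ∉ S₀ k) :
    Function.Bijective (phT col S₀ p) := by
  have hd' : ∀ i, p i ∉ Tt S₀ := fun i h => by
    obtain ⟨k, hk⟩ := mem_Tt.1 h
    exact hd i k hk
  constructor
  · rintro ((_ | a) | a) ((_ | b) | b) h
    · rfl
    · exact absurd h (by simp [phT])
    · exact absurd h (by simp [phT])
    · exact absurd h (by simp [phT])
    · have h' := congrArg Subtype.val (Option.some_injective _ h)
      change a.1 = b.1 at h'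
      exact congrArg (fun z => Sum.inl (some z)) (Subtype.ext h')
    · have h' := congrArg Subtype.val (Option.some_injective _ h)
      change a.1 = p b at h'
      exact absurd (h' ▸ a.2) (hd' b)
    · exact absurd h (by simp [phT])
    · have h' := congrArg Subtype.val (Option.some_injective _ h)
      change p a = b.1 at h'
      exact absurd (h' ▸ b.2) (hd' a)
    · have h' := congrArg Subtype.val (Option.some_injective _ h)
      change p a = p b at h'
      exact congrArg Sum.inr (hp h')
  · rintro (_ | ⟨x, hx⟩)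
    · exact ⟨Sum.inl none, rfl⟩
    · by_cases h : x ∈ Tt S₀
      · exact ⟨Sum.inl (some ⟨x, h⟩), rfl⟩
      · obtain ⟨k, hk⟩ := mem_Tt.1 hx
        unfold fill at hk
        rw [mem_union, mem_image] at hk
        rcases hk with hk | ⟨i, -, hi⟩
        · exact absurd (mem_Tt.2 ⟨k, hk⟩) h
        · exact ⟨Sum.inr i, congrArg some (Subtype.ext hi)⟩

/-- the symbols of the small primes and of `ω` -/
noncomputable def AO (T : Finset Ei) (a b : Option T) : ZMod 3 := if a = b then 0 else mmO T a b

/-- the labels -/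
def BO' (T : Finset Ei) (β : ι → T → ZMod 3) (γ : ι → ZMod 3) : Option T → ι → ZMod 3
  | none, i => γ i
  | some u, i => β i u

variable [LinearOrder ι]

theorem finrank_co (hp : Function.Injective p) (hd : ∀ i k, p i ∉ S₀ k) (hpr : ∀ i, Pq (p i))
    (hU : ∀ k, ∀ u ∈ S₀ k, Pq u) (hM : ∀ k, M k ⊆ S₀ k) {σ : Fin m → ZMod 3}
    (hσ : ∀ k, σ k ≠ 0) (k₀ : Fin m) (y : ZMod 3) :
    finrank (ZMod 3) (KS (co (Tt (fill col S₀ p)) (ee M σ (fill col S₀ p)) y)
      (So (Tt (fill col S₀ p)) (ee M σ (fill col S₀ p)) y)) =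
      finrank (ZMod 3) (KS (cw (fun a => wO (Tt S₀) (ee M σ S₀) y a * σ k₀)
        (fun i => σ (col i) * σ k₀) (AO (Tt S₀))
        (BO' (Tt S₀) (fun i => lb (Tt S₀) (p i)) (fun i => nq (p i)))
        (Pool.Agent.Y703.XK.ext fun e : prs ι => cs (p e.1.1) (p e.1.2)))
        (Sk ι (fun a => wO (Tt S₀) (ee M σ S₀) y a * σ k₀))) := by
  obtain ⟨E, hE⟩ : ∃ E : Option ↥(Tt S₀) ⊕ ι ≃ Option ↥(Tt (fill col S₀ p)),
      ∀ i, E i = phT col S₀ p i := ⟨Equiv.ofBijective _ (phT_bij hp hd), fun _ => rfl⟩
  have hU' : ∀ u ∈ Tt S₀, Pq u := fun u hu => by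
    obtain ⟨k, hk⟩ := mem_Tt.1 hu
    exact hU k u hk
  have hsq : σ k₀ * σ k₀ = 1 := eq_one_of_ne (hσ k₀)
  -- the weights
  have w1 : ∀ a, wO (Tt (fill col S₀ p)) (ee M σ (fill col S₀ p)) y (E (Sum.inl a)) =
      wO (Tt S₀) (ee M σ S₀) y a := by
    intro a
    rw [hE]
    cases a with
    | none => rfl
    | some u => exact ee_fill_u hd u.2 σ
  have w2 : ∀ i, wO (Tt (fill col S₀ p)) (ee M σ (fill col S₀ p)) y (E (Sum.inr i)) =
      σ (col i) := by
    intro i
    rw [hE]
    exact ee_fill_p hp hd hM σ i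
  rw [← finrank_KS_equiv E (co (Tt (fill col S₀ p)) (ee M σ (fill col S₀ p)) y)
    (Sk ι (fun a => wO (Tt S₀) (ee M σ S₀) y a * σ k₀))
    (So (Tt (fill col S₀ p)) (ee M σ (fill col S₀ p)) y)]
  · have h1 : (fun i j => co (Tt (fill col S₀ p)) (ee M σ (fill col S₀ p)) y (E i) (E j)) =
        cw (fun a => wO (Tt S₀) (ee M σ S₀) y a * σ k₀)
        (fun i => σ (col i) * σ k₀) (AO (Tt S₀))
        (BO' (Tt S₀) (fun i => lb (Tt S₀) (p i)) (fun i => nq (p i)))
        (Pool.Agent.Y703.XK.ext fun e : prs ι => cs (p e.1.1) (p e.1.2)) := by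
      funext i j
      unfold co
      rcases i with a | i
      · rcases j with b | j
        · rw [w1, w1]
          show _ = wO (Tt S₀) (ee M σ S₀) y a * σ k₀ * (wO (Tt S₀) (ee M σ S₀) y b * σ k₀) *
            AO (Tt S₀) a b
          unfold AO
          by_cases hab : a = b
          · rw [if_pos (by rw [hab]), if_pos hab, mul_zero]
          · rw [if_neg (fun h => hab (Sum.inl_injective (E.injective h))), if_neg hab]
            have h2 : mmO (Tt (fill col S₀ p)) (E (Sum.inl a)) (E (Sum.inl b)) =
                mmO (Tt S₀) a b := by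
              rw [hE, hE]
              cases a with
              | none => cases b with
                | none => rfl
                | some v => rfl
              | some u => cases b with
                | none => rfl
                | some v => rfl
            rw [h2]
            linear_combination (-(wO (Tt S₀) (ee M σ S₀) y a * wO (Tt S₀) (ee M σ S₀) y b *
              mmO (Tt S₀) a b)) * hsq
        · rw [w1, w2, if_neg (fun h => absurd (E.injective h) (by simp))]
          show _ = wO (Tt S₀) (ee M σ S₀) y a * σ k₀ * (σ (col j) * σ k₀) *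
            BO' (Tt S₀) (fun i => lb (Tt S₀) (p i)) (fun i => nq (p i)) a j
          have h2 : mmO (Tt (fill col S₀ p)) (E (Sum.inl a)) (E (Sum.inr j)) =
              BO' (Tt S₀) (fun i => lb (Tt S₀) (p i)) (fun i => nq (p i)) a j := by
            rw [hE, hE]
            cases a with
            | none => rfl
            | some u => rfl
          rw [h2]
          linear_combination (-(wO (Tt S₀) (ee M σ S₀) y a * σ (col j) *
            BO' (Tt S₀) (fun i => lb (Tt S₀) (p i)) (fun i => nq (p i)) a j)) * hsq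
      · rcases j with b | j
        · rw [w1, w2, if_neg (fun h => absurd (E.injective h) (by simp))]
          show _ = wO (Tt S₀) (ee M σ S₀) y b * σ k₀ * (σ (col i) * σ k₀) *
            BO' (Tt S₀) (fun i => lb (Tt S₀) (p i)) (fun i => nq (p i)) b i
          have h2 : mmO (Tt (fill col S₀ p)) (E (Sum.inr i)) (E (Sum.inl b)) =
              BO' (Tt S₀) (fun i => lb (Tt S₀) (p i)) (fun i => nq (p i)) b i := by
            rw [hE, hE]
            cases b with
            | none => rfl
            | some u => exact cs_symm (hpr i) (hU' u u.2)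
          rw [h2]
          linear_combination (-(wO (Tt S₀) (ee M σ S₀) y b * σ (col i) *
            BO' (Tt S₀) (fun i => lb (Tt S₀) (p i)) (fun i => nq (p i)) b i)) * hsq
        · rw [w2, w2]
          show _ = σ (col i) * σ k₀ * (σ (col j) * σ k₀) *
            Pool.Agent.Y703.XK.ext (fun e : prs ι => cs (p e.1.1) (p e.1.2)) i j
          by_cases hij : i = j
          · rw [if_pos (by rw [hij]), hij]
            have h2 : Pool.Agent.Y703.XK.ext (fun e : prs ι => cs (p e.1.1) (p e.1.2)) j j = 0 := by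
              unfold Pool.Agent.Y703.XK.ext
              rw [dif_neg (fun h => lt_irrefl _ (mem_prs.1 h)),
                dif_neg (fun h => lt_irrefl _ (mem_prs.1 h))]
            rw [h2, mul_zero]
          · rw [if_neg (fun h => hij (Sum.inr_injective (E.injective h)))]
            have h2 : mmO (Tt (fill col S₀ p)) (E (Sum.inr i)) (E (Sum.inr j)) =
                Pool.Agent.Y703.XK.ext (fun e : prs ι => cs (p e.1.1) (p e.1.2)) i j := by
              rw [hE, hE]
              show cs (p i) (p j) = _
              unfold Pool.Agent.Y703.XK.ext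
              by_cases h : (i, j) ∈ prs ι
              · rw [dif_pos h]
              · rw [dif_neg h]
                have h2 : (j, i) ∈ prs ι := by
                  rw [mem_prs] at h ⊢
                  rcases lt_trichotomy j i with h1 | h1 | h1
                  · exact h1
                  · exact absurd h1.symm hij
                  · exact absurd h1 h
                rw [dif_pos h2]
                exact cs_symm (hpr i) (hpr j)
            rw [h2]
            linear_combination (-(σ (col i) * σ (col j) *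
              Pool.Agent.Y703.XK.ext (fun e : prs ι => cs (p e.1.1) (p e.1.2)) i j)) * hsq
    rw [h1]
  · intro i
    unfold So
    rw [mem_filter]
    rcases i with a | i
    · rw [w1, mem_Sk_inl]
      constructor
      · exact fun h => mul_ne_zero h.2 (hσ k₀)
      · exact fun h => ⟨mem_univ _, left_ne_zero_of_mul h⟩
    · rw [w2]
      exact iff_of_true ⟨mem_univ _, hσ _⟩ mem_Sk_inr

end one

end Run7.h707.TC
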