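import Pool.Agent.Run7.h707.TC.Box

/-! The count in a box for tuples of sets of primes, continued -/

set_option autoImplicit false
set_option linter.unusedSectionVars false

open scoped Classical

namespace Run7.h707.TC

open Finset Module
open Pool.Agent.Y692.QS (Ei)
open Pool.Agent.Y715.T.Rec (cs)
open Pool.Agent.Y715.T.RecG (Pq)
open Pool.Agent.Y699.E (ez)
open Pool.Agent.Y703.XK (prs HB S_EQ)
open Pool.Agent.Y688.XK (lb cs_symm HB_sub ez0 ez0_coe)
open Pool.Agent.R419.KF (wt wt_one wt_ne)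
open Pool.Agent.N883.FF (nq NdB)
open Q283.T3 (KS Sk mem_Sk_inl mem_Sk_inr mem_prs ext_symm fcc2 gi cf)

/-- the good labels -/
def LNT {m : ℕ} {ι : Type} (col : ι → Fin m) (k₀ : Fin m) (T : Finset Ei) (β : ι → T → ZMod 3)
    (γ : ι → ZMod 3) : Prop :=
  ∀ w : Option T → ZMod 3, w ≠ 0 → ∃ i, col i = k₀ ∧ ∑ u, w u * BO' T β γ u i ≠ 0

theorem ndT_iff {m : ℕ} {ι : Type} [Fintype ι] {col : ι → Fin m} {k₀ : Fin m} {T : Finset Ei}
    {p : ι → Ei} : NdB T ((univ.filter fun i => col i = k₀).image p) ↔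
    LNT col k₀ T (fun i => lb T (p i)) (fun i => nq (p i)) := by
  unfold NdB LNT
  constructor
  · intro h w hw
    obtain ⟨x, hx, hx2⟩ := h (ez0 fun u => w (some u)) (w none) (by
      obtain ⟨a, ha⟩ := Function.ne_iff.1 hw
      cases a with
      | none => exact Or.inr ha
      | some u => exact Or.inl ⟨u, u.2, by rw [ez0_coe]; exact ha⟩)
    rw [mem_image] at hx
    obtain ⟨i, hi, rfl⟩ := hx
    rw [mem_filter] at hi
    refine ⟨i, hi.2, ?_⟩
    rw [← Finset.sum_coe_sort T] at hx2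
    intro h0
    apply hx2
    rw [← h0, Fintype.sum_option, add_comm]
    congr 1
    refine Finset.sum_congr rfl fun u _ => ?_
    rw [ez0_coe]
    rfl
  · intro h w t hw
    obtain ⟨i, hi, hk⟩ := h (fun a => match a with
      | none => t
      | some u => w u) (by
      rcases hw with ⟨u, hu0, hu⟩ | ht
      · exact Function.ne_iff.2 ⟨some ⟨u, hu0⟩, hu⟩
      · exact Function.ne_iff.2 ⟨none, ht⟩)
    refine ⟨p i, mem_image_of_mem _ (mem_filter.2 ⟨mem_univ _, hi⟩), ?_⟩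
    rw [← Finset.sum_coe_sort T]
    rw [Fintype.sum_option, add_comm] at hk
    exact hk

theorem AO_symm {T : Finset Ei} (hT : ∀ u ∈ T, Pq u) (a b : Option T) : AO T a b = AO T b a := by
  unfold AO
  by_cases h : a = b
  · rw [if_pos h, if_pos h.symm]
  · rw [if_neg h, if_neg (fun e => h e.symm)]
    cases a with
    | none => cases b with
      | none => rfl
      | some v => rfl
    | some u => cases b with
      | none => rfl
      | some v => exact cs_symm (hT u u.2) (hT v v.2)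

/-- the statement for the boxes -/
def BXT {m Mt : ℕ} (k₀ : Fin m) (s : Fin Mt → Fin m → ZMod 3) (y : Fin Mt → ZMod 3)
    (r : Fin Mt → ℕ) (M : Fin m → Finset Ei) (R : ℕ) (c δ : ℝ) : Prop :=
  ∀ (ι : Type) [Fintype ι] [LinearOrder ι] (col : ι → Fin m) (C : ι → Finset Ei) (X : ι → ℕ)
  (κ : ℝ) (S₀ : Fin m → Finset Ei), 0 ≤ κ → (∀ i, (C i).card ≤ X i) → HB C X κ →
  (∀ k, ∀ u ∈ S₀ k, Pq u) → (∀ k, M k ⊆ S₀ k) → (∀ i, ∀ π ∈ C i, Pq π ∧ ∀ k, π ∉ S₀ k) →
  (∀ i l, i ≠ l → Disjoint (C i) (C l)) → (∀ i, ∀ π ∈ C i, ∀ ρ ∈ C i, nq π = nq ρ) →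
  (∀ k, ∃ i, col i = k) →
  4 * ((Tt S₀).card + 1) + R ≤ (univ.filter fun i => col i = k₀).card →
  |(((Fintype.piFinset C).filter fun p =>
      NdB (Tt S₀) ((univ.filter fun i => col i = k₀).image p) ∧
        GT M s y r (fill col S₀ p)).card : ℝ) -
      c * (((Fintype.piFinset C).filter fun p =>
        NdB (Tt S₀) ((univ.filter fun i => col i = k₀).image p)).card : ℝ)| ≤
    δ * (((Fintype.piFinset C).filter fun p =>
        NdB (Tt S₀) ((univ.filter fun i => col i = k₀).image p)).card : ℝ) +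
    3 ^ ((Tt S₀).card * Fintype.card ι + (prs ι).card) * (κ * ∏ j, (X j : ℝ))

/-- **The count in a box.** -/
theorem t_BXT (hEQ : S_EQ) {m Mt : ℕ} (k₀ : Fin m) (s : Fin Mt → Fin m → ZMod 3)
    (hs : ∀ t k, s t k ≠ 0) (hsep : ∀ t t', t ≠ t' → ∃ k, s t k * s t k₀ ≠ s t' k * s t' k₀)
    (y : Fin Mt → ZMod 3) (r : Fin Mt → ℕ) (δ : ℝ) (hδ : 0 < δ) : ∃ R : ℕ, ∀ R' : ℕ, R ≤ R' →
    ∀ (M : Fin m → Finset Ei), BXT k₀ s y r M R' (∏ t, gi * cf (r t)) δ := by
  obtain ⟨R, hR⟩ := t_LAC Mt r δ hδ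
  refine ⟨R, ?_⟩
  intro R' hR' M ι _ _ col C X κ S₀ hκ hCX hHB hS₀ hM hC hdis hnq hcol hcard
  obtain ⟨c, hc⟩ : ∃ c : ℝ, c = ∏ k, gi * cf (r k) := ⟨_, rfl⟩
  obtain ⟨E, hE⟩ : ∃ E : ℝ, E = 3 ^ (prs ι).card * (κ * ∏ j, (X j : ℝ)) := ⟨_, rfl⟩
  have hE0 : 0 ≤ E := by
    rw [hE]
    exact mul_nonneg (by positivity)
      (mul_nonneg hκ (Finset.prod_nonneg fun j _ => by positivity))
  have hU : ∀ u ∈ Tt S₀, Pq u := fun u hu => by
    obtain ⟨k, hk⟩ := mem_Tt.1 hu
    exact hS₀ k u hk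
  -- the labels at `ω`
  obtain ⟨γ, hγ⟩ : ∃ γ : ι → ZMod 3, ∀ k, ∀ π ∈ C k, nq π = γ k :=
    ⟨fun k => if h : (C k).Nonempty then nq h.choose else 0, fun k π hπ => by
      have h : (C k).Nonempty := ⟨π, hπ⟩
      show nq π = if h : (C k).Nonempty then nq h.choose else 0
      rw [dif_pos h]
      exact hnq k π hπ _ h.choose_spec⟩
  have hγp : ∀ p ∈ Fintype.piFinset C, (fun k => nq (p k)) = γ := by
    intro p hp
    rw [Fintype.mem_piFinset] at hp
    exact funext fun k => hγ k _ (hp k)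
  -- facts on tuples
  have hinj : ∀ p ∈ Fintype.piFinset C, Function.Injective p := by
    intro p hp i j hij
    rw [Fintype.mem_piFinset] at hp
    by_contra hne
    have h1 := Finset.disjoint_left.1 (hdis i j hne) (hp i)
    rw [hij] at h1
    exact h1 (hp j)
  have hd : ∀ p ∈ Fintype.piFinset C, ∀ i k, p i ∉ S₀ k := by
    intro p hp i
    rw [Fintype.mem_piFinset] at hp
    exact (hC i _ (hp i)).2
  have hpr : ∀ p ∈ Fintype.piFinset C, ∀ i, Pq (p i) := by
    intro p hp i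
    rw [Fintype.mem_piFinset] at hp
    exact (hC i _ (hp i)).1
  have hs1 : ∀ t, s t k₀ * s t k₀ = 1 := fun t => eq_one_of_ne (hs t k₀)
  have hsep' : ∀ t t', t ≠ t' → ∃ q, ¬ col q = k₀ ∧
      s t (col q) * s t k₀ ≠ s t' (col q) * s t' k₀ := by
    intro t t' htt
    obtain ⟨k, hk⟩ := hsep t t' htt
    obtain ⟨q, hq⟩ := hcol k
    refine ⟨q, fun h => hk ?_, ?_⟩
    · rw [← hq, h, hs1, hs1]
    · rw [hq]
      exact hk
  -- the part with given labels
  have h1 : ∀ β : ι → ↥(Tt S₀) → ZMod 3, LNT col k₀ (Tt S₀) β γ →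
      |(((Fintype.piFinset C).filter fun p => (fun i => lb (Tt S₀) (p i)) = β ∧
          GT M s y r (fill col S₀ p)).card : ℝ) -
        c * (((Fintype.piFinset C).filter fun p => (fun i => lb (Tt S₀) (p i)) = β).card : ℝ)| ≤
      δ * (((Fintype.piFinset C).filter fun p => (fun i => lb (Tt S₀) (p i)) = β).card : ℝ) +
        E := by
    intro β hβ
    obtain ⟨C', hC'⟩ : ∃ C' : ι → Finset Ei, C' = fun i => (C i).filter fun q =>
      lb (Tt S₀) q = β i := ⟨_, rfl⟩
    have hpi : (Fintype.piFinset C).filter (fun p => (fun i => lb (Tt S₀) (p i)) = β) =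
        Fintype.piFinset C' := by
      ext p
      simp only [Finset.mem_filter, Fintype.mem_piFinset, hC']
      constructor
      · rintro ⟨h2, h3⟩ i
        exact ⟨h2 i, congrFun h3 i⟩
      · intro h2
        exact ⟨fun i => (h2 i).1, funext fun i => (h2 i).2⟩
    have h2 := hR (Option ↥(Tt S₀)) ι (fun i => col i = k₀)
      (fun t a => wO (Tt S₀) (ee M (s t) S₀) (y t) a * s t k₀)
      (fun t i => s t (col i) * s t k₀) (AO (Tt S₀)) (BO' (Tt S₀) β γ)
      (AO_symm hU) (fun t i => mul_ne_zero (hs _ _) (hs _ _))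
      (fun t j hj => by rw [hj]; exact hs1 t) hβ
      (by
        rw [Fintype.card_option, Fintype.card_coe, Fintype.card_subtype]
        refine le_trans ?_ hcard
        omega) hsep'
    obtain ⟨Q, hQ⟩ : ∃ Q : (prs ι → ZMod 3) → Prop, Q = fun α =>
        ∀ t, finrank (ZMod 3) (KS (cw (fun a => wO (Tt S₀) (ee M (s t) S₀) (y t) a * s t k₀)
          (fun i => s t (col i) * s t k₀) (AO (Tt S₀)) (BO' (Tt S₀) β γ)
          (Pool.Agent.Y703.XK.ext α))
          (Sk ι (fun a => wO (Tt S₀) (ee M (s t) S₀) (y t) a * s t k₀))) = r t + 1 :=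
      ⟨_, rfl⟩
    have h3 := hEQ ι C' X κ hκ
      (fun i => (Finset.card_le_card (by rw [hC']; exact Finset.filter_subset _ _)).trans (hCX i))
      (by rw [hC']; exact HB_sub hHB fun i q => lb (Tt S₀) q = β i) Q
    have h4 : ((Fintype.piFinset C).filter fun p => (fun i => lb (Tt S₀) (p i)) = β ∧
        GT M s y r (fill col S₀ p)) = ((Fintype.piFinset C').filter fun p =>
          Q fun e => cs (p e.1.1) (p e.1.2)) := by
      rw [← hpi, Finset.filter_filter]
      refine Finset.filter_congr fun p hp => ?_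
      refine and_congr_right fun hl => ?_
      have hl2 := hγp p hp
      subst hl
      rw [hQ]
      unfold GT
      refine forall_congr' fun t => ?_
      rw [finrank_co (hinj p hp) (hd p hp) (hpr p hp) hS₀ hM (hs t) k₀ (y t), hl2]
    have h5 : (((Fintype.piFinset C').card : ℕ) : ℝ) = ∏ j, ((C' j).card : ℝ) := by
      rw [Fintype.card_piFinset]
      push_cast
      rfl
    rw [h4, hpi, h5]
    rw [← hE] at h3
    obtain ⟨n, hn⟩ : ∃ n : ℝ, n = (((Fintype.piFinset C').filter fun p =>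
          Q fun e => cs (p e.1.1) (p e.1.2)).card : ℝ) := ⟨_, rfl⟩
    obtain ⟨q, hq⟩ : ∃ q : ℝ, q = ((univ.filter Q).card : ℝ) / 3 ^ (prs ι).card := ⟨_, rfl⟩
    obtain ⟨P, hP⟩ : ∃ P : ℝ, P = ∏ j, ((C' j).card : ℝ) := ⟨_, rfl⟩
    have hP0 : 0 ≤ P := by
      rw [hP]
      exact Finset.prod_nonneg fun j _ => by positivity
    have h2' : |q - c| ≤ δ := by
      rw [hq, hQ, hc]
      refine le_trans (le_of_eq ?_) h2
      rw [fcc2]
    rw [← hn, ← hq, ← hP] at h3
    rw [← hn, ← hP]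
    have h6 : |n - c * P| ≤ |n - q * P| + |q - c| * P := by
      have h7 : n - c * P = (n - q * P) + (q - c) * P := by ring
      have h8 : |(q - c) * P| = |q - c| * P := by rw [abs_mul, abs_of_nonneg hP0]
      rw [h7, ← h8]
      exact abs_add_le _ _
    have h7 : |q - c| * P ≤ δ * P := mul_le_mul_of_nonneg_right h2' hP0
    linarith
  -- sum over the labels
  obtain ⟨LL, hLL⟩ : ∃ LL : Finset (ι → ↥(Tt S₀) → ZMod 3),
    LL = univ.filter (fun β => LNT col k₀ (Tt S₀) β γ) := ⟨_, rfl⟩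
  have hnd : ∀ p ∈ Fintype.piFinset C,
      (NdB (Tt S₀) ((univ.filter fun i => col i = k₀).image p) ↔
        LNT col k₀ (Tt S₀) (fun i => lb (Tt S₀) (p i)) γ) := by
    intro p hp
    rw [ndT_iff, hγp p hp]
  have hfib : ∀ T : (ι → Ei) → Prop,
      (((Fintype.piFinset C).filter fun p =>
        NdB (Tt S₀) ((univ.filter fun i => col i = k₀).image p) ∧ T p).card : ℝ) =
      ∑ β ∈ LL, (((Fintype.piFinset C).filter fun p =>
        (fun i => lb (Tt S₀) (p i)) = β ∧ T p).card : ℝ) := by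
    intro T
    rw [Finset.card_eq_sum_card_fiberwise (f := fun (p : ι → Ei) (i : ι) => lb (Tt S₀) (p i))
      (t := LL) (by
        intro p hp
        rw [Finset.mem_coe, Finset.mem_filter] at hp
        rw [Finset.mem_coe, hLL, Finset.mem_filter]
        exact ⟨Finset.mem_univ _, (hnd p hp.1).1 hp.2.1⟩)]
    push_cast
    refine Finset.sum_congr rfl fun β hβ => ?_
    rw [hLL, Finset.mem_filter] at hβ
    congr 2
    ext p
    simp only [Finset.mem_filter]
    constructor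
    · rintro ⟨⟨h3, h4, h4'⟩, h5⟩
      exact ⟨h3, h5, h4'⟩
    · rintro ⟨h3, h4, h5⟩
      refine ⟨⟨h3, ?_, h5⟩, h4⟩
      rw [hnd p h3, h4]
      exact hβ.2
  have hf1 := hfib fun p => GT M s y r (fill col S₀ p)
  have hf2 := hfib fun _ => True
  simp only [and_true] at hf2
  rw [hf1, hf2, Finset.mul_sum, ← Finset.sum_sub_distrib, ← hc]
  refine (Finset.abs_sum_le_sum_abs _ _).trans ?_
  refine (Finset.sum_le_sum fun β hβ => h1 β (by
    rw [hLL] at hβ
    exact (Finset.mem_filter.1 hβ).2)).trans ?_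
  rw [Finset.sum_add_distrib, ← Finset.mul_sum, Finset.sum_const, nsmul_eq_mul]
  have h5 : ((LL.card : ℕ) : ℝ) ≤ 3 ^ ((Tt S₀).card * Fintype.card ι) := by
    have h6 : LL.card ≤ Fintype.card (ι → ↥(Tt S₀) → ZMod 3) :=
      Finset.card_le_univ _
    rw [Fintype.card_fun, Fintype.card_fun, ZMod.card, Fintype.card_coe, ← pow_mul] at h6
    exact_mod_cast h6
  have h6 := mul_le_mul_of_nonneg_right h5 hE0
  rw [pow_add, mul_assoc, ← hE]
  linarith

end Run7.h707.TC
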