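import Pool.Agent.Run7.h707.TC.Rel

/-! The sets of vectors with isotropic differences in a hyperbolic space with 81 elements -/

set_option autoImplicit false
set_option linter.unusedSectionVars false

open scoped Classical

namespace Run7.h707.TC

open Finset Module

/-- the hyperbolic form -/
def qf (v : Fin 4 → ZMod 3) : ZMod 3 := v 0 * v 1 - v 2 * v 3

/-- the polar form -/
noncomputable def bf : LinearMap.BilinForm (ZMod 3) (Fin 4 → ZMod 3) :=
  LinearMap.mk₂ (ZMod 3) (fun v w => v 0 * w 1 + v 1 * w 0 - v 2 * w 3 - v 3 * w 2)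
    (fun a b c => by simp only [Pi.add_apply]; ring)
    (fun a b c => by simp only [Pi.smul_apply, smul_eq_mul]; ring)
    (fun a b c => by simp only [Pi.add_apply]; ring)
    (fun a b c => by simp only [Pi.smul_apply, smul_eq_mul]; ring)

theorem bf_apply (v w : Fin 4 → ZMod 3) :
    bf v w = v 0 * w 1 + v 1 * w 0 - v 2 * w 3 - v 3 * w 2 := by
  unfold bf
  rw [LinearMap.mk₂_apply]

theorem bf_ker : LinearMap.ker bf = ⊥ := by
  rw [Submodule.eq_bot_iff]
  intro v hv
  have h : ∀ w, bf v w = 0 := fun w => by rw [LinearMap.mem_ker.1 hv, LinearMap.zero_apply]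
  have h0 := h ![0, 1, 0, 0]
  have h1 := h ![1, 0, 0, 0]
  have h2 := h ![0, 0, 0, 1]
  have h3 := h ![0, 0, 1, 0]
  rw [bf_apply] at h0 h1 h2 h3
  simp at h0 h1 h2 h3
  funext i
  fin_cases i
  · exact h0
  · exact h1
  · exact h2
  · exact h3

theorem qf_bf (v w : Fin 4 → ZMod 3) : bf v w = qf v + qf w - qf (v - w) := by
  rw [bf_apply]
  unfold qf
  simp only [Pi.sub_apply]
  ring

theorem clique (S : Finset (Fin 4 → ZMod 3)) (h : ∀ v ∈ S, ∀ w ∈ S, qf (v - w) = 0) :
    S.card ≤ 9 := by
  rcases S.eq_empty_or_nonempty with h0 | ⟨a, ha⟩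
  · rw [h0, card_empty]
    norm_num
  set T : Set (Fin 4 → ZMod 3) := (fun v => v - a) '' (S : Set (Fin 4 → ZMod 3)) with hT
  set W := Submodule.span (ZMod 3) T with hW
  have h1 : ∀ v ∈ T, ∀ w ∈ T, bf v w = 0 := by
    rintro _ ⟨v, hv, rfl⟩ _ ⟨w, hw, rfl⟩
    show bf (v - a) (w - a) = 0
    rw [qf_bf, h v hv a ha, h w hw a ha, sub_sub_sub_cancel_right, h v hv w hw]
    simp
  have h2 : ∀ v ∈ T, ∀ w ∈ W, bf v w = 0 := by
    intro v hv w hw
    have : W ≤ LinearMap.ker (bf v) := by
      rw [hW, Submodule.span_le]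
      intro u hu
      exact h1 v hv u hu
    exact this hw
  have h3 : W ≤ bf.orthogonal W := by
    intro w hw
    rw [LinearMap.BilinForm.mem_orthogonal_iff]
    intro n hn
    have : W ≤ LinearMap.ker (bf.flip w) := by
      rw [hW, Submodule.span_le]
      intro u hu
      exact h2 u hu w hw
    exact this hn
  have h4 := LinearMap.BilinForm.finrank_add_finrank_orthogonal' (B := bf) W
  rw [bf_ker, inf_bot_eq, finrank_bot, add_zero, finrank_fintype_fun_eq_card,
    Fintype.card_fin] at h4
  have h5 := Submodule.finrank_mono h3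
  have h6 : finrank (ZMod 3) W ≤ 2 := by omega
  have h7 : S.card ≤ 3 ^ finrank (ZMod 3) W := by
    rw [← card_sub]
    refine card_le_card_of_injOn (fun v => v - a) ?_ ?_
    · intro v hv
      rw [mem_coe, mem_filter]
      exact ⟨mem_univ _, Submodule.subset_span ⟨v, hv, rfl⟩⟩
    · intro v _ w _ h
      exact sub_left_injective h
  exact h7.trans (Nat.pow_le_pow_right (by norm_num) h6)

theorem card_cl {Q C : Type} [Fintype Q] [Fintype C] [DecidableEq Q] [DecidableEq C] (cl : Q → C) :
    (univ.filter fun f : Q → Fin 4 → ZMod 3 =>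
      ∀ q q', cl q = cl q' → qf (f q - f q') = 0).card ≤
      Fintype.card (C → Finset (Fin 4 → ZMod 3)) * 9 ^ Fintype.card Q := by
  have h1 : (univ.filter fun f : Q → Fin 4 → ZMod 3 =>
      ∀ q q', cl q = cl q' → qf (f q - f q') = 0) ⊆
      (univ.filter fun I : C → Finset (Fin 4 → ZMod 3) => ∀ c, (I c).card ≤ 9).biUnion fun I =>
        Fintype.piFinset fun q => I (cl q) := by
    intro f hf
    rw [mem_filter] at hf
    rw [mem_biUnion]
    refine ⟨fun c => (univ.filter fun q => cl q = c).image f, ?_, ?_⟩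
    · rw [mem_filter]
      refine ⟨mem_univ _, fun c => clique _ ?_⟩
      intro v hv w hw
      rw [mem_image] at hv hw
      obtain ⟨q, hq, rfl⟩ := hv
      obtain ⟨q', hq', rfl⟩ := hw
      rw [mem_filter] at hq hq'
      exact hf.2 q q' (hq.2.trans hq'.2.symm)
    · rw [Fintype.mem_piFinset]
      intro q
      exact mem_image_of_mem f (mem_filter.2 ⟨mem_univ _, rfl⟩)
  refine (card_le_card h1).trans (card_biUnion_le.trans ?_)
  have h2 : ∀ I ∈ (univ.filter fun I : C → Finset (Fin 4 → ZMod 3) => ∀ c, (I c).card ≤ 9),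
      (Fintype.piFinset fun q => I (cl q)).card ≤ 9 ^ Fintype.card Q := by
    intro I hI
    rw [mem_filter] at hI
    rw [Fintype.card_piFinset]
    refine (prod_le_prod' fun q _ => hI.2 (cl q)).trans (le_of_eq ?_)
    rw [prod_const, card_univ]
  refine (sum_le_sum h2).trans ?_
  rw [sum_const, smul_eq_mul]
  apply Nat.mul_le_mul_right
  refine (card_filter_le _ _).trans (le_of_eq ?_)
  rw [card_univ]

/-- the number of the types of a vertex with weight one -/
theorem five : ∀ a b c d : ZMod 3,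
    (univ.filter fun p : ZMod 3 × ZMod 3 => (p.1 - a) * (b - p.2) - (p.1 - c) * (d + p.2) = 0).card
      ≤ 5 := by
  have h : ∀ a b c d : ZMod 3, (@Finset.filter (ZMod 3 × ZMod 3)
      (fun p => (p.1 - a) * (b - p.2) - (p.1 - c) * (d + p.2) = 0)
      (fun p => inferInstance) univ).card ≤ 5 := by
    decide
  intro a b c d
  convert h a b c d

end Run7.h707.TC
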