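import Pool.Agent.Run7.h707.TC.Elt
import Pool.Agent.N883.FF.Tri
import Pool.Agent.N883.FF.Fact

/-! The criterion: the kernels -/

set_option autoImplicit false
set_option linter.unusedSectionVars false

open scoped Classical

namespace Run7.h707.TC

open Finset Module
open Pool.Agent.Y692.QS (Ei w nr)
open Pool.Agent.Y715.T.Rec (cs)
open Pool.Agent.Y715.T.RecG (Pq)
open Pool.Agent.Y688.XK (cs_symm)
open Pool.Agent.Y703.CT (Dt pD Ker)
open Pool.Agent.N883.FF (nq KerB pB isUnit_w)
open Q283.T3 (KS)

theorem co_symm {T : Finset Ei} (hT : ∀ u ∈ T, Pq u) (e : Ei → ZMod 3) (y : ZMod 3)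
    (a b : Option T) : co T e y a b = co T e y b a := by
  unfold co
  by_cases h : a = b
  · rw [if_pos h, if_pos h.symm]
  · rw [if_neg h, if_neg (fun e => h e.symm)]
    rcases a with _ | a <;> rcases b with _ | b
    · rfl
    · simp only [mmO, wO]; ring
    · simp only [mmO, wO]; ring
    · simp only [mmO, wO]
      rw [cs_symm (hT a a.2) (hT b b.2)]
      ring

theorem sum_rows {ι : Type} [Fintype ι] (c : ι → ι → ZMod 3) (hc : ∀ i j, c i j = c j i)
    (x : ι → ZMod 3) : ∑ i, ∑ j, c i j * (x j - x i) = 0 := by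
  have h1 : ∑ i, ∑ j, c i j * (x j - x i) = ∑ i, ∑ j, c i j * (x i - x j) := by
    rw [Finset.sum_comm]
    refine Finset.sum_congr rfl fun i _ => Finset.sum_congr rfl fun j _ => ?_
    rw [hc j i]
  have h2 : ∑ i, ∑ j, c i j * (x i - x j) = -∑ i, ∑ j, c i j * (x j - x i) := by
    rw [← Finset.sum_neg_distrib]
    refine Finset.sum_congr rfl fun i _ => ?_
    rw [← Finset.sum_neg_distrib]
    exact Finset.sum_congr rfl fun j _ => by ring
  have h3 := h1.trans h2
  have key : ∀ a : ZMod 3, a = -a → a = 0 := by decide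
  exact key _ h3

theorem co_zero {T : Finset Ei} {e : Ei → ZMod 3} {y : ZMod 3} {a b : Option T}
    (h : wO T e y a = 0 ∨ wO T e y b = 0) : co T e y a b = 0 := by
  unfold co
  split_ifs
  · rfl
  · rcases h with h | h
    · rw [h]; ring
    · rw [h]; ring

/-- dimension one -/
theorem fr_one {T : Finset Ei} {e : Ei → ZMod 3} {y : ZMod 3} (hne : (So T e y).Nonempty) :
    finrank (ZMod 3) (KS (co T e y) (So T e y)) = 1 ↔
      ∀ x : Option T → ZMod 3, x ∈ KS (co T e y) (So T e y) →
        ∀ a ∈ So T e y, ∀ b ∈ So T e y, x a = x b := by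
  have hmem : ∀ a, a ∈ So T e y ↔ wO T e y a ≠ 0 := fun a => by
    unfold So
    rw [mem_filter]
    exact ⟨fun h => h.2, fun h => ⟨mem_univ _, h⟩⟩
  obtain ⟨a₀, ha₀⟩ := hne
  set o : Option T → ZMod 3 := fun a => if a ∈ So T e y then 1 else 0 with ho
  have ho1 : o ∈ KS (co T e y) (So T e y) := by
    refine ⟨fun i hi => by rw [ho]; exact if_neg hi, fun i => ?_⟩
    refine Finset.sum_eq_zero fun j _ => ?_
    by_cases hi : wO T e y i = 0
    · rw [co_zero (Or.inl hi), zero_mul]
    by_cases hj : wO T e y j = 0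
    · rw [co_zero (Or.inr hj), zero_mul]
    · have h1 : o i = 1 := if_pos ((hmem i).2 hi)
      have h2 : o j = 1 := if_pos ((hmem j).2 hj)
      rw [h1, h2, sub_self, mul_zero]
  have hoa : ∀ a ∈ So T e y, o a = 1 := fun a ha => if_pos ha
  have ho0 : (⟨o, ho1⟩ : KS (co T e y) (So T e y)) ≠ 0 := by
    intro h
    have h1 : o = 0 := congrArg Subtype.val h
    have h2 := congrFun h1 a₀
    rw [hoa a₀ ha₀] at h2
    exact one_ne_zero h2
  rw [finrank_eq_one_iff_of_nonzero' _ ho0]
  constructor
  · intro h x hx a ha b hb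
    obtain ⟨c, hc⟩ := h ⟨x, hx⟩
    have h1 : c • o = x := congrArg Subtype.val hc
    rw [← h1, Pi.smul_apply, Pi.smul_apply, hoa a ha, hoa b hb]
  · rintro h ⟨x, hx⟩
    refine ⟨x a₀, Subtype.ext (funext fun a => ?_)⟩
    show (x a₀ • o) a = x a
    rw [Pi.smul_apply, smul_eq_mul]
    by_cases ha : a ∈ So T e y
    · rw [hoa a ha, mul_one]
      exact h x hx a₀ ha₀ a ha
    · have h1 : o a = 0 := if_neg ha
      rw [h1, mul_zero, hx.1 a ha]

/-- the primes with a nonzero exponent -/
noncomputable def Uu (T : Finset Ei) (e : Ei → ZMod 3) : Finset Ei := T.filter fun π => e π ≠ 0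

theorem row_some {T : Finset Ei} {e : Ei → ZMod 3} {y : ZMod 3} (x : Option T → ZMod 3) (a : T) :
    ∑ j, co T e y (some a) j * (x j - x (some a)) =
      e a * (∑ b : T, e b * cs (a : Ei) b * (x (some b) - x (some a)) +
        y * nq a * (x none - x (some a))) := by
  rw [Fintype.sum_option, mul_add, mul_sum, add_comm]
  congr 1
  · refine Finset.sum_congr rfl fun b _ => ?_
    unfold co
    by_cases h : (some a : Option T) = some b
    · rw [if_pos h]
      have : a = b := Option.some_injective _ h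
      rw [this]
      ring
    · rw [if_neg h]
      simp only [mmO, wO]
      ring
  · unfold co
    rw [if_neg (by simp)]
    simp only [mmO, wO]
    ring

theorem sum_U {T : Finset Ei} {e : Ei → ZMod 3} (f : Ei → ZMod 3) :
    ∑ b : T, e b * f b = ∑ b : ↥(Uu T e), e b * f b := by
  rw [Finset.sum_coe_sort T (fun b => e b * f b),
    Finset.sum_coe_sort (Uu T e) (fun b => e b * f b)]
  unfold Uu
  rw [Finset.sum_filter]
  refine Finset.sum_congr rfl fun b _ => ?_
  by_cases h : e b = 0
  · rw [if_neg (not_not.2 h), h, zero_mul]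
  · rw [if_pos h]

/-- membership in the kernel -/
theorem mem_KS_iff {T : Finset Ei} (hT : ∀ u ∈ T, Pq u) {e : Ei → ZMod 3} {y : ZMod 3}
    {x : Option T → ZMod 3} :
    x ∈ KS (co T e y) (So T e y) ↔ (∀ a, wO T e y a = 0 → x a = 0) ∧
      ∀ a : T, e a ≠ 0 → ∑ b : T, e b * cs (a : Ei) b * (x (some b) - x (some a)) +
        y * nq a * (x none - x (some a)) = 0 := by
  have hmem : ∀ a, a ∈ So T e y ↔ wO T e y a ≠ 0 := fun a => by
    unfold So
    rw [mem_filter]
    exact ⟨fun h => h.2, fun h => ⟨mem_univ _, h⟩⟩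
  constructor
  · rintro ⟨h1, h2⟩
    refine ⟨fun a ha => h1 a (fun h => (hmem a).1 h ha), fun a ha => ?_⟩
    have h3 := h2 (some a)
    rw [row_some] at h3
    exact (mul_eq_zero.1 h3).resolve_left ha
  · rintro ⟨h1, h2⟩
    have hrow : ∀ a : T, ∑ j, co T e y (some a) j * (x j - x (some a)) = 0 := by
      intro a
      by_cases ha : e a = 0
      · refine Finset.sum_eq_zero fun j _ => ?_
        rw [co_zero (Or.inl (show wO T e y (some a) = 0 from ha)), zero_mul]
      · rw [row_some, h2 a ha, mul_zero]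
    refine ⟨fun a ha => h1 a (by_contra fun h => ha ((hmem a).2 h)), fun i => ?_⟩
    cases i with
    | some a => exact hrow a
    | none =>
      have h3 := sum_rows (co T e y) (co_symm hT e y) x
      rw [Fintype.sum_option, Finset.sum_eq_zero (fun a _ => hrow a), add_zero] at h3
      exact h3

/-- **the kernel with a unit** -/
theorem fr_B {T : Finset Ei} (hT : ∀ u ∈ T, Pq u) (e : Ei → ZMod 3) {y : ZMod 3} (hy : y ≠ 0) :
    finrank (ZMod 3) (KS (co T e y) (So T e y)) = 1 ↔
      KerB (fun π : ↥(Uu T e) => (π : Ei)) (fun π => e π) y := by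
  have hnone : none ∈ So T e y := by
    unfold So
    rw [mem_filter]
    exact ⟨mem_univ _, hy⟩
  have hsome : ∀ a : T, some a ∈ So T e y ↔ e a ≠ 0 := fun a => by
    unfold So
    rw [mem_filter]
    exact ⟨fun h => h.2, fun h => ⟨mem_univ _, h⟩⟩
  rw [fr_one ⟨none, hnone⟩]
  constructor
  · intro h v hv j
    set v' : Ei → ZMod 3 := fun π => if hπ : π ∈ Uu T e then v ⟨π, hπ⟩ else 0 with hv'
    have hvv : ∀ b : ↥(Uu T e), v' b = v b := fun b => by
      rw [hv']
      simp
    set x : Option T → ZMod 3 := fun a => match a with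
      | none => 0
      | some a => v' a with hx
    have hxm : x ∈ KS (co T e y) (So T e y) := by
      rw [mem_KS_iff hT]
      refine ⟨fun a ha => ?_, fun a ha => ?_⟩
      · cases a with
        | none => rfl
        | some a =>
          show v' a = 0
          rw [hv']
          refine dif_neg fun h => ?_
          unfold Uu at h
          exact (mem_filter.1 h).2 ha
      · have haU : (a : Ei) ∈ Uu T e := mem_filter.2 ⟨a.2, ha⟩
        have h1 := hv ⟨a, haU⟩
        have h2 : ∑ b : T, e b * cs (a : Ei) b * (x (some b) - x (some a)) =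
            ∑ b : T, e b * (cs (a : Ei) b * (v' b - v' a)) :=
          Finset.sum_congr rfl fun b _ => by
            show e b * cs (a : Ei) b * (v' b - v' a) = _
            ring
        rw [h2, sum_U (fun b => cs (a : Ei) b * (v' b - v' a))]
        have h3 : ∑ b : ↥(Uu T e), e b * (cs (a : Ei) b * (v' b - v' a)) =
            ∑ b : ↥(Uu T e), e b * cs (a : Ei) b * (v b - v ⟨a, haU⟩) :=
          Finset.sum_congr rfl fun b _ => by
            rw [hvv b, hvv ⟨a, haU⟩]
            ring
        rw [h3, h1]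
        show _ + y * nq a * (0 - v' a) = 0
        rw [hvv ⟨a, haU⟩]
        ring
    have haT : (j : Ei) ∈ T := (mem_filter.1 j.2).1
    have h4 := h x hxm (some ⟨j, haT⟩) ((hsome _).2 (mem_filter.1 j.2).2) none hnone
    rw [← hvv j]
    exact h4
  · intro h x hx
    rw [mem_KS_iff hT] at hx
    have key : ∀ a ∈ So T e y, x a = x none := by
      have h1 := h (fun j => x (some ⟨j, (mem_filter.1 j.2).1⟩) - x none) (fun j => ?_)
      · intro a ha
        cases a with
        | none => rfl
        | some a =>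
          have haU : (a : Ei) ∈ Uu T e := mem_filter.2 ⟨a.2, (hsome a).1 ha⟩
          exact sub_eq_zero.1 (h1 ⟨a, haU⟩)
      · have hj := mem_filter.1 j.2
        have h2 := hx.2 ⟨j, hj.1⟩ hj.2
        set x' : Ei → ZMod 3 := fun π => if hπ : π ∈ T then x (some ⟨π, hπ⟩) else 0 with hx'
        have hxx : ∀ b : T, x' b = x (some b) := fun b => by
          rw [hx']
          simp
        have h3 : ∑ b : T, e b * cs (j : Ei) b * (x (some b) - x (some ⟨j, hj.1⟩)) =
            ∑ b : T, e b * (cs (j : Ei) b * (x' b - x' j)) :=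
          Finset.sum_congr rfl fun b _ => by
            rw [hxx b, hxx ⟨j, hj.1⟩]
            ring
        rw [h3, sum_U (fun b => cs (j : Ei) b * (x' b - x' j))] at h2
        have h4 : ∑ k : ↥(Uu T e), e k * cs (j : Ei) k *
            (x (some ⟨k, (mem_filter.1 k.2).1⟩) - x none - (x (some ⟨j, hj.1⟩) - x none)) =
            ∑ b : ↥(Uu T e), e b * (cs (j : Ei) b * (x' b - x' j)) :=
          Finset.sum_congr rfl fun b _ => by
            rw [hxx ⟨b, (mem_filter.1 b.2).1⟩, hxx ⟨j, hj.1⟩]
            ring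
        rw [h4]
        linear_combination h2
    intro a ha b hb
    rw [key a ha, key b hb]

/-- **the kernel without unit** -/
theorem fr_A {T : Finset Ei} (hT : ∀ u ∈ T, Pq u) (e : Ei → ZMod 3) (hU : (Uu T e).Nonempty) :
    finrank (ZMod 3) (KS (co T e 0) (So T e 0)) = 1 ↔
      Ker (fun π : ↥(Uu T e) => (π : Ei)) (fun π => e π) := by
  have hnone : none ∉ So T e 0 := by
    unfold So
    rw [mem_filter]
    exact fun h => h.2 rfl
  have hsome : ∀ a : T, some a ∈ So T e 0 ↔ e a ≠ 0 := fun a => by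
    unfold So
    rw [mem_filter]
    exact ⟨fun h => h.2, fun h => ⟨mem_univ _, h⟩⟩
  obtain ⟨u₀, hu₀⟩ := hU
  have hu₀' := mem_filter.1 hu₀
  rw [fr_one ⟨some ⟨u₀, hu₀'.1⟩, (hsome _).2 hu₀'.2⟩]
  constructor
  · intro h v hv i j
    set v' : Ei → ZMod 3 := fun π => if hπ : π ∈ Uu T e then v ⟨π, hπ⟩ else 0 with hv'
    have hvv : ∀ b : ↥(Uu T e), v' b = v b := fun b => by
      rw [hv']
      simp
    set x : Option T → ZMod 3 := fun a => match a with
      | none => 0
      | some a => v' a with hx
    have hxm : x ∈ KS (co T e 0) (So T e 0) := by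
      rw [mem_KS_iff hT]
      refine ⟨fun a ha => ?_, fun a ha => ?_⟩
      · cases a with
        | none => rfl
        | some a =>
          show v' a = 0
          rw [hv']
          refine dif_neg fun h => ?_
          unfold Uu at h
          exact (mem_filter.1 h).2 ha
      · have haU : (a : Ei) ∈ Uu T e := mem_filter.2 ⟨a.2, ha⟩
        have h1 := hv ⟨a, haU⟩
        have h2 : ∑ b : T, e b * cs (a : Ei) b * (x (some b) - x (some a)) =
            ∑ b : T, e b * (cs (a : Ei) b * (v' b - v' a)) :=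
          Finset.sum_congr rfl fun b _ => by
            show e b * cs (a : Ei) b * (v' b - v' a) = _
            ring
        rw [h2, sum_U (fun b => cs (a : Ei) b * (v' b - v' a))]
        have h3 : ∑ b : ↥(Uu T e), e b * (cs (a : Ei) b * (v' b - v' a)) =
            ∑ b : ↥(Uu T e), e b * cs (a : Ei) b * (v b - v ⟨a, haU⟩) :=
          Finset.sum_congr rfl fun b _ => by
            rw [hvv b, hvv ⟨a, haU⟩]
            ring
        rw [h3, h1, zero_mul, zero_mul, add_zero]
    have hi := mem_filter.1 i.2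
    have hj := mem_filter.1 j.2
    have h4 := h x hxm (some ⟨i, hi.1⟩) ((hsome _).2 hi.2) (some ⟨j, hj.1⟩) ((hsome _).2 hj.2)
    rw [← hvv i, ← hvv j]
    exact h4
  · intro h x hx
    rw [mem_KS_iff hT] at hx
    have h1 := h (fun j => x (some ⟨j, (mem_filter.1 j.2).1⟩)) (fun j => by
      have hj := mem_filter.1 j.2
      have h2 := hx.2 ⟨j, hj.1⟩ hj.2
      set x' : Ei → ZMod 3 := fun π => if hπ : π ∈ T then x (some ⟨π, hπ⟩) else 0 with hx'
      have hxx : ∀ b : T, x' b = x (some b) := fun b => by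
        rw [hx']
        simp
      have h3 : ∑ b : T, e b * cs (j : Ei) b * (x (some b) - x (some ⟨j, hj.1⟩)) =
          ∑ b : T, e b * (cs (j : Ei) b * (x' b - x' j)) :=
        Finset.sum_congr rfl fun b _ => by
          rw [hxx b, hxx ⟨j, hj.1⟩]
          ring
      rw [h3, sum_U (fun b => cs (j : Ei) b * (x' b - x' j)), zero_mul, zero_mul, add_zero] at h2
      refine Eq.trans ?_ h2
      refine Finset.sum_congr rfl fun b _ => ?_
      rw [hxx ⟨b, (mem_filter.1 b.2).1⟩, hxx ⟨j, hj.1⟩]
      ring)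
    intro a ha b hb
    cases a with
    | none => exact absurd ha hnone
    | some a =>
      cases b with
      | none => exact absurd hb hnone
      | some b =>
        have haU : (a : Ei) ∈ Uu T e := mem_filter.2 ⟨a.2, (hsome a).1 ha⟩
        have hbU : (b : Ei) ∈ Uu T e := mem_filter.2 ⟨b.2, (hsome b).1 hb⟩
        exact h1 ⟨a, haU⟩ ⟨b, hbU⟩

end Run7.h707.TC
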