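import Pool.Agent.Run7.h707.TC.Crit

/-! The criterion: the elements `δ` -/

set_option autoImplicit false
set_option linter.unusedSectionVars false

open scoped Classical

namespace Run7.h707.TC

open Finset Module
open Pool.Agent.Y692.QS (Ei w nr)
open Pool.Agent.Y715.T.Rec (cs)
open Pool.Agent.Y715.T.RecG (Pq)
open Pool.Agent.Y715.T.Gi (CF)
open Pool.Agent.Y699.E
open Pool.Agent.Y703.CT (Dt pD Ker)
open Pool.Agent.Y703.XK (sm la bl)
open Pool.Agent.N883.FF (nq KerB pB isUnit_w cf_pB nunitB)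
open Pool.Agent.R419.KF (wt_one el el_ne el_prm nrm_el)
open Pool.Agent.XLK (ph ph_div ph_mod sm_union sm_disj ph_inj prod_ph prod_mod ky)
open Q283.T3 (KS)

/-- the product of powers -/
noncomputable def dlt {m : ℕ} (n : Fin m → ℕ) (a : Fin m → Ei) : Ei := ∏ k, a k ^ n k

/-- the exponent of a prime as a natural number -/
noncomputable def EN {m : ℕ} (n : Fin m → ℕ) (M S : Fin m → Finset Ei) (π : Ei) : ℕ :=
  ∑ k, n k * ((if π ∈ S k then 1 else 0) + (if π ∈ M k then 1 else 0))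

theorem EN_cast {m : ℕ} (n : Fin m → ℕ) {M S : Fin m → Finset Ei} (hM : ∀ k, M k ⊆ S k) (π : Ei) :
    ((EN n M S π : ℕ) : ZMod 3) = ee M (fun k => (n k : ZMod 3)) S π := by
  unfold EN ee
  push_cast
  refine Finset.sum_congr rfl fun k _ => ?_
  congr 1
  unfold Pool.Agent.R419.KF.wt
  by_cases h : π ∈ S k
  · rw [if_pos h, if_pos h]
    by_cases h' : π ∈ M k
    · rw [if_pos h', if_pos h']
      norm_num
    · rw [if_neg h', if_neg h', add_zero]
  · rw [if_neg h, if_neg h, if_neg (fun h' => h (hM k h')), add_zero]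

theorem el_pow {m : ℕ} {M S : Fin m → Finset Ei} (hM : ∀ k, M k ⊆ S k) (k : Fin m) :
    el (M k) (S k) = ∏ π ∈ Tt S, π ^ ((if π ∈ S k then 1 else 0) + (if π ∈ M k then 1 else 0)) := by
  have hS : S k ⊆ Tt S := fun π hπ => mem_Tt.2 ⟨k, hπ⟩
  unfold el
  simp only [pow_add]
  rw [Finset.prod_mul_distrib]
  congr 1
  · rw [← Finset.prod_subset hS (f := fun π => π ^ (if π ∈ S k then 1 else 0))]
    · exact Finset.prod_congr rfl fun π hπ => by rw [if_pos hπ, pow_one]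
    · intro π _ hπ
      rw [if_neg hπ, pow_zero]
  · rw [← Finset.prod_subset ((hM k).trans hS) (f := fun π => π ^ (if π ∈ M k then 1 else 0))]
    · exact Finset.prod_congr rfl fun π hπ => by rw [if_pos hπ, pow_one]
    · intro π _ hπ
      rw [if_neg hπ, pow_zero]

theorem w_cube : (w : Ei) ^ 3 = 1 := by decide

theorem w_red (N : ℕ) : (w : Ei) ^ N = w ^ ((N : ZMod 3)).val := by
  rw [ZMod.val_natCast]
  conv_lhs => rw [← Nat.div_add_mod N 3]
  rw [pow_add, pow_mul, w_cube, one_pow, one_mul]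

theorem pow_prm {c : Ei} (hc : prm c) (n : ℕ) : prm (c ^ n) := by
  induction n with
  | zero => rw [pow_zero]; exact prm_one
  | succ k ih => rw [pow_succ]; exact prm_mul ih hc

/-- **the decomposition of `δ`** -/
theorem dlt_eq {m : ℕ} (n : Fin m → ℕ) (i : Fin m → ZMod 3) {M S : Fin m → Finset Ei}
    (hM : ∀ k, M k ⊆ S k) (hS : ∀ k, ∀ q ∈ S k, Pq q) :
    ∃ c : Ei, c ≠ 0 ∧ prm c ∧ dlt n (fun k => elw (i k) (M k) (S k)) =
      pB (fun π : ↥(Uu (Tt S) (ee M (fun k => (n k : ZMod 3)) S)) => (π : Ei))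
        (fun π => ee M (fun k => (n k : ZMod 3)) S π) (∑ k, (n k : ZMod 3) * i k) * c ^ 3 := by
  set e := ee M (fun k => (n k : ZMod 3)) S with he
  have hT : ∀ q ∈ Tt S, Pq q := fun q hq => by
    obtain ⟨k, hk⟩ := mem_Tt.1 hq
    exact hS k q hk
  refine ⟨∏ π ∈ Tt S, π ^ (EN n M S π / 3), ?_, ?_, ?_⟩
  · exact Finset.prod_ne_zero_iff.2 fun π hπ => pow_ne_zero _ (hT π hπ).prime.ne_zero
  · refine Finset.prod_induction _ prm (fun _ _ => prm_mul) prm_one fun π hπ => ?_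
    exact pow_prm (hT π hπ).three _
  · have h1 : dlt n (fun k => elw (i k) (M k) (S k)) =
        w ^ (∑ k, (i k).val * n k) * ∏ π ∈ Tt S, π ^ EN n M S π := by
      unfold dlt elw
      simp only [mul_pow]
      rw [Finset.prod_mul_distrib]
      congr 1
      · rw [← Finset.prod_pow_eq_pow_sum]
        exact Finset.prod_congr rfl fun k _ => by rw [pow_mul]
      · have h2 : ∀ k, el (M k) (S k) ^ n k = ∏ π ∈ Tt S,
            π ^ (n k * ((if π ∈ S k then 1 else 0) + (if π ∈ M k then 1 else 0))) := fun k => by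
          rw [el_pow hM k, ← Finset.prod_pow]
          exact Finset.prod_congr rfl fun π _ => by rw [← pow_mul, mul_comm]
        simp only [h2]
        rw [Finset.prod_comm]
        refine Finset.prod_congr rfl fun π _ => ?_
        unfold EN
        rw [← Finset.prod_pow_eq_pow_sum]
    have h3 : ∏ π ∈ Tt S, π ^ EN n M S π =
        (∏ π ∈ Uu (Tt S) e, π ^ (e π).val) * (∏ π ∈ Tt S, π ^ (EN n M S π / 3)) ^ 3 := by
      have h4 : ∏ π ∈ Uu (Tt S) e, π ^ (e π).val = ∏ π ∈ Tt S, π ^ (e π).val := by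
        unfold Uu
        rw [Finset.prod_filter]
        refine Finset.prod_congr rfl fun π _ => ?_
        by_cases h : e π = 0
        · rw [if_neg (not_not.2 h), h, ZMod.val_zero, pow_zero]
        · rw [if_pos h]
      rw [h4, ← Finset.prod_pow, ← Finset.prod_mul_distrib]
      refine Finset.prod_congr rfl fun π _ => ?_
      rw [← pow_mul, ← pow_add]
      congr 1
      have h5 : (e π).val = EN n M S π % 3 := by
        rw [he, ← EN_cast n hM, ZMod.val_natCast]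
      rw [h5]
      omega
    have h6 : ∏ π ∈ Uu (Tt S) e, π ^ (e π).val =
        pD (fun π : ↥(Uu (Tt S) e) => (π : Ei)) (fun π => e π) := by
      unfold pD
      exact (Finset.prod_coe_sort (Uu (Tt S) e) (fun π => π ^ (e π).val)).symm
    have h7 : (w : Ei) ^ (∑ k, (i k).val * n k) = w ^ (∑ k, (n k : ZMod 3) * i k).val := by
      rw [w_red]
      congr 2
      push_cast
      refine Finset.sum_congr rfl fun k _ => ?_
      rw [ZMod.natCast_zmod_val, mul_comm]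
    rw [h1, h3, h6, h7]
    unfold pB
    ring

theorem dt_U {T : Finset Ei} (hT : ∀ q ∈ T, Pq q) (e : Ei → ZMod 3) :
    Dt (fun π : ↥(Uu T e) => (π : Ei)) (fun π => e π) := by
  refine ⟨fun π => hT _ (mem_filter.1 π.2).1, fun π ρ hne hd => ?_, fun π => (mem_filter.1 π.2).2⟩
  exact hne (Subtype.ext (eq_of_dvd (hT _ (mem_filter.1 ρ.2).1) (hT _ (mem_filter.1 π.2).1) hd)).symm

/-- `x` is a unit times a cube -/
def UC (x : Ei) : Prop := ∃ u c : Ei, IsUnit u ∧ x = u * c ^ 3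

theorem uc_iff {T : Finset Ei} (hT : ∀ q ∈ T, Pq q) (e : Ei → ZMod 3) (y : ZMod 3) {c : Ei}
    (hc : c ≠ 0) :
    UC (pB (fun π : ↥(Uu T e) => (π : Ei)) (fun π => e π) y * c ^ 3) ↔ ¬ (Uu T e).Nonempty := by
  constructor
  · rintro ⟨u, x, hu, hx⟩ hne
    have hn : Nonempty ↥(Uu T e) := hne.to_subtype
    have hD := dt_U hT e
    have h1 : c ^ 3 ∣ x ^ 3 := by
      rw [← hu.dvd_mul_left, ← hx]
      exact dvd_mul_left _ _
    have h2 : c ∣ x := (IsIntegrallyClosed.pow_dvd_pow_iff three_ne_zero).1 h1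
    obtain ⟨d, rfl⟩ := h2
    have h3 : pB (fun π : ↥(Uu T e) => (π : Ei)) (fun π => e π) y = u * d ^ 3 := by
      apply mul_right_cancel₀ (pow_ne_zero 3 hc)
      rw [hx]
      ring
    have h4 : IsUnit d := (cf_pB (i := y) hD).2 d (by rw [h3]; exact dvd_mul_left _ _)
    exact nunitB (i := y) hD (by rw [h3]; exact hu.mul (h4.pow 3))
  · intro h
    rw [not_nonempty_iff_eq_empty] at h
    have hE : IsEmpty ↥(Uu T e) := by
      rw [h]
      exact ⟨fun x => notMem_empty _ x.2⟩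
    refine ⟨w ^ y.val, c, isUnit_w.pow _, ?_⟩
    congr 1
    unfold pB pD
    rw [Finset.univ_eq_empty, Finset.prod_empty, mul_one]

/-- not exceptional -/
def NEc (x : Ei) : Prop := ¬ UC x ∧ ¬ ((3 : Ei) ∣ x - 1 ∧ (9 : ℤ) ∣ nr x - 1)

theorem nr_prm {c : Ei} (hc : prm c) : (3 : ℤ) ∣ nr c - 1 := by
  obtain ⟨t, ht⟩ := hc
  have h2 : c = 1 + 3 * t := by rw [← ht]; ring
  obtain ⟨x, y⟩ := t
  rw [h2, Pool.Agent.Y703.CT.nr_form]
  refine ⟨?_, ?_⟩
  · exact (2 * x - y) + 3 * (nr ⟨x, y⟩)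
  · ring

theorem nr_cube {c : Ei} (hc : prm c) : (9 : ℤ) ∣ nr (c ^ 3) - 1 := by
  obtain ⟨t, ht⟩ := nr_prm hc
  have h1 : nr (c ^ 3) = nr c ^ 3 := by
    rw [pow_succ, pow_succ, pow_one, Pool.Agent.Y692.QS.nr_mul, Pool.Agent.Y692.QS.nr_mul]
    ring
  have h2 : nr c = 1 + 3 * t := by linarith
  rw [h1, h2]
  exact ⟨t + 3 * t ^ 2 + 3 * t ^ 3, by ring⟩

/-- the norm condition -/
theorem nx_iff {J : Type} [Fintype J] {π : J → Ei} {e : J → ZMod 3} (hD : Dt π e) (y : ZMod 3)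
    {c : Ei} (hc : prm c) :
    ((3 : Ei) ∣ pB π e y * c ^ 3 - 1 ∧ (9 : ℤ) ∣ nr (pB π e y * c ^ 3) - 1) ↔
      (y = 0 ∧ (9 : ℤ) ∣ nr (pD π e) - 1) := by
  have hp : prm (pD π e * c ^ 3) := prm_mul (Pool.Agent.R419.CE.three_pD hD) (pow_prm hc 3)
  have e1 : pB π e y * c ^ 3 = w ^ y.val * (pD π e * c ^ 3) := by unfold pB; ring
  have h3 : (3 : Ei) ∣ pB π e y * c ^ 3 - 1 ↔ y = 0 := by
    have h := Pool.Agent.N883.FF.three_dvd_w (i := y) hp 0
    rw [ZMod.val_zero, pow_zero] at h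
    rw [e1]
    exact h
  have h9 : (9 : ℤ) ∣ nr (pB π e y * c ^ 3) - 1 ↔ (9 : ℤ) ∣ nr (pD π e) - 1 := by
    rw [e1, Pool.Agent.N883.FF.nr_w_mul, Pool.Agent.Y692.QS.nr_mul]
    obtain ⟨t, ht⟩ := nr_cube hc
    have h2 : nr (c ^ 3) = 1 + 9 * t := by linarith
    rw [h2]
    have e2 : nr (pD π e) * (1 + 9 * t) - 1 = (nr (pD π e) - 1) + 9 * (nr (pD π e) * t) := by ring
    rw [e2]
    exact dvd_add_left (dvd_mul_right _ _)
  rw [h3, h9]

end Run7.h707.TC
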