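import Pool.Agent.Run7.h707.TC.Crit3

/-! The criterion for the tuples; the property `NEc` only depends on the key -/

set_option autoImplicit false
set_option linter.unusedVariables false
set_option linter.unusedSectionVars false

open scoped Classical

namespace Run7.h707.TC

open Finset Module
open NumberField
open Pool.Agent.Y692.QS (Ei w nr)
open Pool.Agent.Y715.T.RecG (Pq)
open Pool.Agent.Y699.E (nrm nrm_cast nrm_mul prm)
open Pool.Agent.Y703.CT (Dt pD Ker)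
open Pool.Agent.Y703.XK (sm la bl)
open Pool.Agent.Y703.CX (jj)
open Pool.Agent.Y696.CTK (Tri)
open Pool.Agent.N883.FF (nq KerB pB isUnit_w)
open Pool.Agent.R419.KF (wt_one el)
open Pool.Agent.XLK (ph ph_div ph_mod sm_union sm_disj ph_inj prod_ph prod_mod ky prod_split)
open Q283.T3 (KS)

section
variable {m : ℕ} {n : Fin m → ℕ} {i : Fin m → ZMod 3} {M S : Fin m → Finset Ei}

theorem nrm_pow' (x : Ei) (k : ℕ) : nrm (x ^ k) = nrm x ^ k := by
  induction k with
  | zero =>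
    rw [pow_zero, pow_zero]
    have h1 : ((nrm (1 : Ei) : ℕ) : ℤ) = 1 := by rw [nrm_cast]; decide
    exact_mod_cast h1
  | succ k ih => rw [pow_succ, pow_succ, nrm_mul, ih]

theorem nrm_prod' {ι : Type} (s : Finset ι) (f : ι → Ei) : nrm (∏ k ∈ s, f k) = ∏ k ∈ s, nrm (f k) := by
  induction s using Finset.induction_on with
  | empty =>
    rw [Finset.prod_empty, Finset.prod_empty]
    have h1 : ((nrm (1 : Ei) : ℕ) : ℤ) = 1 := by rw [nrm_cast]; decide
    exact_mod_cast h1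
  | insert a s ha ih => rw [Finset.prod_insert ha, Finset.prod_insert ha, nrm_mul, ih]

/-- the norm of `δ` -/
theorem nrm_dlt : nrm (dlt n fun k => elw (i k) (M k) (S k)) =
    ∏ k, ((∏ π ∈ S k, nrm π) * ∏ π ∈ M k, nrm π) ^ n k := by
  unfold dlt
  rw [nrm_prod']
  refine Finset.prod_congr rfl fun k _ => ?_
  rw [nrm_pow', nrm_elw]

/-- the exponents -/
noncomputable def eT (n : Fin m → ℕ) (M S : Fin m → Finset Ei) : Ei → ZMod 3 :=
  ee M (fun k => (n k : ZMod 3)) S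

theorem tt_pq (hS : ∀ k, ∀ q ∈ S k, Pq q) : ∀ q ∈ Tt S, Pq q := fun q hq => by
  obtain ⟨k, hk⟩ := mem_Tt.1 hq
  exact hS k q hk

theorem nec_iff (hM : ∀ k, M k ⊆ S k) (hS : ∀ k, ∀ q ∈ S k, Pq q) :
    NEc (dlt n fun k => elw (i k) (M k) (S k)) ↔ (Uu (Tt S) (eT n M S)).Nonempty ∧
      ¬ (∑ k, (n k : ZMod 3) * i k = 0 ∧
        (∏ k, ((∏ π ∈ S k, nrm π) * ∏ π ∈ M k, nrm π) ^ n k) % 9 = 1) := by
  obtain ⟨c, hc, hcp, hd⟩ := dlt_eq n i hM hS
  have h1 := uc_iff (tt_pq hS) (eT n M S) (∑ k, (n k : ZMod 3) * i k) hc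
  have h2 := nx_iff (dt_U (tt_pq hS) (eT n M S)) (∑ k, (n k : ZMod 3) * i k) hcp
  unfold eT at h1 h2
  rw [← hd] at h1 h2
  unfold NEc
  rw [h1, not_not]
  refine and_congr Iff.rfl (not_congr ?_)
  constructor
  · intro h
    obtain ⟨h3, h4⟩ := h2.1 h
    refine ⟨h3, ?_⟩
    have h5 := h.2
    rw [← nrm_cast, nrm_dlt] at h5
    omega
  · rintro ⟨h3, h4⟩
    rw [h2]
    refine ⟨h3, ?_⟩
    -- the norm of `δ` and of its part without cubes
    have h6 : (9 : ℤ) ∣ nr (dlt n fun k => elw (i k) (M k) (S k)) - 1 := by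
      rw [← nrm_cast, nrm_dlt]
      omega
    have h7 := congrArg nr hd
    rw [Pool.Agent.Y692.QS.nr_mul] at h7
    have h8 : pB (fun π : ↥(Uu (Tt S) (ee M (fun k => (n k : ZMod 3)) S)) => (π : Ei))
        (fun π => ee M (fun k => (n k : ZMod 3)) S π) (∑ k, (n k : ZMod 3) * i k) =
        w ^ (∑ k, (n k : ZMod 3) * i k).val *
          pD (fun π : ↥(Uu (Tt S) (ee M (fun k => (n k : ZMod 3)) S)) => (π : Ei))
        (fun π => ee M (fun k => (n k : ZMod 3)) S π) := rfl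
    rw [h8, Pool.Agent.N883.FF.nr_w_mul] at h7
    obtain ⟨t, ht⟩ := nr_cube hcp
    have h9 : nr (c ^ 3) = 1 + 9 * t := by linarith
    rw [h7, h9] at h6
    have e2 : ∀ x : ℤ, x * (1 + 9 * t) - 1 = (x - 1) + 9 * (x * t) := fun x => by ring
    rw [e2] at h6
    exact (dvd_add_left (dvd_mul_right _ _)).1 h6

/-- the nonempty support and the key -/
theorem supp_iff {z H : ℕ} (hn : ∀ k, (n k : ZMod 3) ≠ 0) (hMz : ∀ k, ∀ q ∈ M k, nrm q ≤ z)
    (hj : IjT z H S) :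
    (Uu (Tt S) (eT n M S)).Nonempty ↔ (∃ k, (la z (S k)).Nonempty) ∨
      (Uu (Tt fun k => sm z (S k)) (eT n M fun k => sm z (S k))).Nonempty := by
  have hsm : ∀ π : Ei, nrm π ≤ z → eT n M (fun k => sm z (S k)) π = eT n M S π := by
    intro π hπ
    unfold eT ee
    refine Finset.sum_congr rfl fun k _ => ?_
    congr 1
    refine if_congr ?_ rfl rfl
    unfold sm
    rw [mem_filter]
    exact ⟨fun h => h.1, fun h => ⟨h, hπ⟩⟩
  constructor
  · rintro ⟨π, hπ⟩
    obtain ⟨h1, h2⟩ := mem_filter.1 hπ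
    obtain ⟨k, hk⟩ := mem_Tt.1 h1
    by_cases hz : nrm π ≤ z
    · right
      refine ⟨π, mem_filter.2 ⟨mem_Tt.2 ⟨k, ?_⟩, ?_⟩⟩
      · exact mem_filter.2 ⟨hk, hz⟩
      · rw [hsm π hz]
        exact h2
    · left
      exact ⟨k, π, mem_filter.2 ⟨hk, hz⟩⟩
  · rintro (⟨k, π, hπ⟩ | ⟨π, hπ⟩)
    · have h1 := mem_filter.1 hπ
      refine ⟨π, mem_filter.2 ⟨mem_Tt.2 ⟨k, h1.1⟩, ?_⟩⟩
      unfold eT ee
      rw [Finset.sum_eq_single k]
      · rw [if_pos h1.1, wt_one (fun h => h1.2 (hMz k π h)), mul_one]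
        exact hn k
      · intro l _ hl
        rw [if_neg, mul_zero]
        intro hπl
        exact hl (hj l k π (mem_filter.2 ⟨hπl, h1.2⟩) π hπ rfl).1
      · intro h
        exact absurd (mem_univ _) h
    · obtain ⟨h1, h2⟩ := mem_filter.1 hπ
      obtain ⟨k, hk⟩ := mem_Tt.1 h1
      have hk' := mem_filter.1 hk
      refine ⟨π, mem_filter.2 ⟨mem_Tt.2 ⟨k, hk'.1⟩, ?_⟩⟩
      rw [← hsm π hk'.2]
      exact h2

/-- the products of the norms and the key -/
theorem norm_key {z H : ℕ} {S S' : Fin m → Finset Ei} (hj : IjT z H S) (hj' : IjT z H S')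
    (hk : kyT z H S = kyT z H S') (k : Fin m) :
    (∏ π ∈ S k, nrm π) % 9 = (∏ π ∈ S' k, nrm π) % 9 := by
  have h1 : sm z (S k) = sm z (S' k) := congrArg Prod.fst (congrFun hk k)
  have h2 : (la z (S k)).image (ph H) = (la z (S' k)).image (ph H) :=
    congrArg Prod.snd (congrFun hk k)
  have h3 : ∏ p ∈ la z (S k), ph H p = ∏ p ∈ la z (S' k), ph H p := by
    rw [← prod_ph (ijT_inj hj k) (fun i => i), ← prod_ph (ijT_inj hj' k) (fun i => i), h2]
  rw [prod_split z (S k), prod_split z (S' k), h1, Nat.mul_mod, prod_mod (la z (S k)) H, h3,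
    ← prod_mod (la z (S' k)) H, ← Nat.mul_mod]

end

/-- **the property only depends on the key** -/
theorem kyp_nec {m Mt : ℕ} (n : Fin Mt → Fin m → ℕ) (hn : ∀ t k, (n t k : ZMod 3) ≠ 0)
    (i : Fin m → ZMod 3) (M : Fin m → Finset Ei) :
    KyP M fun S => ∀ t, NEc (dlt (n t) fun k => elw (i k) (M k) (S k)) := by
  intro z H hH hMz S S' hS hS' hM hM' hj hj' hk
  refine forall_congr' fun t => ?_
  rw [nec_iff hM hS, nec_iff hM' hS', supp_iff (hn t) hMz hj, supp_iff (hn t) hMz hj']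
  have hsm : (fun k => sm z (S k)) = fun k => sm z (S' k) :=
    funext fun k => congrArg Prod.fst (congrFun hk k)
  have h1 : (∃ k, (la z (S k)).Nonempty) ↔ ∃ k, (la z (S' k)).Nonempty := by
    refine exists_congr fun k => ?_
    have h2 : (la z (S k)).image (ph H) = (la z (S' k)).image (ph H) :=
      congrArg Prod.snd (congrFun hk k)
    rw [← image_nonempty (f := ph H) (s := la z (S k)), h2, image_nonempty]
  have h2 : (∏ k, ((∏ π ∈ S k, nrm π) * ∏ π ∈ M k, nrm π) ^ n t k) % 9 =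
      (∏ k, ((∏ π ∈ S' k, nrm π) * ∏ π ∈ M k, nrm π) ^ n t k) % 9 := by
    rw [Finset.prod_nat_mod]
    conv_rhs => rw [Finset.prod_nat_mod]
    congr 1
    refine Finset.prod_congr rfl fun k _ => ?_
    rw [Nat.pow_mod, Nat.mul_mod, norm_key hj hj' hk k, ← Nat.mul_mod, ← Nat.pow_mod]
  rw [h1, h2, hsm]

/-- **the criterion for the tuples** -/
theorem gt_iff {K : Type} [Field K] [NumberField K] (j : Ei ≃+* 𝓞 K) {m Mt : ℕ}
    (n : Fin Mt → Fin m → ℕ) (i : Fin m → ZMod 3) {M S : Fin m → Finset Ei}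
    (hM : ∀ k, M k ⊆ S k) (hS : ∀ k, ∀ q ∈ S k, Pq q)
    (hne : ∀ t, NEc (dlt (n t) fun k => elw (i k) (M k) (S k))) :
    GT M (fun t k => (n t k : ZMod 3)) (fun t => ∑ k, (n t k : ZMod 3) * i k) (fun _ => 0) S ↔
      ∀ t, Tri (j (dlt (n t) fun k => elw (i k) (M k) (S k))) := by
  unfold GT
  refine forall_congr' fun t => ?_
  obtain ⟨c, hc, hcp, hd⟩ := dlt_eq (n t) i hM hS
  have h0 := (nec_iff hM hS).1 (hne t)
  have hU := h0.1
  have hT := tt_pq hS
  have hD := dt_U hT (eT (n t) M S)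
  have hn : Nonempty ↥(Uu (Tt S) (eT (n t) M S)) := hU.to_subtype
  beta_reduce
  rw [hd, zero_add]
  by_cases hy : ∑ k, (n t k : ZMod 3) * i k = 0
  · rw [hy]
    have h9 : ¬ (9 : ℤ) ∣ nr (pD (fun π : ↥(Uu (Tt S) (eT (n t) M S)) => (π : Ei))
        (fun π => eT (n t) M S π)) - 1 := by
      intro h9
      have h2 := (nx_iff hD (∑ k, (n t k : ZMod 3) * i k) hcp).2 ⟨hy, h9⟩
      have h3 := (hne t).2
      rw [hd] at h3
      exact h3 h2
    have h4 := tri_A3 j hD h9 hc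
    have e1 : pB (fun π : ↥(Uu (Tt S) (eT (n t) M S)) => (π : Ei)) (fun π => eT (n t) M S π) 0 =
        pD (fun π : ↥(Uu (Tt S) (eT (n t) M S)) => (π : Ei)) (fun π => eT (n t) M S π) := by
      unfold pB
      rw [ZMod.val_zero, pow_zero, one_mul]
    have h5 := fr_A hT (eT (n t) M S) hU
    rw [← h4, ← e1] at h5
    exact h5
  · have h4 := tri_B3 j hD hy hc
    have h5 := fr_B hT (eT (n t) M S) hy
    rw [← h4] at h5
    exact h5

end Run7.h707.TC
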