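import Pool.Agent.Run7.h707.TC.TotT
import Pool.Agent.N883.FF.Cnt

/-! Tuples of elements and tuples of sets of primes -/

set_option autoImplicit false
set_option linter.unusedSectionVars false

open scoped Classical

namespace Run7.h707.TC

open Finset Filter
open Pool.Agent.Y692.QS (Ei w nr)
open Pool.Agent.Y715.T.RecG (Pq)
open Pool.Agent.Y715.T.Gi (CF)
open Pool.Agent.Y699.E
open Pool.Agent.Y433.XK (pN pN_pos)
open Pool.Agent.R419.KF (SG mem_SG el el_ne el_prm nrm_el el_inj cf_el ex_pair prod_ppos)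
open Pool.Agent.N883.FF (w_pow_inj isUnit_w)

/-- the element of a unit and a pair of sets -/
noncomputable def elw (i : ZMod 3) (M S : Finset Ei) : Ei := w ^ i.val * el M S

/-- cube-free and congruent to a third root of unity modulo `3` -/
def FamU (a : Ei) : Prop :=
  (∀ x : Ei, x ^ 3 ∣ a → IsUnit x) ∧ ∃ i : ZMod 3, (3 : Ei) ∣ a - w ^ i.val

theorem elw_mod {i : ZMod 3} {M S : Finset Ei} (hS : ∀ q ∈ S, Pq q) (hM : M ⊆ S) :
    (3 : Ei) ∣ elw i M S - w ^ i.val := by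
  have h := el_prm hS hM
  have e : elw i M S - w ^ i.val = w ^ i.val * (el M S - 1) := by
    unfold elw
    ring
  rw [e]
  exact Dvd.dvd.mul_left h _

theorem elw_inj {i i' : ZMod 3} {M S M' S' : Finset Ei} (hS : ∀ q ∈ S, Pq q) (hM : M ⊆ S)
    (hS' : ∀ q ∈ S', Pq q) (hM' : M' ⊆ S') (h : elw i M S = elw i' M' S') :
    i = i' ∧ M = M' ∧ S = S' := by
  have h1 := elw_mod (i := i) hS hM
  have h2 := elw_mod (i := i') hS' hM'
  rw [h] at h1
  have h3 : (3 : Ei) ∣ w ^ i.val - w ^ i'.val := by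
    have := dvd_sub h2 h1
    convert this using 1
    ring
  have h4 := w_pow_inj h3
  subst h4
  unfold elw at h
  have h5 := mul_left_cancel₀ (isUnit_w.pow _).ne_zero h
  exact ⟨rfl, el_inj hS hM hS' hM' h5⟩

theorem elw_ne {i : ZMod 3} {M S : Finset Ei} (hS : ∀ q ∈ S, Pq q) (hM : M ⊆ S) :
    elw i M S ≠ 0 := mul_ne_zero (isUnit_w.pow _).ne_zero (el_ne hS hM)

theorem nrm_w : nrm (w : Ei) = 1 := by
  have h1 : ((nrm (w : Ei) : ℕ) : ℤ) = 1 := by rw [nrm_cast]; decide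
  exact_mod_cast h1

theorem nrm_elw (i : ZMod 3) (M S : Finset Ei) :
    nrm (elw i M S) = (∏ π ∈ S, nrm π) * ∏ π ∈ M, nrm π := by
  have h : ∀ n : ℕ, nrm ((w : Ei) ^ n) = 1 := by
    intro n
    induction n with
    | zero =>
      have h1 : ((nrm ((w : Ei) ^ 0) : ℕ) : ℤ) = 1 := by rw [nrm_cast]; decide
      exact_mod_cast h1
    | succ n ih => rw [pow_succ, nrm_mul, ih, nrm_w]
  unfold elw
  rw [nrm_mul, h, one_mul, nrm_el]

theorem famU_elw {i : ZMod 3} {M S : Finset Ei} (hS : ∀ q ∈ S, Pq q) (hM : M ⊆ S) :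
    FamU (elw i M S) := by
  refine ⟨fun x hx => ?_, i, elw_mod hS hM⟩
  have h1 : x ^ 3 ∣ el M S := ((isUnit_w.pow i.val).dvd_mul_left).1 hx
  exact (cf_el hS hM).2 x h1

theorem famU_ex {a : Ei} (h : FamU a) : ∃ (i : ZMod 3) (M S : Finset Ei), (∀ q ∈ S, Pq q) ∧
    M ⊆ S ∧ a = elw i M S := by
  obtain ⟨h1, i, h2⟩ := h
  have hw3 : (w : Ei) ^ i.val * w ^ (-i).val = 1 := by
    have : ∀ i : ZMod 3, (w : Ei) ^ i.val * w ^ (-i).val = 1 := by decide
    exact this i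
  have h3 : (3 : Ei) ∣ w ^ (-i).val * a - 1 := by
    have h4 : w ^ (-i).val * a - 1 = w ^ (-i).val * (a - w ^ i.val) := by
      rw [mul_sub]
      congr 1
      rw [mul_comm, hw3]
    rw [h4]
    exact h2.mul_left _
  have hcf : CF (w ^ (-i).val * a) := by
    refine ⟨prm_ne_zero h3, fun x hx => h1 x ?_⟩
    exact ((isUnit_w.pow (-i).val).dvd_mul_left).1 hx
  obtain ⟨M, S, hS, hM, hel⟩ := ex_pair h3 hcf
  refine ⟨i, M, S, hS, hM, ?_⟩
  unfold elw
  rw [← hel, ← mul_assoc, hw3, one_mul]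

/-- **the count of the tuples** -/
theorem cnt_eq (m X : ℕ) (C : (Fin m → Ei) → Prop) :
    {a : Fin m → Ei | (∀ k, nr (a k) ≤ X ∧ FamU (a k)) ∧ C a}.ncard =
      ∑ i : Fin m → ZMod 3, CT (fun M S => C fun k => elw (i k) (M k) (S k)) X := by
  set PI := Fintype.piFinset (fun _ : Fin m => SG X) with hPI
  have e0 : ∑ i : Fin m → ZMod 3, CT (fun M S => C fun k => elw (i k) (M k) (S k)) X =
      (((univ : Finset (Fin m → ZMod 3)) ×ˢ PI).sigma fun p =>
        (TP p.2 (YM X p.2)).filter fun S => C fun k => elw (p.1 k) (p.2 k) (S k)).card := by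
    rw [card_sigma, sum_product]
    rfl
  rw [e0]
  have h1 : {a : Fin m → Ei | (∀ k, nr (a k) ≤ X ∧ FamU (a k)) ∧ C a} =
      (fun p : (Σ _ : (Fin m → ZMod 3) × (Fin m → Finset Ei), Fin m → Finset Ei) =>
        fun k => elw (p.1.1 k) (p.1.2 k) (p.2 k)) ''
        ((((univ : Finset (Fin m → ZMod 3)) ×ˢ PI).sigma fun p =>
          (TP p.2 (YM X p.2)).filter fun S => C fun k => elw (p.1 k) (p.2 k) (S k) :
          Finset (Σ _ : (Fin m → ZMod 3) × (Fin m → Finset Ei), Fin m → Finset Ei)) :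
          Set (Σ _ : (Fin m → ZMod 3) × (Fin m → Finset Ei), Fin m → Finset Ei)) := by
    ext a
    constructor
    · rintro ⟨h1, h3⟩
      choose i M S hS hM ha using fun k => famU_ex (h1 k).2
      have hae : a = fun k => elw (i k) (M k) (S k) := funext ha
      have h4 : ∀ k, (∏ π ∈ S k, nrm π) * ∏ π ∈ M k, nrm π ≤ X := by
        intro k
        have := (h1 k).1
        rw [ha k, ← nrm_cast] at this
        rw [← nrm_elw (i k)]
        exact_mod_cast this
      have hM' : ∀ k, ∀ q ∈ M k, Pq q := fun k q hq => hS k q (hM k hq)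
      refine ⟨⟨(i, M), S⟩, ?_, hae.symm⟩
      rw [mem_coe, mem_sigma, mem_product]
      refine ⟨⟨mem_univ _, ?_⟩, mem_filter.2 ⟨?_, ?_⟩⟩
      · rw [hPI, Fintype.mem_piFinset]
        intro k
        refine mem_SG.2 ⟨hM' k, ?_⟩
        exact (Nat.le_mul_of_pos_left _ (prod_ppos (hS k))).trans (h4 k)
      · rw [mem_TP]
        intro k
        refine ⟨hS k, ?_, hM k⟩
        show _ ≤ X / pN (M k)
        rw [Nat.le_div_iff_mul_le (pN_pos (hM' k))]
        exact h4 k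
      · rw [← hae]
        exact h3
    · rintro ⟨⟨⟨i, M⟩, S⟩, hp, rfl⟩
      rw [mem_coe, mem_sigma, mem_product] at hp
      obtain ⟨⟨-, h2⟩, h3⟩ := hp
      rw [hPI, Fintype.mem_piFinset] at h2
      obtain ⟨h4, h5⟩ := mem_filter.1 h3
      rw [mem_TP] at h4
      refine ⟨fun k => ⟨?_, famU_elw (h4 k).1 (h4 k).2.2⟩, h5⟩
      have h6 : ∏ π ∈ S k, nrm π ≤ X / pN (M k) := (h4 k).2.1
      rw [Nat.le_div_iff_mul_le (pN_pos (mem_SG.1 (h2 k)).1)] at h6
      rw [← nrm_cast]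
      show ((nrm (elw (i k) (M k) (S k)) : ℕ) : ℤ) ≤ X
      rw [nrm_elw]
      exact_mod_cast h6
  rw [h1, Set.ncard_image_of_injOn, Set.ncard_coe_finset]
  rintro ⟨⟨i, M⟩, S⟩ hp ⟨⟨i', M'⟩, S'⟩ hp' h
  rw [mem_coe, mem_sigma] at hp hp'
  have h2 := mem_TP.1 (mem_filter.1 hp.2).1
  have h3 := mem_TP.1 (mem_filter.1 hp'.2).1
  have h4 : ∀ k, i k = i' k ∧ M k = M' k ∧ S k = S' k := fun k =>
    elw_inj (h2 k).1 (h2 k).2.2 (h3 k).1 (h3 k).2.2 (congrFun h k)
  have e1 : i = i' := funext fun k => (h4 k).1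
  have e2 : M = M' := funext fun k => (h4 k).2.1
  have e3 : S = S' := funext fun k => (h4 k).2.2
  subst e1
  subst e2
  subst e3
  rfl

end Run7.h707.TC
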