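import Pool.Agent.Run7.h707.TC.Gen
import Pool.Agent.Run7.h707.TC.Key2
import Pool.Agent.N883.FF.Bad
import Pool.Agent.N883.FF.Hal
import Pool.Agent.R419.KF.Asy
import Pool.Agent.Q283.T3.Cnt

/-! The exceptional tuples -/

set_option autoImplicit false
set_option linter.unusedSectionVars false

open scoped Classical

namespace Run7.h707.TC

open Finset Filter
open Pool.Agent.Y692.QS (Ei)
open Pool.Agent.Y715.T.Rec (cs)
open Pool.Agent.Y715.T.RecG (Pq)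
open Pool.Agent.Y699.E
open Pool.Agent.Y703.CX (eL zz kk jj XX HH)
open Pool.Agent.Y703.XK (sm la bl Nd)
open Pool.Agent.R419.KF (SG mem_SG)
open Pool.Agent.Y433.XK (pN pN_pos)
open Pool.Agent.N883.FF (nq NdB S_HALB)
open Pool.Agent.N883.FF.Bad (DgB notNdB val3)
open Pool.Agent.R419.KF.Few (fiber_le)
open Q283.T3 (lg_mul)

theorem sm_update {m : ℕ} (z : ℕ) (k₀ : Fin m) (S : Fin m → Finset Ei) :
    (Tt fun k => sm z (S k)) =
      (Tt fun k => sm z (Function.update S k₀ ∅ k)) ∪ sm z (S k₀) := by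
  ext π
  rw [mem_union, mem_Tt, mem_Tt]
  constructor
  · rintro ⟨k, hk⟩
    by_cases h : k = k₀
    · right
      rw [← h]
      exact hk
    · left
      refine ⟨k, ?_⟩
      rw [Function.update_of_ne h]
      exact hk
  · rintro (⟨k, hk⟩ | hk)
    · by_cases h : k = k₀
      · rw [h, Function.update_self] at hk
        unfold sm at hk
        simp at hk
      · rw [Function.update_of_ne h] at hk
        exact ⟨k, hk⟩
    · exact ⟨k₀, hk⟩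

/-- few primes in the color `k₀` -/
theorem fewT (m : ℕ) (k₀ : Fin m) (R : ℕ) : ∀ ε : ℝ, 0 < ε → ∀ᶠ X : ℕ in atTop,
    ∀ F : Finset (Fin m → Finset Ei), (∀ S ∈ F, (∀ k, S k ∈ SG X ∧ (S k).card ≤ kk X) ∧
      ¬ 4 * ((Tt fun k => sm (zz X) (S k)).card + 1) + R ≤ (la (zz X) (S k₀)).card) →
      (F.card : ℝ) ≤ ε * (X : ℝ) ^ m := by
  intro ε hε
  have h := genT m k₀ (81 / 16) (441 * (3 / 2) ^ (4 + R)) (by norm_num) (by positivity)
    (fun X W S => (la (zz X) S).card ≤ 4 * ((W ∪ sm (zz X) S).card + 1) + R)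
    (by
      intro X W hW S₀ hS₀ hc F hF
      have hWS : (W ∪ S₀).card ≤ W.card + S₀.card := card_union_le _ _
      have h := fiber_le X (zz X) S₀ (fun u hu => (hS₀ u hu).1)
        F (fun S hS => ⟨(hF S hS).1, (hF S hS).2.2⟩) (fun _ => 2 / 3) (fun _ => by norm_num)
        ((2 / 3) ^ (4 * W.card + 4 * S₀.card + (4 + R))) (fun S hS => by
            replace hS := hF S hS
            rw [prod_const]
            refine pow_le_pow_of_le_one (by norm_num) (by norm_num) ?_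
            have := hS.2.1.2
            rw [hS.2.2] at this
            omega)
      have h2 := h.trans (hall0 (X / pN S₀))
      have hlg := one_le_lg (pN S₀)
      have hlgW := one_le_lg (pN W)
      have h3 : (3 / 2 : ℝ) ^ (4 * W.card + 4 * S₀.card + (4 + R)) *
          (2 / 3) ^ (4 * W.card + 4 * S₀.card + (4 + R)) = 1 := by
        rw [← mul_pow]
        norm_num
      set c := (F.card : ℝ) with hcdef
      have hTl : 0 ≤ ((X / pN S₀ : ℕ) : ℝ) * (lg (X / pN S₀)) ^ (-(1 / 3) : ℝ) :=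
        mul_nonneg (Nat.cast_nonneg _) (Real.rpow_nonneg (zero_le_one.trans (one_le_lg _)) _)
      have e : (3 / 2 : ℝ) ^ (4 * W.card + 4 * S₀.card + (4 + R)) =
          (81 / 16) ^ W.card * (81 / 16) ^ S₀.card * (3 / 2) ^ (4 + R) := by
        rw [pow_add, pow_add, pow_mul, pow_mul]
        norm_num
      calc c = (3 / 2 : ℝ) ^ (4 * W.card + 4 * S₀.card + (4 + R)) *
            (c * (2 / 3) ^ (4 * W.card + 4 * S₀.card + (4 + R))) := by
            linear_combination (-c) * h3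
        _ ≤ (3 / 2 : ℝ) ^ (4 * W.card + 4 * S₀.card + (4 + R)) *
            (441 * (((X / pN S₀ : ℕ) : ℝ) * (lg (X / pN S₀)) ^ (-(1 / 3) : ℝ))) :=
            mul_le_mul_of_nonneg_left h2 (by positivity)
        _ = (441 * (3 / 2) ^ (4 + R) * (81 / 16) ^ W.card * 1) * (81 / 16) ^ S₀.card * 1 *
            (((X / pN S₀ : ℕ) : ℝ) * (lg (X / pN S₀)) ^ (-(1 / 3) : ℝ)) := by rw [e]; ring
        _ ≤ (441 * (3 / 2) ^ (4 + R) * (81 / 16) ^ W.card * lg (pN W)) *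
            (81 / 16) ^ S₀.card * lg (pN S₀) *
            (((X / pN S₀ : ℕ) : ℝ) * (lg (X / pN S₀)) ^ (-(1 / 3) : ℝ)) := by gcongr) ε hε
  filter_upwards [h] with X hX
  intro F hF
  refine hX F fun S hS => ?_
  obtain ⟨h1, h2⟩ := hF S hS
  refine ⟨h1, ?_⟩
  show (la (zz X) (S k₀)).card ≤ _
  rw [← sm_update]
  omega

theorem pair_countT {C : ℝ} (hC0 : 1 ≤ C) (hC : ∀ (A B : Ei) (t : ZMod 3), PS A → PS B →
    (A ≠ B ∨ t ≠ 0) → ∀ T : ℕ, ∑ n ∈ SB T, mf (fun π => (1 + 2 * (xab A B π * ez (t * nq π)).re) / 3) n ≤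
    C * (lg (nrm A * nrm B)) ^ (1 / 3 : ℝ) * (T * (lg T) ^ (-(1 / 3) : ℝ)))
    (X z : ℕ) (W S₀ : Finset Ei) (hS₀ : ∀ u ∈ S₀, Pq u ∧ nrm u ≤ z)
    (hW : ∀ u ∈ W, Pq u ∧ nrm u ≤ z)
    (A B : Finset Ei) (t : ZMod 3) (hA : A ⊆ W ∪ S₀) (hB : B ⊆ W ∪ S₀) (hd : Disjoint A B)
    (hAB : A ≠ B ∨ t ≠ 0)
    (F : Finset (Finset Ei)) (hF : ∀ S ∈ F, (S ∈ SG X ∧ sm z S = S₀) ∧ DgB A B t (la z S)) :
    (F.card : ℝ) ≤ (2 * C * lg (pN W)) * lg (pN S₀) * (((X / pN S₀ : ℕ) : ℝ) *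
          (lg (X / pN S₀)) ^ (-(1 / 3) : ℝ)) := by
  have hU : ∀ u ∈ W ∪ S₀, Pq u ∧ nrm u ≤ z := fun u hu =>
    (mem_union.1 hu).elim (hW u) (hS₀ u)
  obtain ⟨a1, a2⟩ := PS_prod (S := A) fun π hπ => (hU π (hA hπ)).1
  obtain ⟨b1, b2⟩ := PS_prod (S := B) fun π hπ => (hU π (hB hπ)).1
  set a := ∏ π ∈ A, π with ha
  set b := ∏ π ∈ B, π with hb
  have hab : a ≠ b ∨ t ≠ 0 := by
    rcases hAB with h | h
    · left
      intro h'
      apply h
      rw [← a2, ← b2, h']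
    · exact Or.inr h
  have hval : ∀ S ∈ F, ∀ π ∈ la z S, xab a b π * ez (t * nq π) = 1 := by
    intro S hS π hπ
    obtain ⟨⟨h1, h2⟩, h3⟩ := hF S hS
    have hπq : Pq π ∧ ¬ nrm π ≤ z := by
      unfold la at hπ
      rw [mem_filter] at hπ
      unfold SG at h1
      rw [mem_filter] at h1
      exact ⟨h1.2.1.1 π hπ.1, hπ.2⟩
    have hchi : ∀ u ∈ W ∪ S₀, chi u π = ez (cs u π) := by
      intro u hu
      refine chi_of fun hdv => ?_
      have := eq_of_dvd (hU u hu).1 hπq.1 hdv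
      subst this
      exact hπq.2 (hU u hu).2
    unfold xab jac
    rw [a2, b2, prod_congr rfl fun u hu => hchi u (hA hu), prod_congr rfl fun u hu => hchi u (hB hu),
      ← Pool.Agent.Y433.XK.ez_sum, ← Pool.Agent.Y433.XK.ez_sum, conj_ez, ← ez_add, ← sub_eq_add_neg, ← ez_add,
      h3 π hπ, ez_zero]
  have h := fiber_le X z S₀ (fun u hu => (hS₀ u hu).1) F (fun S hS => (hF S hS).1)
    (fun π => (1 + 2 * (xab a b π * ez (t * nq π)).re) / 3) (fun π => by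
      have := re_nonneg (val3 a1 b1 (t * nq π) π)
      positivity) 1 (fun S hS => by
      refine le_of_eq (prod_eq_one fun π hπ => ?_).symm
      rw [hval S hS π hπ]
      norm_num)
  rw [mul_one] at h
  refine h.trans ((hC a b t a1 b1 hab _).trans ?_)
  have hnn : nrm a * nrm b ≤ pN W * pN S₀ := by
    rw [ha, hb, nrm_prod, nrm_prod, ← prod_union hd]
    unfold pN
    have g1 : ∏ π ∈ A ∪ B, nrm π ≤ ∏ π ∈ W ∪ S₀, nrm π :=
      prod_le_prod_of_subset_of_one_le' (union_subset hA hB) fun u hu _ =>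
        nrm_pos' (pq_ne (hU u hu).1)
    refine g1.trans ?_
    rw [← prod_union_inter]
    exact Nat.le_mul_of_pos_right _ (prod_pos fun u hu =>
      nrm_pos' (pq_ne (hS₀ u (mem_inter.1 hu).2).1))
  have h4 : (lg (nrm a * nrm b)) ^ (1 / 3 : ℝ) ≤ 2 * lg (pN W) * lg (pN S₀) := by
    calc (lg (nrm a * nrm b)) ^ (1 / 3 : ℝ) ≤ (lg (nrm a * nrm b)) ^ (1 : ℝ) :=
          Real.rpow_le_rpow_of_exponent_le (one_le_lg _) (by norm_num)
      _ = lg (nrm a * nrm b) := Real.rpow_one _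
      _ ≤ lg (pN W * pN S₀) := lg_mono hnn
      _ ≤ _ := lg_mul _ _
  have hTl : 0 ≤ ((X / pN S₀ : ℕ) : ℝ) * (lg (X / pN S₀)) ^ (-(1 / 3) : ℝ) :=
    mul_nonneg (Nat.cast_nonneg _) (Real.rpow_nonneg (zero_le_one.trans (one_le_lg _)) _)
  have hC0' : 0 ≤ C := by linarith
  calc C * (lg (nrm a * nrm b)) ^ (1 / 3 : ℝ) * (((X / pN S₀ : ℕ) : ℝ) *
        (lg (X / pN S₀)) ^ (-(1 / 3) : ℝ)) ≤
      C * (2 * lg (pN W) * lg (pN S₀)) * (((X / pN S₀ : ℕ) : ℝ) *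
        (lg (X / pN S₀)) ^ (-(1 / 3) : ℝ)) := by gcongr
    _ = _ := by ring

theorem bad_countT {C : ℝ} (hC0 : 1 ≤ C) (hC : ∀ (A B : Ei) (t : ZMod 3), PS A → PS B →
    (A ≠ B ∨ t ≠ 0) → ∀ T : ℕ, ∑ n ∈ SB T, mf (fun π => (1 + 2 * (xab A B π * ez (t * nq π)).re) / 3) n ≤
    C * (lg (nrm A * nrm B)) ^ (1 / 3 : ℝ) * (T * (lg T) ^ (-(1 / 3) : ℝ)))
    (X : ℕ) (W S₀ : Finset Ei) (hS₀ : ∀ u ∈ S₀, Pq u ∧ nrm u ≤ zz X)
    (hW : ∀ u ∈ W, Pq u ∧ nrm u ≤ zz X) (G : Finset (Finset Ei))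
    (hG : ∀ S ∈ G, S ∈ SG X ∧ (S.card ≤ kk X ∧ ¬ NdB (W ∪ sm (zz X) S) (la (zz X) S)) ∧
      sm (zz X) S = S₀) : (G.card : ℝ) ≤
        (6 * C * 4 ^ W.card * lg (pN W)) * 4 ^ S₀.card * lg (pN S₀) *
          (((X / pN S₀ : ℕ) : ℝ) * (lg (X / pN S₀)) ^ (-(1 / 3) : ℝ)) := by
  set U := W ∪ S₀ with hU
  set P : Finset ((Finset Ei × Finset Ei) × ZMod 3) :=
    ((U.powerset ×ˢ U.powerset) ×ˢ univ).filter fun p => Disjoint p.1.1 p.1.2 ∧
      (p.1.1 ≠ p.1.2 ∨ p.2 ≠ 0) with hP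
  have hUc : U.card ≤ W.card + S₀.card := card_union_le _ _
  have hsub : G ⊆ P.biUnion fun p => G.filter fun S => DgB p.1.1 p.1.2 p.2 (la (zz X) S) := by
    intro S hS
    obtain ⟨h1, ⟨h2, h3⟩, h4⟩ := hG S hS
    rw [h4] at h3
    obtain ⟨A, B, t, hA, hB, hd, hAB, hDg⟩ := notNdB h3
    rw [mem_biUnion]
    refine ⟨((A, B), t), ?_, ?_⟩
    · rw [hP, mem_filter, mem_product, mem_product, mem_powerset, mem_powerset]
      exact ⟨⟨⟨hA, hB⟩, mem_univ _⟩, hd, hAB⟩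
    · rw [mem_filter]
      exact ⟨hS, hDg⟩
  have h1 : (G.card : ℝ) ≤ ∑ p ∈ P, ((G.filter fun S => DgB p.1.1 p.1.2 p.2 (la (zz X) S)).card : ℝ) := by
    exact_mod_cast (card_le_card hsub).trans card_biUnion_le
  have h2 : ∀ p ∈ P, ((G.filter fun S => DgB p.1.1 p.1.2 p.2 (la (zz X) S)).card : ℝ) ≤
      (2 * C * lg (pN W)) * lg (pN S₀) *
        (((X / pN S₀ : ℕ) : ℝ) * (lg (X / pN S₀)) ^ (-(1 / 3) : ℝ)) := by
    intro p hp
    rw [hP, mem_filter, mem_product, mem_product, mem_powerset, mem_powerset] at hp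
    refine pair_countT hC0 hC X (zz X) W S₀ hS₀ hW p.1.1 p.1.2 p.2 hp.1.1.1 hp.1.1.2 hp.2.1
      hp.2.2 _ ?_
    intro S hS
    rw [mem_filter] at hS
    have h := hG S hS.1
    exact ⟨⟨h.1, h.2.2⟩, hS.2⟩
  have h3 : (P.card : ℝ) ≤ 3 * (4 ^ W.card * 4 ^ S₀.card) := by
    have : P.card ≤ 3 * 4 ^ U.card := by
      refine (card_filter_le _ _).trans (le_of_eq ?_)
      rw [card_product, card_product, card_powerset, ← mul_pow, card_univ, ZMod.card]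
      norm_num
      ring
    have h5 : P.card ≤ 3 * (4 ^ W.card * 4 ^ S₀.card) := by
      rw [← pow_add]
      exact this.trans (Nat.mul_le_mul_left _ (Nat.pow_le_pow_right (by norm_num) hUc))
    exact_mod_cast h5
  have hTl : 0 ≤ ((X / pN S₀ : ℕ) : ℝ) * (lg (X / pN S₀)) ^ (-(1 / 3) : ℝ) :=
    mul_nonneg (Nat.cast_nonneg _) (Real.rpow_nonneg (zero_le_one.trans (one_le_lg _)) _)
  have hlg := lg_pos (pN S₀)
  have hlgW := lg_pos (pN W)
  have hC0' : 0 ≤ C := by linarith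
  calc (G.card : ℝ) ≤ ∑ p ∈ P, (2 * C * lg (pN W)) * lg (pN S₀) * (((X / pN S₀ : ℕ) : ℝ) *
        (lg (X / pN S₀)) ^ (-(1 / 3) : ℝ)) := h1.trans (sum_le_sum h2)
    _ = P.card * ((2 * C * lg (pN W)) * lg (pN S₀) * (((X / pN S₀ : ℕ) : ℝ) *
        (lg (X / pN S₀)) ^ (-(1 / 3) : ℝ))) := by rw [sum_const, nsmul_eq_mul]
    _ ≤ 3 * (4 ^ W.card * 4 ^ S₀.card) * ((2 * C * lg (pN W)) * lg (pN S₀) *
        (((X / pN S₀ : ℕ) : ℝ) * (lg (X / pN S₀)) ^ (-(1 / 3) : ℝ))) :=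
        mul_le_mul_of_nonneg_right h3 (by positivity)
    _ = _ := by ring

/-- few tuples have degenerate labels -/
theorem badT (m : ℕ) (k₀ : Fin m) : ∀ ε : ℝ, 0 < ε → ∀ᶠ X : ℕ in atTop,
    ∀ F : Finset (Fin m → Finset Ei), (∀ S ∈ F, (∀ k, S k ∈ SG X ∧ (S k).card ≤ kk X) ∧
      ¬ NdT (zz X) k₀ S) → (F.card : ℝ) ≤ ε * (X : ℝ) ^ m := by
  intro ε hε
  obtain ⟨C, hC0, hC⟩ := Pool.Agent.N883.FF.hal
  have h := genT m k₀ 4 (6 * C) (by norm_num) (by linarith)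
    (fun X W S => ¬ NdB (W ∪ sm (zz X) S) (la (zz X) S))
    (fun X W hW S₀ hS₀ _ F hF => bad_countT hC0 hC X W S₀ hS₀ hW F hF) ε hε
  filter_upwards [h] with X hX
  intro F hF
  refine hX F fun S hS => ?_
  obtain ⟨h1, h2⟩ := hF S hS
  refine ⟨h1, ?_⟩
  show ¬ NdB _ _
  rw [← sm_update]
  exact h2

end Run7.h707.TC
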