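import Pool.Agent.Run7.h707.TC.Exc

/-! The exceptional tuples: many primes, the boundary, two primes in a block -/

set_option autoImplicit false
set_option linter.unusedSectionVars false

open scoped Classical

namespace Run7.h707.TC

open Finset Filter
open Pool.Agent.Y692.QS (Ei)
open Pool.Agent.Y715.T.RecG (Pq)
open Pool.Agent.Y699.E
open Pool.Agent.Y703.CX (jj XX eL zz kk eL_tendsto logX_eq HH NN ev_eL one_le_exp
  HH_ge HH_le HH_pos kk_ge kk_le X_pos one_add_log lin_le zz_ge zz_pos)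
open Pool.Agent.Y703.CQ (Sml sml_of sml_add)
open Pool.Agent.Y703.XK (sm la bl kk_pos)
open Pool.Agent.R419.KF (SG mem_SG SG_card)
open Pool.Agent.R419.KF.Cnt (CntP Pr SS_pr pr_pos mem_QB_of card_le_real card_int sum_sq exp_jj_le
  lt_exp_jj one_le_nrm lg_le)

/-- an event for one coordinate -/
theorem ev1 {m : ℕ} (k : Fin m) (X : ℕ) (A : Finset (Finset Ei))
    (F : Finset (Fin m → Finset Ei)) (hF : ∀ S ∈ F, (∀ l, S l ∈ SG X) ∧ S k ∈ A) :
    (F.card : ℝ) ≤ A.card * (16 * X) ^ (m - 1) := by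
  have hsub : F ⊆ Fintype.piFinset fun l => if l = k then A else SG X := by
    intro S hS
    rw [Fintype.mem_piFinset]
    intro l
    by_cases h : l = k
    · rw [if_pos h, h]; exact (hF S hS).2
    · rw [if_neg h]; exact (hF S hS).1 l
  have h1 : (F.card : ℝ) ≤ ∏ l, (((if l = k then A else SG X) : Finset (Finset Ei)).card : ℝ) := by
    have := card_le_card hsub
    rw [Fintype.card_piFinset] at this
    exact_mod_cast this
  refine h1.trans ?_
  rw [← mul_prod_erase univ _ (mem_univ k), if_pos rfl]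
  apply mul_le_mul_of_nonneg_left _ (Nat.cast_nonneg _)
  calc ∏ l ∈ univ.erase k, (((if l = k then A else SG X) : Finset (Finset Ei)).card : ℝ)
      ≤ ∏ _l ∈ (univ.erase k : Finset (Fin m)), (16 * X : ℝ) := by
        refine prod_le_prod (fun _ _ => Nat.cast_nonneg _) fun l hl => ?_
        rw [if_neg (ne_of_mem_erase hl)]
        exact SG_card X
    _ = (16 * X : ℝ) ^ (m - 1) := by
        rw [prod_const, card_erase_of_mem (mem_univ _), card_univ, Fintype.card_fin]

/-- an event for one coordinate with small probability -/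
theorem ev1_sml {m : ℕ} (k : Fin m) (A : ℕ → Finset (Finset Ei))
    (hA : Sml 0 fun X => ((A X).card : ℝ)) (ε : ℝ) (hε : 0 < ε) : ∀ᶠ X : ℕ in atTop,
    ∀ F : Finset (Fin m → Finset Ei), (∀ S ∈ F, (∀ l, S l ∈ SG X) ∧ S k ∈ A X) →
      (F.card : ℝ) ≤ ε * (X : ℝ) ^ m := by
  filter_upwards [hA (ε / 16 ^ (m - 1)) (by positivity)] with X hX
  intro F hF
  refine (ev1 k X (A X) F hF).trans ?_
  rw [neg_zero, zero_mul, Real.exp_zero, mul_one] at hX
  have hm : m - 1 + 1 = m := by have := k.2; omega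
  calc ((A X).card : ℝ) * (16 * X) ^ (m - 1) ≤ (ε / 16 ^ (m - 1) * X) * (16 * X) ^ (m - 1) := by
        gcongr
    _ = ε * (X : ℝ) ^ (m - 1 + 1) := by
        rw [mul_pow, pow_succ]
        field_simp
    _ = ε * (X : ℝ) ^ m := by rw [hm]

/-- sets near the boundary -/
theorem sml_cutN {C : ℝ} (h : CntP C) {n : ℕ} (hn : 1 ≤ n) :
    Sml 0 fun X => (((SG (X / n)).filter fun S => S.card ≤ kk X ∧
      X / n < (∏ π ∈ sm (zz X) S, nrm π) *
        ∏ π ∈ la (zz X) S, XX (HH X) (bl (HH X) π)).card : ℝ) := by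
  have hC := h.one
  apply sml_of (C := 3 * C) (a := 1) (by norm_num)
  have hn0 : (0 : ℝ) < n := by exact_mod_cast hn
  filter_upwards [ev_eL 1, lin_le (a := 1) (b := 11) (by norm_num) (by norm_num),
    lin_le (a := 1 / 2) (b := 6) (by norm_num) (by norm_num),
    eventually_ge_atTop (4 * n ^ 2), ev_eL (2 * n)] with X hX h11 h12 hXn hln
  have h0 : 0 < eL X := by linarith
  have hY : 1 ≤ X / n := (Nat.one_le_div_iff hn).2 (by nlinarith)
  have hYX : X / n ≤ X := Nat.div_le_self _ _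
  have hYX' : ((X / n : ℕ) : ℝ) ≤ X := by exact_mod_cast hYX
  have hY0 : (0 : ℝ) < ((X / n : ℕ) : ℝ) := by exact_mod_cast hY
  have hX0' : (0 : ℝ) < X := hY0.trans_le hYX'
  have h1 := h.cut (X / n) (zz X) (HH X) (kk X) hY (HH_pos h0) (kk_pos hX)
  refine h1.trans ?_
  have hH := HH_ge h0
  have hHp : (0 : ℝ) < HH X := lt_of_lt_of_le (Real.exp_pos _) hH
  have hX0 : (0 : ℝ) ≤ X := Nat.cast_nonneg _
  have hkp : (0 : ℝ) < kk X := by exact_mod_cast kk_pos hX
  rw [one_mul] at h11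
  have hk1 : (kk X : ℝ) ≤ Real.exp (eL X) := (kk_le hX).trans h11
  have hlog1 : Real.log ((X / n : ℕ) : ℝ) ≤ Real.log X := Real.log_le_log hY0 hYX'
  have hlog0 : 0 ≤ Real.log ((X / n : ℕ) : ℝ) := Real.log_natCast_nonneg _
  have h2 : (kk X : ℝ) / HH X ≤ Real.exp (-2 * eL X) := by
    rw [div_le_iff₀ hHp]
    calc (kk X : ℝ) ≤ Real.exp (eL X) := hk1
      _ = Real.exp (-2 * eL X) * Real.exp (3 * eL X) := by
          rw [← Real.exp_add]; congr 1; ring
      _ ≤ _ := mul_le_mul_of_nonneg_left hH (Real.exp_pos _).le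
  have h3 : C * (((X / n : ℕ) : ℝ) * (1 + Real.log ((X / n : ℕ) : ℝ))) * ((kk X : ℝ) / HH X) ≤
      2 * C * (X * Real.exp (-1 * eL X)) := by
    have h4 := one_add_log h0
    have h5 : (0 : ℝ) ≤ 1 + Real.log X := by
      have := Real.log_natCast_nonneg X
      linarith
    calc C * (((X / n : ℕ) : ℝ) * (1 + Real.log ((X / n : ℕ) : ℝ))) * ((kk X : ℝ) / HH X) ≤
          C * (X * (2 * Real.exp (eL X))) * Real.exp (-2 * eL X) := by
          have h6 : 1 + Real.log ((X / n : ℕ) : ℝ) ≤ 2 * Real.exp (eL X) := by linarith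
          gcongr
      _ = 2 * C * (X * (Real.exp (eL X) * Real.exp (-2 * eL X))) := by ring
      _ = 2 * C * (X * Real.exp (-1 * eL X)) := by
          rw [← Real.exp_add]
          have : eL X + -2 * eL X = -1 * eL X := by ring
          rw [this]
  have hlog2 : Real.log X / 2 ≤ Real.log ((X / n : ℕ) : ℝ) := by
    have e1 : (X : ℝ) / n < ((X / n : ℕ) : ℝ) + 1 := by
      rw [div_lt_iff₀ hn0]
      have := Nat.lt_mul_div_succ X hn
      have h' : ((X : ℕ) : ℝ) < ((n * (X / n + 1) : ℕ) : ℝ) := by exact_mod_cast this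
      rw [Nat.cast_mul, Nat.cast_add, Nat.cast_one] at h'
      linarith
    have e2 : (1 : ℝ) ≤ ((X / n : ℕ) : ℝ) := by exact_mod_cast hY
    have e3 : (X : ℝ) ≤ ((X / n : ℕ) : ℝ) ^ 2 := by
      have e4 : (X : ℝ) / (2 * n) ≤ ((X / n : ℕ) : ℝ) := by
        have : (X : ℝ) / n ≤ 2 * ((X / n : ℕ) : ℝ) := by linarith
        rw [div_le_iff₀ (by positivity)]
        rw [div_le_iff₀ hn0] at this
        linarith
      have e5 : (4 : ℝ) * n ^ 2 ≤ X := by exact_mod_cast hXn
      calc (X : ℝ) ≤ X * (X / (4 * n ^ 2)) := by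
            apply le_mul_of_one_le_right hX0
            rw [le_div_iff₀ (by positivity), one_mul]
            exact e5
        _ = ((X : ℝ) / (2 * n)) ^ 2 := by
            field_simp
            ring
        _ ≤ _ := pow_le_pow_left₀ (by positivity) e4 2
    have e6 := Real.log_le_log hX0' e3
    rw [Real.log_pow] at e6
    push_cast at e6
    linarith
  have h6 : Real.exp (-(Real.log ((X / n : ℕ) : ℝ)) / kk X) ≤ Real.exp (-1 * eL X) := by
    apply Real.exp_le_exp.2
    rw [div_le_iff₀ hkp]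
    have h7 : (kk X : ℝ) ≤ 11 * eL X := kk_le hX
    have h8 : 36 * (eL X) ^ 2 ≤ Real.exp (eL X) := by
      have h9 : Real.exp (eL X) = Real.exp (1 / 2 * eL X) * Real.exp (1 / 2 * eL X) := by
        rw [← Real.exp_add]; congr 1; ring
      rw [h9]
      have h10 : (6 * eL X) * (6 * eL X) ≤ Real.exp (1 / 2 * eL X) * Real.exp (1 / 2 * eL X) :=
        mul_le_mul h12 h12 (by linarith) (Real.exp_pos _).le
      nlinarith
    rw [logX_eq h0] at hlog2
    nlinarith [sq_nonneg (eL X)]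
  have h13 : C * ((X / n : ℕ) : ℝ) * Real.exp (-(Real.log ((X / n : ℕ) : ℝ)) / kk X) ≤
      C * (X * Real.exp (-1 * eL X)) := by
    rw [mul_assoc]
    gcongr
  linarith

/-- the sets that contain a given prime -/
theorem single_count {X : ℕ} {π : Ei} (hπ : Pq π) :
    (((SG X).filter fun S => π ∈ S).card : ℝ) ≤ 16 * X * (1 / (nrm π : ℝ)) := by
  have h4 : (0 : ℝ) < nrm π := by exact_mod_cast one_le_nrm hπ
  have h1 : (((SG X).filter fun S => π ∈ S).image fun S => S.erase π).card =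
      ((SG X).filter fun S => π ∈ S).card := by
    apply card_image_of_injOn
    intro S hS T hT hST
    rw [mem_coe, mem_filter] at hS hT
    have hST' : S.erase π = T.erase π := hST
    rw [← insert_erase hS.2, ← insert_erase hT.2, hST']
  rw [← h1, mul_assoc, mul_one_div]
  apply card_le_real _ (by positivity)
  intro T hT
  rw [mem_image] at hT
  obtain ⟨S, hS, rfl⟩ := hT
  rw [mem_filter] at hS
  obtain ⟨hP, hSX⟩ := SS_pr hS.1
  refine ⟨fun σ hσ => hP σ (mem_of_mem_erase hσ), ?_⟩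
  rw [le_div_iff₀ h4]
  have h2 : nrm π * ∏ σ ∈ S.erase π, nrm σ = ∏ σ ∈ S, nrm σ := mul_prod_erase S nrm hS.2
  have h3 := (Nat.cast_le (α := ℝ)).2 (h2.le.trans hSX)
  rw [Nat.cast_mul] at h3
  linarith

/-- the tuples with given primes in two colors -/
theorem two_count {m : ℕ} {k l : Fin m} (hkl : k ≠ l) (X : ℕ) {π ρ : Ei} (hπ : Pq π) (hρ : Pq ρ) :
    (((Fintype.piFinset fun _ : Fin m => SG X).filter fun S => π ∈ S k ∧ ρ ∈ S l).card : ℝ) ≤
      (16 * X) ^ m * (1 / (nrm π : ℝ)) * (1 / (nrm ρ : ℝ)) := by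
  have h4 : (0 : ℝ) < nrm π := by exact_mod_cast one_le_nrm hπ
  have h5 : (0 : ℝ) < nrm ρ := by exact_mod_cast one_le_nrm hρ
  have hsub : ((Fintype.piFinset fun _ : Fin m => SG X).filter fun S => π ∈ S k ∧ ρ ∈ S l) ⊆
      Fintype.piFinset fun j => if j = k then (SG X).filter fun S => π ∈ S else
        if j = l then (SG X).filter fun S => ρ ∈ S else SG X := by
    intro S hS
    rw [mem_filter, Fintype.mem_piFinset] at hS
    rw [Fintype.mem_piFinset]
    intro j
    by_cases h : j = k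
    · rw [if_pos h, mem_filter, h]; exact ⟨hS.1 k, hS.2.1⟩
    · rw [if_neg h]
      by_cases h' : j = l
      · rw [if_pos h', mem_filter, h']; exact ⟨hS.1 l, hS.2.2⟩
      · rw [if_neg h']; exact hS.1 j
  have h1 := card_le_card hsub
  rw [Fintype.card_piFinset] at h1
  have h2 : (((Fintype.piFinset fun _ : Fin m => SG X).filter
      fun S => π ∈ S k ∧ ρ ∈ S l).card : ℝ) ≤ ∏ j, ((16 * X : ℝ) * (if j = k then
        (1 / (nrm π : ℝ)) else 1) * (if j = l then (1 / (nrm ρ : ℝ)) else 1)) := by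
    refine (Nat.cast_le (α := ℝ).2 h1).trans ?_
    push_cast
    refine prod_le_prod (fun _ _ => Nat.cast_nonneg _) fun j _ => ?_
    by_cases h : j = k
    · rw [if_pos h, if_pos h, if_neg (fun e => hkl (h.symm.trans e)), mul_one]
      exact single_count hπ
    · rw [if_neg h, if_neg h, mul_one]
      by_cases h' : j = l
      · rw [if_pos h', if_pos h']
        exact single_count hρ
      · rw [if_neg h', if_neg h', mul_one]
        exact SG_card X
  refine h2.trans (le_of_eq ?_)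
  rw [prod_mul_distrib, prod_mul_distrib, prod_const, card_univ, Fintype.card_fin,
    prod_ite_eq' univ k, prod_ite_eq' univ l, if_pos (mem_univ _), if_pos (mem_univ _)]

/-- tuples with two large primes of different colors in one block -/
theorem cross_count {m X z H : ℕ} (hz : 1 ≤ z) (hH : 1 ≤ H) (F : Finset (Fin m → Finset Ei))
    (hF : ∀ S ∈ F, (∀ k, S k ∈ SG X) ∧ ∃ k l, k ≠ l ∧ ∃ π ∈ la z (S k), ∃ ρ ∈ la z (S l),
      bl H π = bl H ρ) : (F.card : ℝ) ≤
      m ^ 2 * ((16 * X) ^ m * (4 / H * (32 * lg X) + 4 / z)) := by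
  have hH1 : (1 : ℝ) ≤ H := by exact_mod_cast hH
  have hH' : (0 : ℝ) < H := by linarith
  have hX' : (0 : ℝ) ≤ X := Nat.cast_nonneg _
  -- the pairs of norms in a block
  have h0 : ∀ p q : ℕ, 1 ≤ p → p ≤ q → jj H p = jj H q → q ∈ Icc p (p + 2 * p / H) := by
    intro p q hp hpq hj
    have h1 := exp_jj_le hH hp
    have h2 := lt_exp_jj hH (hp.trans hpq)
    rw [← hj, add_div, Real.exp_add] at h2
    have h3 : (q : ℝ) < p * Real.exp (1 / H) :=
      h2.trans_le (mul_le_mul_of_nonneg_right h1 (Real.exp_pos _).le)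
    have h5 : Real.exp (1 / H) ≤ 1 + 2 / H := by
      have h6 := Real.abs_exp_sub_one_le (x := 1 / H) (by
        rw [abs_of_pos (by positivity), div_le_one (by linarith)]
        exact hH1)
      rw [abs_of_pos (show (0 : ℝ) < 1 / H by positivity)] at h6
      have h7 := (le_abs_self _).trans h6
      have h8 : 2 * (1 / (H : ℝ)) = 2 / H := by ring
      linarith
    have hp0 : (0 : ℝ) ≤ p := Nat.cast_nonneg _
    have h6 : (q : ℝ) ≤ p + 2 * p / H := by
      have := mul_le_mul_of_nonneg_left h5 hp0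
      have e : (p : ℝ) * (1 + 2 / H) = p + 2 * p / H := by ring
      linarith
    rw [mem_Icc]
    refine ⟨hpq, ?_⟩
    have h7 : q - p ≤ 2 * p / H := by
      rw [Nat.le_div_iff_mul_le (by omega)]
      have h8 : ((q : ℝ) - p) * H ≤ 2 * p := by
        rw [← le_div_iff₀ hH']
        linarith
      have h9 : (((q - p) * H : ℕ) : ℝ) ≤ ((2 * p : ℕ) : ℝ) := by
        push_cast [Nat.cast_sub hpq]
        exact h8
      exact_mod_cast h9
    omega
  set A : Finset Ei := (QB X).filter (fun π => z < nrm π) with hA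
  set B : Ei → Finset Ei := fun π => (QB X).filter fun ρ =>
    nrm ρ ∈ Icc (nrm π) (nrm π + 2 * nrm π / H) with hB
  set PI : Finset (Fin m → Finset Ei) := Fintype.piFinset fun _ : Fin m => SG X with hPI
  set KL : Finset (Fin m × Fin m) := univ.filter fun p => p.1 ≠ p.2 with hKL
  have h1 : F ⊆ KL.biUnion fun p => A.biUnion fun π => (B π).biUnion fun ρ =>
      PI.filter fun S => π ∈ S p.1 ∧ ρ ∈ S p.2 := by
    intro S hS
    obtain ⟨hS1, k, l, hkl, π, hπ, ρ, hρ, hj⟩ := hF S hS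
    have hP : ∀ k, Pr (S k) ∧ ∏ π ∈ S k, nrm π ≤ X := fun k => SS_pr (hS1 k)
    unfold la at hπ hρ
    rw [mem_filter] at hπ hρ
    have key : ∀ (k l : Fin m) (π ρ : Ei), k ≠ l → π ∈ S k → ρ ∈ S l → z < nrm π →
        nrm π ≤ nrm ρ → jj H (nrm π) = jj H (nrm ρ) →
        S ∈ KL.biUnion fun p => A.biUnion fun π => (B π).biUnion fun ρ =>
          PI.filter fun S => π ∈ S p.1 ∧ ρ ∈ S p.2 := by
      intro k l π ρ hkl hπ hρ hz hle hj
      rw [mem_biUnion]
      refine ⟨(k, l), mem_filter.2 ⟨mem_univ _, hkl⟩, ?_⟩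
      rw [mem_biUnion]
      refine ⟨π, mem_filter.2 ⟨mem_QB_of (hP k).1 (hP k).2 hπ, hz⟩, ?_⟩
      rw [mem_biUnion]
      exact ⟨ρ, mem_filter.2 ⟨mem_QB_of (hP l).1 (hP l).2 hρ,
        h0 _ _ (one_le_nrm ((hP k).1 π hπ)) hle hj⟩, mem_filter.2
          ⟨Fintype.mem_piFinset.2 hS1, hπ, hρ⟩⟩
    rcases le_total (nrm π) (nrm ρ) with h | h
    · exact key k l π ρ hkl hπ.1 hρ.1 (not_le.1 hπ.2) h hj
    · exact key l k ρ π hkl.symm hρ.1 hπ.1 (not_le.1 hρ.2) h hj.symm
  have h2 : (F.card : ℝ) ≤ ∑ p ∈ KL, ∑ π ∈ A, ∑ ρ ∈ B π,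
      ((PI.filter fun S => π ∈ S p.1 ∧ ρ ∈ S p.2).card : ℝ) := by
    have h3 := (card_le_card h1).trans (card_biUnion_le.trans
      (sum_le_sum fun p _ => card_biUnion_le.trans (sum_le_sum fun p _ => card_biUnion_le)))
    exact_mod_cast h3
  refine h2.trans ?_
  have h3 : ∀ p ∈ KL, ∑ π ∈ A, ∑ ρ ∈ B π,
      ((PI.filter fun S => π ∈ S p.1 ∧ ρ ∈ S p.2).card : ℝ) ≤
      (16 * X) ^ m * (4 / H * (32 * lg X) + 4 / z) := by
    intro p hp
    have h3 : ∀ π ∈ A, ∑ ρ ∈ B π, ((PI.filter fun S => π ∈ S p.1 ∧ ρ ∈ S p.2).card : ℝ) ≤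
        (16 * X) ^ m * (4 / H * (1 / nrm π) + 2 * (1 / (nrm π : ℝ) ^ 2)) := by
      intro π hπ
      rw [hA, mem_filter, mem_QB] at hπ
      have hp0 : (0 : ℝ) < nrm π := by exact_mod_cast one_le_nrm hπ.1.2
      have h4 : ∀ ρ ∈ B π, ((PI.filter fun S => π ∈ S p.1 ∧ ρ ∈ S p.2).card : ℝ) ≤
          (16 * X) ^ m * (1 / (nrm π : ℝ) ^ 2) := by
        intro ρ hρ
        have hρ' := mem_filter.1 hρ
        obtain ⟨h6, h8⟩ := hρ'
        rw [mem_QB] at h6
        rw [mem_Icc] at h8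
        refine (two_count (mem_filter.1 hp).2 X hπ.1.2 h6.2).trans ?_
        have h5 : (nrm π : ℝ) ≤ nrm ρ := by exact_mod_cast h8.1
        calc (16 * X : ℝ) ^ m * (1 / (nrm π : ℝ)) * (1 / (nrm ρ : ℝ)) ≤
            (16 * X : ℝ) ^ m * (1 / (nrm π : ℝ)) * (1 / (nrm π : ℝ)) := by gcongr
          _ = _ := by ring
      refine (sum_le_sum h4).trans ?_
      rw [sum_const, nsmul_eq_mul]
      have h5 : ((B π).card : ℝ) ≤ 2 * (2 * nrm π / H + 1) := by
        have h6 : (B π).card ≤ 2 * (Icc (nrm π) (nrm π + 2 * nrm π / H)).card := by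
          apply card_int
          · intro ρ hρ
            exact (mem_QB.1 (mem_filter.1 hρ).1).2
          · intro ρ hρ
            exact (mem_filter.1 hρ).2
        rw [Nat.card_Icc] at h6
        have h7 : nrm π + 2 * nrm π / H + 1 - nrm π = 2 * nrm π / H + 1 := by
          rw [Nat.add_assoc, Nat.add_sub_cancel_left]
        rw [h7] at h6
        have h8 : ((2 * nrm π / H : ℕ) : ℝ) ≤ 2 * nrm π / H := by
          refine Nat.cast_div_le.trans (le_of_eq ?_)
          push_cast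
          ring
        have h9 : ((B π).card : ℝ) ≤ 2 * (((2 * nrm π / H : ℕ) : ℝ) + 1) := by
          have := (Nat.cast_le (α := ℝ)).2 h6
          rw [Nat.cast_mul, Nat.cast_add, Nat.cast_one] at this
          exact_mod_cast this
        linarith
      calc ((B π).card : ℝ) * ((16 * X) ^ m * (1 / (nrm π : ℝ) ^ 2)) ≤
            2 * (2 * nrm π / H + 1) * ((16 * X) ^ m * (1 / (nrm π : ℝ) ^ 2)) :=
            mul_le_mul_of_nonneg_right h5 (by positivity)
        _ = _ := by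
            field_simp
            ring
    refine (sum_le_sum h3).trans ?_
    rw [← mul_sum]
    refine mul_le_mul_of_nonneg_left ?_ (by positivity)
    rw [sum_add_distrib, ← mul_sum, ← mul_sum]
    have h4 : ∑ π ∈ A, (1 : ℝ) / nrm π ≤ 32 * lg X := by
      refine le_trans ?_ (hsum X)
      refine sum_le_sum_of_subset_of_nonneg ?_ fun _ _ _ => by positivity
      intro π hπ
      rw [hA, mem_filter, mem_QB] at hπ
      exact mem_PB.2 ⟨hπ.1.1, hπ.1.2.three⟩
    have h5 := sum_sq (X := X) hz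
    have h6 := mul_le_mul_of_nonneg_left h4 (show (0 : ℝ) ≤ 4 / H by positivity)
    have h7 : (2 : ℝ) * (2 / z) = 4 / z := by ring
    linarith
  refine (sum_le_sum h3).trans ?_
  rw [sum_const, nsmul_eq_mul]
  have h4 : (KL.card : ℝ) ≤ m ^ 2 := by
    have : KL.card ≤ m * m := by
      refine (card_filter_le _ _).trans (le_of_eq ?_)
      rw [card_univ, Fintype.card_prod, Fintype.card_fin]
    rw [sq]
    exact_mod_cast this
  have h5 : 0 ≤ (16 * X : ℝ) ^ m * (4 / H * (32 * lg X) + 4 / z) := by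
    have := lg_pos X
    positivity
  exact mul_le_mul_of_nonneg_right h4 h5

theorem crossT (m : ℕ) (ε : ℝ) (hε : 0 < ε) : ∀ᶠ X : ℕ in atTop,
    ∀ F : Finset (Fin m → Finset Ei), (∀ S ∈ F, (∀ k, S k ∈ SG X) ∧
      ∃ k l, k ≠ l ∧ ∃ π ∈ la (zz X) (S k), ∃ ρ ∈ la (zz X) (S l), bl (HH X) π = bl (HH X) ρ) →
      (F.card : ℝ) ≤ ε * (X : ℝ) ^ m := by
  have hlim : Tendsto (fun X : ℕ => ((m : ℝ) ^ 2 * 16 ^ m * 776) * Real.exp (-1 * eL X)) atTop
      (nhds 0) := by
    have h1 : Tendsto (fun X : ℕ => Real.exp (-1 * eL X)) atTop (nhds 0) := by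
      refine Real.tendsto_exp_atBot.comp ?_
      exact eL_tendsto.const_mul_atTop_of_neg (by norm_num)
    have := h1.const_mul ((m : ℝ) ^ 2 * 16 ^ m * 776)
    rwa [mul_zero] at this
  filter_upwards [ev_eL 1, hlim.eventually (gt_mem_nhds hε)] with X hX hl
  intro F hF
  have h0 : 0 < eL X := by linarith
  refine (cross_count (zz_pos hX) (HH_pos h0) F hF).trans ?_
  have hH := HH_ge h0
  have hHp : (0 : ℝ) < HH X := lt_of_lt_of_le (Real.exp_pos _) hH
  have hX0 : (0 : ℝ) ≤ X := Nat.cast_nonneg _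
  have hzp : (0 : ℝ) < zz X := by exact_mod_cast zz_pos hX
  have h1 : lg X ≤ 6 * Real.exp (eL X) := by
    have := lg_le (X_pos h0)
    have := one_add_log h0
    linarith
  have h2 : 4 / (HH X : ℝ) * (32 * lg X) ≤ 768 * Real.exp (-1 * eL X) := by
    calc 4 / (HH X : ℝ) * (32 * lg X) ≤ 4 / Real.exp (3 * eL X) * (32 * (6 * Real.exp (eL X))) := by
          have := lg_pos X
          gcongr
      _ = 768 * (Real.exp (eL X) / Real.exp (3 * eL X)) := by ring
      _ = 768 * Real.exp (-2 * eL X) := by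
          rw [← Real.exp_sub]
          congr 2
          ring
      _ ≤ _ := by
          gcongr
          norm_num
  have h3 : 4 / (zz X : ℝ) ≤ 8 * Real.exp (-1 * eL X) := by
    have h4 := zz_ge hX
    rw [div_le_iff₀ hzp]
    have h6 : (1 : ℝ) ≤ Real.exp (-1 * eL X) * Real.exp ((eL X) ^ 3) := by
      rw [← Real.exp_add]
      apply one_le_exp
      have h7 : eL X ≤ (eL X) ^ 3 := by
        have h8 : (eL X) ^ 3 = eL X * (eL X * eL X) := by ring
        rw [h8]
        nlinarith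
      linarith
    have h5 : Real.exp (-1 * eL X) * (Real.exp ((eL X) ^ 3) / 2) ≤ Real.exp (-1 * eL X) * zz X :=
      mul_le_mul_of_nonneg_left h4 (Real.exp_pos _).le
    linarith
  calc (m : ℝ) ^ 2 * ((16 * X) ^ m * (4 / HH X * (32 * lg X) + 4 / zz X)) ≤
      (m : ℝ) ^ 2 * ((16 * X) ^ m * (776 * Real.exp (-1 * eL X))) := by
        have : 4 / (HH X : ℝ) * (32 * lg X) + 4 / zz X ≤ 776 * Real.exp (-1 * eL X) := by linarith
        gcongr
    _ = ((m : ℝ) ^ 2 * 16 ^ m * 776 * Real.exp (-1 * eL X)) * (X : ℝ) ^ m := by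
        rw [mul_pow]; ring
    _ ≤ ε * (X : ℝ) ^ m := by gcongr

end Run7.h707.TC
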