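import Pool.Agent.Run7.h707.TC.Est
import Pool.Agent.Q283.T3.Jt

/-! Several symmetric forms over the field with three elements which are completed by the same form:
the joint law of the coranks (copy of `Pool.Agent.Q283.T3.Jt` of helper283, after helper697, where
only the radical of the forms on the subspace is bounded). -/

set_option autoImplicit false

namespace Run7.h707.TC

open Finset Module Filter Topology
open Q283.T3 hiding est thmR

section rr
variable {V : Type} [AddCommGroup V] [Module (ZMod 3) V]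

theorem finrank_rad [Finite V] {B Y₀ : LinearMap.BilinForm (ZMod 3) V}
    {W : Submodule (ZMod 3) V} (hY : Y₀ ∈ YY W) {j : ℕ} (v : Fin j → V) :
    finrank (ZMod 3) ↥((W ⊔ Submodule.span (ZMod 3) (Set.range v)) ⊓
      Nn (B + Y₀) (W ⊔ Submodule.span (ZMod 3) (Set.range v))) ≤
      finrank (ZMod 3) ↥(W ⊓ Nn B W) + j := by
  have hfin : Module.Finite (ZMod 3) V := Module.Finite.of_finite
  have hY' := mem_YY.1 hY
  set U := Submodule.span (ZMod 3) (Set.range v) with hU
  set J' := (W ⊔ U) ⊓ Nn (B + Y₀) (W ⊔ U) with hJ'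
  set g : J' →ₗ[ZMod 3] V ⧸ W := W.mkQ.comp J'.subtype with hg
  have h1 := LinearMap.finrank_range_add_finrank_ker g
  have h2 : finrank (ZMod 3) (LinearMap.range g) ≤ j := by
    have h3 : LinearMap.range g ≤ Submodule.span (ZMod 3) (Set.range fun i => W.mkQ (v i)) := by
      rintro _ ⟨⟨p, hp⟩, rfl⟩
      have h5 : W.mkQ p ∈ (W ⊔ U).map W.mkQ := ⟨_, hp.1, rfl⟩
      rw [Submodule.map_sup] at h5
      have h6 : W.map W.mkQ = ⊥ := by
        rw [Submodule.eq_bot_iff]
        rintro _ ⟨w, hw, rfl⟩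
        simpa using hw
      rw [h6, bot_sup_eq, hU, Submodule.map_span, ← Set.range_comp] at h5
      exact h5
    have h7 := Submodule.finrank_mono h3
    have h8 := finrank_range_le_card (R := ZMod 3) (fun i : Fin j => W.mkQ (v i))
    rw [Fintype.card_fin] at h8
    exact h7.trans h8
  have h3 : finrank (ZMod 3) (LinearMap.ker g) ≤ finrank (ZMod 3) ↥(W ⊓ Nn B W) := by
    have h4 : ∀ z : LinearMap.ker g, ((z : J') : V) ∈ W ⊓ Nn B W := by
      rintro ⟨⟨p, hp⟩, hz⟩
      have h6 : p ∈ W := by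
        have : W.mkQ p = 0 := LinearMap.mem_ker.1 hz
        rw [Submodule.mkQ_apply, Submodule.Quotient.mk_eq_zero] at this
        exact this
      refine ⟨h6, mem_Nn.2 fun w hw => ?_⟩
      have h8 := mem_Nn.1 hp.2 w (Submodule.mem_sup_left hw)
      rw [LinearMap.add_apply, LinearMap.add_apply, hY'.2 p h6, LinearMap.zero_apply,
        add_zero] at h8
      exact h8
    refine LinearMap.finrank_le_finrank_of_injective
      (f := LinearMap.codRestrict (W ⊓ Nn B W) (J'.subtype.comp (LinearMap.ker g).subtype) h4) ?_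
    intro z z' h
    have h5 := congrArg (fun q : ↥(W ⊓ Nn B W) => (q : V)) h
    apply Subtype.ext
    apply Subtype.ext
    exact h5
  omega

end rr

open Classical in
/-- **The joint law of the coranks** -/
theorem thmS (M : ℕ) : ∀ (r : Fin M → ℕ) (ε : ℝ), 0 < ε → ∃ R : ℕ, ∀ (V : Type) [AddCommGroup V]
    [Module (ZMod 3) V] [Fintype V] (W : Submodule (ZMod 3) V)
    (B : Fin M → LinearMap.BilinForm (ZMod 3) V) (d t : ℕ),
    (∀ k, Sy (B k)) → (∀ k, Nd (B k) W) →
    (∀ k l, k ≠ l → finrank (ZMod 3) (JJ (B k) (B l) W) ≤ d) →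
    (∀ k, finrank (ZMod 3) ↥(W ⊓ Nn (B k) W) ≤ d) →
    finrank (ZMod 3) W + t = finrank (ZMod 3) V → d + R ≤ t →
    |(((YY W).filter fun Y => ∀ k, finrank (ZMod 3) (LinearMap.ker (B k + Y)) = r k).card : ℝ) -
      (∏ k, gi * cf (r k)) * (YY W).card| ≤ ε * (YY W).card := by
  induction M with
  | zero =>
    intro r ε hε
    refine ⟨0, ?_⟩
    intro V _ _ _ W B d t _ _ _ _ _ _
    have h1 : ((YY W).filter fun Y => ∀ k : Fin 0,
        finrank (ZMod 3) (LinearMap.ker (B k + Y)) = r k) = YY W :=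
      Finset.filter_true_of_mem fun Y _ k => k.elim0
    rw [h1, Finset.univ_eq_empty, Finset.prod_empty, one_mul, sub_self, abs_zero]
    positivity
  | succ M ih =>
    intro r ε hε
    obtain ⟨n₀, hn₀⟩ := (Metric.tendsto_atTop.1 gi_tendsto) (ε / 3) (by positivity)
    set J : ℕ := 2 * n₀ + 1 with hJ
    set r₀ : ℕ := r 0 with hr₀
    set L : ℕ := r₀ + J + 1 with hL
    set η : ℝ := ε / (3 * (J + 2)) with hη
    have hη0 : 0 < η := by positivity
    obtain ⟨R₁, hR₁⟩ := ih (fun k => r k.succ) η hη0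
    obtain ⟨R₂, hR₂⟩ : ∃ R₂ : ℕ, ((M : ℝ) + 1) * 3 ^ L * (J + 2) * 3 / ε < 3 ^ R₂ :=
      pow_unbounded_of_one_lt _ (by norm_num)
    refine ⟨R₁ + R₂ + 2 * L, ?_⟩
    intro V _ _ _ W B d t hSy hNd hJJ hWd ht hR
    have hfin : Module.Finite (ZMod 3) V := Module.Finite.of_finite
    obtain ⟨G, hG⟩ : ∃ G : LinearMap.BilinForm (ZMod 3) V → Prop,
        ∀ Y, G Y ↔ ∀ k : Fin M, finrank (ZMod 3) (LinearMap.ker (B k.succ + Y)) = r k.succ :=
      ⟨_, fun _ => Iff.rfl⟩
    set γ : ℝ := ∏ k : Fin M, gi * cf (r k.succ) with hγ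
    have hgi0 : 0 ≤ gi := gi_ge
    have hγ0 : 0 ≤ γ := Finset.prod_nonneg fun k _ => mul_nonneg hgi0 (cf_pos _).le
    have hγ1 : γ ≤ 1 := Finset.prod_le_one (fun k _ => mul_nonneg hgi0 (cf_pos _).le)
      fun k _ => mul_le_one₀ gi_le (cf_pos _).le (cf_le_one _)
    set N : ℝ := ((YY W).card : ℝ) with hNdef
    have hN0 : 0 ≤ N := Nat.cast_nonneg _
    -- the exceptional set
    set Z : Finset V := (univ.filter fun x => x ∈ W ⊓ Nn (B 0) W) ∪
      (univ : Finset (Fin M)).biUnion fun k =>
        (univ.filter fun p : V × V => p ∈ JJ (B 0) (B k.succ) W).image Prod.fst with hZ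
    have hcard : ∀ (E : Type) [AddCommGroup E] [Module (ZMod 3) E] [Fintype E]
        (S : Submodule (ZMod 3) E), (univ.filter fun x => x ∈ S).card = 3 ^ finrank (ZMod 3) S := by
      intro E _ _ _ S
      have hfinE : Module.Finite (ZMod 3) E := Module.Finite.of_finite
      have h1 : (univ.filter fun x => x ∈ S).card = Nat.card S := by
        rw [Nat.card_eq_fintype_card, ← Fintype.card_coe]
        exact Fintype.card_congr (Equiv.subtypeEquivRight fun x => by simp)
      rw [h1, Module.natCard_eq_pow_finrank (K := ZMod 3), Nat.card_zmod]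
    have hZc : Z.card ≤ (M + 1) * 3 ^ d := by
      have h1 : (univ.filter fun x => x ∈ W ⊓ Nn (B 0) W).card ≤ 3 ^ d := by
        rw [hcard V (W ⊓ Nn (B 0) W)]
        exact Nat.pow_le_pow_right (by norm_num) (hWd 0)
      have h2 : ((univ : Finset (Fin M)).biUnion fun k =>
          (univ.filter fun p : V × V => p ∈ JJ (B 0) (B k.succ) W).image Prod.fst).card ≤
          M * 3 ^ d := by
        refine Finset.card_biUnion_le.trans ?_
        have h3 : ∀ k ∈ (univ : Finset (Fin M)), ((univ.filter fun p : V × V =>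
            p ∈ JJ (B 0) (B k.succ) W).image Prod.fst).card ≤ 3 ^ d := by
          intro k _
          refine Finset.card_image_le.trans ?_
          rw [hcard (V × V) (JJ (B 0) (B k.succ) W)]
          exact Nat.pow_le_pow_right (by norm_num) (hJJ 0 k.succ (Fin.succ_ne_zero k).symm)
        refine (Finset.sum_le_sum h3).trans (le_of_eq ?_)
        rw [Finset.sum_const, Finset.card_univ, Fintype.card_fin, smul_eq_mul]
      refine (Finset.card_union_le _ _).trans ?_
      rw [add_mul, one_mul]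
      omega
    set δ : ℝ := η + Z.card * 3 ^ L / 3 ^ t with hδ
    have hδ0 : 0 ≤ δ := by positivity
    -- the estimate
    have hest : ∀ j ≤ L, |∑ Y ∈ (YY W).filter G,
        ij j (3 ^ finrank (ZMod 3) (LinearMap.ker (B 0 + Y))) -
        γ * 3 ^ (j * (j - 1) / 2) * N| ≤ 3 ^ (j * (j - 1) / 2) * N * δ := by
      intro j hj
      have h1 := est (hSy 0) (hNd 0) ht G (γ := γ) (ε := η) hγ0 hγ1 hη0.le (j := j) (by omega) Z
        (fun w hw hw' => Finset.mem_union_left _ (Finset.mem_filter.2 ⟨Finset.mem_univ _, hw, hw'⟩)) ?_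
      · refine h1.trans ?_
        apply mul_le_mul_of_nonneg_left _ (by positivity)
        rw [hδ]
        have h2 : (3 : ℝ) ^ j ≤ 3 ^ L := pow_le_pow_right₀ (by norm_num) hj
        gcongr
      · intro v hvN hLI hvZ hd Y₀ hY₀ hY₀U
        have hY' := mem_YY.1 hY₀
        have hUW : ∀ u ∈ Submodule.span (ZMod 3) (Set.range v), ∀ w ∈ W, B 0 u w = 0 := by
          intro u hu
          have : Submodule.span (ZMod 3) (Set.range v) ≤ Nn (B 0) W := by
            rw [Submodule.span_le]
            rintro x ⟨i, rfl⟩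
            exact hvN i
          exact mem_Nn.1 (this hu)
        have hfr := finrank_sup_span hLI hd
        have h2 := hR₁ V (W ⊔ Submodule.span (ZMod 3) (Set.range v))
          (fun k => B k.succ + Y₀) (d + j) (t - j)
          (fun k => (hSy k.succ).add hY'.1) (fun k => ?_) (fun k l hkl => ?_)
          (fun k => (finrank_rad (B := B k.succ) hY₀ v).trans (Nat.add_le_add_right (hWd k.succ) j))
          (by omega) (by omega)
        · have h3 : ((YY (W ⊔ Submodule.span (ZMod 3) (Set.range v))).filter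
              fun Y => G (Y₀ + Y)) =
              (YY (W ⊔ Submodule.span (ZMod 3) (Set.range v))).filter
              fun Y => ∀ k : Fin M,
                finrank (ZMod 3) (LinearMap.ker (B k.succ + Y₀ + Y)) = r k.succ := by
            ext Y
            simp only [Finset.mem_filter, hG]
            refine and_congr_right fun _ => forall_congr' fun k => ?_
            rw [add_assoc]
          rw [h3]
          exact h2
        · refine nd_JJ (hNd k.succ) hY₀ hY₀U hUW ?_
          intro u hu hu0 b hb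
          obtain ⟨c, rfl⟩ := (Submodule.mem_span_range_iff_exists_fun (ZMod 3)).1 hu
          refine hvZ c (fun hc => hu0 (by rw [hc]; simp)) ?_
          rw [hZ]
          refine Finset.mem_union_right _ (Finset.mem_biUnion.2 ⟨k, Finset.mem_univ _, ?_⟩)
          exact Finset.mem_image.2 ⟨_, Finset.mem_filter.2 ⟨Finset.mem_univ _, hb⟩, rfl⟩
        · have h3 := finrank_JJ (B := B k.succ) (B' := B l.succ) hY₀ v
          have h4 := hJJ k.succ l.succ (fun h => hkl (Fin.succ_injective _ h))
          omega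
    have hδ' : (J + 2) * δ ≤ 2 * ε / 3 := by
      have h1 : ((J : ℝ) + 2) * η = ε / 3 := by
        rw [hη]
        field_simp
      have h2 : (Z.card : ℝ) * 3 ^ L / 3 ^ t ≤ (M + 1) * 3 ^ L / 3 ^ R₂ := by
        rw [div_le_div_iff₀ (by positivity) (by positivity)]
        have h3 : (Z.card : ℝ) ≤ (M + 1) * 3 ^ d := by exact_mod_cast hZc
        have h4 : (3 : ℝ) ^ d * 3 ^ R₂ ≤ 3 ^ t := by
          rw [← pow_add]
          exact pow_le_pow_right₀ (by norm_num) (by omega)
        calc (Z.card : ℝ) * 3 ^ L * 3 ^ R₂ ≤ (M + 1) * 3 ^ d * 3 ^ L * 3 ^ R₂ := by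
              gcongr
          _ = (M + 1) * 3 ^ L * (3 ^ d * 3 ^ R₂) := by ring
          _ ≤ _ := by gcongr
      have h3 : ((J : ℝ) + 2) * ((M + 1) * 3 ^ L / 3 ^ R₂) ≤ ε / 3 := by
        rw [← mul_div_assoc, div_le_div_iff₀ (by positivity) (by norm_num)]
        rw [div_lt_iff₀ hε] at hR₂
        nlinarith
      have h4 : ((J : ℝ) + 2) * δ = (J + 2) * η + (J + 2) * (Z.card * 3 ^ L / 3 ^ t) := by
        rw [hδ]
        ring
      have h5 : ((J : ℝ) + 2) * (Z.card * 3 ^ L / 3 ^ t) ≤ ε / 3 :=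
        (mul_le_mul_of_nonneg_left h2 (by positivity)).trans h3
      rw [h4, h1]
      linarith
    -- the count
    have hcnt : (((YY W).filter fun Y => ∀ k,
        finrank (ZMod 3) (LinearMap.ker (B k + Y)) = r k).card : ℝ) =
        ∑ Y ∈ (YY W).filter G,
          (if finrank (ZMod 3) (LinearMap.ker (B 0 + Y)) = r₀ then (1 : ℝ) else 0) := by
      rw [← Finset.sum_filter, Finset.sum_const, nsmul_eq_mul, mul_one, Finset.filter_filter]
      congr 2
      ext Y
      simp only [Finset.mem_filter, hG]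
      rw [Fin.forall_fin_succ, and_comm (a := finrank (ZMod 3) _ = r 0)]
    have hsum : ∀ n, n₀ ≤ n → |∑ i ∈ range n, (-1) ^ i * ff i - gi| ≤ ε / 3 := by
      intro n hn
      have := hn₀ n hn
      rw [Real.dist_eq] at this
      exact this.le
    have hprod : ∏ k : Fin (M + 1), gi * cf (r k) = gi * cf r₀ * γ := by
      rw [Fin.prod_univ_succ]
    have hcr := cf_pos r₀
    have hcr1 := cf_le_one r₀
    have hmain : ∀ I, I ≤ J + 1 → n₀ ≤ I + 1 →
        |∑ Y ∈ (YY W).filter G, qq r₀ I (3 ^ finrank (ZMod 3) (LinearMap.ker (B 0 + Y))) -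
          gi * cf r₀ * γ * N| ≤ ε * N := by
      intro I hI hI'
      have h1 := sum_qq (γ := γ) (N := N) (δ := δ) hN0 (r := r₀) (I := I)
        (fun j hj => hest j (by omega)) hδ0
      have h2 := hsum (I + 1) hI'
      have h3 : |γ * cf r₀ * (∑ j ∈ range (I + 1), (-1) ^ j * ff j) * N - gi * cf r₀ * γ * N| ≤
          ε / 3 * N := by
        have h4 : γ * cf r₀ * (∑ j ∈ range (I + 1), (-1) ^ j * ff j) * N - gi * cf r₀ * γ * N =
            (γ * cf r₀) * ((∑ j ∈ range (I + 1), (-1) ^ j * ff j) - gi) * N := by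
          ring
        have h5 : 0 ≤ γ * cf r₀ := mul_nonneg hγ0 hcr.le
        have h6 : γ * cf r₀ ≤ 1 := mul_le_one₀ hγ1 hcr.le hcr1
        rw [h4, abs_mul, abs_mul, abs_of_nonneg hN0, abs_of_nonneg h5]
        apply mul_le_mul_of_nonneg_right _ hN0
        calc (γ * cf r₀) * |(∑ j ∈ range (I + 1), (-1) ^ j * ff j) - gi| ≤ 1 * (ε / 3) :=
              mul_le_mul h6 h2 (abs_nonneg _) zero_le_one
          _ = _ := one_mul _
      have h5 : N * (((I : ℝ) + 1) * δ) ≤ N * (2 * ε / 3) := by
        apply mul_le_mul_of_nonneg_left _ hN0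
        refine le_trans ?_ hδ'
        apply mul_le_mul_of_nonneg_right _ hδ0
        have : (I : ℝ) ≤ J + 1 := by exact_mod_cast hI
        linarith
      have h6 := abs_sub_le
        (∑ Y ∈ (YY W).filter G, qq r₀ I (3 ^ finrank (ZMod 3) (LinearMap.ker (B 0 + Y))))
        (γ * cf r₀ * (∑ j ∈ range (I + 1), (-1) ^ j * ff j) * N) (gi * cf r₀ * γ * N)
      have h7 := h1.trans h5
      linarith
    have hlo := hmain J (by omega) (by omega)
    have hhi := hmain (J + 1) le_rfl (by omega)
    have hJo : Odd J := ⟨n₀, hJ⟩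
    have hJe : Even (J + 1) := hJo.add_one
    have h1 : ∑ Y ∈ (YY W).filter G, qq r₀ J (3 ^ finrank (ZMod 3) (LinearMap.ker (B 0 + Y))) ≤
        ∑ Y ∈ (YY W).filter G,
          (if finrank (ZMod 3) (LinearMap.ker (B 0 + Y)) = r₀ then (1 : ℝ) else 0) :=
      Finset.sum_le_sum fun Y _ => qq_odd hJo _ _
    have h2 : ∑ Y ∈ (YY W).filter G,
          (if finrank (ZMod 3) (LinearMap.ker (B 0 + Y)) = r₀ then (1 : ℝ) else 0) ≤
        ∑ Y ∈ (YY W).filter G, qq r₀ (J + 1) (3 ^ finrank (ZMod 3) (LinearMap.ker (B 0 + Y))) :=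
      Finset.sum_le_sum fun Y _ => qq_even hJe _ _
    rw [hcnt, hprod]
    rw [abs_le] at hlo hhi ⊢
    constructor <;> linarith

end Run7.h707.TC
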