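import Pool.Agent.Run7.h707.TC.Box2
import Pool.Agent.Y696.XL.Key3
import Pool.Agent.Q283.T3.Key

/-! The sum over the boxes for tuples of sets of primes: the keys -/

set_option autoImplicit false
set_option linter.unusedSectionVars false

open scoped Classical

namespace Run7.h707.TC

open Finset Module
open Pool.Agent.Y692.QS (Ei)
open Pool.Agent.Y715.T.Rec (cs)
open Pool.Agent.Y715.T.RecG (Pq)
open Pool.Agent.Y699.E (ez nrm QB mem_QB)
open Pool.Agent.Y703.CX (jj XX)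
open Pool.Agent.Y703.XK (prs HB S_EQ sm la bl S_BIL)
open Pool.Agent.R419.KF (wt wt_one wt_ne SG mem_SG)
open Pool.Agent.N883.FF (nq NdB)
open Pool.Agent.XLK (fcc nrm_one_le ph ky CC mem_CC ph_div ph_mod sm_union sm_disj prod_split
  ph_inj prod_ph le_XX hb_box card_QB_le prs_card)

/-- the tuples -/
noncomputable def TP {m : ℕ} (M : Fin m → Finset Ei) (Y : Fin m → ℕ) :
    Finset (Fin m → Finset Ei) :=
  Fintype.piFinset fun k => (SG (Y k)).filter fun S => M k ⊆ S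

theorem mem_TP {m : ℕ} {M : Fin m → Finset Ei} {Y : Fin m → ℕ} {S : Fin m → Finset Ei} :
    S ∈ TP M Y ↔ ∀ k, (∀ q ∈ S k, Pq q) ∧ ∏ π ∈ S k, nrm π ≤ Y k ∧ M k ⊆ S k := by
  unfold TP
  rw [Fintype.mem_piFinset]
  refine forall_congr' fun k => ?_
  rw [mem_filter, mem_SG, and_assoc]

/-- different large primes lie in different blocks -/
def IjT {m : ℕ} (z H : ℕ) (S : Fin m → Finset Ei) : Prop :=
  ∀ k l, ∀ π ∈ la z (S k), ∀ ρ ∈ la z (S l), bl H π = bl H ρ → k = l ∧ π = ρ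

/-- the regular tuples -/
noncomputable def RT {m : ℕ} (k₀ : Fin m) (M : Fin m → Finset Ei) (Y : Fin m → ℕ)
    (z H K R : ℕ) : Finset (Fin m → Finset Ei) :=
  (TP M Y).filter fun S => IjT z H S ∧ (∀ k, (S k).card ≤ K) ∧
    (∀ k, (∏ π ∈ sm z (S k), nrm π) * ∏ π ∈ la z (S k), XX H (bl H π) ≤ Y k) ∧
    (∀ k, (la z (S k)).Nonempty) ∧
    4 * ((Tt fun k => sm z (S k)).card + 1) + R ≤ (la z (S k₀)).card

/-- the key of a tuple -/
noncomputable def kyT {m : ℕ} (z H : ℕ) (S : Fin m → Finset Ei) (k : Fin m) :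
    Finset Ei × Finset ℕ := ky z H (S k)

/-- the conditions on a key -/
def CdT {m : ℕ} (k₀ : Fin m) (M : Fin m → Finset Ei) (Y : Fin m → ℕ) (H K R : ℕ)
    (k' : Fin m → Finset Ei × Finset ℕ) : Prop :=
  (∀ k, M k ⊆ (k' k).1) ∧ (∀ k, (k' k).1.card + (k' k).2.card ≤ K) ∧
    (∀ k, (∏ π ∈ (k' k).1, nrm π) * ∏ i ∈ (k' k).2, XX H (i / 9) ≤ Y k) ∧
    (∀ k, (k' k).2.Nonempty) ∧
    4 * ((Tt fun k => (k' k).1).card + 1) + R ≤ (k' k₀).2.card

theorem ijT_inj {m : ℕ} {z H : ℕ} {S : Fin m → Finset Ei} (h : IjT z H S) (k : Fin m) :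
    Set.InjOn (bl H) (la z (S k) : Set Ei) := fun a ha b hb hab => (h k k a ha b hb hab).2

theorem mem_RT {m : ℕ} {k₀ : Fin m} {M : Fin m → Finset Ei} {Y : Fin m → ℕ} {z H K R : ℕ}
    (hM : ∀ k, ∀ q ∈ M k, nrm q ≤ z) (hH : 1 ≤ H) {S : Fin m → Finset Ei} :
    S ∈ RT k₀ M Y z H K R ↔ (∀ k, ∀ p ∈ S k, Pq p) ∧ IjT z H S ∧
      CdT k₀ M Y H K R (kyT z H S) := by
  unfold RT
  rw [Finset.mem_filter, mem_TP]
  have hk1 : ∀ k, (kyT z H S k).1 = sm z (S k) := fun _ => rfl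
  have hk2 : ∀ k, (kyT z H S k).2 = (la z (S k)).image (ph H) := fun _ => rfl
  unfold CdT
  simp only [hk1, hk2]
  have key : IjT z H S → ∀ k,
      ((S k).card = (sm z (S k)).card + ((la z (S k)).image (ph H)).card) ∧
      (∏ i ∈ (la z (S k)).image (ph H), XX H (i / 9) = ∏ p ∈ la z (S k), XX H (bl H p)) ∧
      (((la z (S k)).image (ph H)).card = (la z (S k)).card) ∧
      (((la z (S k)).image (ph H)).Nonempty ↔ (la z (S k)).Nonempty) := by
    intro h k
    have hk := ijT_inj h k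
    refine ⟨?_, ?_, ?_, image_nonempty⟩
    · rw [Finset.card_image_of_injOn (ph_inj hk), ← Finset.card_union_of_disjoint (sm_disj z (S k)),
        sm_union]
    · rw [prod_ph hk (fun i => XX H (i / 9))]
      exact Finset.prod_congr rfl fun p _ => by rw [ph_div]
    · rw [Finset.card_image_of_injOn (ph_inj hk)]
  have hsub : ∀ k, M k ⊆ S k ↔ M k ⊆ sm z (S k) := by
    intro k
    unfold sm
    constructor
    · exact fun h q hq => Finset.mem_filter.2 ⟨h hq, hM k q hq⟩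
    · exact fun h q hq => (Finset.mem_filter.1 (h hq)).1
  constructor
  · rintro ⟨h1, h2, h3, h4, h5, h6⟩
    have k1 := key h2
    refine ⟨fun k => (h1 k).1, h2, fun k => (hsub k).1 (h1 k).2.2, fun k => ?_, fun k => ?_,
      fun k => ?_, ?_⟩
    · rw [← (k1 k).1]; exact h3 k
    · rw [(k1 k).2.1]; exact h4 k
    · rw [(k1 k).2.2.2]; exact h5 k
    · rw [(k1 k₀).2.2.1]; exact h6
  · rintro ⟨h1, h2, h3, h4, h5, h6, h7⟩
    have k1 := key h2
    refine ⟨fun k => ⟨h1 k, ?_, (hsub k).2 (h3 k)⟩, h2, fun k => ?_, fun k => ?_, fun k => ?_, ?_⟩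
    · have h5' := h5 k
      rw [(k1 k).2.1] at h5'
      refine le_trans ?_ h5'
      rw [prod_split z (S k)]
      apply Nat.mul_le_mul_left
      exact Finset.prod_le_prod' fun p hp =>
        le_XX hH (nrm_one_le (h1 k p (Finset.mem_filter.1 hp).1))
    · rw [(k1 k).1]; exact h4 k
    · have h5' := h5 k
      rw [(k1 k).2.1] at h5'
      exact h5'
    · rw [← (k1 k).2.2.2]; exact h6 k
    · rw [← (k1 k₀).2.2.1]; exact h7

/-- the facts on the key of a regular tuple -/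
theorem key_factsT {m : ℕ} {k₀ : Fin m} {M : Fin m → Finset Ei} {Y : Fin m → ℕ} {z H K R : ℕ}
    (hM : ∀ k, ∀ q ∈ M k, nrm q ≤ z) (hH : 1 ≤ H) {k' : Fin m → Finset Ei × Finset ℕ}
    (hkey : k' ∈ (RT k₀ M Y z H K R).image (kyT z H)) :
    (∀ k, ∀ q ∈ (k' k).1, Pq q) ∧ (∀ k, ∀ q ∈ (k' k).1, nrm q ≤ z) ∧
      (∀ k l, ∀ i ∈ (k' k).2, ∀ j ∈ (k' l).2, i / 9 = j / 9 → k = l ∧ i = j) ∧
      CdT k₀ M Y H K R k' ∧ (∀ k, ∀ i ∈ (k' k).2, z ≤ XX H (i / 9) ∧
        ∃ q : Ei, Pq q ∧ z < nrm q ∧ nrm q ≤ Y k ∧ ph H q = i) := by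
  rw [Finset.mem_image] at hkey
  obtain ⟨W, hW, hWk⟩ := hkey
  have hWX : ∀ k, ∏ p ∈ W k, nrm p ≤ Y k := by
    unfold RT at hW
    rw [Finset.mem_filter, mem_TP] at hW
    exact fun k => (hW.1 k).2.1
  rw [mem_RT hM hH, hWk] at hW
  obtain ⟨h1, h2, h3⟩ := hW
  have hS₀ : ∀ k, sm z (W k) = (k' k).1 := fun k => by rw [← hWk]; rfl
  have hJ : ∀ k, (la z (W k)).image (ph H) = (k' k).2 := fun k => by rw [← hWk]; rfl
  refine ⟨?_, ?_, ?_, h3, ?_⟩
  · intro k q hq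
    rw [← hS₀ k] at hq
    exact h1 k q (Finset.mem_filter.1 hq).1
  · intro k q hq
    rw [← hS₀ k] at hq
    exact (Finset.mem_filter.1 hq).2
  · intro k l a ha b hb hab
    rw [← hJ k, Finset.mem_image] at ha
    rw [← hJ l, Finset.mem_image] at hb
    obtain ⟨x, hx, rfl⟩ := ha
    obtain ⟨y, hy, rfl⟩ := hb
    simp only [ph_div] at hab
    obtain ⟨h4, h5⟩ := h2 k l x hx y hy hab
    exact ⟨h4, by rw [h5]⟩
  · intro k i hi
    rw [← hJ k, Finset.mem_image] at hi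
    obtain ⟨q, hq, rfl⟩ := hi
    have hqW := (Finset.mem_filter.1 hq).1
    have hqz := (Finset.mem_filter.1 hq).2
    have hqp := h1 k q hqW
    have hqX : nrm q ≤ Y k := (Finset.single_le_prod' (f := fun q => nrm q)
      (fun q hq => nrm_one_le (h1 k q hq)) hqW).trans (hWX k)
    refine ⟨?_, q, hqp, by omega, hqX, rfl⟩
    rw [ph_div]
    have h5 : nrm q ≤ XX H (bl H q) := le_XX hH (nrm_one_le hqp)
    omega

/-- the indices of the blocks -/
noncomputable def JT {m : ℕ} (k' : Fin m → Finset Ei × Finset ℕ) : Finset ℕ :=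
  univ.biUnion fun k => (k' k).2

/-- the color of a block -/
noncomputable def colT {m : ℕ} (k' : Fin m → Finset Ei × Finset ℕ) (i : ↥(JT k')) : Fin m :=
  (mem_biUnion.1 i.2).choose

theorem colT_spec {m : ℕ} (k' : Fin m → Finset Ei × Finset ℕ) (i : ↥(JT k')) :
    (i : ℕ) ∈ (k' (colT k' i)).2 := (mem_biUnion.1 i.2).choose_spec.2

/-- the blocks of the key are different -/
def IjK {m : ℕ} (k' : Fin m → Finset Ei × Finset ℕ) : Prop :=
  ∀ k l, ∀ i ∈ (k' k).2, ∀ j ∈ (k' l).2, i / 9 = j / 9 → k = l ∧ i = j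

theorem colT_iff {m : ℕ} {k' : Fin m → Finset Ei × Finset ℕ} (h : IjK k') (i : ↥(JT k'))
    (k : Fin m) : colT k' i = k ↔ (i : ℕ) ∈ (k' k).2 := by
  constructor
  · intro hk
    rw [← hk]
    exact colT_spec k' i
  · intro hi
    exact (h _ _ i (colT_spec k' i) i hi rfl).1

section fillT
variable {m : ℕ} {z H : ℕ} {k' : Fin m → Finset Ei × Finset ℕ} {p : ↥(JT k') → Ei}

theorem sm_fillT (hH : 1 ≤ H) (h₀ : ∀ k, ∀ q ∈ (k' k).1, nrm q ≤ z) (hp : ∀ i : ↥(JT k'), p i ∈ CC z H i)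
    (k : Fin m) : sm z (fill (colT k') (fun k => (k' k).1) p k) = (k' k).1 := by
  ext q
  unfold sm fill
  rw [Finset.mem_filter, Finset.mem_union, Finset.mem_image]
  constructor
  · rintro ⟨h | ⟨i, -, rfl⟩, h2⟩
    · exact h
    · have := ((mem_CC hH).1 (hp i)).2.1
      omega
  · exact fun h => ⟨Or.inl h, h₀ k q h⟩

theorem la_fillT (hH : 1 ≤ H) (h₀ : ∀ k, ∀ q ∈ (k' k).1, nrm q ≤ z) (hp : ∀ i : ↥(JT k'), p i ∈ CC z H i)
    (k : Fin m) : la z (fill (colT k') (fun k => (k' k).1) p k) =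
      (univ.filter fun i => colT k' i = k).image p := by
  ext q
  unfold la fill
  rw [Finset.mem_filter, Finset.mem_union]
  constructor
  · rintro ⟨h | h, h2⟩
    · exact absurd (h₀ k q h) h2
    · exact h
  · intro h
    refine ⟨Or.inr h, ?_⟩
    rw [Finset.mem_image] at h
    obtain ⟨i, -, rfl⟩ := h
    have := ((mem_CC hH).1 (hp i)).2.1
    omega

theorem ph_fillT (hH : 1 ≤ H) (hj : IjK k') (hp : ∀ i : ↥(JT k'), p i ∈ CC z H i) (k : Fin m) :
    ((univ.filter fun i => colT k' i = k).image p).image (ph H) = (k' k).2 := by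
  ext j
  rw [Finset.mem_image]
  constructor
  · rintro ⟨q, hq, rfl⟩
    rw [Finset.mem_image] at hq
    obtain ⟨i, hi, rfl⟩ := hq
    rw [((mem_CC hH).1 (hp i)).2.2]
    exact (colT_iff hj i k).1 (mem_filter.1 hi).2
  · intro hk
    have hi : j ∈ JT k' := mem_biUnion.2 ⟨k, mem_univ _, hk⟩
    exact ⟨p ⟨j, hi⟩, Finset.mem_image_of_mem _ (mem_filter.2 ⟨Finset.mem_univ _,
      (colT_iff hj ⟨j, hi⟩ k).2 hk⟩), ((mem_CC hH).1 (hp ⟨j, hi⟩)).2.2⟩

theorem ky_fillT (hH : 1 ≤ H) (h₀ : ∀ k, ∀ q ∈ (k' k).1, nrm q ≤ z) (hj : IjK k')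
    (hp : ∀ i : ↥(JT k'), p i ∈ CC z H i) : kyT z H (fill (colT k') (fun k => (k' k).1) p) = k' := by
  funext k
  unfold kyT ky
  rw [sm_fillT hH h₀ hp, la_fillT hH h₀ hp, ph_fillT hH hj hp]

end fillT

theorem CC_inj {z H : ℕ} (hH : 1 ≤ H) {i j : ℕ} {q : Ei} (h : q ∈ CC z H i) (h' : q ∈ CC z H j) :
    i = j := by
  rw [← ((mem_CC hH).1 h).2.2, ← ((mem_CC hH).1 h').2.2]

theorem key_bijT {m : ℕ} {k₀ : Fin m} {M : Fin m → Finset Ei} {Y : Fin m → ℕ} {z H K R : ℕ}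
    (hM : ∀ k, ∀ q ∈ M k, nrm q ≤ z) (hH : 1 ≤ H) {k' : Fin m → Finset Ei × Finset ℕ}
    (hkey : k' ∈ (RT k₀ M Y z H K R).image (kyT z H)) (P : (Fin m → Finset Ei) → Prop) :
    ((Fintype.piFinset fun i : ↥(JT k') => CC z H i).filter fun p =>
      P (fill (colT k') (fun k => (k' k).1) p)).card =
      ((RT k₀ M Y z H K R).filter fun S => kyT z H S = k' ∧ P S).card := by
  obtain ⟨h₀O, h₀, hJi, hCd, hJf⟩ := key_factsT hM hH hkey
  apply Finset.card_bij (fun (p : ↥(JT k') → Ei) _ => fill (colT k') (fun k => (k' k).1) p)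
  · intro p hp
    rw [Finset.mem_filter, Fintype.mem_piFinset] at hp
    obtain ⟨hp, hP⟩ := hp
    have hk := ky_fillT hH h₀ hJi hp
    rw [Finset.mem_filter]
    refine ⟨?_, hk, hP⟩
    rw [mem_RT hM hH, hk]
    refine ⟨?_, ?_, hCd⟩
    · intro k q hq
      unfold fill at hq
      rw [Finset.mem_union, Finset.mem_image] at hq
      rcases hq with hq | ⟨i, -, rfl⟩
      · exact h₀O k q hq
      · exact ((mem_CC hH).1 (hp i)).1
    · intro k l a ha b hb hab
      rw [la_fillT hH h₀ hp, Finset.mem_image] at ha hb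
      obtain ⟨i, hi, rfl⟩ := ha
      obtain ⟨j, hj, rfl⟩ := hb
      have h1 := ((mem_CC hH).1 (hp i)).2.2
      have h2 := ((mem_CC hH).1 (hp j)).2.2
      have h3 : i.1 / 9 = j.1 / 9 := by
        rw [← h1, ← h2, ph_div, ph_div]
        exact hab
      have hi' := (colT_iff hJi i k).1 (mem_filter.1 hi).2
      have hj' := (colT_iff hJi j l).1 (mem_filter.1 hj).2
      obtain ⟨h4, h5⟩ := hJi k l i hi' j hj' h3
      exact ⟨h4, by rw [Subtype.ext h5]⟩
  · intro p hp p' hp' h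
    rw [Finset.mem_filter, Fintype.mem_piFinset] at hp hp'
    funext i
    have h1 := la_fillT hH h₀ hp.1 (colT k' i)
    rw [h, la_fillT hH h₀ hp'.1] at h1
    have h2 : p i ∈ (univ.filter fun j => colT k' j = colT k' i).image p' := by
      rw [h1]
      exact Finset.mem_image_of_mem _ (mem_filter.2 ⟨Finset.mem_univ _, rfl⟩)
    rw [Finset.mem_image] at h2
    obtain ⟨j, -, hj⟩ := h2
    have h3 : (i : ℕ) = j := CC_inj hH (hp.1 i) (by rw [← hj]; exact hp'.1 j)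
    rw [← hj, Subtype.ext h3]
  · intro S hS
    rw [Finset.mem_filter] at hS
    obtain ⟨hSR, hSk, hSP⟩ := hS
    rw [mem_RT hM hH] at hSR
    obtain ⟨hSO, hSI, -⟩ := hSR
    have hk1 : ∀ k, sm z (S k) = (k' k).1 := fun k => by rw [← hSk]; rfl
    have hk2 : ∀ k, (la z (S k)).image (ph H) = (k' k).2 := fun k => by rw [← hSk]; rfl
    have hex : ∀ i : ↥(JT k'), ∃ q ∈ la z (S (colT k' i)), ph H q = i := by
      intro i
      have := colT_spec k' i
      rw [← hk2, Finset.mem_image] at this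
      exact this
    choose p hp1 hp2 using hex
    have him : ∀ k, (univ.filter fun i => colT k' i = k).image p = la z (S k) := by
      intro k
      ext q
      rw [Finset.mem_image]
      constructor
      · rintro ⟨i, hi, rfl⟩
        rw [← (mem_filter.1 hi).2]
        exact hp1 i
      · intro hq
        have hjq : ph H q ∈ (k' k).2 := by
          rw [← hk2]
          exact Finset.mem_image_of_mem _ hq
        have hjJ : ph H q ∈ JT k' := mem_biUnion.2 ⟨k, mem_univ _, hjq⟩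
        have hc := (colT_iff hJi ⟨ph H q, hjJ⟩ k).2 hjq
        refine ⟨⟨ph H q, hjJ⟩, mem_filter.2 ⟨Finset.mem_univ _, hc⟩, ?_⟩
        have h3 := hp1 ⟨ph H q, hjJ⟩
        have h4 := hp2 ⟨ph H q, hjJ⟩
        rw [hc] at h3
        exact ph_inj (ijT_inj hSI k) (Finset.mem_coe.2 h3) (Finset.mem_coe.2 hq) h4
    have hSe : fill (colT k') (fun k => (k' k).1) p = S := by
      funext k
      unfold fill
      show (k' k).1 ∪ _ = _
      rw [him, ← hk1, sm_union]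
    refine ⟨p, ?_, hSe⟩
    rw [Finset.mem_filter, Fintype.mem_piFinset, hSe]
    refine ⟨fun i => (mem_CC hH).2 ⟨hSO _ _ (Finset.mem_filter.1 (hp1 i)).1,
      not_le.1 (Finset.mem_filter.1 (hp1 i)).2, hp2 i⟩, hSP⟩

end Run7.h707.TC
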