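import Pool.Agent.Run7.h707.TC.Bd2

/-! The law of the coranks of several Laplacians with different weights of the same symmetric random
matrix -/

set_option autoImplicit false
set_option linter.unusedSectionVars false

open scoped Classical

namespace Run7.h707.TC

open Finset Module
open Q283.T3 hiding est thmR
open Pool.Agent.Y703.XK (prs)

section eqv
variable {ι ι' : Type} [Fintype ι] [Fintype ι']

theorem finrank_KS_equiv (φ : ι ≃ ι') (c : ι' → ι' → ZMod 3) (S : Finset ι) (S' : Finset ι')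
    (hS : ∀ i, φ i ∈ S' ↔ i ∈ S) :
    finrank (ZMod 3) (KS (fun i j => c (φ i) (φ j)) S) = finrank (ZMod 3) (KS c S') := by
  have h1 : ∀ (x : ι' → ZMod 3), x ∈ KS c S' ↔
      (x ∘ φ) ∈ KS (fun i j => c (φ i) (φ j)) S := by
    intro x
    rw [mem_KS, mem_KS]
    refine and_congr ?_ ?_
    · constructor
      · intro h i hi
        exact h (φ i) (fun h' => hi ((hS i).1 h'))
      · intro h i hi
        have h2 := h (φ.symm i) (fun h' => hi (by
          have h3 := (hS (φ.symm i)).2 h'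
          rwa [φ.apply_symm_apply] at h3))
        simpa using h2
    · constructor
      · intro h i
        have h2 := h (φ i)
        rw [← φ.sum_comp] at h2
        exact h2
      · intro h i
        have h2 := h (φ.symm i)
        rw [← φ.sum_comp]
        simp only [Function.comp_apply, φ.apply_symm_apply] at h2
        exact h2
  set g := LinearEquiv.funCongrLeft (ZMod 3) (ZMod 3) φ with hg
  have h2 : (KS c S').map (g : (ι' → ZMod 3) →ₗ[ZMod 3] (ι → ZMod 3)) =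
      KS (fun i j => c (φ i) (φ j)) S := by
    ext y
    rw [Submodule.mem_map]
    constructor
    · rintro ⟨x, hx, rfl⟩
      exact (h1 x).1 hx
    · intro hy
      refine ⟨g.symm y, (h1 _).2 ?_, g.apply_symm_apply y⟩
      have h3 : (g.symm y) ∘ φ = y := g.apply_symm_apply y
      rw [h3]
      exact hy
  rw [← h2]
  exact (LinearEquiv.finrank_map_eq g (KS c S')).symm ▸ rfl

end eqv

section cw
variable {U ι : Type} [Fintype U] [Fintype ι]

/-- the weighted symbols -/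
def cw (e : U → ZMod 3) (s : ι → ZMod 3) (A : U → U → ZMod 3) (B : U → ι → ZMod 3)
    (R : ι → ι → ZMod 3) : U ⊕ ι → U ⊕ ι → ZMod 3
  | Sum.inl u, Sum.inl v => e u * e v * A u v
  | Sum.inl u, Sum.inr i => e u * s i * B u i
  | Sum.inr i, Sum.inl u => e u * s i * B u i
  | Sum.inr i, Sum.inr j => s i * s j * R i j

/-- the reordering of the vertices -/
noncomputable def eqv (U : Type) (κ : ι → Prop) :
    (U ⊕ {i // ¬ κ i}) ⊕ {i // κ i} ≃ U ⊕ ι :=
  (Equiv.sumAssoc U {i // ¬ κ i} {i // κ i}).trans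
    (Equiv.sumCongr (Equiv.refl U) ((Equiv.sumComm _ _).trans (Equiv.sumCompl κ)))

theorem eqv_u (κ : ι → Prop) (u : U) : eqv U κ (Sum.inl (Sum.inl u)) = Sum.inl u := rfl

theorem eqv_q (κ : ι → Prop) (q : {i // ¬ κ i}) : eqv U κ (Sum.inl (Sum.inr q)) = Sum.inr q.1 := rfl

theorem eqv_j (κ : ι → Prop) (j : {i // κ i}) : eqv U κ (Sum.inr j) = Sum.inr j.1 := rfl

theorem finrank_cw (κ : ι → Prop) (e : U → ZMod 3) (s : ι → ZMod 3) (A : U → U → ZMod 3)
    (B : U → ι → ZMod 3) (R : ι → ι → ZMod 3) (hR : ∀ i j, R i j = R j i)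
    (hs0 : ∀ i, s i ≠ 0) (hs1 : ∀ j, κ j → s j = 1) :
    finrank (ZMod 3) (KS (cw e s A B R) (Sk ι e)) =
      finrank (ZMod 3) (KS (cc (es κ e s) (AA κ A B R) (BB κ B R)
        (fun k l : {i // κ i} => R k l)) (Sk {i // κ i} (es κ e s))) := by
  rw [← finrank_KS_equiv (eqv U κ) (cw e s A B R) (Sk {i // κ i} (es κ e s)) (Sk ι e)]
  · have hs1' : ∀ j : {i // κ i}, s j = 1 := fun j => hs1 j j.2
    have h1 : (fun i j => cw e s A B R (eqv U κ i) (eqv U κ j)) = cc (es κ e s) (AA κ A B R)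
        (BB κ B R) (fun k l : {i // κ i} => R k l) := by
      funext i j
      rcases i with (u | q) | i
      · rcases j with (v | q') | j
        · rfl
        · show e u * s q' * B u q' = e u * s q' * B u q'
          rfl
        · show e u * s j * B u j = e u * B u j
          rw [hs1', mul_one]
      · rcases j with (v | q') | j
        · show e v * s q * B v q = s q * e v * B v q
          ring
        · rfl
        · show s q * s j * R q j = s q * R q j
          rw [hs1', mul_one]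
      · rcases j with (v | q') | j
        · show e v * s i * B v i = e v * B v i
          rw [hs1', mul_one]
        · show s i * s q' * R i q' = s q' * R q' i
          rw [hs1', one_mul, hR i q']
        · show s i * s j * R i j = R i j
          rw [hs1', hs1', one_mul, one_mul]
    rw [h1]
  · intro i
    rcases i with (u | q) | j
    · rw [eqv_u, mem_Sk_inl, mem_Sk_inl]
      rfl
    · rw [eqv_q, mem_Sk_inl]
      exact iff_of_true mem_Sk_inr (hs0 q)
    · rw [eqv_j]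
      exact iff_of_true mem_Sk_inr mem_Sk_inr

end cw

section rep
variable {ι : Type} [Fintype ι] [LinearOrder ι] {κ : ι → Prop}

theorem prs_lt {J : Type} [Fintype J] [LinearOrder J] (p : prs J) : p.1.1 < p.1.2 :=
  (mem_filter.1 p.2).2

/-- the inner part of a matrix -/
noncomputable def inn (κ : ι → Prop) (α : prs ι → ZMod 3) : prs {i // κ i} → ZMod 3 := fun p =>
  α ⟨(p.1.1.1, p.1.2.1), mem_prs.2 (prs_lt p)⟩

/-- the matrix with a given inner part -/
noncomputable def rep (κ : ι → Prop) (α : prs ι → ZMod 3) (a : prs {i // κ i} → ZMod 3) :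
    prs ι → ZMod 3 := fun p =>
  if h : κ p.1.1 ∧ κ p.1.2 then a ⟨(⟨p.1.1, h.1⟩, ⟨p.1.2, h.2⟩), mem_prs.2 (prs_lt p)⟩ else α p

theorem inn_rep (α : prs ι → ZMod 3) (a : prs {i // κ i} → ZMod 3) : inn κ (rep κ α a) = a := by
  funext p
  unfold inn rep
  rw [dif_pos ⟨p.1.1.2, p.1.2.2⟩]

theorem rep_inn (α : prs ι → ZMod 3) (a : prs {i // κ i} → ZMod 3) :
    rep κ (rep κ α a) (inn κ α) = α := by
  funext p
  by_cases h : κ p.1.1 ∧ κ p.1.2
  · unfold rep
    rw [dif_pos h]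
    rfl
  · unfold rep
    rw [dif_neg h, dif_neg h]

theorem ext_rep_in (α : prs ι → ZMod 3) (a : prs {i // κ i} → ZMod 3) (k l : {i // κ i}) :
    Pool.Agent.Y703.XK.ext (rep κ α a) k l = Pool.Agent.Y703.XK.ext a k l := by
  unfold Pool.Agent.Y703.XK.ext
  by_cases h : k < l
  · have h' : (k : ι) < l := h
    rw [dif_pos (mem_prs.2 h'), dif_pos (mem_prs.2 h)]
    unfold rep
    rw [dif_pos ⟨k.2, l.2⟩]
  · have h' : ¬ (k : ι) < l := h
    rw [dif_neg (fun e => h' (mem_prs.1 e)), dif_neg (fun e => h (mem_prs.1 e))]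
    by_cases h1 : l < k
    · have h1' : (l : ι) < k := h1
      rw [dif_pos (mem_prs.2 h1'), dif_pos (mem_prs.2 h1)]
      unfold rep
      rw [dif_pos ⟨l.2, k.2⟩]
    · have h1' : ¬ (l : ι) < k := h1
      rw [dif_neg (fun e => h1' (mem_prs.1 e)), dif_neg (fun e => h1 (mem_prs.1 e))]

theorem ext_rep_out (α : prs ι → ZMod 3) (a : prs {i // κ i} → ZMod 3) {k l : ι}
    (h : ¬ (κ k ∧ κ l)) :
    Pool.Agent.Y703.XK.ext (rep κ α a) k l = Pool.Agent.Y703.XK.ext α k l := by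
  unfold Pool.Agent.Y703.XK.ext
  by_cases h1 : k < l
  · rw [dif_pos (mem_prs.2 h1), dif_pos (mem_prs.2 h1)]
    unfold rep
    rw [dif_neg h]
  · rw [dif_neg (fun e => h1 (mem_prs.1 e)), dif_neg (fun e => h1 (mem_prs.1 e))]
    by_cases h2 : l < k
    · rw [dif_pos (mem_prs.2 h2), dif_pos (mem_prs.2 h2)]
      unfold rep
      rw [dif_neg (fun e => h ⟨e.2, e.1⟩)]
    · rw [dif_neg (fun e => h2 (mem_prs.1 e)), dif_neg (fun e => h2 (mem_prs.1 e))]

theorem card_rep (P : (prs ι → ZMod 3) → Prop) :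
    (univ.filter P).card * 3 ^ (prs {i // κ i}).card =
      ∑ α : prs ι → ZMod 3, (univ.filter fun a : prs {i // κ i} → ZMod 3 =>
        P (rep κ α a)).card := by
  have h1 : 3 ^ (prs {i // κ i}).card = (univ : Finset (prs {i // κ i} → ZMod 3)).card := by
    rw [card_univ, Fintype.card_fun, ZMod.card, Fintype.card_coe]
  rw [h1, ← card_product, ← card_sigma]
  refine card_bij' (fun p _ => ⟨rep κ p.1 p.2, inn κ p.1⟩) (fun p _ => (rep κ p.1 p.2, inn κ p.1))
    ?_ ?_ ?_ ?_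
  · rintro ⟨α, a⟩ h
    rw [mem_product, mem_filter] at h
    rw [mem_sigma, mem_filter]
    refine ⟨mem_univ _, mem_univ _, ?_⟩
    rw [rep_inn]
    exact h.1.2
  · rintro ⟨α, a⟩ h
    rw [mem_sigma, mem_filter] at h
    rw [mem_product, mem_filter]
    exact ⟨⟨mem_univ _, h.2.2⟩, mem_univ _⟩
  · rintro ⟨α, a⟩ _
    simp only [rep_inn, inn_rep]
  · rintro ⟨α, a⟩ _
    simp only [rep_inn, inn_rep]

end rep

section fin
variable {U ι : Type} [Fintype U] [Fintype ι] [LinearOrder ι] {κ : ι → Prop}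

theorem AA_rep (A : U → U → ZMod 3) (B : U → ι → ZMod 3) (α : prs ι → ZMod 3)
    (a : prs {i // κ i} → ZMod 3) :
    AA κ A B (Pool.Agent.Y703.XK.ext (rep κ α a)) = AA κ A B (Pool.Agent.Y703.XK.ext α) := by
  funext i j
  rcases i with u | q <;> rcases j with v | q' <;> simp only [AA]
  exact ext_rep_out α a (fun h => q.2 h.1)

theorem BB_rep (B : U → ι → ZMod 3) (α : prs ι → ZMod 3)
    (a : prs {i // κ i} → ZMod 3) :
    BB κ B (Pool.Agent.Y703.XK.ext (rep κ α a)) = BB κ B (Pool.Agent.Y703.XK.ext α) := by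
  funext i j
  rcases i with u | q <;> simp only [BB]
  exact ext_rep_out α a (fun h => q.2 h.1)

theorem finrank_rep {e : U → ZMod 3} {s : ι → ZMod 3} {A : U → U → ZMod 3} {B : U → ι → ZMod 3}
    (hA : ∀ u v, A u v = A v u) (hs0 : ∀ i, s i ≠ 0) (hs1 : ∀ j, κ j → s j = 1)
    (j₀ : {i // κ i}) (α : prs ι → ZMod 3) (a : prs {i // κ i} → ZMod 3) :
    finrank (ZMod 3) (KS (cw e s A B (Pool.Agent.Y703.XK.ext (rep κ α a))) (Sk ι e)) =
      finrank (ZMod 3) (LinearMap.ker (BO κ e s A B j₀ α + YA (U ⊕ {i // ¬ κ i}) a)) + 1 := by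
  rw [finrank_cw κ e s A B _ (ext_symm _) hs0 hs1, AA_rep, BB_rep]
  have h1 : (fun k l : {i // κ i} => Pool.Agent.Y703.XK.ext (rep κ α a) k l) =
      Pool.Agent.Y703.XK.ext a := by
    funext k l
    exact ext_rep_in α a k l
  rw [h1]
  have h2 : BO κ e s A B j₀ α + YA (U ⊕ {i // ¬ κ i}) a =
      Lp (cc (es κ e s) (AA κ A B (Pool.Agent.Y703.XK.ext α))
        (BB κ B (Pool.Agent.Y703.XK.ext α)) (Pool.Agent.Y703.XK.ext a))
        (dg (Sk {i // κ i} (es κ e s)) (Sum.inr j₀)) := by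
    unfold BO B0 YA
    rw [Lp_add, cc_add]
  rw [h2, finrank_KS (cc_symm (AA_symm hA B α) (ext_symm a)) (fun i j h => cc_zero i j h)
    (j₀ := Sum.inr j₀) mem_Sk_inr]

end fin

theorem c3K : ∃ K : ℕ, ∀ (U ι : Type) [Fintype U] [Fintype ι] [LinearOrder ι] (κ : ι → Prop)
    (e e' : U → ZMod 3) (s s' : ι → ZMod 3) (A : U → U → ZMod 3) (B : U → ι → ZMod 3)
    (j₀ : {i // κ i}), (∀ i, s i ≠ 0) → (∀ i, s' i ≠ 0) → (∀ j, κ j → s j = 1) →
    (∀ j, κ j → s' j = 1) → ∀ (q : {i // ¬ κ i}), s q ≠ s' q → ∀ d : ℕ,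
    (univ.filter fun α : prs ι → ZMod 3 =>
      ¬ finrank (ZMod 3) (JJ (BO κ e s A B j₀ α) (BO κ e' s' A B j₀ α)
        (W0 (U ⊕ {i // ¬ κ i}) {i // κ i})) ≤ d).card * 3 ^ (d + 1) *
        3 ^ Fintype.card {i // κ i} ≤
      Fintype.card (prs ι → ZMod 3) * (3 * K * 9 ^ Fintype.card U *
        5 ^ Fintype.card {i // κ i}) :=
  ⟨KC, fun _ _ _ _ _ _ _ _ _ _ _ _ _ h0 h0' h1 h1' q hq d => c3 h0 h0' h1 h1' q hq d⟩

/-- **The law of the coranks of the weighted Laplacians** -/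
theorem t_LAC (M : ℕ) (r : Fin M → ℕ) (ε : ℝ) (hε : 0 < ε) : ∃ R : ℕ,
    ∀ (U ι : Type) [Fintype U] [Fintype ι] [LinearOrder ι] (κ : ι → Prop)
    (e : Fin M → U → ZMod 3) (s : Fin M → ι → ZMod 3) (A : U → U → ZMod 3) (B : U → ι → ZMod 3),
    (∀ u v, A u v = A v u) → (∀ t i, s t i ≠ 0) → (∀ t j, κ j → s t j = 1) →
    (∀ w : U → ZMod 3, w ≠ 0 → ∃ j, κ j ∧ ∑ u, w u * B u j ≠ 0) →
    4 * Fintype.card U + R ≤ Fintype.card {i // κ i} →
    (∀ t t', t ≠ t' → ∃ q, ¬ κ q ∧ s t q ≠ s t' q) →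
    |((univ.filter fun α : prs ι → ZMod 3 => ∀ t,
        finrank (ZMod 3) (KS (cw (e t) (s t) A B (Pool.Agent.Y703.XK.ext α)) (Sk ι (e t))) =
          r t + 1).card : ℝ) / 3 ^ (prs ι).card - ∏ t, gi * cf (r t)| ≤ ε := by
  obtain ⟨R₁, hR₁⟩ := thmS M r (ε / 2) (by positivity)
  obtain ⟨K, c3K⟩ := c3K
  set C₀ : ℝ := M * 9 + M * (6 * 3 ^ R₁) + M * (M * (3 ^ (1 + R₁) * K)) with hC₀
  have hC₀0 : 0 ≤ C₀ := by positivity
  obtain ⟨R, hR⟩ : ∃ R : ℕ, C₀ * (5 / 9 : ℝ) ^ R ≤ ε / 2 := by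
    obtain ⟨R, hR⟩ := exists_pow_lt_of_lt_one (show (0 : ℝ) < ε / 2 / (C₀ + 1) by positivity)
      (show (5 / 9 : ℝ) < 1 by norm_num)
    refine ⟨R, ?_⟩
    rw [lt_div_iff₀ (by positivity)] at hR
    have h0 : (0 : ℝ) ≤ (5 / 9) ^ R := by positivity
    nlinarith
  refine ⟨R + R₁ + 1, ?_⟩
  intro U ι _ _ _ κ e s A B hA hs0 hs1 hB hJ hsep
  set N := Fintype.card {i // κ i} with hN
  set u := Fintype.card U with hu
  obtain ⟨j₀⟩ := Fintype.card_pos_iff.1 (show 0 < Fintype.card {i // κ i} by omega)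
  set d := N - 1 - R₁ with hd
  set Ω : ℝ := (Fintype.card (prs ι → ZMod 3) : ℝ) with hΩ
  have hΩ' : Ω = 3 ^ (prs ι).card := by
    rw [hΩ, Fintype.card_fun, ZMod.card, Fintype.card_coe]
    push_cast
    rfl
  have hΩ0 : 0 < Ω := by rw [hΩ']; positivity
  -- the exceptional matrices
  set b1 : Fin M → Finset (prs ι → ZMod 3) := fun t => univ.filter fun α =>
    ¬ Nd (BO κ (e t) (s t) A B j₀ α) (W0 (U ⊕ {i // ¬ κ i}) {i // κ i}) with hb1
  set b2 : Fin M → Finset (prs ι → ZMod 3) := fun t => univ.filter fun α =>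
    ¬ finrank (ZMod 3) ↥(W0 (U ⊕ {i // ¬ κ i}) {i // κ i} ⊓
      Nn (BO κ (e t) (s t) A B j₀ α) (W0 (U ⊕ {i // ¬ κ i}) {i // κ i})) ≤ d with hb2
  set b3 : Fin M → Fin M → Finset (prs ι → ZMod 3) := fun t t' => univ.filter fun α => t ≠ t' ∧
    ¬ finrank (ZMod 3) (JJ (BO κ (e t) (s t) A B j₀ α) (BO κ (e t') (s t') A B j₀ α)
      (W0 (U ⊕ {i // ¬ κ i}) {i // κ i})) ≤ d with hb3
  set bad : Finset (prs ι → ZMod 3) := univ.biUnion b1 ∪ univ.biUnion b2 ∪
    univ.biUnion (fun t => univ.biUnion (b3 t)) with hbad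
  have hp3 : (1 : ℝ) / 3 ^ R ≤ (5 / 9) ^ R := by
    rw [← one_div_pow]
    exact pow_le_pow_left₀ (by norm_num) (by norm_num) _
  have hu3 : (3 : ℝ) ^ u * 3 ^ (R + R₁ + 1) ≤ 3 ^ N := by
    rw [← pow_add]
    exact pow_le_pow_right₀ (by norm_num) (by omega)
  have k1 : ∀ t, ((b1 t).card : ℝ) ≤ Ω * (9 * (5 / 9) ^ R) := by
    intro t
    have h1 := c1 (κ := κ) (e := e t) (s := s t) (A := A) (B := B) (j₀ := j₀) hA (hs1 t) (hs0 t) hB
    have h2 : ((b1 t).card : ℝ) * 3 ^ N ≤ Ω * 3 ^ (u + 2) := by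
      rw [hΩ]
      exact_mod_cast h1
    have h3 : ((b1 t).card : ℝ) ≤ Ω * (9 * (1 / 3 ^ R)) := by
      have h4 : Ω * 3 ^ (u + 2) ≤ Ω * (9 * (1 / 3 ^ R)) * 3 ^ N := by
        rw [mul_assoc]
        apply mul_le_mul_of_nonneg_left _ hΩ0.le
        have h5 : (3 : ℝ) ^ u * 3 ^ R ≤ 3 ^ N := by
          refine le_trans ?_ hu3
          rw [pow_add, pow_add]
          have h6 : (1 : ℝ) ≤ 3 ^ R₁ * 3 ^ 1 := by
            have := one_le_pow₀ (show (1 : ℝ) ≤ 3 by norm_num) (n := R₁)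
            nlinarith
          have h7 : (0 : ℝ) ≤ 3 ^ u * 3 ^ R := by positivity
          nlinarith
        have h6 : 9 * (1 / (3 : ℝ) ^ R) * 3 ^ N = 9 * 3 ^ N / 3 ^ R := by ring
        rw [h6, le_div_iff₀ (by positivity), pow_add]
        nlinarith
      exact le_of_mul_le_mul_right (h2.trans h4) (by positivity)
    refine h3.trans ?_
    apply mul_le_mul_of_nonneg_left _ hΩ0.le
    linarith
  have k2 : ∀ t, ((b2 t).card : ℝ) ≤ Ω * (6 * 3 ^ R₁ * (5 / 9) ^ R) := by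
    intro t
    have h1 := c2 (κ := κ) (e := e t) (s := s t) (A := A) (B := B) (j₀ := j₀) (hs1 t) (hs0 t) d
    have h2 : ((b2 t).card : ℝ) * 3 ^ (d + 1) ≤ Ω * (2 * 3 ^ (u + 1)) := by
      rw [hΩ]
      exact_mod_cast h1
    have h3 : ((b2 t).card : ℝ) ≤ Ω * (6 * 3 ^ R₁ * (1 / 3 ^ R)) := by
      have h4 : Ω * (2 * 3 ^ (u + 1)) ≤ Ω * (6 * 3 ^ R₁ * (1 / 3 ^ R)) * 3 ^ (d + 1) := by
        rw [mul_assoc]
        apply mul_le_mul_of_nonneg_left _ hΩ0.le
        have h5 : (3 : ℝ) ^ u * 3 ^ R ≤ 3 ^ R₁ * 3 ^ (d + 1) := by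
          rw [← pow_add, ← pow_add]
          exact pow_le_pow_right₀ (by norm_num) (by omega)
        have h6 : 6 * 3 ^ R₁ * (1 / (3 : ℝ) ^ R) * 3 ^ (d + 1) =
          6 * (3 ^ R₁ * 3 ^ (d + 1)) / 3 ^ R := by ring
        rw [h6, le_div_iff₀ (by positivity), pow_add]
        nlinarith
      exact le_of_mul_le_mul_right (h2.trans h4) (by positivity)
    refine h3.trans ?_
    apply mul_le_mul_of_nonneg_left _ hΩ0.le
    apply mul_le_mul_of_nonneg_left hp3 (by positivity)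
  have k3 : ∀ t t', ((b3 t t').card : ℝ) ≤ Ω * (3 ^ (1 + R₁) * K * (5 / 9) ^ R) := by
    intro t t'
    by_cases htt : t = t'
    · have h1 : b3 t t' = ∅ := filter_false_of_mem fun α _ h => h.1 htt
      rw [h1, card_empty]
      push_cast
      positivity
    obtain ⟨q, hq, hqs⟩ := hsep t t' htt
    have h0 : b3 t t' ⊆ univ.filter fun α => ¬ finrank (ZMod 3)
        (JJ (BO κ (e t) (s t) A B j₀ α) (BO κ (e t') (s t') A B j₀ α)
          (W0 (U ⊕ {i // ¬ κ i}) {i // κ i})) ≤ d := fun α h =>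
      mem_filter.2 ⟨mem_univ _, (mem_filter.1 h).2.2⟩
    have h1 := c3K U ι κ (e t) (e t') (s t) (s t') A B j₀ (hs0 t) (hs0 t') (hs1 t) (hs1 t')
      ⟨q, hq⟩ hqs d
    have h2 : ((b3 t t').card : ℝ) * 3 ^ (d + 1) * 3 ^ N ≤ Ω * (3 * K * 9 ^ u * 5 ^ N) := by
      rw [hΩ]
      have h3 : (b3 t t').card * 3 ^ (d + 1) * 3 ^ N ≤
          Fintype.card (prs ι → ZMod 3) * (3 * K * 9 ^ u * 5 ^ N) :=
        (Nat.mul_le_mul_right _ (Nat.mul_le_mul_right _ (card_le_card h0))).trans h1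
      exact_mod_cast h3
    have h3 : Ω * (3 * K * 9 ^ u * 5 ^ N) ≤
        Ω * (3 ^ (1 + R₁) * K * (5 / 9) ^ R) * (3 ^ (d + 1) * 3 ^ N) := by
      rw [mul_assoc Ω (3 ^ (1 + R₁) * K * (5 / 9) ^ R)]
      apply mul_le_mul_of_nonneg_left _ hΩ0.le
      -- `9 ^ u (5/9) ^ N ≤ (5/9) ^ R`
      have h4 : (9 : ℝ) ^ u * (5 / 9) ^ N ≤ (5 / 9) ^ R := by
        have h5 : ((5 : ℝ) / 9) ^ N ≤ (5 / 9) ^ (4 * u + R) :=
          pow_le_pow_of_le_one (by norm_num) (by norm_num) (by omega)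
        have h6 : (9 : ℝ) ^ u * (5 / 9) ^ (4 * u + R) = (9 * (5 / 9) ^ 4) ^ u * (5 / 9) ^ R := by
          rw [pow_add, pow_mul, mul_pow]
          ring
        have h7 : ((9 : ℝ) * (5 / 9) ^ 4) ^ u ≤ 1 := pow_le_one₀ (by norm_num) (by norm_num)
        calc (9 : ℝ) ^ u * (5 / 9) ^ N ≤ 9 ^ u * (5 / 9) ^ (4 * u + R) :=
              mul_le_mul_of_nonneg_left h5 (by positivity)
          _ = (9 * (5 / 9) ^ 4) ^ u * (5 / 9) ^ R := h6
          _ ≤ 1 * (5 / 9) ^ R := mul_le_mul_of_nonneg_right h7 (by positivity)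
          _ = _ := one_mul _
      have h5 : (5 : ℝ) ^ N = (5 / 9) ^ N * 9 ^ N := by
        rw [← mul_pow]
        norm_num
      have h6 : (9 : ℝ) ^ N = 3 ^ R₁ * (3 ^ (d + 1) * 3 ^ N) := by
        have h7 : (3 : ℝ) ^ N = 3 ^ R₁ * 3 ^ (d + 1) := by
          rw [← pow_add]
          congr 1
          omega
        rw [show (9 : ℝ) = 3 * 3 by norm_num, mul_pow]
        nth_rewrite 1 [h7]
        ring
      calc 3 * (K : ℝ) * 9 ^ u * 5 ^ N = 3 * K * (9 ^ u * (5 / 9) ^ N) * 9 ^ N := by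
            rw [h5]; ring
        _ ≤ 3 * K * (5 / 9) ^ R * 9 ^ N := by gcongr
        _ = _ := by
          rw [h6, pow_add]
          ring
    have h4 := h2.trans h3
    rw [mul_assoc] at h4
    exact le_of_mul_le_mul_right h4 (by positivity)
  have hbadc : (bad.card : ℝ) ≤ ε / 2 * Ω := by
    have h1 : (bad.card : ℝ) ≤ (∑ t, ((b1 t).card : ℝ)) + (∑ t, ((b2 t).card : ℝ)) +
        ∑ t, ∑ t', ((b3 t t').card : ℝ) := by
      have h2 : bad.card ≤ (∑ t, (b1 t).card) + (∑ t, (b2 t).card) +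
          ∑ t, ∑ t', (b3 t t').card := by
        refine (card_union_le _ _).trans (add_le_add ((card_union_le _ _).trans
          (add_le_add card_biUnion_le card_biUnion_le)) ?_)
        exact card_biUnion_le.trans (sum_le_sum fun t _ => card_biUnion_le)
      exact_mod_cast h2
    have h2 : ∑ t : Fin M, ((b1 t).card : ℝ) ≤ M * (Ω * (9 * (5 / 9) ^ R)) := by
      refine (sum_le_sum fun t _ => k1 t).trans (le_of_eq ?_)
      rw [sum_const, card_univ, Fintype.card_fin, nsmul_eq_mul]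
    have h3 : ∑ t : Fin M, ((b2 t).card : ℝ) ≤ M * (Ω * (6 * 3 ^ R₁ * (5 / 9) ^ R)) := by
      refine (sum_le_sum fun t _ => k2 t).trans (le_of_eq ?_)
      rw [sum_const, card_univ, Fintype.card_fin, nsmul_eq_mul]
    have h4 : ∑ t : Fin M, ∑ t' : Fin M, ((b3 t t').card : ℝ) ≤
        M * (M * (Ω * (3 ^ (1 + R₁) * K * (5 / 9) ^ R))) := by
      refine (sum_le_sum fun t _ => sum_le_sum fun t' _ => k3 t t').trans (le_of_eq ?_)
      rw [sum_const, sum_const, card_univ, Fintype.card_fin, nsmul_eq_mul, nsmul_eq_mul]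
    have h5 : M * (Ω * (9 * (5 / 9) ^ R)) + M * (Ω * (6 * 3 ^ R₁ * (5 / 9) ^ R)) +
        M * (M * (Ω * (3 ^ (1 + R₁) * K * (5 / 9) ^ R))) = C₀ * (5 / 9) ^ R * Ω := by
      rw [hC₀]
      ring
    have h6 : C₀ * (5 / 9) ^ R * Ω ≤ ε / 2 * Ω := mul_le_mul_of_nonneg_right hR hΩ0.le
    linarith
  -- the event
  set γ : ℝ := ∏ t, gi * cf (r t) with hγ
  have hgi0 : 0 ≤ gi := gi_ge
  have hγ0 : 0 ≤ γ := Finset.prod_nonneg fun k _ => mul_nonneg hgi0 (cf_pos _).le
  have hγ1 : γ ≤ 1 := Finset.prod_le_one (fun k _ => mul_nonneg hgi0 (cf_pos _).le)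
    fun k _ => mul_le_one₀ gi_le (cf_pos _).le (cf_le_one _)
  obtain ⟨P, hP⟩ : ∃ P : (prs ι → ZMod 3) → Prop, ∀ α, P α ↔ ∀ t,
      finrank (ZMod 3) (KS (cw (e t) (s t) A B (Pool.Agent.Y703.XK.ext α)) (Sk ι (e t))) =
        r t + 1 := ⟨_, fun _ => Iff.rfl⟩
  have hfP : (univ.filter fun α : prs ι → ZMod 3 => ∀ t,
      finrank (ZMod 3) (KS (cw (e t) (s t) A B (Pool.Agent.Y703.XK.ext α)) (Sk ι (e t))) =
        r t + 1) = univ.filter P := filter_congr fun α _ => (hP α).symm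
  rw [hfP]
  set n3 : ℝ := 3 ^ (prs {i // κ i}).card with hn3
  have hn30 : 0 < n3 := by positivity
  have hgood : ∀ α, α ∉ bad → |((univ.filter fun a : prs {i // κ i} → ZMod 3 =>
      P (rep κ α a)).card : ℝ) - γ * n3| ≤ ε / 2 * n3 := by
    intro α hα
    have hV : finrank (ZMod 3) ((U ⊕ {i // ¬ κ i}) ⊕ {i // κ i} → ZMod 3) =
        Fintype.card (U ⊕ {i // ¬ κ i}) + N := by
      rw [finrank_fintype_fun_eq_card, Fintype.card_sum]
    have hW := finrank_W0 (U := U ⊕ {i // ¬ κ i}) j₀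
    have hWle : finrank (ZMod 3) (W0 (U ⊕ {i // ¬ κ i}) {i // κ i}) ≤
      finrank (ZMod 3) ((U ⊕ {i // ¬ κ i}) ⊕ {i // κ i} → ZMod 3) := Submodule.finrank_le _
    have key := hR₁ ((U ⊕ {i // ¬ κ i}) ⊕ {i // κ i} → ZMod 3)
      (W0 (U ⊕ {i // ¬ κ i}) {i // κ i}) (fun t => BO κ (e t) (s t) A B j₀ α) d
      (finrank (ZMod 3) ((U ⊕ {i // ¬ κ i}) ⊕ {i // κ i} → ZMod 3) -
        finrank (ZMod 3) (W0 (U ⊕ {i // ¬ κ i}) {i // κ i}))
      (fun t => Lp_symm (cc_symm (AA_symm hA B α) fun _ _ => rfl) _)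
      (fun t => by
        by_contra hno
        refine hα ?_
        rw [hbad, mem_union, mem_union]
        exact Or.inl (Or.inl (mem_biUnion.2 ⟨t, mem_univ _, mem_filter.2 ⟨mem_univ _, hno⟩⟩)))
      (fun t t' htt => by
        by_contra hno
        refine hα ?_
        rw [hbad, mem_union]
        exact Or.inr (mem_biUnion.2 ⟨t, mem_univ _, mem_biUnion.2 ⟨t', mem_univ _,
          mem_filter.2 ⟨mem_univ _, htt, hno⟩⟩⟩))
      (fun t => by
        by_contra hno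
        refine hα ?_
        rw [hbad, mem_union, mem_union]
        exact Or.inl (Or.inr (mem_biUnion.2 ⟨t, mem_univ _, mem_filter.2 ⟨mem_univ _, hno⟩⟩)))
      (by omega) (by rw [hV]; omega)
    rw [card_YYW] at key
    push_cast at key
    have h1 : ((YY (W0 (U ⊕ {i // ¬ κ i}) {i // κ i})).filter fun Y => ∀ t,
        finrank (ZMod 3) (LinearMap.ker (BO κ (e t) (s t) A B j₀ α + Y)) = r t).card =
        (univ.filter fun a : prs {i // κ i} → ZMod 3 => P (rep κ α a)).card := by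
      have hf := card_fill (U := U ⊕ {i // ¬ κ i}) (J := {i // κ i})
        (fun Y => ∀ t, finrank (ZMod 3) (LinearMap.ker (BO κ (e t) (s t) A B j₀ α + Y)) = r t)
      refine Eq.trans (fcc2 _ _) (hf.symm.trans ?_)
      congr 1
      ext a
      simp only [mem_filter, mem_univ, true_and]
      rw [hP]
      refine forall_congr' fun t => ?_
      rw [finrank_rep hA (hs0 t) (hs1 t) j₀ α a]
      omega
    rw [h1] at key
    exact key
  have hany : ∀ α, |((univ.filter fun a : prs {i // κ i} → ZMod 3 =>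
      P (rep κ α a)).card : ℝ) - γ * n3| ≤ n3 := by
    intro α
    have h1 : ((univ.filter fun a : prs {i // κ i} → ZMod 3 => P (rep κ α a)).card : ℝ) ≤ n3 := by
      have h2 : (univ.filter fun a : prs {i // κ i} → ZMod 3 => P (rep κ α a)).card ≤
          3 ^ (prs {i // κ i}).card := by
        refine (card_filter_le _ _).trans (le_of_eq ?_)
        rw [card_univ, Fintype.card_fun, ZMod.card, Fintype.card_coe]
      rw [hn3]
      exact_mod_cast h2
    have h2 : (0 : ℝ) ≤ ((univ.filter fun a : prs {i // κ i} → ZMod 3 =>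
      P (rep κ α a)).card : ℝ) := Nat.cast_nonneg _
    have h3 : γ * n3 ≤ n3 := mul_le_of_le_one_left hn30.le hγ1
    have h4 : 0 ≤ γ * n3 := by positivity
    rw [abs_le]
    constructor <;> linarith
  have hsum := card_rep (κ := κ) P
  have hsum' : ((univ.filter P).card : ℝ) * n3 =
      ∑ α : prs ι → ZMod 3, ((univ.filter fun a : prs {i // κ i} → ZMod 3 =>
        P (rep κ α a)).card : ℝ) := by
    rw [hn3]
    exact_mod_cast hsum
  have hdiff : |((univ.filter P).card : ℝ) * n3 - γ * Ω * n3| ≤ ε * Ω * n3 := by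
    have h1 : γ * Ω * n3 = ∑ α : prs ι → ZMod 3, γ * n3 := by
      rw [sum_const, card_univ, nsmul_eq_mul, hΩ]
      ring
    rw [hsum', h1, ← sum_sub_distrib]
    refine (abs_sum_le_sum_abs _ _).trans ?_
    rw [← sum_filter_add_sum_filter_not univ (fun α => α ∈ bad)]
    have h2 : ∑ α ∈ univ.filter (fun α => α ∈ bad), |((univ.filter fun a :
        prs {i // κ i} → ZMod 3 => P (rep κ α a)).card : ℝ) - γ * n3| ≤ bad.card * n3 := by
      refine (sum_le_sum fun α _ => hany α).trans (le_of_eq ?_)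
      rw [sum_const, nsmul_eq_mul, filter_mem_eq_inter, univ_inter]
    have h3 : ∑ α ∈ univ.filter (fun α => ¬ α ∈ bad), |((univ.filter fun a :
        prs {i // κ i} → ZMod 3 => P (rep κ α a)).card : ℝ) - γ * n3| ≤ Ω * (ε / 2 * n3) := by
      refine (sum_le_sum fun α hα => hgood α (mem_filter.1 hα).2).trans ?_
      rw [sum_const, nsmul_eq_mul]
      apply mul_le_mul_of_nonneg_right _ (by positivity)
      rw [hΩ]
      exact_mod_cast card_le_univ _
    have h4 : (bad.card : ℝ) * n3 ≤ ε / 2 * Ω * n3 := mul_le_mul_of_nonneg_right hbadc hn30.le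
    calc _ ≤ bad.card * n3 + Ω * (ε / 2 * n3) := add_le_add h2 h3
      _ ≤ ε / 2 * Ω * n3 + Ω * (ε / 2 * n3) := by linarith
      _ = _ := by ring
  rw [← hΩ', div_sub' hΩ0.ne', abs_div, abs_of_pos hΩ0, div_le_iff₀ hΩ0, mul_comm Ω γ]
  have h1 : ((univ.filter P).card : ℝ) * n3 - γ * Ω * n3 =
      (((univ.filter P).card : ℝ) - γ * Ω) * n3 := by ring
  rw [h1, abs_mul, abs_of_pos hn30] at hdiff
  exact le_of_mul_le_mul_right hdiff hn30

end Run7.h707.TC
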