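import Pool.Agent.Run7.h707.TC.Crit4
import Pool.Agent.N883.FG.Lf2

/-! The `L`-functions of the diagonal cubic curves, threefolds and fivefolds -/

set_option autoImplicit false
set_option linter.unusedSectionVars false
set_option linter.unusedVariables false
set_option linter.style.haveILetI false

open scoped Classical

namespace Run7.h707.TC

open Finset NumberField IsDedekindDomain WeierstrassCurve
open Pool.Agent.N883.FG
open Pool.Agent.W189.NF (aV eV)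
open Pool.Agent.H921R2.TatePole (nm two_le_nm)
open Pool.Agent.Y696.CTK (ED)
open Pool.Agent.N883.DQ (Dt)

section
variable {K : Type} [Field K] [NumberField K]

/-- `E_δ` has good reduction at `v` -/
def GoodAt (δ : 𝓞 K) (v : HeightOneSpectrum (𝓞 K)) : Prop :=
  ∃ r z z' : 𝓞 K, z ≠ 0 ∧ r ∉ v.asIdeal ∧ δ * z ^ 3 = r * z' ^ 3

/-- the eigenvalues of the Frobenius at `v` on the invariants of inertia in `H^1(E_δ)(-c)` -/
def IsLoc (δ : 𝓞 K) (v : HeightOneSpectrum (𝓞 K)) (c : ℕ) (B : Multiset ℂ) : Prop :=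
  (∃ r z z' : 𝓞 K, z ≠ 0 ∧ r ∉ v.asIdeal ∧ δ * z ^ 3 = r * z' ^ 3 ∧ ∃ β : ℂ,
    β * (starRingEnd ℂ) β = Ideal.absNorm v.asIdeal ∧
    (Nat.card {P : (𝓞 K ⧸ v.asIdeal) × (𝓞 K ⧸ v.asIdeal) //
      P.2 ^ 2 + Ideal.Quotient.mk v.asIdeal r * P.2 = P.1 ^ 3} : ℂ) =
        Ideal.absNorm v.asIdeal - (β + (starRingEnd ℂ) β) ∧
    B = {(Ideal.absNorm v.asIdeal : ℂ) ^ c * β,
      (Ideal.absNorm v.asIdeal : ℂ) ^ c * (starRingEnd ℂ) β}) ∨
  (¬ GoodAt δ v ∧ B = 0)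

/-- The `L`-function of `H^n` of `∑ a i x i ^ 3 = 0`, `n = 2 c + 1`. -/
def IsLFT {c : ℕ} (a : Fin (2 * c + 3) → 𝓞 K) (L : ℂ → ℂ) : Prop :=
  Differentiable ℂ L ∧ ∃ A : HeightOneSpectrum (𝓞 K) → Multiset ℂ,
    (∀ v, (3 : 𝓞 K) ∉ v.asIdeal → (∀ i, a i ∉ v.asIdeal) → IsFrob a v (A v) ∧
      (A v).card = 2 * (2 * c + 3).choose c ∧
      ∀ α ∈ A v, ‖α‖ ^ 2 = (Ideal.absNorm v.asIdeal : ℝ) ^ (2 * c + 1)) ∧
    (∀ v, (3 : 𝓞 K) ∉ v.asIdeal → ∃ B : Finset (Fin (2 * c + 3)) → Multiset ℂ,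
      (∀ T : Finset (Fin (2 * c + 3)), T.card = c → IsLoc (Dt a T) v c (B T)) ∧
      A v = ∑ T ∈ (univ : Finset (Fin (2 * c + 3))).powersetCard c, B T) ∧
    (∀ v, (3 : 𝓞 K) ∈ v.asIdeal → A v = 0) ∧
    ∀ s : ℂ, (2 * c + 1 : ℝ) / 2 + 1 < s.re →
      HasProd (fun v : HeightOneSpectrum (𝓞 K) => ((A v).map
        (fun α => (1 - α * (Ideal.absNorm v.asIdeal : ℂ) ^ (-s))⁻¹)).prod) (L s)

/-- the data: the curves and their functions -/
structure DatT {c : ℕ} (a : Fin (2 * c + 3) → 𝓞 K) (R Z : Finset (Fin (2 * c + 3)) → 𝓞 K)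
    (L : Finset (Fin (2 * c + 3)) → ℂ → ℂ) : Prop where
  rel : ∀ T ∈ SS c, Dt a T = R T * Z T ^ 3
  bad : ∀ T ∈ SS c, ∀ v : HeightOneSpectrum (𝓞 K), 3 * R T ∈ v.asIdeal →
    aV (ED (R T : K)) v = 0 ∧ eV (ED (R T : K)) v = 0
  nog : ∀ T ∈ SS c, ∀ v : HeightOneSpectrum (𝓞 K), R T ∈ v.asIdeal → ¬ GoodAt (Dt a T) v
  diff : ∀ T ∈ SS c, Differentiable ℂ (L T)
  ser : ∀ T ∈ SS c, ∀ s : ℂ, 3 / 2 < s.re → L T s = (ED (R T : K)).LSeries s

theorem mem_SS {c : ℕ} {T : Finset (Fin (2 * c + 3))} : T ∈ SS c ↔ T.card = c := by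
  unfold SS
  rw [mem_powersetCard]
  exact ⟨fun h => h.2, fun h => ⟨subset_univ _, h⟩⟩

/-- **The general statement.** -/
theorem gen_LT {c : ℕ} {a : Fin (2 * c + 3) → 𝓞 K} {R Z : Finset (Fin (2 * c + 3)) → 𝓞 K}
    {L : Finset (Fin (2 * c + 3)) → ℂ → ℂ} (h : DatT a R Z L) (hc : c ≤ 2) :
    IsLFT a (fun s => ∏ T ∈ SS c, L T (s - c)) := by
  have hch : ∀ v : HeightOneSpectrum (𝓞 K), ∃ β : 𝓞 K → ℂ, (3 : 𝓞 K) ∉ v.asIdeal →
      (∀ δ z : 𝓞 K, z ∉ v.asIdeal → β (δ * z ^ 3) = β δ) ∧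
      (∀ δ : 𝓞 K, δ ∉ v.asIdeal → β δ * (starRingEnd ℂ) (β δ) = nm v ∧
        ((aV (ED (δ : K)) v : ℤ) : ℂ) = β δ + (starRingEnd ℂ) (β δ) ∧
        ((eV (ED (δ : K)) v : ℤ) : ℂ) = nm v ∧
        (Nat.card {P : (𝓞 K ⧸ v.asIdeal) × (𝓞 K ⧸ v.asIdeal) //
          P.2 ^ 2 + Ideal.Quotient.mk v.asIdeal δ * P.2 = P.1 ^ 3} : ℂ) =
            nm v - (β δ + (starRingEnd ℂ) (β δ))) ∧
      ∀ c : ℕ, c ≤ 2 → ∀ a : Fin (2 * c + 3) → 𝓞 K, (∀ i, a i ∉ v.asIdeal) →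
        IsFrob a v (∑ T ∈ SS c, two c (nm v) (β (Dt a T))) := by
    intro v
    by_cases h3 : (3 : 𝓞 K) ∈ v.asIdeal
    · exact ⟨0, fun h => absurd h3 h⟩
    · obtain ⟨β, hβ⟩ := exists_bg v h3
      exact ⟨β, fun _ => hβ⟩
  choose β hβ using hch
  -- the multisets
  let AT : HeightOneSpectrum (𝓞 K) → Finset (Fin (2 * c + 3)) → Multiset ℂ := fun v T =>
    if (3 : 𝓞 K) ∈ v.asIdeal then 0 else
      if R T ∈ v.asIdeal then 0 else two c (nm v) (β v (R T))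
  -- the factors
  have hfac : ∀ (v : HeightOneSpectrum (𝓞 K)) (T : Finset (Fin (2 * c + 3))) (s : ℂ), T ∈ SS c →
      ((AT v T).map (fun α => (1 - α * (nm v : ℂ) ^ (-s))⁻¹)).prod =
      fac (R T) v ((nm v : ℂ) ^ c * (nm v : ℂ) ^ (-s)) := by
    intro v T s hT
    by_cases h3 : (3 : 𝓞 K) ∈ v.asIdeal
    · obtain ⟨x1, x2⟩ := h.bad T hT v (Ideal.mul_mem_right _ _ h3)
      simp only [AT, if_pos h3, fac, x1, x2]
      simp
    · obtain ⟨c1, c2, -⟩ := hβ v h3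
      by_cases hR : R T ∈ v.asIdeal
      · obtain ⟨x1, x2⟩ := h.bad T hT v (Ideal.mul_mem_left _ _ hR)
        simp only [AT, if_neg h3, if_pos hR, fac, x1, x2]
        simp
      · simp only [AT, if_neg h3, if_neg hR]
        obtain ⟨b1, b2, b3, -⟩ := c2 (R T) hR
        rw [two_prod]
        unfold fac
        rw [b2, b3, ← mul_inv]
        congr 1
        linear_combination ((nm v : ℂ) ^ c * (nm v : ℂ) ^ (-s)) ^ 2 * b1
  have hsub : Differentiable ℂ (fun s : ℂ => s - (c : ℂ)) := differentiable_id.sub_const _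
  have hnorm : ∀ (v : HeightOneSpectrum (𝓞 K)) (x : ℂ), x * (starRingEnd ℂ) x = nm v →
      ∀ α ∈ two c (nm v) x, ‖α‖ ^ 2 = (nm v : ℝ) ^ (2 * c + 1) := by
    intro v x hx α hα
    have key : ∀ x : ℂ, x * (starRingEnd ℂ) x = nm v →
        ‖(nm v : ℂ) ^ c * x‖ ^ 2 = (nm v : ℝ) ^ (2 * c + 1) := by
      intro x hx
      have h1 : ‖x‖ ^ 2 = (nm v : ℝ) := by
        rw [Complex.sq_norm]
        rw [Complex.mul_conj] at hx
        exact_mod_cast hx
      rw [norm_mul, mul_pow, h1, norm_pow, Complex.norm_natCast]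
      ring
    have : α = (nm v : ℂ) ^ c * x ∨ α = (nm v : ℂ) ^ c * (starRingEnd ℂ) x := by
      simpa [two] using hα
    rcases this with rfl | rfl
    · exact key _ hx
    · refine key _ ?_
      rw [Complex.conj_conj, mul_comm]
      exact hx
  refine ⟨Differentiable.fun_finsetProd fun T hT => (h.diff T hT).comp hsub,
    fun v => ∑ T ∈ SS c, AT v T, fun v h3 ha => ?_, fun v h3 => ⟨AT v, fun T hT => ?_, rfl⟩,
    fun v h3 => ?_, fun s hs => ?_⟩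
  · obtain ⟨c1, c2, c3⟩ := hβ v h3
    have hDt : ∀ T, Dt a T ∉ v.asIdeal := by
      intro T h'
      unfold Pool.Agent.N883.DQ.Dt at h'
      rcases v.isPrime.mem_or_mem h' with h1 | h1
      · obtain ⟨i, -, hi⟩ := (Ideal.IsPrime.prod_mem_iff (hp := v.isPrime)).1 h1
        exact ha i hi
      · obtain ⟨i, -, hi⟩ := (Ideal.IsPrime.prod_mem_iff (hp := v.isPrime)).1 h1
        exact ha i hi
    have hRZ : ∀ T ∈ SS c, R T ∉ v.asIdeal ∧ Z T ∉ v.asIdeal := by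
      intro T hT
      constructor
      · intro h'
        apply hDt T
        rw [h.rel T hT]
        exact Ideal.mul_mem_right _ _ h'
      · intro h'
        apply hDt T
        rw [h.rel T hT]
        exact Ideal.mul_mem_left _ _ (Ideal.pow_mem_of_mem _ h' 3 (by norm_num))
    have hA : ∑ T ∈ SS c, AT v T = ∑ T ∈ SS c, two c (nm v) (β v (Dt a T)) := by
      refine Finset.sum_congr rfl fun T hT => ?_
      simp only [AT, if_neg h3, if_neg (hRZ T hT).1]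
      rw [h.rel T hT, c1 _ _ (hRZ T hT).2]
    refine ⟨?_, ?_, fun α hα => ?_⟩
    · show IsFrob _ v (∑ T ∈ SS c, AT v T)
      rw [hA]
      exact c3 c hc a ha
    · show (∑ T ∈ SS c, AT v T).card = _
      rw [hA, card_sum_ms]
      have h2 : ∀ T ∈ SS c, (two c (nm v) (β v (Dt a T))).card = 2 :=
        fun T _ => by simp [two]
      rw [Finset.sum_congr rfl h2, Finset.sum_const, smul_eq_mul]
      unfold SS
      rw [Finset.card_powersetCard, Finset.card_univ, Fintype.card_fin, mul_comm]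
    · have hα' : α ∈ ∑ T ∈ SS c, AT v T := hα
      rw [hA] at hα'
      obtain ⟨T, -, hT⟩ := mem_sum_ms _ _ hα'
      exact hnorm v _ (c2 _ (hDt T)).1 α hT
  · have hTS : T ∈ SS c := mem_SS.2 hT
    obtain ⟨c1, c2, c3⟩ := hβ v h3
    by_cases hR : R T ∈ v.asIdeal
    · right
      refine ⟨h.nog T hTS v hR, ?_⟩
      simp only [AT, if_neg h3, if_pos hR]
    · left
      obtain ⟨b1, -, -, b4⟩ := c2 (R T) hR
      refine ⟨R T, 1, Z T, one_ne_zero, hR, ?_, β v (R T), b1, b4, ?_⟩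
      · rw [one_pow, mul_one, h.rel T hTS]
      · simp only [AT, if_neg h3, if_neg hR]
        rfl
  · show ∑ T ∈ SS c, AT v T = 0
    refine Finset.sum_eq_zero fun T _ => ?_
    simp only [AT, if_pos h3]
  · have hre : 3 / 2 < (s - (c : ℂ)).re := by
      rw [Complex.sub_re, Complex.natCast_re]
      linarith
    have h1 : HasProd (fun v : HeightOneSpectrum (𝓞 K) => ∏ T ∈ SS c,
        fac (R T) v ((nm v : ℂ) ^ c * (nm v : ℂ) ^ (-s)))
        (∏ T ∈ SS c, L T (s - c)) := by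
      refine hasProd_prod fun T hT => ?_
      rw [h.ser T hT _ hre]
      exact euler_one (h.bad T hT) c hre
    refine h1.congr_fun fun v => ?_
    show ((∑ T ∈ SS c, AT v T).map _).prod = _
    rw [map_sum_prod]
    exact Finset.prod_congr rfl fun T hT => hfac v T s hT

end

end Run7.h707.TC
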