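import Pool.Agent.Run7.h707.TC.LfT

/-! The `L`-functions of the diagonal cubic curves, threefolds and fivefolds: the central values -/

set_option autoImplicit false
set_option linter.unusedSectionVars false
set_option linter.unusedVariables false
set_option linter.style.haveILetI false

open scoped Classical

namespace Run7.h707.TC

open Finset NumberField IsDedekindDomain WeierstrassCurve
open Pool.Agent.N883.FG
open Pool.Agent.N883.FF
open Pool.Agent.W189.NF (aV eV)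
open Pool.Agent.Y692.QS (Ei w nr)
open Pool.Agent.Y715.T.RecG (Pq)
open Pool.Agent.Y703.CT (pD Ker IsHL)
open Pool.Agent.H921R2.TatePole (nm two_le_nm)
open Pool.Agent.Y696.CTK (ED Tri)

theorem pow_eq_pow {R : Type} [CommRing R] [IsDomain R] {ρ u u' : R} (hρ : Prime ρ) {m n : ℕ}
    (h : ρ ^ m * u = ρ ^ n * u') (hu : ¬ ρ ∣ u) (hu' : ¬ ρ ∣ u') : m = n := by
  have key : ∀ {m n : ℕ} {u u' : R}, ρ ^ m * u = ρ ^ n * u' → ¬ ρ ∣ u → ¬ m < n := by
    intro m n u u' h hu hmn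
    apply hu
    obtain ⟨k, rfl⟩ := Nat.exists_eq_add_of_lt hmn
    have h1 : ρ ^ m * u = ρ ^ m * (ρ ^ (k + 1) * u') := by
      rw [h, ← mul_assoc, ← pow_add]
      congr 2
    have h2 := mul_left_cancel₀ (pow_ne_zero m hρ.ne_zero) h1
    rw [h2, pow_succ]
    exact ⟨ρ ^ k * u', by ring⟩
  rcases lt_trichotomy m n with h1 | h1 | h1
  · exact absurd h1 (key h hu)
  · exact h1
  · exact absurd h1 (key h.symm hu')

section
variable {K : Type} [Field K] [NumberField K]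

/-- an element with a valuation not divisible by three -/
theorem not_good_aux {ρ A x y r : 𝓞 K} (hρ : Prime ρ) (hA : ρ ∣ A) (hA3 : ¬ ρ ^ 3 ∣ A)
    (hr : ¬ ρ ∣ r) (hx : x ≠ 0) (h : A * x ^ 3 = r * y ^ 3) : False := by
  have hA0 : A ≠ 0 := fun h' => hA3 (by rw [h']; exact dvd_zero _)
  have hr0 : r ≠ 0 := fun h' => hr (by rw [h']; exact dvd_zero _)
  have hy : y ≠ 0 := by
    rintro rfl
    rw [zero_pow three_ne_zero, mul_zero] at h
    exact mul_ne_zero hA0 (pow_ne_zero 3 hx) h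
  obtain ⟨e, A₀, h1, h2⟩ := WfDvdMonoid.max_power_factor hA0 hρ.irreducible
  obtain ⟨a, x₀, h3, h4⟩ := WfDvdMonoid.max_power_factor hx hρ.irreducible
  obtain ⟨b, y₀, h5, h6⟩ := WfDvdMonoid.max_power_factor hy hρ.irreducible
  have he0 : e ≠ 0 := by
    rintro rfl
    rw [pow_zero, one_mul] at h2
    exact h1 (h2 ▸ hA)
  have he3 : e < 3 := by
    by_contra hc
    apply hA3
    rw [h2]
    exact (pow_dvd_pow ρ (not_lt.1 hc)).mul_right _
  have h7 : ρ ^ (e + 3 * a) * (A₀ * x₀ ^ 3) = ρ ^ (3 * b) * (r * y₀ ^ 3) := by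
    calc ρ ^ (e + 3 * a) * (A₀ * x₀ ^ 3) = (ρ ^ e * A₀) * (ρ ^ a * x₀) ^ 3 := by ring
      _ = r * (ρ ^ b * y₀) ^ 3 := by rw [← h2, ← h4, h, h6]
      _ = _ := by ring
  have h8 := pow_eq_pow hρ h7
    (fun h' => (hρ.dvd_or_dvd h').elim h1 fun h' => h3 (hρ.dvd_of_dvd_pow h'))
    (fun h' => (hρ.dvd_or_dvd h').elim hr fun h' => h5 (hρ.dvd_of_dvd_pow h'))
  omega

variable (j : Ei ≃+* 𝓞 K)
variable {J : Type} [Fintype J] {π : J → Ei} {e : J → ZMod 3} {y : ZMod 3}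

/-- the places with bad reduction -/
theorem not_good (hD : Pool.Agent.Y703.CT.Dt π e) {c δ : 𝓞 K} (hc : c ≠ 0)
    (hδ : δ = j (pB π e y) * c ^ 3) (v : HeightOneSpectrum (𝓞 K))
    (hv : j (pB π e y) ∈ v.asIdeal) : ¬ GoodAt δ v := by
  rintro ⟨r, z, z', hz, hr, h⟩
  have h1 : j (w ^ y.val) * j (pD π e) ∈ v.asIdeal := by
    rw [← map_mul]
    exact hv
  have h2 : j (pD π e) ∈ v.asIdeal := by
    refine (v.isPrime.mem_or_mem h1).resolve_left fun h' => ?_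
    exact v.isPrime.ne_top (Ideal.eq_top_of_isUnit_mem _ h' ((isUnit_w.pow _).map j))
  have h3 : ∃ k, j (π k) ∈ v.asIdeal := by
    unfold pD at h2
    rw [map_prod] at h2
    obtain ⟨k, -, hk⟩ := (Ideal.IsPrime.prod_mem_iff (hp := v.isPrime)).1 h2
    rw [map_pow] at hk
    exact ⟨k, v.isPrime.mem_of_pow_mem _ hk⟩
  obtain ⟨k, hk⟩ := h3
  have hρ : Prime (j (π k)) := (MulEquiv.prime_iff j).2 (hD.pq k).prime
  have hspan : Ideal.span {j (π k)} = v.asIdeal := by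
    have hm : (Ideal.span {j (π k)}).IsMaximal :=
      ((Ideal.span_singleton_prime hρ.ne_zero).2 hρ).isMaximal (by
        rw [Ne, Ideal.span_singleton_eq_bot]
        exact hρ.ne_zero)
    exact hm.eq_of_le v.isPrime.ne_top ((Ideal.span_singleton_le_iff_mem _).2 hk)
  have hmem : ∀ x : 𝓞 K, x ∈ v.asIdeal ↔ j (π k) ∣ x := fun x => by
    rw [← hspan, Ideal.mem_span_singleton]
  refine not_good_aux (A := j (pB π e y)) (x := c * z) (y := z') hρ ((hmem _).1 hv) ?_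
    (fun h' => hr ((hmem _).2 h')) (mul_ne_zero hc hz) ?_
  · intro h'
    rw [← map_pow, map_dvd_iff j] at h'
    exact (hD.pq k).prime.not_isUnit ((cf_pB hD).2 _ h')
  · rw [← h, hδ]
    ring

/-- **the `L`-function of one curve** -/
theorem one_T [Nonempty J] (hD : Pool.Agent.Y703.CT.Dt π e)
    (hx : y = 0 → ¬ (9 : ℤ) ∣ nr (pD π e) - 1) :
    ∃ Lf : ℂ → ℂ, Differentiable ℂ Lf ∧
      (∀ s : ℂ, 3 / 2 < s.re → Lf s = (ED (j (pB π e y) : K)).LSeries s) ∧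
      ∀ c : Ei, c ≠ 0 → Tri (j (pB π e y * c ^ 3)) → Lf 1 ≠ 0 := by
  have key : ∃ F1 F2 : ℂ → ℂ, IsHLB π e y F1 ∧ IsHLB π (fun k => -e k) (-y) F2 ∧
      ∀ c : Ei, c ≠ 0 → Tri (j (pB π e y * c ^ 3)) → F2 1 ≠ 0 := by
    by_cases hy : y = 0
    · subst hy
      obtain ⟨F1, F2, k1, k2, hF⟩ := Pool.Agent.R419.CE.two_F' hD (hx rfl)
      refine ⟨F1, F2, isHLB_zero k1, ?_, fun c hc ht => ?_⟩
      · rw [neg_zero]
        exact isHLB_zero k2
      · have e1 : pB π e 0 = pD π e := by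
          unfold pB
          rw [ZMod.val_zero, pow_zero, one_mul]
        rw [e1] at ht
        exact (hF ((tri_A3 j hD (hx rfl) hc).1 ht)).2
    · obtain ⟨F1, F2, k1, k2, hF⟩ := two_FB partsB hD hy
      exact ⟨F1, F2, k1, k2, fun c hc ht => (hF ((tri_B3 j hD hy hc).1 ht)).2⟩
  obtain ⟨F1, F2, k1, k2, hF⟩ := key
  have hlk := lk Pool.Agent.Y350.CT.rec
  refine ⟨fun s => F2 s * (starRingEnd ℂ) (F2 ((starRingEnd ℂ) s)),
    Pool.Agent.Y696.CTK.diff_conj k2.1, fun s hs => (hlk K j J π e y hD F2 k2 s hs).2,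
    fun c hc ht => ?_⟩
  show F2 1 * (starRingEnd ℂ) (F2 ((starRingEnd ℂ) 1)) ≠ 0
  rw [map_one]
  exact mul_ne_zero (hF c hc ht) ((map_ne_zero _).2 (hF c hc ht))

/-- the exponents of `δ_T` -/
def nT {c : ℕ} (T : Finset (Fin (2 * c + 3))) (k : Fin (2 * c + 3)) : ℕ := if k ∈ T then 2 else 1

theorem Dt_dlt {c : ℕ} (a : Fin (2 * c + 3) → Ei) (T : Finset (Fin (2 * c + 3))) :
    Pool.Agent.N883.DQ.Dt (fun k => j (a k)) T = j (dlt (nT T) a) := by
  unfold Pool.Agent.N883.DQ.Dt dlt nT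
  rw [map_prod]
  have h1 : ∏ i ∈ T, j (a i) = ∏ i, if i ∈ T then j (a i) else 1 := by
    rw [Finset.prod_ite_mem, Finset.univ_inter]
  rw [h1, ← Finset.prod_mul_distrib]
  refine Finset.prod_congr rfl fun k _ => ?_
  rw [map_pow]
  split_ifs
  · rw [pow_two]
  · rw [pow_one, mul_one]

/-- **the `L`-function of the hypersurface** -/
theorem main_LT {c : ℕ} (hc : c ≤ 2) {a : Fin (2 * c + 3) → Ei} (ha : ∀ k, FamU (a k))
    (hne : ∀ T ∈ SS c, NEc (dlt (nT T) a)) :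
    ∃ L : ℂ → ℂ, IsLFT (fun k => j (a k)) L ∧
      ((∀ T ∈ SS c, Tri (j (dlt (nT T) a))) → L (c + 1) ≠ 0) := by
  choose i M S hS hM haa using fun k => famU_ex (ha k)
  have hae : a = fun k => elw (i k) (M k) (S k) := funext haa
  have key : ∀ T : Finset (Fin (2 * c + 3)), ∃ (R Z : 𝓞 K) (Lf : ℂ → ℂ), T ∈ SS c →
      j (dlt (nT T) a) = R * Z ^ 3 ∧
      (∀ v : HeightOneSpectrum (𝓞 K), 3 * R ∈ v.asIdeal →
        aV (ED (R : K)) v = 0 ∧ eV (ED (R : K)) v = 0) ∧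
      (∀ v : HeightOneSpectrum (𝓞 K), R ∈ v.asIdeal → ¬ GoodAt (j (dlt (nT T) a)) v) ∧
      Differentiable ℂ Lf ∧ (∀ s : ℂ, 3 / 2 < s.re → Lf s = (ED (R : K)).LSeries s) ∧
      (Tri (j (dlt (nT T) a)) → Lf 1 ≠ 0) := by
    intro T
    by_cases hT : T ∈ SS c
    · have hn := hne T hT
      rw [hae] at hn
      obtain ⟨z, hz, hzp, hd⟩ := dlt_eq (nT T) i hM hS
      have h0 := (nec_iff hM hS).1 hn
      have hTt := tt_pq hS
      have hD := dt_U hTt (eT (nT T) M S)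
      have hnE : Nonempty ↥(Uu (Tt S) (eT (nT T) M S)) := h0.1.to_subtype
      have hx : ∑ k, (nT T k : ZMod 3) * i k = 0 →
          ¬ (9 : ℤ) ∣ nr (pD (fun π : ↥(Uu (Tt S) (eT (nT T) M S)) => (π : Ei))
            (fun π => eT (nT T) M S π)) - 1 := by
        intro hy h9
        have h2 := (nx_iff hD (∑ k, (nT T k : ZMod 3) * i k) hzp).2 ⟨hy, h9⟩
        have h3 := hn.2
        rw [hd] at h3
        exact h3 h2
      obtain ⟨Lf, l1, l2, l3⟩ := one_T (K := K) j hD hx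
      have hd' : dlt (nT T) a = pB (fun π : ↥(Uu (Tt S) (eT (nT T) M S)) => (π : Ei))
        (fun π => eT (nT T) M S π) (∑ k, (nT T k : ZMod 3) * i k) * z ^ 3 := by
        rw [hae]
        exact hd
      have hjz : j z ≠ 0 := (map_ne_zero_iff j j.injective).2 hz
      have hd2 : j (dlt (nT T) a) = j (pB (fun π : ↥(Uu (Tt S) (eT (nT T) M S)) => (π : Ei))
        (fun π => eT (nT T) M S π) (∑ k, (nT T k : ZMod 3) * i k)) * (j z) ^ 3 := by
        rw [hd', map_mul, map_pow]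
      refine ⟨_, j z, Lf, fun _ => ⟨hd2, fun v hv => bad_allB j hD v hv,
        fun v hv => not_good j hD hjz hd2 v hv, l1, l2, fun ht => ?_⟩⟩
      rw [hd'] at ht
      exact l3 z hz ht
    · exact ⟨0, 0, 0, fun h => absurd h hT⟩
  choose R Z Lf hR using key
  have hdat : DatT (fun k => j (a k)) R Z Lf := by
    refine ⟨fun T hT => ?_, fun T hT => (hR T hT).2.1, fun T hT => ?_,
      fun T hT => (hR T hT).2.2.2.1, fun T hT => (hR T hT).2.2.2.2.1⟩
    · rw [Dt_dlt]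
      exact (hR T hT).1
    · rw [Dt_dlt]
      exact (hR T hT).2.2.1
  refine ⟨_, gen_LT hdat hc, fun ht => ?_⟩
  refine Finset.prod_ne_zero_iff.2 fun T hT => ?_
  rw [add_sub_cancel_left]
  exact (hR T hT).2.2.2.2.2 (ht T hT)

end

end Run7.h707.TC
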