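import Pool.Agent.Run7.h707.TC.Jt
import Pool.Agent.Q283.T3.LB

/-! The first moment of the number of the solutions of a random linear system, and the relations
between the rows of a Laplacian. -/

set_option autoImplicit false
set_option linter.unusedSectionVars false

open scoped Classical

namespace Run7.h707.TC

open Finset Module
open Q283.T3 hiding est thmR
open Pool.Agent.Y703.XK (prs)

theorem card_sub {E : Type} [AddCommGroup E] [Module (ZMod 3) E] [Fintype E]
    (S : Submodule (ZMod 3) E) : (univ.filter fun x => x ∈ S).card = 3 ^ finrank (ZMod 3) S := by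
  have hfinE : Module.Finite (ZMod 3) E := Module.Finite.of_finite
  have h1 : (univ.filter fun x => x ∈ S).card = Nat.card S := by
    rw [Nat.card_eq_fintype_card, ← Fintype.card_coe]
    exact Fintype.card_congr (Equiv.subtypeEquivRight fun x => by simp)
  rw [h1, Module.natCard_eq_pow_finrank (K := ZMod 3), Nat.card_zmod]

/-- the fibres of a linear map and the relations of its rows -/
theorem fm {Ω E : Type} [AddCommGroup Ω] [Module (ZMod 3) Ω] [Fintype Ω] [Fintype E]
    [DecidableEq E]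
    (L : Ω →ₗ[ZMod 3] (E → ZMod 3)) (v : E → ZMod 3) :
    (univ.filter fun ω => L ω = v).card * 3 ^ Fintype.card E ≤
      Fintype.card Ω * (univ.filter fun ζ : E → ZMod 3 => ∀ ω, ∑ i, ζ i * L ω i = 0).card := by
  have hfin : Module.Finite (ZMod 3) Ω := Module.Finite.of_finite
  have h1 : (univ.filter fun ω => L ω = v).card ≤ 3 ^ finrank (ZMod 3) (LinearMap.ker L) := by
    rw [← card_sub]
    by_cases hne : ∃ ω₀, L ω₀ = v
    · obtain ⟨ω₀, h₀⟩ := hne
      refine card_le_card_of_injOn (fun ω => ω - ω₀) ?_ ?_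
      · intro ω hω
        rw [mem_coe, mem_filter] at hω
        simp only [coe_filter, mem_univ, true_and, Set.mem_ofPred_eq, LinearMap.mem_ker, map_sub,
          hω.2, h₀, sub_self]
      · intro a _ b _ h
        exact sub_left_injective h
    · rw [filter_false_of_mem fun ω _ h => hne ⟨ω, h⟩, card_empty]
      exact Nat.zero_le _
  have h2 : Fintype.card Ω = 3 ^ (finrank (ZMod 3) (LinearMap.range L) +
      finrank (ZMod 3) (LinearMap.ker L)) := by
    rw [LinearMap.finrank_range_add_finrank_ker, ← Nat.card_eq_fintype_card,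
      Module.natCard_eq_pow_finrank (K := ZMod 3), Nat.card_zmod]
  have h3 : Fintype.card E = finrank (ZMod 3) (LinearMap.range L) +
      finrank (ZMod 3) (LinearMap.range L).dualAnnihilator := by
    rw [Subspace.finrank_add_finrank_dualAnnihilator_eq, finrank_fintype_fun_eq_card]
  have h4 : 3 ^ finrank (ZMod 3) (LinearMap.range L).dualAnnihilator ≤
      (univ.filter fun ζ : E → ZMod 3 => ∀ ω, ∑ i, ζ i * L ω i = 0).card := by
    have hfd : Finite (Module.Dual (ZMod 3) (E → ZMod 3)) := inferInstance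
    have hft : Fintype (Module.Dual (ZMod 3) (E → ZMod 3)) := Fintype.ofFinite _
    rw [← card_sub]
    refine card_le_card_of_injOn (fun φ i => φ (Pi.single i 1)) ?_ ?_
    · intro φ hφ
      rw [mem_coe, mem_filter, Submodule.mem_dualAnnihilator] at hφ
      simp only [coe_filter, mem_univ, true_and, Set.mem_ofPred_eq]
      intro ω
      have h5 := hφ.2 (L ω) ⟨ω, rfl⟩
      rw [← h5]
      conv_rhs => rw [← (Pi.basisFun (ZMod 3) E).sum_repr (L ω), map_sum]
      refine sum_congr rfl fun i _ => ?_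
      rw [map_smul, Pi.basisFun_repr, Pi.basisFun_apply, smul_eq_mul, mul_comm]
    · intro φ _ ψ _ h
      refine LinearMap.pi_ext' fun i => LinearMap.ext_ring ?_
      exact congrFun h i
  calc (univ.filter fun ω => L ω = v).card * 3 ^ Fintype.card E
      ≤ 3 ^ finrank (ZMod 3) (LinearMap.ker L) * 3 ^ Fintype.card E := Nat.mul_le_mul_right _ h1
    _ = Fintype.card Ω * 3 ^ finrank (ZMod 3) (LinearMap.range L).dualAnnihilator := by
      rw [h2, h3, pow_add, pow_add]
      ring
    _ ≤ _ := Nat.mul_le_mul_left _ h4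

section rel
variable {ι : Type} [Fintype ι] [LinearOrder ι]

/-- the outer part of a symmetric matrix -/
noncomputable def ou (κ : ι → Prop) (α : prs ι → ZMod 3) (i j : ι) : ZMod 3 :=
  if κ i ∧ κ j then 0 else Pool.Agent.Y703.XK.ext α i j

theorem ext_add (α β : prs ι → ZMod 3) (i j : ι) : Pool.Agent.Y703.XK.ext (α + β) i j =
    Pool.Agent.Y703.XK.ext α i j + Pool.Agent.Y703.XK.ext β i j := by
  unfold Pool.Agent.Y703.XK.ext
  split_ifs
  · rfl
  · rfl
  · rw [add_zero]

theorem ext_smul (c : ZMod 3) (α : prs ι → ZMod 3) (i j : ι) : Pool.Agent.Y703.XK.ext (c • α) i j =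
    c * Pool.Agent.Y703.XK.ext α i j := by
  unfold Pool.Agent.Y703.XK.ext
  split_ifs
  · rfl
  · rfl
  · rw [mul_zero]

theorem ou_symm (κ : ι → Prop) (α : prs ι → ZMod 3) (i j : ι) : ou κ α i j = ou κ α j i := by
  unfold ou
  rw [ext_symm α i j]
  exact if_congr and_comm rfl rfl

/-- the part of a row of the Laplacian coming from the outer matrix -/
noncomputable def rl (κ : ι → Prop) (s x : ι → ZMod 3) (i : ι) : (prs ι → ZMod 3) →ₗ[ZMod 3] ZMod 3 where
  toFun α := ∑ j, s i * s j * ou κ α i j * (x j - x i)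
  map_add' α β := by
    rw [← sum_add_distrib]
    refine sum_congr rfl fun j _ => ?_
    unfold ou
    rw [ext_add]
    split_ifs <;> ring
  map_smul' c α := by
    rw [RingHom.id_apply, smul_eq_mul, mul_sum]
    refine sum_congr rfl fun j _ => ?_
    unfold ou
    rw [ext_smul]
    split_ifs <;> ring

theorem rl_apply (κ : ι → Prop) (s x : ι → ZMod 3) (i : ι) (α : prs ι → ZMod 3) :
    rl κ s x i α = ∑ j, s i * s j * ou κ α i j * (x j - x i) := rfl

theorem ext_single {a b : ι} (h : a < b) (i j : ι) :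
    Pool.Agent.Y703.XK.ext (Pi.single (⟨(a, b), mem_prs.2 h⟩ : prs ι) (1 : ZMod 3)) i j =
      if (i = a ∧ j = b) ∨ (i = b ∧ j = a) then 1 else 0 := by
  unfold Pool.Agent.Y703.XK.ext
  by_cases h1 : i < j
  · rw [dif_pos (mem_prs.2 h1)]
    by_cases h2 : i = a ∧ j = b
    · obtain ⟨rfl, rfl⟩ := h2
      rw [Pi.single_eq_same, if_pos (Or.inl ⟨rfl, rfl⟩)]
    · rw [Pi.single_eq_of_ne, if_neg]
      · rintro (h3 | ⟨rfl, rfl⟩)
        · exact h2 h3
        · exact lt_asymm h h1
      · intro h3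
        have h4 := congrArg Subtype.val h3
        exact h2 ⟨congrArg Prod.fst h4, congrArg Prod.snd h4⟩
  · rw [dif_neg (fun h' => h1 (mem_prs.1 h'))]
    by_cases h2 : j < i
    · rw [dif_pos (mem_prs.2 h2)]
      by_cases h3 : j = a ∧ i = b
      · obtain ⟨rfl, rfl⟩ := h3
        rw [Pi.single_eq_same, if_pos (Or.inr ⟨rfl, rfl⟩)]
      · rw [Pi.single_eq_of_ne, if_neg]
        · rintro (⟨rfl, rfl⟩ | h4)
          · exact h1 h
          · exact h3 ⟨h4.2, h4.1⟩
        · intro h4
          have h5 := congrArg Subtype.val h4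
          exact h3 ⟨congrArg Prod.fst h5, congrArg Prod.snd h5⟩
    · rw [dif_neg (fun h' => h2 (mem_prs.1 h')), if_neg]
      rintro (⟨rfl, rfl⟩ | ⟨rfl, rfl⟩)
      · exact h1 h
      · exact h2 h

/-- the coefficient of a symbol in a combination of the rows -/
def pt (s x ζ : ι → ZMod 3) (a b : ι) : ZMod 3 := s a * s b * (x b - x a) * (ζ a - ζ b)

theorem pt_symm (s x ζ : ι → ZMod 3) (a b : ι) : pt s x ζ a b = pt s x ζ b a := by
  unfold pt
  ring

theorem sum_single (κ : ι → Prop) (s x ζ : ι → ZMod 3) {a b : ι} (h : a < b) (hκ : ¬ (κ a ∧ κ b)) :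
    ∑ i, ζ i * rl κ s x i (Pi.single (⟨(a, b), mem_prs.2 h⟩ : prs ι) (1 : ZMod 3)) =
      pt s x ζ a b := by
  have h1 : ∀ i j, ou κ (Pi.single (⟨(a, b), mem_prs.2 h⟩ : prs ι) (1 : ZMod 3)) i j =
      if (i = a ∧ j = b) ∨ (i = b ∧ j = a) then 1 else 0 := by
    intro i j
    unfold ou
    rw [ext_single h]
    split_ifs with h2 h3 h3
    · exfalso
      rcases h3 with ⟨rfl, rfl⟩ | ⟨rfl, rfl⟩
      · exact hκ h2
      · exact hκ ⟨h2.2, h2.1⟩
    · rfl
    · rfl
    · rfl
  have h2 : ∀ i, rl κ s x i (Pi.single (⟨(a, b), mem_prs.2 h⟩ : prs ι) (1 : ZMod 3)) =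
      (if i = a then s a * s b * (x b - x a) else 0) +
      (if i = b then s b * s a * (x a - x b) else 0) := by
    intro i
    rw [rl_apply]
    simp only [h1]
    by_cases h3 : i = a
    · subst h3
      rw [if_pos rfl, if_neg h.ne, add_zero, sum_eq_single b]
      · rw [if_pos (Or.inl ⟨rfl, rfl⟩), mul_one]
      · intro j _ hj
        rw [if_neg, mul_zero, zero_mul]
        rintro (h4 | h4)
        · exact hj h4.2
        · exact h.ne h4.1
      · intro h4
        exact absurd (mem_univ _) h4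
    · rw [if_neg h3, zero_add]
      by_cases h4 : i = b
      · subst h4
        rw [if_pos rfl, sum_eq_single a]
        · rw [if_pos (Or.inr ⟨rfl, rfl⟩), mul_one]
        · intro j _ hj
          rw [if_neg, mul_zero, zero_mul]
          rintro (h5 | h5)
          · exact h3 h5.1
          · exact hj h5.2
        · intro h4
          exact absurd (mem_univ _) h4
      · rw [if_neg h4]
        refine sum_eq_zero fun j _ => ?_
        rw [if_neg, mul_zero, zero_mul]
        rintro (h5 | h5)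
        · exact h3 h5.1
        · exact h4 h5.1
  simp only [h2, mul_add, sum_add_distrib, mul_ite, mul_zero]
  rw [sum_ite_eq' univ a fun i => ζ i * (s a * s b * (x b - x a)),
    sum_ite_eq' univ b fun i => ζ i * (s b * s a * (x a - x b)), if_pos (mem_univ _),
    if_pos (mem_univ _)]
  unfold pt
  ring

/-- the relations between the rows -/
theorem rel_pt {κ : ι → Prop} {s s' x y ζ ζ' : ι → ZMod 3}
    (h : ∀ α, ∑ i, ζ i * rl κ s x i α + ∑ i, ζ' i * rl κ s' y i α = 0) {a b : ι} (hab : a ≠ b)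
    (hκ : ¬ (κ a ∧ κ b)) : pt s x ζ a b + pt s' y ζ' a b = 0 := by
  rcases lt_or_gt_of_ne hab with h1 | h1
  · rw [← sum_single κ s x ζ h1 hκ, ← sum_single κ s' y ζ' h1 hκ]
    exact h _
  · have hκ' : ¬ (κ b ∧ κ a) := fun h => hκ ⟨h.2, h.1⟩
    rw [pt_symm s x, pt_symm s' y, ← sum_single κ s x ζ h1 hκ', ← sum_single κ s' y ζ' h1 hκ']
    exact h _

theorem rel_pt1 {κ : ι → Prop} {s x ζ : ι → ZMod 3}
    (h : ∀ α, ∑ i, ζ i * rl κ s x i α = 0) {a b : ι} (hab : a ≠ b)
    (hκ : ¬ (κ a ∧ κ b)) : pt s x ζ a b = 0 := by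
  have h1 := rel_pt (s' := s) (y := x) (ζ' := 0) (κ := κ) (s := s) (x := x) (ζ := ζ)
    (fun α => by simp only [Pi.zero_apply, zero_mul, sum_const_zero, add_zero]; exact h α) hab hκ
  rw [← h1]
  unfold pt
  simp

/-- the relations when `x` is constant on `κ`, and not constant -/
theorem rel_const {κ : ι → Prop} {s x ζ : ι → ZMod 3} (hs : ∀ i, s i ≠ 0) {j : ι}
    (hx : ∀ i, κ i → x i = x j) {q : ι} (hq : x q ≠ x j)
    (h : ∀ α, ∑ i, ζ i * rl κ s x i α = 0) (i : ι) : ζ i = ζ j := by
  have hκq : ¬ κ q := fun h => hq (hx q h)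
  have key : ∀ a b, ¬ (κ a ∧ κ b) → x a ≠ x b → ζ a = ζ b := by
    intro a b hκ hne
    have h1 := rel_pt1 h (fun e => hne (by rw [e])) hκ
    unfold pt at h1
    have h2 := (mul_eq_zero.1 h1).resolve_left
      (mul_ne_zero (mul_ne_zero (hs a) (hs b)) (sub_ne_zero.2 hne.symm))
    exact sub_eq_zero.1 h2
  have hqj : ζ q = ζ j := key q j (fun e => hκq e.1) hq
  by_cases h1 : x i = x q
  · exact key i j (fun e => hq (by rw [← h1, hx i e.1])) (by rw [h1]; exact hq)
  · rw [key i q (fun e => hκq e.2) h1, hqj]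

end rel

end Run7.h707.TC
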