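import Pool.Agent.Run7.h707.TC.AsyT
import Pool.Agent.N883.FF.Tot

/-! The sum over the sets of the primes with exponent two, for tuples -/

set_option autoImplicit false
set_option linter.unusedSectionVars false

open scoped Classical

namespace Run7.h707.TC

open Finset Filter
open Pool.Agent.Y692.QS (Ei)
open Pool.Agent.Y715.T.RecG (Pq)
open Pool.Agent.Y699.E (nrm QB)
open Pool.Agent.Y433.XK (pN pN_pos)
open Pool.Agent.Y703.XK (S_EQ S_BIL)
open Pool.Agent.R419.KF (SG mem_SG ff ff_nonneg ff_sum)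
open Pool.Agent.N883.FF (SU ClU)
open Pool.Agent.N883.FF.Tot (mem_SU su_le)
open Q283.T3 (gi cf)
open Q283.T3A (c_bounds)

theorem sg_su (M : Finset Ei) (Y : ℕ) : ((SG Y).filter fun S => M ⊆ S) = SU M Y := by
  ext S
  rw [mem_filter, mem_SG, mem_SU]
  unfold ClU
  tauto

/-- the heights -/
noncomputable def YM {m : ℕ} (X : ℕ) (M : Fin m → Finset Ei) (k : Fin m) : ℕ := X / pN (M k)

theorem tp_le {m : ℕ} {M : Fin m → Finset Ei} (hM : ∀ k, ∀ q ∈ M k, Pq q) (X : ℕ) :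
    ((TP M (YM X M)).card : ℝ) ≤ (16 * X) ^ m * ∏ k, ff (M k) := by
  unfold TP
  rw [Fintype.card_piFinset]
  push_cast
  calc ∏ k, ((((SG (YM X M k)).filter fun S => M k ⊆ S).card : ℕ) : ℝ) ≤
      ∏ k, (16 * X * ff (M k)) := by
        refine prod_le_prod (fun _ _ => Nat.cast_nonneg _) fun k _ => ?_
        rw [sg_su]
        refine (su_le (hM k) X).trans (le_of_eq ?_)
        ring
    _ = _ := by
        rw [prod_mul_distrib, prod_const, card_univ, Fintype.card_fin]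

theorem ffT_nonneg {m : ℕ} (M : Fin m → Finset Ei) : 0 ≤ ∏ k, ff (M k) :=
  prod_nonneg fun k _ => ff_nonneg _

theorem ffT_sum {m : ℕ} (u : Finset (Fin m → Finset Ei)) :
    ∑ M ∈ u, ∏ k, ff (M k) ≤ Real.exp 2 ^ m := by
  have hsub : u ⊆ Fintype.piFinset fun k => u.image fun M => M k := by
    intro M hM
    rw [Fintype.mem_piFinset]
    exact fun k => mem_image_of_mem _ hM
  refine (sum_le_sum_of_subset_of_nonneg hsub fun M _ _ => ffT_nonneg M).trans ?_
  rw [← prod_univ_sum (fun k => u.image fun M => M k) (fun k M => ff M)]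
  calc ∏ k, ∑ M ∈ u.image (fun M => M k), ff M ≤ ∏ _k : Fin m, Real.exp 2 :=
        prod_le_prod (fun _ _ => sum_nonneg fun _ _ => ff_nonneg _) fun k _ => ff_sum _
    _ = _ := by rw [prod_const, card_univ, Fintype.card_fin]

theorem ffT_summable (m : ℕ) : Summable fun M : Fin m → Finset Ei => ∏ k, ff (M k) :=
  summable_of_sum_le ffT_nonneg ffT_sum

/-- the number of the pairs of tuples with a property -/
noncomputable def CT {m : ℕ} (Q : (Fin m → Finset Ei) → (Fin m → Finset Ei) → Prop) (X : ℕ) : ℕ :=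
  ∑ M ∈ Fintype.piFinset (fun _ : Fin m => SG X), ((TP M (YM X M)).filter (Q M)).card

/-- **the error** -/
theorem errT (hBIL : S_BIL) (hEQ : S_EQ) {m Mt : ℕ} (k₀ : Fin m)
    (s : Fin Mt → Fin m → ZMod 3) (hs : ∀ t k, s t k ≠ 0)
    (hsep : ∀ t t', t ≠ t' → ∃ k, s t k * s t k₀ ≠ s t' k * s t' k₀)
    (y : Fin Mt → ZMod 3) (r : Fin Mt → ℕ)
    (P : (Fin m → Finset Ei) → (Fin m → Finset Ei) → Prop) (hP : ∀ M, KyP M (P M))
    (δ : ℝ) (hδ : 0 < δ) :
    ∀ᶠ X : ℕ in atTop, |(CT (fun M S => P M S ∧ GT M s y r S) X : ℝ) -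
      (∏ t, gi * cf (r t)) * (CT P X : ℝ)| ≤ δ * (X : ℝ) ^ m := by
  obtain ⟨g, hg⟩ : ∃ g : ℝ, g = ∏ t, gi * cf (r t) := ⟨_, rfl⟩
  have hgb := c_bounds r
  rw [← hg] at hgb ⊢
  obtain ⟨T₀, hT₀⟩ := (summable_iff_vanishing_norm.1 (ffT_summable m)) (δ / (2 * 16 ^ m))
    (by positivity)
  obtain ⟨ε', hε'⟩ : ∃ ε' : ℝ, ε' = δ / (2 * ((T₀.card : ℝ) + 1)) := ⟨_, rfl⟩
  have hε'0 : 0 < ε' := by rw [hε']; positivity
  have hev : ∀ᶠ X : ℕ in atTop, ∀ M ∈ T₀.filter (fun M => ∀ k, ∀ q ∈ M k, Pq q),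
      |(((TP M (YM X M)).filter fun S => P M S ∧ GT M s y r S).card : ℝ) -
        g * (((TP M (YM X M)).filter (P M)).card : ℝ)| ≤ ε' * (X : ℝ) ^ m := by
    rw [eventually_all_finset]
    intro M hM
    have h := asyT hBIL hEQ k₀ s hs hsep y r M (fun k => pN (M k))
      (fun k => pN_pos ((mem_filter.1 hM).2 k)) (P M) (hP M) ε' hε'0
    rw [← hg] at h
    exact h
  filter_upwards [hev] with X hX
  have k1 : (CT (fun M S => P M S ∧ GT M s y r S) X : ℝ) - g * (CT P X : ℝ) =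
      ∑ M ∈ Fintype.piFinset (fun _ : Fin m => SG X),
      ((((TP M (YM X M)).filter fun S => P M S ∧ GT M s y r S).card : ℝ) -
        g * (((TP M (YM X M)).filter (P M)).card : ℝ)) := by
    rw [sum_sub_distrib, ← mul_sum]
    unfold CT
    push_cast
    rfl
  have hX0 : (0 : ℝ) ≤ X := Nat.cast_nonneg _
  have hXm : (0 : ℝ) ≤ (X : ℝ) ^ m := by positivity
  set PI := Fintype.piFinset (fun _ : Fin m => SG X) with hPI
  have hPIq : ∀ M ∈ PI, ∀ k, ∀ q ∈ M k, Pq q := by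
    intro M hM k
    rw [hPI, Fintype.mem_piFinset] at hM
    exact (mem_SG.1 (hM k)).1
  rw [k1]
  refine (abs_sum_le_sum_abs _ _).trans ?_
  rw [← sum_filter_add_sum_filter_not PI (fun M => M ∈ T₀)]
  have k2 : ∑ M ∈ PI.filter (fun M => M ∈ T₀),
      |(((TP M (YM X M)).filter fun S => P M S ∧ GT M s y r S).card : ℝ) -
        g * (((TP M (YM X M)).filter (P M)).card : ℝ)| ≤ δ / 2 * (X : ℝ) ^ m := by
    have k3 : ∑ M ∈ PI.filter (fun M => M ∈ T₀),
        |(((TP M (YM X M)).filter fun S => P M S ∧ GT M s y r S).card : ℝ) -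
          g * (((TP M (YM X M)).filter (P M)).card : ℝ)| ≤
        ∑ _M ∈ PI.filter (fun M => M ∈ T₀), ε' * (X : ℝ) ^ m := by
      refine sum_le_sum fun M hM => hX M ?_
      rw [mem_filter] at hM ⊢
      exact ⟨hM.2, hPIq M hM.1⟩
    refine k3.trans ?_
    rw [sum_const, nsmul_eq_mul]
    have k4 : (((PI.filter fun M => M ∈ T₀).card : ℕ) : ℝ) ≤ (T₀.card : ℝ) + 1 := by
      have : (PI.filter fun M => M ∈ T₀).card ≤ T₀.card :=
        card_le_card fun M hM => (mem_filter.1 hM).2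
      have h6 : (((PI.filter fun M => M ∈ T₀).card : ℕ) : ℝ) ≤ (T₀.card : ℝ) := by
        exact_mod_cast this
      linarith
    have k5 : (0 : ℝ) < (T₀.card : ℝ) + 1 := by positivity
    calc (((PI.filter fun M => M ∈ T₀).card : ℕ) : ℝ) * (ε' * (X : ℝ) ^ m) ≤
        ((T₀.card : ℝ) + 1) * (ε' * (X : ℝ) ^ m) := by gcongr
      _ = δ / 2 * (X : ℝ) ^ m := by
        rw [hε']
        field_simp
  have k3 : ∑ M ∈ PI.filter (fun M => ¬ M ∈ T₀),
      |(((TP M (YM X M)).filter fun S => P M S ∧ GT M s y r S).card : ℝ) -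
        g * (((TP M (YM X M)).filter (P M)).card : ℝ)| ≤ δ / 2 * (X : ℝ) ^ m := by
    have k4 : ∑ M ∈ PI.filter (fun M => ¬ M ∈ T₀),
        |(((TP M (YM X M)).filter fun S => P M S ∧ GT M s y r S).card : ℝ) -
          g * (((TP M (YM X M)).filter (P M)).card : ℝ)| ≤
        ∑ M ∈ PI.filter (fun M => ¬ M ∈ T₀), (16 * X) ^ m * ∏ k, ff (M k) := by
      refine sum_le_sum fun M hM => le_trans ?_ (tp_le (hPIq M (mem_filter.1 hM).1) X)
      have h2 : (((TP M (YM X M)).filter fun S => P M S ∧ GT M s y r S).card : ℝ) ≤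
          ((TP M (YM X M)).card : ℝ) := by exact_mod_cast card_filter_le _ _
      have h3 : (((TP M (YM X M)).filter (P M)).card : ℝ) ≤ ((TP M (YM X M)).card : ℝ) := by
        exact_mod_cast card_filter_le _ _
      have h4 : (0 : ℝ) ≤ (((TP M (YM X M)).filter (P M)).card : ℝ) := Nat.cast_nonneg _
      have h5 : (0 : ℝ) ≤ (((TP M (YM X M)).filter fun S => P M S ∧ GT M s y r S).card : ℝ) :=
        Nat.cast_nonneg _
      rw [abs_le]
      constructor <;> nlinarith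
    refine k4.trans ?_
    rw [← mul_sum]
    have k5 := hT₀ (PI.filter fun M => ¬ M ∈ T₀) (by
      rw [disjoint_left]
      intro M hM hM'
      exact (mem_filter.1 hM).2 hM')
    have k6 := (le_abs_self _).trans ((Real.norm_eq_abs _).symm.le.trans k5.le)
    calc (16 * X : ℝ) ^ m * ∑ M ∈ PI.filter (fun M => ¬ M ∈ T₀), ∏ k, ff (M k) ≤
        (16 * X : ℝ) ^ m * (δ / (2 * 16 ^ m)) := by gcongr
      _ = δ / 2 * (X : ℝ) ^ m := by
        rw [mul_pow]
        field_simp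
  calc _ ≤ δ / 2 * (X : ℝ) ^ m + δ / 2 * (X : ℝ) ^ m := add_le_add k2 k3
    _ = δ * (X : ℝ) ^ m := by ring

end Run7.h707.TC
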